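import Pool.Agent.H999.Theta3.Eng
import Pool.Agent.H999.Theta3.Cert.P0
import Pool.Agent.H999.Theta3.Cert.P1
import Pool.Agent.H999.Theta3.Cert.P2
import Pool.Agent.H999.Theta3.Cert.P3
import Pool.Agent.H999.Theta3.Cert.P4
import Pool.Agent.H999.Theta3.Cert.P5
import Pool.Agent.H999.Theta3.Cert.P6
import Pool.Agent.H999.Theta3.Cert.P7
import Pool.Agent.H999.Theta3.Cert.P8
import Pool.Agent.H999.Theta3.Cert.P9
import Pool.Agent.H999.Theta3.Cert.P10
import Pool.Agent.H999.Theta3.Cert.P11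
import Pool.Agent.H999.Theta3.Cert.P12
import Pool.Agent.H999.Theta3.Cert.P13
import Pool.Agent.H999.Theta3.Cert.P14
import Pool.Agent.H999.Theta3.Cert.P15
import Pool.Agent.H999.Theta3.Cert.P16
import Pool.Agent.H999.Theta3.Cert.P17
import Pool.Agent.H999.Theta3.Cert.P18
import Pool.Agent.H999.Theta3.Cert.P19
import Pool.Agent.H999.Theta3.Cert.P20
import Pool.Agent.H999.Theta3.Cert.P21
import Pool.Agent.H999.Theta3.Cert.P22
import Pool.Agent.H999.Theta3.Cert.P23
import Pool.Agent.H999.Theta3.Cert.P24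
import Pool.Agent.H999.Theta3.Cert.P25
import Pool.Agent.H999.Theta3.Cert.P26
import Pool.Agent.H999.Theta3.Cert.P27
import Pool.Agent.H999.Theta3.Cert.P28
import Pool.Agent.H999.Theta3.Cert.P29
import Pool.Agent.H999.Theta3.Cert.P30
import Pool.Agent.H999.Theta3.Cert.P31
import Pool.Agent.H999.Theta3.Cert.P32
import Pool.Agent.H999.Theta3.Cert.P33
import Pool.Agent.H999.Theta3.Cert.P34
import Pool.Agent.H999.Theta3.Cert.P35
import Pool.Agent.H999.Theta3.Cert.P36
import Pool.Agent.H999.Theta3.Cert.P37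
import Pool.Agent.H999.Theta3.Cert.P38
import Pool.Agent.H999.Theta3.Cert.P39
import Pool.Agent.H999.Theta3.Cert.P40
import Pool.Agent.H999.Theta3.Cert.P41
import Pool.Agent.H999.Theta3.Cert.P42
import Pool.Agent.H999.Theta3.Cert.P43
import Pool.Agent.H999.Theta3.Cert.P44
import Pool.Agent.H999.Theta3.Cert.P45
import Pool.Agent.H999.Theta3.Cert.P46
import Pool.Agent.H999.Theta3.Cert.P47
import Pool.Agent.H999.Theta3.Cert.P48
import Pool.Agent.H999.Theta3.Cert.P49
import Pool.Agent.H999.Theta3.Cert.P50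
import Pool.Agent.H999.Theta3.Cert.P51
import Pool.Agent.H999.Theta3.Cert.P52
import Pool.Agent.H999.Theta3.Cert.P53
import Pool.Agent.H999.Theta3.Cert.P54
import Pool.Agent.H999.Theta3.Cert.P55
import Pool.Agent.H999.Theta3.Cert.P56
import Pool.Agent.H999.Theta3.Cert.P57
import Pool.Agent.H999.Theta3.Cert.P58
import Pool.Agent.H999.Theta3.Cert.P59
import Pool.Agent.H999.Theta3.Cert.P60
import Pool.Agent.H999.Theta3.Cert.P61
import Pool.Agent.H999.Theta3.Cert.P62
import Pool.Agent.H999.Theta3.Cert.P63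
import Pool.Agent.H999.Theta3.Cert.P64
import Pool.Agent.H999.Theta3.Cert.P65
import Pool.Agent.H999.Theta3.Cert.P66
import Pool.Agent.H999.Theta3.Cert.P67
import Pool.Agent.H999.Theta3.Cert.P68
import Pool.Agent.H999.Theta3.Cert.P69
import Pool.Agent.H999.Theta3.Cert.P70
import Pool.Agent.H999.Theta3.Cert.P71
import Pool.Agent.H999.Theta3.Cert.P72
import Pool.Agent.H999.Theta3.Cert.P73
import Pool.Agent.H999.Theta3.Cert.P74
import Pool.Agent.H999.Theta3.Cert.P75
import Pool.Agent.H999.Theta3.Cert.P76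
import Pool.Agent.H999.Theta3.Cert.P77
import Pool.Agent.H999.Theta3.Cert.P78
import Pool.Agent.H999.Theta3.Cert.P79
import Pool.Agent.H999.Theta3.Cert.P80
import Pool.Agent.H999.Theta3.Cert.P81
import Pool.Agent.H999.Theta3.Cert.P82
import Pool.Agent.H999.Theta3.Cert.P83
import Pool.Agent.H999.Theta3.Cert.P84
import Pool.Agent.H999.Theta3.Cert.P85
import Pool.Agent.H999.Theta3.Cert.P86
import Pool.Agent.H999.Theta3.Cert.P87
import Pool.Agent.H999.Theta3.Cert.P88
import Pool.Agent.H999.Theta3.Cert.P89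
import Pool.Agent.H999.Theta3.Cert.P90
import Pool.Agent.H999.Theta3.Cert.P91
import Pool.Agent.H999.Theta3.Cert.P92
import Pool.Agent.H999.Theta3.Cert.P93
import Pool.Agent.H999.Theta3.Cert.P94
import Pool.Agent.H999.Theta3.Cert.P95
import Pool.Agent.H999.Theta3.Cert.P96
import Pool.Agent.H999.Theta3.Cert.P97
import Pool.Agent.H999.Theta3.Cert.P98
import Pool.Agent.H999.Theta3.Cert.P99
import Pool.Agent.H999.Theta3.Cert.P100
import Pool.Agent.H999.Theta3.Cert.P101
import Pool.Agent.H999.Theta3.Cert.P102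
import Pool.Agent.H999.Theta3.Cert.P103
import Pool.Agent.H999.Theta3.Cert.P104
import Pool.Agent.H999.Theta3.Cert.P105
import Pool.Agent.H999.Theta3.Cert.P106
import Pool.Agent.H999.Theta3.Cert.P107
import Pool.Agent.H999.Theta3.Cert.P108
import Pool.Agent.H999.Theta3.Cert.P109
import Pool.Agent.H999.Theta3.Cert.P110
import Pool.Agent.H999.Theta3.Cert.P111
import Pool.Agent.H999.Theta3.Cert.P112
import Pool.Agent.H999.Theta3.Cert.P113
import Pool.Agent.H999.Theta3.Cert.P114
import Pool.Agent.H999.Theta3.Cert.P115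
import Pool.Agent.H999.Theta3.Cert.P116
import Pool.Agent.H999.Theta3.Cert.P117
import Pool.Agent.H999.Theta3.Cert.P118
import Pool.Agent.H999.Theta3.Cert.P119
import Pool.Agent.H999.Theta3.Cert.P120
import Pool.Agent.H999.Theta3.Cert.P121
import Pool.Agent.H999.Theta3.Cert.P122
import Pool.Agent.H999.Theta3.Cert.P123
import Pool.Agent.H999.Theta3.Cert.P124
import Pool.Agent.H999.Theta3.Cert.P125
import Pool.Agent.H999.Theta3.Cert.P126
import Pool.Agent.H999.Theta3.Cert.P127
import Pool.Agent.H999.Theta3.Cert.P128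
import Pool.Agent.H999.Theta3.Cert.P129
import Pool.Agent.H999.Theta3.Cert.P130
import Pool.Agent.H999.Theta3.Cert.P131
import Pool.Agent.H999.Theta3.Cert.P132
import Pool.Agent.H999.Theta3.Cert.P133
import Pool.Agent.H999.Theta3.Cert.P134
import Pool.Agent.H999.Theta3.Cert.P135
import Pool.Agent.H999.Theta3.Cert.P136
import Pool.Agent.H999.Theta3.Cert.P137

/-!
# Validity of the vertices and the top of the tree
-/

set_option autoImplicit false

namespace Pool.Agent.H999.Theta3

lemma x0 : val w0 = true := by decide +kernel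
lemma x1 : val w1 = true := by decide +kernel
lemma x2 : val w2 = true := by decide +kernel
lemma x3 : val w3 = true := by decide +kernel
lemma x4 : val w4 = true := by decide +kernel
lemma x5 : val w5 = true := by decide +kernel
lemma x6 : val w6 = true := by decide +kernel
lemma x7 : val w7 = true := by decide +kernel
lemma x8 : val w8 = true := by decide +kernel
lemma x9 : val w9 = true := by decide +kernel
lemma x10 : val w10 = true := by decide +kernel
lemma x11 : val w11 = true := by decide +kernel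
lemma x12 : val w12 = true := by decide +kernel
lemma x13 : val w13 = true := by decide +kernel
lemma x14 : val w14 = true := by decide +kernel
lemma x15 : val w15 = true := by decide +kernel
lemma x16 : val w16 = true := by decide +kernel
lemma x17 : val w17 = true := by decide +kernel
lemma x18 : val w18 = true := by decide +kernel
lemma x19 : val w19 = true := by decide +kernel
lemma x20 : val w20 = true := by decide +kernel
lemma x21 : val w21 = true := by decide +kernel
lemma x22 : val w22 = true := by decide +kernel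
lemma x23 : val w23 = true := by decide +kernel
lemma x24 : val w24 = true := by decide +kernel
lemma x25 : val w25 = true := by decide +kernel
lemma x26 : val w26 = true := by decide +kernel
lemma x27 : val w27 = true := by decide +kernel
lemma x28 : val w28 = true := by decide +kernel
lemma x29 : val w29 = true := by decide +kernel
lemma x30 : val w30 = true := by decide +kernel
lemma x31 : val w31 = true := by decide +kernel
lemma x32 : val w32 = true := by decide +kernel
lemma x33 : val w33 = true := by decide +kernel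
lemma x34 : val w34 = true := by decide +kernel
lemma x35 : val w35 = true := by decide +kernel
lemma x36 : val w36 = true := by decide +kernel
lemma x37 : val w37 = true := by decide +kernel
lemma x38 : val w38 = true := by decide +kernel
lemma x39 : val w39 = true := by decide +kernel
lemma x40 : val w40 = true := by decide +kernel
lemma x41 : val w41 = true := by decide +kernel
lemma x42 : val w42 = true := by decide +kernel
lemma x43 : val w43 = true := by decide +kernel
lemma x44 : val w44 = true := by decide +kernel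
lemma x45 : val w45 = true := by decide +kernel
lemma x46 : val w46 = true := by decide +kernel
lemma x47 : val w47 = true := by decide +kernel
lemma x48 : val w48 = true := by decide +kernel
lemma x49 : val w49 = true := by decide +kernel
lemma x50 : val w50 = true := by decide +kernel
lemma x51 : val w51 = true := by decide +kernel
lemma x52 : val w52 = true := by decide +kernel
lemma x53 : val w53 = true := by decide +kernel
lemma x54 : val w54 = true := by decide +kernel
lemma x55 : val w55 = true := by decide +kernel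
lemma x56 : val w56 = true := by decide +kernel
lemma x57 : val w57 = true := by decide +kernel
lemma x58 : val w58 = true := by decide +kernel
lemma x59 : val w59 = true := by decide +kernel
lemma x60 : val w60 = true := by decide +kernel
lemma x61 : val w61 = true := by decide +kernel
lemma x62 : val w62 = true := by decide +kernel
lemma x63 : val w63 = true := by decide +kernel
lemma x64 : val w64 = true := by decide +kernel
lemma x65 : val w65 = true := by decide +kernel
lemma x66 : val w66 = true := by decide +kernel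
lemma x67 : val w67 = true := by decide +kernel
lemma x68 : val w68 = true := by decide +kernel
lemma x69 : val w69 = true := by decide +kernel
lemma x70 : val w70 = true := by decide +kernel
lemma x71 : val w71 = true := by decide +kernel
lemma x72 : val w72 = true := by decide +kernel
lemma x73 : val w73 = true := by decide +kernel
lemma x74 : val w74 = true := by decide +kernel
lemma x75 : val w75 = true := by decide +kernel
lemma x76 : val w76 = true := by decide +kernel
lemma x77 : val w77 = true := by decide +kernel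
lemma x78 : val w78 = true := by decide +kernel
lemma x79 : val w79 = true := by decide +kernel
lemma x80 : val w80 = true := by decide +kernel
lemma x81 : val w81 = true := by decide +kernel
lemma x82 : val w82 = true := by decide +kernel
lemma x83 : val w83 = true := by decide +kernel
lemma x84 : val w84 = true := by decide +kernel
lemma x85 : val w85 = true := by decide +kernel
lemma x86 : val w86 = true := by decide +kernel
lemma x87 : val w87 = true := by decide +kernel
lemma x88 : val w88 = true := by decide +kernel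
lemma x89 : val w89 = true := by decide +kernel
lemma x90 : val w90 = true := by decide +kernel
lemma x91 : val w91 = true := by decide +kernel
lemma x92 : val w92 = true := by decide +kernel
lemma x93 : val w93 = true := by decide +kernel
lemma x94 : val w94 = true := by decide +kernel
lemma x95 : val w95 = true := by decide +kernel
lemma x96 : val w96 = true := by decide +kernel
lemma x97 : val w97 = true := by decide +kernel
lemma x98 : val w98 = true := by decide +kernel
lemma x99 : val w99 = true := by decide +kernel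
lemma x100 : val w100 = true := by decide +kernel
lemma x101 : val w101 = true := by decide +kernel
lemma x102 : val w102 = true := by decide +kernel
lemma x103 : val w103 = true := by decide +kernel
lemma x104 : val w104 = true := by decide +kernel
lemma x105 : val w105 = true := by decide +kernel
lemma x106 : val w106 = true := by decide +kernel
lemma x107 : val w107 = true := by decide +kernel
lemma x108 : val w108 = true := by decide +kernel
lemma x109 : val w109 = true := by decide +kernel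
lemma x110 : val w110 = true := by decide +kernel
lemma x111 : val w111 = true := by decide +kernel
lemma x112 : val w112 = true := by decide +kernel
lemma x113 : val w113 = true := by decide +kernel
lemma x114 : val w114 = true := by decide +kernel
lemma x115 : val w115 = true := by decide +kernel
lemma x116 : val w116 = true := by decide +kernel
lemma x117 : val w117 = true := by decide +kernel
lemma x118 : val w118 = true := by decide +kernel
lemma x119 : val w119 = true := by decide +kernel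
lemma x120 : val w120 = true := by decide +kernel
lemma x121 : val w121 = true := by decide +kernel
lemma x122 : val w122 = true := by decide +kernel
lemma x123 : val w123 = true := by decide +kernel
lemma x124 : val w124 = true := by decide +kernel
lemma x125 : val w125 = true := by decide +kernel
lemma x126 : val w126 = true := by decide +kernel
lemma x127 : val w127 = true := by decide +kernel
lemma x128 : val w128 = true := by decide +kernel
lemma x129 : val w129 = true := by decide +kernel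
lemma x130 : val w130 = true := by decide +kernel
lemma x131 : val w131 = true := by decide +kernel
lemma x132 : val w132 = true := by decide +kernel
lemma x133 : val w133 = true := by decide +kernel
lemma x134 : val w134 = true := by decide +kernel
lemma x135 : val w135 = true := by decide +kernel
lemma x136 : val w136 = true := by decide +kernel
lemma x137 : val w137 = true := by decide +kernel
lemma x138 : val w138 = true := by decide +kernel
lemma x139 : val w139 = true := by decide +kernel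
lemma x140 : val w140 = true := by decide +kernel
lemma x141 : val w141 = true := by decide +kernel
lemma x142 : val w142 = true := by decide +kernel
lemma x143 : val w143 = true := by decide +kernel
lemma x144 : val w144 = true := by decide +kernel
lemma x145 : val w145 = true := by decide +kernel
lemma x146 : val w146 = true := by decide +kernel
lemma x147 : val w147 = true := by decide +kernel
lemma x148 : val w148 = true := by decide +kernel
lemma x149 : val w149 = true := by decide +kernel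
lemma x150 : val w150 = true := by decide +kernel
lemma x151 : val w151 = true := by decide +kernel
lemma x152 : val w152 = true := by decide +kernel
lemma x153 : val w153 = true := by decide +kernel
lemma x154 : val w154 = true := by decide +kernel
lemma x155 : val w155 = true := by decide +kernel
lemma x156 : val w156 = true := by decide +kernel
lemma x157 : val w157 = true := by decide +kernel
lemma x158 : val w158 = true := by decide +kernel
lemma x159 : val w159 = true := by decide +kernel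
lemma x160 : val w160 = true := by decide +kernel
lemma x161 : val w161 = true := by decide +kernel
lemma x162 : val w162 = true := by decide +kernel
lemma x163 : val w163 = true := by decide +kernel
lemma x164 : val w164 = true := by decide +kernel
lemma x165 : val w165 = true := by decide +kernel
lemma x166 : val w166 = true := by decide +kernel
lemma x167 : val w167 = true := by decide +kernel
lemma x168 : val w168 = true := by decide +kernel
lemma x169 : val w169 = true := by decide +kernel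
lemma x170 : val w170 = true := by decide +kernel
lemma x171 : val w171 = true := by decide +kernel
lemma x172 : val w172 = true := by decide +kernel
lemma x173 : val w173 = true := by decide +kernel
lemma x174 : val w174 = true := by decide +kernel
lemma x175 : val w175 = true := by decide +kernel
lemma x176 : val w176 = true := by decide +kernel
lemma x177 : val w177 = true := by decide +kernel
lemma x178 : val w178 = true := by decide +kernel
lemma x179 : val w179 = true := by decide +kernel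
lemma x180 : val w180 = true := by decide +kernel
lemma x181 : val w181 = true := by decide +kernel
lemma x182 : val w182 = true := by decide +kernel
lemma x183 : val w183 = true := by decide +kernel
lemma x184 : val w184 = true := by decide +kernel
lemma x185 : val w185 = true := by decide +kernel
lemma x186 : val w186 = true := by decide +kernel
lemma x187 : val w187 = true := by decide +kernel
lemma x188 : val w188 = true := by decide +kernel
lemma x189 : val w189 = true := by decide +kernel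
lemma x190 : val w190 = true := by decide +kernel
lemma x191 : val w191 = true := by decide +kernel
lemma x192 : val w192 = true := by decide +kernel
lemma x193 : val w193 = true := by decide +kernel
lemma x194 : val w194 = true := by decide +kernel
lemma x195 : val w195 = true := by decide +kernel
lemma x196 : val w196 = true := by decide +kernel
lemma x197 : val w197 = true := by decide +kernel
lemma x198 : val w198 = true := by decide +kernel
lemma x199 : val w199 = true := by decide +kernel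
lemma x200 : val w200 = true := by decide +kernel
lemma x201 : val w201 = true := by decide +kernel
lemma x202 : val w202 = true := by decide +kernel
lemma x203 : val w203 = true := by decide +kernel
lemma x204 : val w204 = true := by decide +kernel
lemma x205 : val w205 = true := by decide +kernel
lemma x206 : val w206 = true := by decide +kernel
lemma x207 : val w207 = true := by decide +kernel
lemma x208 : val w208 = true := by decide +kernel
lemma x209 : val w209 = true := by decide +kernel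
lemma x210 : val w210 = true := by decide +kernel
lemma x211 : val w211 = true := by decide +kernel
lemma x212 : val w212 = true := by decide +kernel
lemma x213 : val w213 = true := by decide +kernel
lemma x214 : val w214 = true := by decide +kernel
lemma x215 : val w215 = true := by decide +kernel
lemma x216 : val w216 = true := by decide +kernel
lemma x217 : val w217 = true := by decide +kernel
lemma x218 : val w218 = true := by decide +kernel
lemma x219 : val w219 = true := by decide +kernel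
lemma x220 : val w220 = true := by decide +kernel
lemma x221 : val w221 = true := by decide +kernel

lemma ch0 : Good 0 ![w0, w1, w2, w3, w4, w5] :=
  good_of _ _ _ _ _ _ _ x0 x1 x2 x3 x4 x5 go0
lemma ch1 : Good 0 ![w0, w6, w2, w3, w4, w7] :=
  good_of _ _ _ _ _ _ _ x0 x6 x2 x3 x4 x7 go1
lemma ch2 : Good 0 ![w0, w8, w2, w3, w4, w6] :=
  good_of _ _ _ _ _ _ _ x0 x8 x2 x3 x4 x6 go2
lemma ch3 : Good 0 ![w0, w1, w2, w3, w8, w6] :=
  good_of _ _ _ _ _ _ _ x0 x1 x2 x3 x8 x6 go3
lemma ch4 : Good 0 ![w9, w10, w2, w3, w4, w5] :=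
  good_of _ _ _ _ _ _ _ x9 x10 x2 x3 x4 x5 go4
lemma ch5 : Good 0 ![w0, w10, w2, w9, w4, w5] :=
  good_of _ _ _ _ _ _ _ x0 x10 x2 x9 x4 x5 go5
lemma ch6 : Good 0 ![w0, w10, w2, w3, w4, w7] :=
  good_of _ _ _ _ _ _ _ x0 x10 x2 x3 x4 x7 go6
lemma ch7 : Good 0 ![w9, w10, w11, w3, w4, w5] :=
  good_of _ _ _ _ _ _ _ x9 x10 x11 x3 x4 x5 go7
lemma ch8 : Good 0 ![w0, w10, w11, w9, w4, w5] :=
  good_of _ _ _ _ _ _ _ x0 x10 x11 x9 x4 x5 go8
lemma ch9 : Good 0 ![w0, w10, w11, w3, w4, w7] :=
  good_of _ _ _ _ _ _ _ x0 x10 x11 x3 x4 x7 go9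
lemma ch10 : Good 0 ![w0, w10, w11, w12, w4, w5] :=
  good_of _ _ _ _ _ _ _ x0 x10 x11 x12 x4 x5 go10
lemma ch11 : Good 0 ![w0, w10, w11, w12, w4, w7] :=
  good_of _ _ _ _ _ _ _ x0 x10 x11 x12 x4 x7 go11
lemma ch12 : Good 0 ![w13, w10, w11, w12, w14, w5] :=
  good_of _ _ _ _ _ _ _ x13 x10 x11 x12 x14 x5 go12
lemma ch13 : Good 0 ![w0, w10, w11, w12, w14, w13] :=
  good_of _ _ _ _ _ _ _ x0 x10 x11 x12 x14 x13 go13
lemma ch14 : Good 0 ![w15, w10, w11, w12, w16, w7] :=
  good_of _ _ _ _ _ _ _ x15 x10 x11 x12 x16 x7 go14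
lemma ch15 : Good 0 ![w0, w10, w11, w12, w16, w15] :=
  good_of _ _ _ _ _ _ _ x0 x10 x11 x12 x16 x15 go15
lemma ch16 : Good 0 ![w0, w1, w2, w17, w4, w5] :=
  good_of _ _ _ _ _ _ _ x0 x1 x2 x17 x4 x5 go16
lemma ch17 : Good 0 ![w0, w1, w2, w17, w4, w7] :=
  good_of _ _ _ _ _ _ _ x0 x1 x2 x17 x4 x7 go17
lemma ch18 : Good 0 ![w0, w10, w2, w17, w4, w5] :=
  good_of _ _ _ _ _ _ _ x0 x10 x2 x17 x4 x5 go18
lemma ch19 : Good 0 ![w0, w10, w2, w17, w4, w7] :=
  good_of _ _ _ _ _ _ _ x0 x10 x2 x17 x4 x7 go19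
lemma ch20 : Good 0 ![w13, w18, w19, w17, w4, w5] :=
  good_of _ _ _ _ _ _ _ x13 x18 x19 x17 x4 x5 go20
lemma ch21 : Good 0 ![w13, w20, w19, w17, w18, w5] :=
  good_of _ _ _ _ _ _ _ x13 x20 x19 x17 x18 x5 go21
lemma ch22 : Good 0 ![w21, w22, w19, w17, w18, w20] :=
  good_of _ _ _ _ _ _ _ x21 x22 x19 x17 x18 x20 go22
lemma ch23 : Good 0 ![w23, w24, w19, w22, w18, w20] :=
  good_of _ _ _ _ _ _ _ x23 x24 x19 x22 x18 x20 go23
lemma ch24 : Good 0 ![w23, w25, w19, w22, w24, w20] :=
  good_of _ _ _ _ _ _ _ x23 x25 x19 x22 x24 x20 go24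
lemma ch25 : Good 0 ![w23, w26, w19, w22, w24, w25] :=
  good_of _ _ _ _ _ _ _ x23 x26 x19 x22 x24 x25 go25
lemma ch26 : Good 0 ![w27, w28, w29, w26, w24, w25] :=
  good_of _ _ _ _ _ _ _ x27 x28 x29 x26 x24 x25 go26
lemma ch27 : Good 0 ![w27, w28, w30, w26, w24, w29] :=
  good_of _ _ _ _ _ _ _ x27 x28 x30 x26 x24 x29 go27
lemma ch28 : Good 0 ![w27, w28, w31, w26, w30, w29] :=
  good_of _ _ _ _ _ _ _ x27 x28 x31 x26 x30 x29 go28
lemma ch29 : Good 0 ![w27, w28, w32, w31, w30, w29] :=
  good_of _ _ _ _ _ _ _ x27 x28 x32 x31 x30 x29 go29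
lemma ch30 : Good 0 ![w27, w33, w19, w31, w30, w32] :=
  good_of _ _ _ _ _ _ _ x27 x33 x19 x31 x30 x32 go30
lemma ch31 : Good 0 ![w27, w28, w33, w31, w30, w32] :=
  good_of _ _ _ _ _ _ _ x27 x28 x33 x31 x30 x32 go31
lemma ch32 : Good 0 ![w23, w28, w27, w26, w24, w25] :=
  good_of _ _ _ _ _ _ _ x23 x28 x27 x26 x24 x25 go32
lemma ch33 : Good 0 ![w34, w35, w28, w26, w24, w25] :=
  good_of _ _ _ _ _ _ _ x34 x35 x28 x26 x24 x25 go33
lemma ch34 : Good 0 ![w34, w36, w28, w26, w24, w35] :=
  good_of _ _ _ _ _ _ _ x34 x36 x28 x26 x24 x35 go34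
lemma ch35 : Good 0 ![w34, w37, w28, w26, w36, w35] :=
  good_of _ _ _ _ _ _ _ x34 x37 x28 x26 x36 x35 go35
lemma ch36 : Good 0 ![w34, w10, w38, w37, w36, w35] :=
  good_of _ _ _ _ _ _ _ x34 x10 x38 x37 x36 x35 go36
lemma ch37 : Good 0 ![w39, w40, w28, w37, w36, w38] :=
  good_of _ _ _ _ _ _ _ x39 x40 x28 x37 x36 x38 go37
lemma ch38 : Good 0 ![w39, w10, w40, w37, w36, w38] :=
  good_of _ _ _ _ _ _ _ x39 x10 x40 x37 x36 x38 go38
lemma ch39 : Good 0 ![w34, w10, w39, w37, w36, w38] :=
  good_of _ _ _ _ _ _ _ x34 x10 x39 x37 x36 x38 go39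
lemma ch40 : Good 0 ![w23, w34, w28, w26, w24, w25] :=
  good_of _ _ _ _ _ _ _ x23 x34 x28 x26 x24 x25 go40
lemma ch41 : Good 0 ![w21, w23, w19, w22, w18, w20] :=
  good_of _ _ _ _ _ _ _ x21 x23 x19 x22 x18 x20 go41
lemma ch42 : Good 0 ![w41, w23, w19, w21, w18, w20] :=
  good_of _ _ _ _ _ _ _ x41 x23 x19 x21 x18 x20 go42
lemma ch43 : Good 0 ![w41, w24, w19, w23, w18, w20] :=
  good_of _ _ _ _ _ _ _ x41 x24 x19 x23 x18 x20 go43
lemma ch44 : Good 0 ![w41, w25, w19, w23, w24, w20] :=
  good_of _ _ _ _ _ _ _ x41 x25 x19 x23 x24 x20 go44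
lemma ch45 : Good 0 ![w42, w28, w27, w23, w24, w25] :=
  good_of _ _ _ _ _ _ _ x42 x28 x27 x23 x24 x25 go45
lemma ch46 : Good 0 ![w42, w28, w29, w27, w24, w25] :=
  good_of _ _ _ _ _ _ _ x42 x28 x29 x27 x24 x25 go46
lemma ch47 : Good 0 ![w42, w28, w30, w27, w24, w29] :=
  good_of _ _ _ _ _ _ _ x42 x28 x30 x27 x24 x29 go47
lemma ch48 : Good 0 ![w42, w28, w19, w27, w30, w29] :=
  good_of _ _ _ _ _ _ _ x42 x28 x19 x27 x30 x29 go48
lemma ch49 : Good 0 ![w42, w34, w28, w23, w24, w25] :=
  good_of _ _ _ _ _ _ _ x42 x34 x28 x23 x24 x25 go49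
lemma ch50 : Good 0 ![w42, w35, w28, w34, w24, w25] :=
  good_of _ _ _ _ _ _ _ x42 x35 x28 x34 x24 x25 go50
lemma ch51 : Good 0 ![w42, w36, w28, w34, w24, w35] :=
  good_of _ _ _ _ _ _ _ x42 x36 x28 x34 x24 x35 go51
lemma ch52 : Good 0 ![w43, w10, w39, w34, w36, w35] :=
  good_of _ _ _ _ _ _ _ x43 x10 x39 x34 x36 x35 go52
lemma ch53 : Good 0 ![w43, w10, w38, w39, w36, w35] :=
  good_of _ _ _ _ _ _ _ x43 x10 x38 x39 x36 x35 go53
lemma ch54 : Good 0 ![w43, w40, w28, w39, w36, w38] :=
  good_of _ _ _ _ _ _ _ x43 x40 x28 x39 x36 x38 go54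
lemma ch55 : Good 0 ![w43, w10, w40, w39, w36, w38] :=
  good_of _ _ _ _ _ _ _ x43 x10 x40 x39 x36 x38 go55
lemma ch56 : Good 0 ![w42, w43, w28, w34, w36, w35] :=
  good_of _ _ _ _ _ _ _ x42 x43 x28 x34 x36 x35 go56
lemma ch57 : Good 0 ![w41, w42, w19, w23, w24, w25] :=
  good_of _ _ _ _ _ _ _ x41 x42 x19 x23 x24 x25 go57
lemma ch58 : Good 0 ![w13, w10, w41, w21, w18, w20] :=
  good_of _ _ _ _ _ _ _ x13 x10 x41 x21 x18 x20 go58
lemma ch59 : Good 0 ![w44, w18, w19, w17, w4, w13] :=
  good_of _ _ _ _ _ _ _ x44 x18 x19 x17 x4 x13 go59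
lemma ch60 : Good 0 ![w45, w10, w41, w21, w18, w13] :=
  good_of _ _ _ _ _ _ _ x45 x10 x41 x21 x18 x13 go60
lemma ch61 : Good 0 ![w45, w23, w19, w21, w18, w41] :=
  good_of _ _ _ _ _ _ _ x45 x23 x19 x21 x18 x41 go61
lemma ch62 : Good 0 ![w45, w24, w19, w23, w18, w41] :=
  good_of _ _ _ _ _ _ _ x45 x24 x19 x23 x18 x41 go62
lemma ch63 : Good 0 ![w45, w42, w19, w23, w24, w41] :=
  good_of _ _ _ _ _ _ _ x45 x42 x19 x23 x24 x41 go63
lemma ch64 : Good 0 ![w46, w10, w27, w23, w24, w42] :=
  good_of _ _ _ _ _ _ _ x46 x10 x27 x23 x24 x42 go64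
lemma ch65 : Good 0 ![w46, w28, w19, w27, w24, w42] :=
  good_of _ _ _ _ _ _ _ x46 x28 x19 x27 x24 x42 go65
lemma ch66 : Good 0 ![w46, w39, w28, w27, w24, w42] :=
  good_of _ _ _ _ _ _ _ x46 x39 x28 x27 x24 x42 go66
lemma ch67 : Good 0 ![w46, w36, w28, w39, w24, w42] :=
  good_of _ _ _ _ _ _ _ x46 x36 x28 x39 x24 x42 go67
lemma ch68 : Good 0 ![w46, w43, w28, w39, w36, w42] :=
  good_of _ _ _ _ _ _ _ x46 x43 x28 x39 x36 x42 go68
lemma ch69 : Good 0 ![w47, w10, w28, w39, w36, w43] :=
  good_of _ _ _ _ _ _ _ x47 x10 x28 x39 x36 x43 go69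
lemma ch70 : Good 0 ![w46, w47, w28, w39, w36, w43] :=
  good_of _ _ _ _ _ _ _ x46 x47 x28 x39 x36 x43 go70
lemma ch71 : Good 0 ![w45, w46, w19, w23, w24, w42] :=
  good_of _ _ _ _ _ _ _ x45 x46 x19 x23 x24 x42 go71
lemma ch72 : Good 0 ![w44, w10, w45, w21, w18, w13] :=
  good_of _ _ _ _ _ _ _ x44 x10 x45 x21 x18 x13 go72
lemma ch73 : Good 0 ![w44, w22, w19, w17, w18, w21] :=
  good_of _ _ _ _ _ _ _ x44 x22 x19 x17 x18 x21 go73
lemma ch74 : Good 0 ![w45, w23, w19, w22, w18, w21] :=
  good_of _ _ _ _ _ _ _ x45 x23 x19 x22 x18 x21 go74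
lemma ch75 : Good 0 ![w45, w24, w19, w22, w18, w23] :=
  good_of _ _ _ _ _ _ _ x45 x24 x19 x22 x18 x23 go75
lemma ch76 : Good 0 ![w46, w26, w19, w22, w24, w23] :=
  good_of _ _ _ _ _ _ _ x46 x26 x19 x22 x24 x23 go76
lemma ch77 : Good 0 ![w46, w10, w27, w26, w24, w23] :=
  good_of _ _ _ _ _ _ _ x46 x10 x27 x26 x24 x23 go77
lemma ch78 : Good 0 ![w46, w28, w30, w26, w24, w27] :=
  good_of _ _ _ _ _ _ _ x46 x28 x30 x26 x24 x27 go78
lemma ch79 : Good 0 ![w46, w28, w31, w26, w30, w27] :=
  good_of _ _ _ _ _ _ _ x46 x28 x31 x26 x30 x27 go79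
lemma ch80 : Good 0 ![w48, w28, w19, w31, w30, w27] :=
  good_of _ _ _ _ _ _ _ x48 x28 x19 x31 x30 x27 go80
lemma ch81 : Good 0 ![w46, w28, w48, w31, w30, w27] :=
  good_of _ _ _ _ _ _ _ x46 x28 x48 x31 x30 x27 go81
lemma ch82 : Good 0 ![w46, w39, w28, w26, w24, w27] :=
  good_of _ _ _ _ _ _ _ x46 x39 x28 x26 x24 x27 go82
lemma ch83 : Good 0 ![w46, w36, w28, w26, w24, w39] :=
  good_of _ _ _ _ _ _ _ x46 x36 x28 x26 x24 x39 go83
lemma ch84 : Good 0 ![w47, w37, w28, w26, w36, w39] :=
  good_of _ _ _ _ _ _ _ x47 x37 x28 x26 x36 x39 go84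
lemma ch85 : Good 0 ![w47, w40, w49, w37, w36, w39] :=
  good_of _ _ _ _ _ _ _ x47 x40 x49 x37 x36 x39 go85
lemma ch86 : Good 0 ![w47, w40, w28, w37, w49, w39] :=
  good_of _ _ _ _ _ _ _ x47 x40 x28 x37 x49 x39 go86
lemma ch87 : Good 0 ![w47, w10, w40, w37, w36, w39] :=
  good_of _ _ _ _ _ _ _ x47 x10 x40 x37 x36 x39 go87
lemma ch88 : Good 0 ![w46, w47, w28, w26, w36, w39] :=
  good_of _ _ _ _ _ _ _ x46 x47 x28 x26 x36 x39 go88
lemma ch89 : Good 0 ![w45, w46, w19, w22, w24, w23] :=
  good_of _ _ _ _ _ _ _ x45 x46 x19 x22 x24 x23 go89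
lemma ch90 : Good 0 ![w44, w10, w45, w22, w18, w21] :=
  good_of _ _ _ _ _ _ _ x44 x10 x45 x22 x18 x21 go90
lemma ch91 : Good 0 ![w50, w10, w45, w21, w44, w13] :=
  good_of _ _ _ _ _ _ _ x50 x10 x45 x21 x44 x13 go91
lemma ch92 : Good 0 ![w50, w10, w41, w21, w45, w13] :=
  good_of _ _ _ _ _ _ _ x50 x10 x41 x21 x45 x13 go92
lemma ch93 : Good 0 ![w51, w23, w19, w21, w45, w41] :=
  good_of _ _ _ _ _ _ _ x51 x23 x19 x21 x45 x41 go93
lemma ch94 : Good 0 ![w51, w42, w19, w23, w45, w41] :=
  good_of _ _ _ _ _ _ _ x51 x42 x19 x23 x45 x41 go94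
lemma ch95 : Good 0 ![w51, w46, w19, w23, w45, w42] :=
  good_of _ _ _ _ _ _ _ x51 x46 x19 x23 x45 x42 go95
lemma ch96 : Good 0 ![w51, w10, w27, w23, w46, w42] :=
  good_of _ _ _ _ _ _ _ x51 x10 x27 x23 x46 x42 go96
lemma ch97 : Good 0 ![w52, w28, w53, w27, w46, w42] :=
  good_of _ _ _ _ _ _ _ x52 x28 x53 x27 x46 x42 go97
lemma ch98 : Good 0 ![w52, w28, w48, w27, w46, w53] :=
  good_of _ _ _ _ _ _ _ x52 x28 x48 x27 x46 x53 go98
lemma ch99 : Good 0 ![w52, w28, w19, w27, w48, w53] :=
  good_of _ _ _ _ _ _ _ x52 x28 x19 x27 x48 x53 go99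
lemma ch100 : Good 0 ![w51, w28, w52, w27, w46, w42] :=
  good_of _ _ _ _ _ _ _ x51 x28 x52 x27 x46 x42 go100
lemma ch101 : Good 0 ![w54, w39, w28, w27, w46, w42] :=
  good_of _ _ _ _ _ _ _ x54 x39 x28 x27 x46 x42 go101
lemma ch102 : Good 0 ![w54, w43, w28, w39, w46, w42] :=
  good_of _ _ _ _ _ _ _ x54 x43 x28 x39 x46 x42 go102
lemma ch103 : Good 0 ![w54, w10, w28, w39, w46, w43] :=
  good_of _ _ _ _ _ _ _ x54 x10 x28 x39 x46 x43 go103
lemma ch104 : Good 0 ![w51, w54, w28, w27, w46, w42] :=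
  good_of _ _ _ _ _ _ _ x51 x54 x28 x27 x46 x42 go104
lemma ch105 : Good 0 ![w50, w10, w51, w21, w45, w41] :=
  good_of _ _ _ _ _ _ _ x50 x10 x51 x21 x45 x41 go105
lemma ch106 : Good 0 ![w50, w10, w45, w55, w44, w21] :=
  good_of _ _ _ _ _ _ _ x50 x10 x45 x55 x44 x21 go106
lemma ch107 : Good 0 ![w51, w56, w19, w55, w45, w21] :=
  good_of _ _ _ _ _ _ _ x51 x56 x19 x55 x45 x21 go107
lemma ch108 : Good 0 ![w51, w23, w19, w56, w45, w21] :=
  good_of _ _ _ _ _ _ _ x51 x23 x19 x56 x45 x21 go108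
lemma ch109 : Good 0 ![w51, w46, w19, w56, w45, w23] :=
  good_of _ _ _ _ _ _ _ x51 x46 x19 x56 x45 x23 go109
lemma ch110 : Good 0 ![w51, w10, w27, w56, w46, w23] :=
  good_of _ _ _ _ _ _ _ x51 x10 x27 x56 x46 x23 go110
lemma ch111 : Good 0 ![w51, w10, w57, w56, w46, w27] :=
  good_of _ _ _ _ _ _ _ x51 x10 x57 x56 x46 x27 go111
lemma ch112 : Good 0 ![w54, w28, w48, w57, w46, w27] :=
  good_of _ _ _ _ _ _ _ x54 x28 x48 x57 x46 x27 go112
lemma ch113 : Good 0 ![w58, w28, w19, w57, w48, w27] :=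
  good_of _ _ _ _ _ _ _ x58 x28 x19 x57 x48 x27 go113
lemma ch114 : Good 0 ![w54, w28, w58, w57, w48, w27] :=
  good_of _ _ _ _ _ _ _ x54 x28 x58 x57 x48 x27 go114
lemma ch115 : Good 0 ![w54, w39, w28, w57, w46, w27] :=
  good_of _ _ _ _ _ _ _ x54 x39 x28 x57 x46 x27 go115
lemma ch116 : Good 0 ![w54, w59, w28, w57, w46, w39] :=
  good_of _ _ _ _ _ _ _ x54 x59 x28 x57 x46 x39 go116
lemma ch117 : Good 0 ![w54, w47, w28, w59, w46, w39] :=
  good_of _ _ _ _ _ _ _ x54 x47 x28 x59 x46 x39 go117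
lemma ch118 : Good 0 ![w60, w10, w28, w59, w47, w39] :=
  good_of _ _ _ _ _ _ _ x60 x10 x28 x59 x47 x39 go118
lemma ch119 : Good 0 ![w54, w60, w28, w59, w47, w39] :=
  good_of _ _ _ _ _ _ _ x54 x60 x28 x59 x47 x39 go119
lemma ch120 : Good 0 ![w51, w54, w19, w57, w46, w27] :=
  good_of _ _ _ _ _ _ _ x51 x54 x19 x57 x46 x27 go120
lemma ch121 : Good 0 ![w50, w10, w51, w55, w45, w21] :=
  good_of _ _ _ _ _ _ _ x50 x10 x51 x55 x45 x21 go121
lemma ch122 : Good 0 ![w50, w22, w19, w17, w55, w21] :=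
  good_of _ _ _ _ _ _ _ x50 x22 x19 x17 x55 x21 go122
lemma ch123 : Good 0 ![w51, w56, w19, w22, w55, w21] :=
  good_of _ _ _ _ _ _ _ x51 x56 x19 x22 x55 x21 go123
lemma ch124 : Good 0 ![w51, w23, w19, w22, w56, w21] :=
  good_of _ _ _ _ _ _ _ x51 x23 x19 x22 x56 x21 go124
lemma ch125 : Good 0 ![w51, w26, w19, w22, w56, w23] :=
  good_of _ _ _ _ _ _ _ x51 x26 x19 x22 x56 x23 go125
lemma ch126 : Good 0 ![w54, w10, w27, w26, w56, w23] :=
  good_of _ _ _ _ _ _ _ x54 x10 x27 x26 x56 x23 go126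
lemma ch127 : Good 0 ![w54, w10, w57, w26, w56, w27] :=
  good_of _ _ _ _ _ _ _ x54 x10 x57 x26 x56 x27 go127
lemma ch128 : Good 0 ![w54, w28, w31, w26, w57, w27] :=
  good_of _ _ _ _ _ _ _ x54 x28 x31 x26 x57 x27 go128
lemma ch129 : Good 0 ![w58, w28, w19, w31, w57, w27] :=
  good_of _ _ _ _ _ _ _ x58 x28 x19 x31 x57 x27 go129
lemma ch130 : Good 0 ![w54, w28, w58, w31, w57, w27] :=
  good_of _ _ _ _ _ _ _ x54 x28 x58 x31 x57 x27 go130
lemma ch131 : Good 0 ![w54, w39, w28, w26, w57, w27] :=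
  good_of _ _ _ _ _ _ _ x54 x39 x28 x26 x57 x27 go131
lemma ch132 : Good 0 ![w54, w59, w28, w26, w57, w39] :=
  good_of _ _ _ _ _ _ _ x54 x59 x28 x26 x57 x39 go132
lemma ch133 : Good 0 ![w60, w37, w28, w26, w59, w39] :=
  good_of _ _ _ _ _ _ _ x60 x37 x28 x26 x59 x39 go133
lemma ch134 : Good 0 ![w60, w40, w28, w37, w59, w39] :=
  good_of _ _ _ _ _ _ _ x60 x40 x28 x37 x59 x39 go134
lemma ch135 : Good 0 ![w60, w10, w40, w37, w59, w39] :=
  good_of _ _ _ _ _ _ _ x60 x10 x40 x37 x59 x39 go135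
lemma ch136 : Good 0 ![w54, w60, w28, w26, w59, w39] :=
  good_of _ _ _ _ _ _ _ x54 x60 x28 x26 x59 x39 go136
lemma ch137 : Good 0 ![w51, w54, w19, w26, w56, w23] :=
  good_of _ _ _ _ _ _ _ x51 x54 x19 x26 x56 x23 go137
lemma ch138 : Good 0 ![w50, w10, w51, w22, w55, w21] :=
  good_of _ _ _ _ _ _ _ x50 x10 x51 x22 x55 x21 go138
lemma ch139 : Good 0 ![w61, w10, w45, w50, w44, w13] :=
  good_of _ _ _ _ _ _ _ x61 x10 x45 x50 x44 x13 go139
lemma ch140 : Good 0 ![w61, w10, w41, w50, w45, w13] :=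
  good_of _ _ _ _ _ _ _ x61 x10 x41 x50 x45 x13 go140
lemma ch141 : Good 0 ![w61, w10, w51, w50, w45, w41] :=
  good_of _ _ _ _ _ _ _ x61 x10 x51 x50 x45 x41 go141
lemma ch142 : Good 0 ![w62, w42, w19, w51, w45, w41] :=
  good_of _ _ _ _ _ _ _ x62 x42 x19 x51 x45 x41 go142
lemma ch143 : Good 0 ![w62, w46, w63, w51, w45, w42] :=
  good_of _ _ _ _ _ _ _ x62 x46 x63 x51 x45 x42 go143
lemma ch144 : Good 0 ![w62, w46, w53, w51, w63, w42] :=
  good_of _ _ _ _ _ _ _ x62 x46 x53 x51 x63 x42 go144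
lemma ch145 : Good 0 ![w62, w48, w19, w51, w63, w53] :=
  good_of _ _ _ _ _ _ _ x62 x48 x19 x51 x63 x53 go145
lemma ch146 : Good 0 ![w62, w46, w48, w51, w63, w53] :=
  good_of _ _ _ _ _ _ _ x62 x46 x48 x51 x63 x53 go146
lemma ch147 : Good 0 ![w62, w28, w52, w51, w46, w42] :=
  good_of _ _ _ _ _ _ _ x62 x28 x52 x51 x46 x42 go147
lemma ch148 : Good 0 ![w62, w28, w53, w52, w46, w42] :=
  good_of _ _ _ _ _ _ _ x62 x28 x53 x52 x46 x42 go148
lemma ch149 : Good 0 ![w62, w28, w48, w52, w46, w53] :=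
  good_of _ _ _ _ _ _ _ x62 x28 x48 x52 x46 x53 go149
lemma ch150 : Good 0 ![w64, w33, w65, w52, w48, w53] :=
  good_of _ _ _ _ _ _ _ x64 x33 x65 x52 x48 x53 go150
lemma ch151 : Good 0 ![w64, w33, w19, w52, w48, w65] :=
  good_of _ _ _ _ _ _ _ x64 x33 x19 x52 x48 x65 go151
lemma ch152 : Good 0 ![w64, w28, w33, w52, w48, w53] :=
  good_of _ _ _ _ _ _ _ x64 x28 x33 x52 x48 x53 go152
lemma ch153 : Good 0 ![w62, w28, w64, w52, w48, w53] :=
  good_of _ _ _ _ _ _ _ x62 x28 x64 x52 x48 x53 go153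
lemma ch154 : Good 0 ![w62, w54, w28, w51, w46, w42] :=
  good_of _ _ _ _ _ _ _ x62 x54 x28 x51 x46 x42 go154
lemma ch155 : Good 0 ![w66, w43, w28, w54, w46, w42] :=
  good_of _ _ _ _ _ _ _ x66 x43 x28 x54 x46 x42 go155
lemma ch156 : Good 0 ![w66, w47, w28, w54, w46, w43] :=
  good_of _ _ _ _ _ _ _ x66 x47 x28 x54 x46 x43 go156
lemma ch157 : Good 0 ![w66, w60, w28, w54, w47, w43] :=
  good_of _ _ _ _ _ _ _ x66 x60 x28 x54 x47 x43 go157
lemma ch158 : Good 0 ![w67, w10, w28, w60, w47, w43] :=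
  good_of _ _ _ _ _ _ _ x67 x10 x28 x60 x47 x43 go158
lemma ch159 : Good 0 ![w66, w67, w28, w60, w47, w43] :=
  good_of _ _ _ _ _ _ _ x66 x67 x28 x60 x47 x43 go159
lemma ch160 : Good 0 ![w62, w66, w28, w54, w46, w42] :=
  good_of _ _ _ _ _ _ _ x62 x66 x28 x54 x46 x42 go160
lemma ch161 : Good 0 ![w61, w10, w62, w51, w45, w41] :=
  good_of _ _ _ _ _ _ _ x61 x10 x62 x51 x45 x41 go161
lemma ch162 : Good 0 ![w0, w10, w61, w50, w44, w13] :=
  good_of _ _ _ _ _ _ _ x0 x10 x61 x50 x44 x13 go162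
lemma ch163 : Good 0 ![w15, w68, w19, w17, w4, w7] :=
  good_of _ _ _ _ _ _ _ x15 x68 x19 x17 x4 x7 go163
lemma ch164 : Good 0 ![w15, w18, w19, w17, w4, w68] :=
  good_of _ _ _ _ _ _ _ x15 x18 x19 x17 x4 x68 go164
lemma ch165 : Good 0 ![w69, w70, w19, w17, w18, w68] :=
  good_of _ _ _ _ _ _ _ x69 x70 x19 x17 x18 x68 go165
lemma ch166 : Good 0 ![w69, w22, w19, w17, w18, w70] :=
  good_of _ _ _ _ _ _ _ x69 x22 x19 x17 x18 x70 go166
lemma ch167 : Good 0 ![w69, w24, w19, w22, w18, w70] :=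
  good_of _ _ _ _ _ _ _ x69 x24 x19 x22 x18 x70 go167
lemma ch168 : Good 0 ![w71, w10, w72, w22, w24, w70] :=
  good_of _ _ _ _ _ _ _ x71 x10 x72 x22 x24 x70 go168
lemma ch169 : Good 0 ![w71, w26, w19, w22, w24, w72] :=
  good_of _ _ _ _ _ _ _ x71 x26 x19 x22 x24 x72 go169
lemma ch170 : Good 0 ![w71, w28, w30, w26, w24, w72] :=
  good_of _ _ _ _ _ _ _ x71 x28 x30 x26 x24 x72 go170
lemma ch171 : Good 0 ![w71, w28, w31, w26, w30, w72] :=
  good_of _ _ _ _ _ _ _ x71 x28 x31 x26 x30 x72 go171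
lemma ch172 : Good 0 ![w73, w28, w74, w31, w30, w72] :=
  good_of _ _ _ _ _ _ _ x73 x28 x74 x31 x30 x72 go172
lemma ch173 : Good 0 ![w73, w33, w19, w31, w30, w74] :=
  good_of _ _ _ _ _ _ _ x73 x33 x19 x31 x30 x74 go173
lemma ch174 : Good 0 ![w73, w28, w33, w31, w30, w74] :=
  good_of _ _ _ _ _ _ _ x73 x28 x33 x31 x30 x74 go174
lemma ch175 : Good 0 ![w71, w28, w73, w31, w30, w72] :=
  good_of _ _ _ _ _ _ _ x71 x28 x73 x31 x30 x72 go175
lemma ch176 : Good 0 ![w75, w76, w28, w26, w24, w72] :=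
  good_of _ _ _ _ _ _ _ x75 x76 x28 x26 x24 x72 go176
lemma ch177 : Good 0 ![w75, w36, w28, w26, w24, w76] :=
  good_of _ _ _ _ _ _ _ x75 x36 x28 x26 x24 x76 go177
lemma ch178 : Good 0 ![w75, w37, w28, w26, w36, w76] :=
  good_of _ _ _ _ _ _ _ x75 x37 x28 x26 x36 x76 go178
lemma ch179 : Good 0 ![w75, w40, w28, w37, w36, w76] :=
  good_of _ _ _ _ _ _ _ x75 x40 x28 x37 x36 x76 go179
lemma ch180 : Good 0 ![w75, w10, w40, w37, w36, w76] :=
  good_of _ _ _ _ _ _ _ x75 x10 x40 x37 x36 x76 go180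
lemma ch181 : Good 0 ![w71, w75, w28, w26, w24, w72] :=
  good_of _ _ _ _ _ _ _ x71 x75 x28 x26 x24 x72 go181
lemma ch182 : Good 0 ![w69, w10, w71, w22, w24, w70] :=
  good_of _ _ _ _ _ _ _ x69 x10 x71 x22 x24 x70 go182
lemma ch183 : Good 0 ![w15, w69, w19, w17, w18, w68] :=
  good_of _ _ _ _ _ _ _ x15 x69 x19 x17 x18 x68 go183
lemma ch184 : Good 0 ![w44, w18, w19, w17, w4, w15] :=
  good_of _ _ _ _ _ _ _ x44 x18 x19 x17 x4 x15 go184
lemma ch185 : Good 0 ![w44, w10, w77, w17, w18, w15] :=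
  good_of _ _ _ _ _ _ _ x44 x10 x77 x17 x18 x15 go185
lemma ch186 : Good 0 ![w44, w22, w19, w17, w18, w77] :=
  good_of _ _ _ _ _ _ _ x44 x22 x19 x17 x18 x77 go186
lemma ch187 : Good 0 ![w45, w24, w19, w22, w18, w77] :=
  good_of _ _ _ _ _ _ _ x45 x24 x19 x22 x18 x77 go187
lemma ch188 : Good 0 ![w45, w78, w19, w22, w24, w77] :=
  good_of _ _ _ _ _ _ _ x45 x78 x19 x22 x24 x77 go188
lemma ch189 : Good 0 ![w46, w26, w19, w22, w24, w78] :=
  good_of _ _ _ _ _ _ _ x46 x26 x19 x22 x24 x78 go189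
lemma ch190 : Good 0 ![w46, w28, w30, w26, w24, w78] :=
  good_of _ _ _ _ _ _ _ x46 x28 x30 x26 x24 x78 go190
lemma ch191 : Good 0 ![w46, w28, w31, w26, w30, w78] :=
  good_of _ _ _ _ _ _ _ x46 x28 x31 x26 x30 x78 go191
lemma ch192 : Good 0 ![w46, w28, w79, w31, w30, w78] :=
  good_of _ _ _ _ _ _ _ x46 x28 x79 x31 x30 x78 go192
lemma ch193 : Good 0 ![w48, w33, w19, w31, w30, w79] :=
  good_of _ _ _ _ _ _ _ x48 x33 x19 x31 x30 x79 go193
lemma ch194 : Good 0 ![w48, w28, w33, w31, w30, w79] :=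
  good_of _ _ _ _ _ _ _ x48 x28 x33 x31 x30 x79 go194
lemma ch195 : Good 0 ![w46, w28, w48, w31, w30, w79] :=
  good_of _ _ _ _ _ _ _ x46 x28 x48 x31 x30 x79 go195
lemma ch196 : Good 0 ![w46, w36, w28, w26, w24, w78] :=
  good_of _ _ _ _ _ _ _ x46 x36 x28 x26 x24 x78 go196
lemma ch197 : Good 0 ![w46, w80, w28, w26, w36, w78] :=
  good_of _ _ _ _ _ _ _ x46 x80 x28 x26 x36 x78 go197
lemma ch198 : Good 0 ![w47, w37, w28, w26, w36, w80] :=
  good_of _ _ _ _ _ _ _ x47 x37 x28 x26 x36 x80 go198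
lemma ch199 : Good 0 ![w47, w40, w49, w37, w36, w80] :=
  good_of _ _ _ _ _ _ _ x47 x40 x49 x37 x36 x80 go199
lemma ch200 : Good 0 ![w47, w40, w81, w37, w49, w80] :=
  good_of _ _ _ _ _ _ _ x47 x40 x81 x37 x49 x80 go200
lemma ch201 : Good 0 ![w47, w40, w28, w81, w49, w80] :=
  good_of _ _ _ _ _ _ _ x47 x40 x28 x81 x49 x80 go201
lemma ch202 : Good 0 ![w47, w10, w40, w37, w36, w80] :=
  good_of _ _ _ _ _ _ _ x47 x10 x40 x37 x36 x80 go202
lemma ch203 : Good 0 ![w46, w47, w28, w26, w36, w80] :=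
  good_of _ _ _ _ _ _ _ x46 x47 x28 x26 x36 x80 go203
lemma ch204 : Good 0 ![w45, w46, w19, w22, w24, w78] :=
  good_of _ _ _ _ _ _ _ x45 x46 x19 x22 x24 x78 go204
lemma ch205 : Good 0 ![w44, w10, w45, w22, w18, w77] :=
  good_of _ _ _ _ _ _ _ x44 x10 x45 x22 x18 x77 go205
lemma ch206 : Good 0 ![w50, w10, w77, w17, w44, w15] :=
  good_of _ _ _ _ _ _ _ x50 x10 x77 x17 x44 x15 go206
lemma ch207 : Good 0 ![w50, w10, w45, w55, w44, w77] :=
  good_of _ _ _ _ _ _ _ x50 x10 x45 x55 x44 x77 go207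
lemma ch208 : Good 0 ![w51, w56, w19, w55, w45, w77] :=
  good_of _ _ _ _ _ _ _ x51 x56 x19 x55 x45 x77 go208
lemma ch209 : Good 0 ![w51, w78, w19, w56, w45, w77] :=
  good_of _ _ _ _ _ _ _ x51 x78 x19 x56 x45 x77 go209
lemma ch210 : Good 0 ![w51, w46, w19, w56, w45, w78] :=
  good_of _ _ _ _ _ _ _ x51 x46 x19 x56 x45 x78 go210
lemma ch211 : Good 0 ![w51, w10, w57, w56, w46, w78] :=
  good_of _ _ _ _ _ _ _ x51 x10 x57 x56 x46 x78 go211
lemma ch212 : Good 0 ![w51, w28, w79, w57, w46, w78] :=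
  good_of _ _ _ _ _ _ _ x51 x28 x79 x57 x46 x78 go212
lemma ch213 : Good 0 ![w52, w28, w19, w57, w46, w79] :=
  good_of _ _ _ _ _ _ _ x52 x28 x19 x57 x46 x79 go213
lemma ch214 : Good 0 ![w51, w28, w52, w57, w46, w79] :=
  good_of _ _ _ _ _ _ _ x51 x28 x52 x57 x46 x79 go214
lemma ch215 : Good 0 ![w54, w59, w28, w57, w46, w78] :=
  good_of _ _ _ _ _ _ _ x54 x59 x28 x57 x46 x78 go215
lemma ch216 : Good 0 ![w54, w80, w28, w59, w46, w78] :=
  good_of _ _ _ _ _ _ _ x54 x80 x28 x59 x46 x78 go216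
lemma ch217 : Good 0 ![w54, w10, w28, w59, w46, w80] :=
  good_of _ _ _ _ _ _ _ x54 x10 x28 x59 x46 x80 go217
lemma ch218 : Good 0 ![w51, w54, w28, w57, w46, w78] :=
  good_of _ _ _ _ _ _ _ x51 x54 x28 x57 x46 x78 go218
lemma ch219 : Good 0 ![w50, w10, w51, w55, w45, w77] :=
  good_of _ _ _ _ _ _ _ x50 x10 x51 x55 x45 x77 go219
lemma ch220 : Good 0 ![w50, w22, w19, w17, w55, w77] :=
  good_of _ _ _ _ _ _ _ x50 x22 x19 x17 x55 x77 go220
lemma ch221 : Good 0 ![w51, w56, w19, w22, w55, w77] :=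
  good_of _ _ _ _ _ _ _ x51 x56 x19 x22 x55 x77 go221
lemma ch222 : Good 0 ![w51, w78, w19, w22, w56, w77] :=
  good_of _ _ _ _ _ _ _ x51 x78 x19 x22 x56 x77 go222
lemma ch223 : Good 0 ![w51, w26, w19, w22, w56, w78] :=
  good_of _ _ _ _ _ _ _ x51 x26 x19 x22 x56 x78 go223
lemma ch224 : Good 0 ![w51, w10, w57, w26, w56, w78] :=
  good_of _ _ _ _ _ _ _ x51 x10 x57 x26 x56 x78 go224
lemma ch225 : Good 0 ![w54, w28, w31, w26, w57, w78] :=
  good_of _ _ _ _ _ _ _ x54 x28 x31 x26 x57 x78 go225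
lemma ch226 : Good 0 ![w54, w28, w79, w31, w57, w78] :=
  good_of _ _ _ _ _ _ _ x54 x28 x79 x31 x57 x78 go226
lemma ch227 : Good 0 ![w58, w33, w19, w31, w57, w79] :=
  good_of _ _ _ _ _ _ _ x58 x33 x19 x31 x57 x79 go227
lemma ch228 : Good 0 ![w58, w28, w33, w31, w57, w79] :=
  good_of _ _ _ _ _ _ _ x58 x28 x33 x31 x57 x79 go228
lemma ch229 : Good 0 ![w54, w28, w58, w31, w57, w79] :=
  good_of _ _ _ _ _ _ _ x54 x28 x58 x31 x57 x79 go229
lemma ch230 : Good 0 ![w54, w59, w28, w26, w57, w78] :=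
  good_of _ _ _ _ _ _ _ x54 x59 x28 x26 x57 x78 go230
lemma ch231 : Good 0 ![w54, w80, w28, w26, w59, w78] :=
  good_of _ _ _ _ _ _ _ x54 x80 x28 x26 x59 x78 go231
lemma ch232 : Good 0 ![w60, w37, w28, w26, w59, w80] :=
  good_of _ _ _ _ _ _ _ x60 x37 x28 x26 x59 x80 go232
lemma ch233 : Good 0 ![w60, w40, w81, w37, w59, w80] :=
  good_of _ _ _ _ _ _ _ x60 x40 x81 x37 x59 x80 go233
lemma ch234 : Good 0 ![w60, w40, w28, w81, w59, w80] :=
  good_of _ _ _ _ _ _ _ x60 x40 x28 x81 x59 x80 go234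
lemma ch235 : Good 0 ![w60, w10, w40, w37, w59, w80] :=
  good_of _ _ _ _ _ _ _ x60 x10 x40 x37 x59 x80 go235
lemma ch236 : Good 0 ![w54, w60, w28, w26, w59, w80] :=
  good_of _ _ _ _ _ _ _ x54 x60 x28 x26 x59 x80 go236
lemma ch237 : Good 0 ![w51, w54, w19, w26, w57, w78] :=
  good_of _ _ _ _ _ _ _ x51 x54 x19 x26 x57 x78 go237
lemma ch238 : Good 0 ![w50, w10, w51, w22, w55, w77] :=
  good_of _ _ _ _ _ _ _ x50 x10 x51 x22 x55 x77 go238
lemma ch239 : Good 0 ![w61, w10, w77, w50, w44, w15] :=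
  good_of _ _ _ _ _ _ _ x61 x10 x77 x50 x44 x15 go239
lemma ch240 : Good 0 ![w61, w10, w45, w50, w44, w77] :=
  good_of _ _ _ _ _ _ _ x61 x10 x45 x50 x44 x77 go240
lemma ch241 : Good 0 ![w61, w10, w51, w50, w45, w77] :=
  good_of _ _ _ _ _ _ _ x61 x10 x51 x50 x45 x77 go241
lemma ch242 : Good 0 ![w62, w78, w19, w51, w45, w77] :=
  good_of _ _ _ _ _ _ _ x62 x78 x19 x51 x45 x77 go242
lemma ch243 : Good 0 ![w62, w46, w19, w51, w45, w78] :=
  good_of _ _ _ _ _ _ _ x62 x46 x19 x51 x45 x78 go243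
lemma ch244 : Good 0 ![w62, w28, w79, w51, w46, w78] :=
  good_of _ _ _ _ _ _ _ x62 x28 x79 x51 x46 x78 go244
lemma ch245 : Good 0 ![w62, w28, w52, w51, w46, w79] :=
  good_of _ _ _ _ _ _ _ x62 x28 x52 x51 x46 x79 go245
lemma ch246 : Good 0 ![w62, w28, w48, w52, w46, w79] :=
  good_of _ _ _ _ _ _ _ x62 x28 x48 x52 x46 x79 go246
lemma ch247 : Good 0 ![w64, w33, w19, w52, w48, w79] :=
  good_of _ _ _ _ _ _ _ x64 x33 x19 x52 x48 x79 go247
lemma ch248 : Good 0 ![w64, w28, w33, w52, w48, w79] :=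
  good_of _ _ _ _ _ _ _ x64 x28 x33 x52 x48 x79 go248
lemma ch249 : Good 0 ![w62, w28, w64, w52, w48, w79] :=
  good_of _ _ _ _ _ _ _ x62 x28 x64 x52 x48 x79 go249
lemma ch250 : Good 0 ![w62, w54, w28, w51, w46, w78] :=
  good_of _ _ _ _ _ _ _ x62 x54 x28 x51 x46 x78 go250
lemma ch251 : Good 0 ![w66, w80, w28, w54, w46, w78] :=
  good_of _ _ _ _ _ _ _ x66 x80 x28 x54 x46 x78 go251
lemma ch252 : Good 0 ![w66, w47, w28, w54, w46, w80] :=
  good_of _ _ _ _ _ _ _ x66 x47 x28 x54 x46 x80 go252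
lemma ch253 : Good 0 ![w66, w60, w28, w54, w47, w80] :=
  good_of _ _ _ _ _ _ _ x66 x60 x28 x54 x47 x80 go253
lemma ch254 : Good 0 ![w67, w10, w28, w60, w47, w80] :=
  good_of _ _ _ _ _ _ _ x67 x10 x28 x60 x47 x80 go254
lemma ch255 : Good 0 ![w66, w67, w28, w60, w47, w80] :=
  good_of _ _ _ _ _ _ _ x66 x67 x28 x60 x47 x80 go255
lemma ch256 : Good 0 ![w62, w66, w28, w54, w46, w78] :=
  good_of _ _ _ _ _ _ _ x62 x66 x28 x54 x46 x78 go256
lemma ch257 : Good 0 ![w61, w10, w62, w51, w45, w77] :=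
  good_of _ _ _ _ _ _ _ x61 x10 x62 x51 x45 x77 go257
lemma ch258 : Good 0 ![w0, w10, w61, w50, w44, w15] :=
  good_of _ _ _ _ _ _ _ x0 x10 x61 x50 x44 x15 go258
lemma ch259 : Good 0 ![w13, w18, w19, w12, w4, w5] :=
  good_of _ _ _ _ _ _ _ x13 x18 x19 x12 x4 x5 go259
lemma ch260 : Good 0 ![w13, w20, w19, w12, w18, w5] :=
  good_of _ _ _ _ _ _ _ x13 x20 x19 x12 x18 x5 go260
lemma ch261 : Good 0 ![w82, w83, w19, w12, w18, w20] :=
  good_of _ _ _ _ _ _ _ x82 x83 x19 x12 x18 x20 go261
lemma ch262 : Good 0 ![w84, w24, w19, w83, w18, w20] :=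
  good_of _ _ _ _ _ _ _ x84 x24 x19 x83 x18 x20 go262
lemma ch263 : Good 0 ![w84, w25, w19, w83, w24, w20] :=
  good_of _ _ _ _ _ _ _ x84 x25 x19 x83 x24 x20 go263
lemma ch264 : Good 0 ![w84, w85, w19, w83, w24, w25] :=
  good_of _ _ _ _ _ _ _ x84 x85 x19 x83 x24 x25 go264
lemma ch265 : Good 0 ![w86, w28, w29, w85, w24, w25] :=
  good_of _ _ _ _ _ _ _ x86 x28 x29 x85 x24 x25 go265
lemma ch266 : Good 0 ![w86, w28, w30, w85, w24, w29] :=
  good_of _ _ _ _ _ _ _ x86 x28 x30 x85 x24 x29 go266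
lemma ch267 : Good 0 ![w86, w28, w87, w85, w30, w29] :=
  good_of _ _ _ _ _ _ _ x86 x28 x87 x85 x30 x29 go267
lemma ch268 : Good 0 ![w86, w28, w32, w87, w30, w29] :=
  good_of _ _ _ _ _ _ _ x86 x28 x32 x87 x30 x29 go268
lemma ch269 : Good 0 ![w86, w33, w19, w87, w30, w32] :=
  good_of _ _ _ _ _ _ _ x86 x33 x19 x87 x30 x32 go269
lemma ch270 : Good 0 ![w86, w28, w33, w87, w30, w32] :=
  good_of _ _ _ _ _ _ _ x86 x28 x33 x87 x30 x32 go270
lemma ch271 : Good 0 ![w84, w28, w86, w85, w24, w25] :=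
  good_of _ _ _ _ _ _ _ x84 x28 x86 x85 x24 x25 go271
lemma ch272 : Good 0 ![w88, w35, w28, w85, w24, w25] :=
  good_of _ _ _ _ _ _ _ x88 x35 x28 x85 x24 x25 go272
lemma ch273 : Good 0 ![w88, w36, w28, w85, w24, w35] :=
  good_of _ _ _ _ _ _ _ x88 x36 x28 x85 x24 x35 go273
lemma ch274 : Good 0 ![w88, w89, w28, w85, w36, w35] :=
  good_of _ _ _ _ _ _ _ x88 x89 x28 x85 x36 x35 go274
lemma ch275 : Good 0 ![w88, w10, w38, w89, w36, w35] :=
  good_of _ _ _ _ _ _ _ x88 x10 x38 x89 x36 x35 go275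
lemma ch276 : Good 0 ![w90, w40, w28, w89, w36, w38] :=
  good_of _ _ _ _ _ _ _ x90 x40 x28 x89 x36 x38 go276
lemma ch277 : Good 0 ![w90, w10, w40, w89, w36, w38] :=
  good_of _ _ _ _ _ _ _ x90 x10 x40 x89 x36 x38 go277
lemma ch278 : Good 0 ![w88, w10, w90, w89, w36, w38] :=
  good_of _ _ _ _ _ _ _ x88 x10 x90 x89 x36 x38 go278
lemma ch279 : Good 0 ![w84, w88, w28, w85, w24, w25] :=
  good_of _ _ _ _ _ _ _ x84 x88 x28 x85 x24 x25 go279
lemma ch280 : Good 0 ![w82, w84, w19, w83, w18, w20] :=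
  good_of _ _ _ _ _ _ _ x82 x84 x19 x83 x18 x20 go280
lemma ch281 : Good 0 ![w41, w84, w19, w82, w18, w20] :=
  good_of _ _ _ _ _ _ _ x41 x84 x19 x82 x18 x20 go281
lemma ch282 : Good 0 ![w41, w24, w19, w84, w18, w20] :=
  good_of _ _ _ _ _ _ _ x41 x24 x19 x84 x18 x20 go282
lemma ch283 : Good 0 ![w41, w25, w19, w84, w24, w20] :=
  good_of _ _ _ _ _ _ _ x41 x25 x19 x84 x24 x20 go283
lemma ch284 : Good 0 ![w42, w28, w86, w84, w24, w25] :=
  good_of _ _ _ _ _ _ _ x42 x28 x86 x84 x24 x25 go284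
lemma ch285 : Good 0 ![w42, w28, w29, w86, w24, w25] :=
  good_of _ _ _ _ _ _ _ x42 x28 x29 x86 x24 x25 go285
lemma ch286 : Good 0 ![w42, w28, w30, w86, w24, w29] :=
  good_of _ _ _ _ _ _ _ x42 x28 x30 x86 x24 x29 go286
lemma ch287 : Good 0 ![w42, w28, w19, w86, w30, w29] :=
  good_of _ _ _ _ _ _ _ x42 x28 x19 x86 x30 x29 go287
lemma ch288 : Good 0 ![w42, w88, w28, w84, w24, w25] :=
  good_of _ _ _ _ _ _ _ x42 x88 x28 x84 x24 x25 go288
lemma ch289 : Good 0 ![w42, w35, w28, w88, w24, w25] :=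
  good_of _ _ _ _ _ _ _ x42 x35 x28 x88 x24 x25 go289
lemma ch290 : Good 0 ![w42, w36, w28, w88, w24, w35] :=
  good_of _ _ _ _ _ _ _ x42 x36 x28 x88 x24 x35 go290
lemma ch291 : Good 0 ![w43, w10, w90, w88, w36, w35] :=
  good_of _ _ _ _ _ _ _ x43 x10 x90 x88 x36 x35 go291
lemma ch292 : Good 0 ![w43, w10, w38, w90, w36, w35] :=
  good_of _ _ _ _ _ _ _ x43 x10 x38 x90 x36 x35 go292
lemma ch293 : Good 0 ![w43, w40, w28, w90, w36, w38] :=
  good_of _ _ _ _ _ _ _ x43 x40 x28 x90 x36 x38 go293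
lemma ch294 : Good 0 ![w43, w10, w40, w90, w36, w38] :=
  good_of _ _ _ _ _ _ _ x43 x10 x40 x90 x36 x38 go294
lemma ch295 : Good 0 ![w42, w43, w28, w88, w36, w35] :=
  good_of _ _ _ _ _ _ _ x42 x43 x28 x88 x36 x35 go295
lemma ch296 : Good 0 ![w41, w42, w19, w84, w24, w25] :=
  good_of _ _ _ _ _ _ _ x41 x42 x19 x84 x24 x25 go296
lemma ch297 : Good 0 ![w13, w10, w41, w82, w18, w20] :=
  good_of _ _ _ _ _ _ _ x13 x10 x41 x82 x18 x20 go297
lemma ch298 : Good 0 ![w44, w18, w19, w12, w4, w13] :=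
  good_of _ _ _ _ _ _ _ x44 x18 x19 x12 x4 x13 go298
lemma ch299 : Good 0 ![w45, w10, w41, w82, w18, w13] :=
  good_of _ _ _ _ _ _ _ x45 x10 x41 x82 x18 x13 go299
lemma ch300 : Good 0 ![w45, w84, w19, w82, w18, w41] :=
  good_of _ _ _ _ _ _ _ x45 x84 x19 x82 x18 x41 go300
lemma ch301 : Good 0 ![w45, w24, w19, w84, w18, w41] :=
  good_of _ _ _ _ _ _ _ x45 x24 x19 x84 x18 x41 go301
lemma ch302 : Good 0 ![w45, w42, w19, w84, w24, w41] :=
  good_of _ _ _ _ _ _ _ x45 x42 x19 x84 x24 x41 go302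
lemma ch303 : Good 0 ![w46, w10, w86, w84, w24, w42] :=
  good_of _ _ _ _ _ _ _ x46 x10 x86 x84 x24 x42 go303
lemma ch304 : Good 0 ![w46, w28, w19, w86, w24, w42] :=
  good_of _ _ _ _ _ _ _ x46 x28 x19 x86 x24 x42 go304
lemma ch305 : Good 0 ![w46, w90, w28, w86, w24, w42] :=
  good_of _ _ _ _ _ _ _ x46 x90 x28 x86 x24 x42 go305
lemma ch306 : Good 0 ![w46, w36, w28, w90, w24, w42] :=
  good_of _ _ _ _ _ _ _ x46 x36 x28 x90 x24 x42 go306
lemma ch307 : Good 0 ![w46, w43, w28, w90, w36, w42] :=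
  good_of _ _ _ _ _ _ _ x46 x43 x28 x90 x36 x42 go307
lemma ch308 : Good 0 ![w47, w10, w28, w90, w36, w43] :=
  good_of _ _ _ _ _ _ _ x47 x10 x28 x90 x36 x43 go308
lemma ch309 : Good 0 ![w46, w47, w28, w90, w36, w43] :=
  good_of _ _ _ _ _ _ _ x46 x47 x28 x90 x36 x43 go309
lemma ch310 : Good 0 ![w45, w46, w19, w84, w24, w42] :=
  good_of _ _ _ _ _ _ _ x45 x46 x19 x84 x24 x42 go310
lemma ch311 : Good 0 ![w44, w10, w45, w82, w18, w13] :=
  good_of _ _ _ _ _ _ _ x44 x10 x45 x82 x18 x13 go311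
lemma ch312 : Good 0 ![w44, w83, w19, w12, w18, w82] :=
  good_of _ _ _ _ _ _ _ x44 x83 x19 x12 x18 x82 go312
lemma ch313 : Good 0 ![w45, w84, w19, w83, w18, w82] :=
  good_of _ _ _ _ _ _ _ x45 x84 x19 x83 x18 x82 go313
lemma ch314 : Good 0 ![w45, w24, w19, w83, w18, w84] :=
  good_of _ _ _ _ _ _ _ x45 x24 x19 x83 x18 x84 go314
lemma ch315 : Good 0 ![w46, w85, w19, w83, w24, w84] :=
  good_of _ _ _ _ _ _ _ x46 x85 x19 x83 x24 x84 go315
lemma ch316 : Good 0 ![w46, w10, w86, w85, w24, w84] :=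
  good_of _ _ _ _ _ _ _ x46 x10 x86 x85 x24 x84 go316
lemma ch317 : Good 0 ![w46, w28, w30, w85, w24, w86] :=
  good_of _ _ _ _ _ _ _ x46 x28 x30 x85 x24 x86 go317
lemma ch318 : Good 0 ![w46, w28, w87, w85, w30, w86] :=
  good_of _ _ _ _ _ _ _ x46 x28 x87 x85 x30 x86 go318
lemma ch319 : Good 0 ![w48, w28, w19, w87, w30, w86] :=
  good_of _ _ _ _ _ _ _ x48 x28 x19 x87 x30 x86 go319
lemma ch320 : Good 0 ![w46, w28, w48, w87, w30, w86] :=
  good_of _ _ _ _ _ _ _ x46 x28 x48 x87 x30 x86 go320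
lemma ch321 : Good 0 ![w46, w90, w28, w85, w24, w86] :=
  good_of _ _ _ _ _ _ _ x46 x90 x28 x85 x24 x86 go321
lemma ch322 : Good 0 ![w46, w36, w28, w85, w24, w90] :=
  good_of _ _ _ _ _ _ _ x46 x36 x28 x85 x24 x90 go322
lemma ch323 : Good 0 ![w47, w89, w28, w85, w36, w90] :=
  good_of _ _ _ _ _ _ _ x47 x89 x28 x85 x36 x90 go323
lemma ch324 : Good 0 ![w47, w40, w49, w89, w36, w90] :=
  good_of _ _ _ _ _ _ _ x47 x40 x49 x89 x36 x90 go324
lemma ch325 : Good 0 ![w47, w40, w28, w89, w49, w90] :=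
  good_of _ _ _ _ _ _ _ x47 x40 x28 x89 x49 x90 go325
lemma ch326 : Good 0 ![w47, w10, w40, w89, w36, w90] :=
  good_of _ _ _ _ _ _ _ x47 x10 x40 x89 x36 x90 go326
lemma ch327 : Good 0 ![w46, w47, w28, w85, w36, w90] :=
  good_of _ _ _ _ _ _ _ x46 x47 x28 x85 x36 x90 go327
lemma ch328 : Good 0 ![w45, w46, w19, w83, w24, w84] :=
  good_of _ _ _ _ _ _ _ x45 x46 x19 x83 x24 x84 go328
lemma ch329 : Good 0 ![w44, w10, w45, w83, w18, w82] :=
  good_of _ _ _ _ _ _ _ x44 x10 x45 x83 x18 x82 go329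
lemma ch330 : Good 0 ![w91, w10, w45, w82, w44, w13] :=
  good_of _ _ _ _ _ _ _ x91 x10 x45 x82 x44 x13 go330
lemma ch331 : Good 0 ![w91, w10, w41, w82, w45, w13] :=
  good_of _ _ _ _ _ _ _ x91 x10 x41 x82 x45 x13 go331
lemma ch332 : Good 0 ![w92, w84, w19, w82, w45, w41] :=
  good_of _ _ _ _ _ _ _ x92 x84 x19 x82 x45 x41 go332
lemma ch333 : Good 0 ![w92, w42, w19, w84, w45, w41] :=
  good_of _ _ _ _ _ _ _ x92 x42 x19 x84 x45 x41 go333
lemma ch334 : Good 0 ![w92, w46, w19, w84, w45, w42] :=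
  good_of _ _ _ _ _ _ _ x92 x46 x19 x84 x45 x42 go334
lemma ch335 : Good 0 ![w92, w10, w86, w84, w46, w42] :=
  good_of _ _ _ _ _ _ _ x92 x10 x86 x84 x46 x42 go335
lemma ch336 : Good 0 ![w93, w28, w53, w86, w46, w42] :=
  good_of _ _ _ _ _ _ _ x93 x28 x53 x86 x46 x42 go336
lemma ch337 : Good 0 ![w93, w28, w48, w86, w46, w53] :=
  good_of _ _ _ _ _ _ _ x93 x28 x48 x86 x46 x53 go337
lemma ch338 : Good 0 ![w94, w28, w19, w86, w48, w53] :=
  good_of _ _ _ _ _ _ _ x94 x28 x19 x86 x48 x53 go338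
lemma ch339 : Good 0 ![w93, w28, w94, w86, w48, w53] :=
  good_of _ _ _ _ _ _ _ x93 x28 x94 x86 x48 x53 go339
lemma ch340 : Good 0 ![w93, w90, w28, w86, w46, w42] :=
  good_of _ _ _ _ _ _ _ x93 x90 x28 x86 x46 x42 go340
lemma ch341 : Good 0 ![w93, w43, w28, w90, w46, w42] :=
  good_of _ _ _ _ _ _ _ x93 x43 x28 x90 x46 x42 go341
lemma ch342 : Good 0 ![w93, w10, w28, w90, w46, w43] :=
  good_of _ _ _ _ _ _ _ x93 x10 x28 x90 x46 x43 go342
lemma ch343 : Good 0 ![w92, w93, w19, w86, w46, w42] :=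
  good_of _ _ _ _ _ _ _ x92 x93 x19 x86 x46 x42 go343
lemma ch344 : Good 0 ![w91, w10, w92, w82, w45, w41] :=
  good_of _ _ _ _ _ _ _ x91 x10 x92 x82 x45 x41 go344
lemma ch345 : Good 0 ![w91, w10, w45, w95, w44, w82] :=
  good_of _ _ _ _ _ _ _ x91 x10 x45 x95 x44 x82 go345
lemma ch346 : Good 0 ![w92, w96, w19, w95, w45, w82] :=
  good_of _ _ _ _ _ _ _ x92 x96 x19 x95 x45 x82 go346
lemma ch347 : Good 0 ![w92, w84, w19, w96, w45, w82] :=
  good_of _ _ _ _ _ _ _ x92 x84 x19 x96 x45 x82 go347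
lemma ch348 : Good 0 ![w92, w46, w19, w96, w45, w84] :=
  good_of _ _ _ _ _ _ _ x92 x46 x19 x96 x45 x84 go348
lemma ch349 : Good 0 ![w92, w10, w86, w96, w46, w84] :=
  good_of _ _ _ _ _ _ _ x92 x10 x86 x96 x46 x84 go349
lemma ch350 : Good 0 ![w92, w10, w97, w96, w46, w86] :=
  good_of _ _ _ _ _ _ _ x92 x10 x97 x96 x46 x86 go350
lemma ch351 : Good 0 ![w93, w28, w48, w97, w46, w86] :=
  good_of _ _ _ _ _ _ _ x93 x28 x48 x97 x46 x86 go351
lemma ch352 : Good 0 ![w94, w28, w19, w97, w48, w86] :=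
  good_of _ _ _ _ _ _ _ x94 x28 x19 x97 x48 x86 go352
lemma ch353 : Good 0 ![w93, w28, w94, w97, w48, w86] :=
  good_of _ _ _ _ _ _ _ x93 x28 x94 x97 x48 x86 go353
lemma ch354 : Good 0 ![w93, w90, w28, w97, w46, w86] :=
  good_of _ _ _ _ _ _ _ x93 x90 x28 x97 x46 x86 go354
lemma ch355 : Good 0 ![w93, w98, w28, w97, w46, w90] :=
  good_of _ _ _ _ _ _ _ x93 x98 x28 x97 x46 x90 go355
lemma ch356 : Good 0 ![w93, w47, w28, w98, w46, w90] :=
  good_of _ _ _ _ _ _ _ x93 x47 x28 x98 x46 x90 go356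
lemma ch357 : Good 0 ![w99, w10, w28, w98, w47, w90] :=
  good_of _ _ _ _ _ _ _ x99 x10 x28 x98 x47 x90 go357
lemma ch358 : Good 0 ![w93, w99, w28, w98, w47, w90] :=
  good_of _ _ _ _ _ _ _ x93 x99 x28 x98 x47 x90 go358
lemma ch359 : Good 0 ![w92, w93, w19, w97, w46, w86] :=
  good_of _ _ _ _ _ _ _ x92 x93 x19 x97 x46 x86 go359
lemma ch360 : Good 0 ![w91, w10, w92, w95, w45, w82] :=
  good_of _ _ _ _ _ _ _ x91 x10 x92 x95 x45 x82 go360
lemma ch361 : Good 0 ![w91, w83, w19, w12, w95, w82] :=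
  good_of _ _ _ _ _ _ _ x91 x83 x19 x12 x95 x82 go361
lemma ch362 : Good 0 ![w92, w96, w19, w83, w95, w82] :=
  good_of _ _ _ _ _ _ _ x92 x96 x19 x83 x95 x82 go362
lemma ch363 : Good 0 ![w92, w84, w19, w83, w96, w82] :=
  good_of _ _ _ _ _ _ _ x92 x84 x19 x83 x96 x82 go363
lemma ch364 : Good 0 ![w92, w85, w19, w83, w96, w84] :=
  good_of _ _ _ _ _ _ _ x92 x85 x19 x83 x96 x84 go364
lemma ch365 : Good 0 ![w93, w10, w86, w85, w96, w84] :=
  good_of _ _ _ _ _ _ _ x93 x10 x86 x85 x96 x84 go365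
lemma ch366 : Good 0 ![w93, w10, w97, w85, w96, w86] :=
  good_of _ _ _ _ _ _ _ x93 x10 x97 x85 x96 x86 go366
lemma ch367 : Good 0 ![w93, w28, w87, w85, w97, w86] :=
  good_of _ _ _ _ _ _ _ x93 x28 x87 x85 x97 x86 go367
lemma ch368 : Good 0 ![w94, w28, w19, w87, w97, w86] :=
  good_of _ _ _ _ _ _ _ x94 x28 x19 x87 x97 x86 go368
lemma ch369 : Good 0 ![w93, w28, w94, w87, w97, w86] :=
  good_of _ _ _ _ _ _ _ x93 x28 x94 x87 x97 x86 go369
lemma ch370 : Good 0 ![w93, w90, w28, w85, w97, w86] :=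
  good_of _ _ _ _ _ _ _ x93 x90 x28 x85 x97 x86 go370
lemma ch371 : Good 0 ![w93, w98, w28, w85, w97, w90] :=
  good_of _ _ _ _ _ _ _ x93 x98 x28 x85 x97 x90 go371
lemma ch372 : Good 0 ![w99, w89, w28, w85, w98, w90] :=
  good_of _ _ _ _ _ _ _ x99 x89 x28 x85 x98 x90 go372
lemma ch373 : Good 0 ![w99, w40, w28, w89, w98, w90] :=
  good_of _ _ _ _ _ _ _ x99 x40 x28 x89 x98 x90 go373
lemma ch374 : Good 0 ![w99, w10, w40, w89, w98, w90] :=
  good_of _ _ _ _ _ _ _ x99 x10 x40 x89 x98 x90 go374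
lemma ch375 : Good 0 ![w93, w99, w28, w85, w98, w90] :=
  good_of _ _ _ _ _ _ _ x93 x99 x28 x85 x98 x90 go375
lemma ch376 : Good 0 ![w92, w93, w19, w85, w96, w84] :=
  good_of _ _ _ _ _ _ _ x92 x93 x19 x85 x96 x84 go376
lemma ch377 : Good 0 ![w91, w10, w92, w83, w95, w82] :=
  good_of _ _ _ _ _ _ _ x91 x10 x92 x83 x95 x82 go377
lemma ch378 : Good 0 ![w61, w10, w45, w91, w44, w13] :=
  good_of _ _ _ _ _ _ _ x61 x10 x45 x91 x44 x13 go378
lemma ch379 : Good 0 ![w61, w10, w41, w91, w45, w13] :=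
  good_of _ _ _ _ _ _ _ x61 x10 x41 x91 x45 x13 go379
lemma ch380 : Good 0 ![w61, w10, w92, w91, w45, w41] :=
  good_of _ _ _ _ _ _ _ x61 x10 x92 x91 x45 x41 go380
lemma ch381 : Good 0 ![w62, w42, w19, w92, w45, w41] :=
  good_of _ _ _ _ _ _ _ x62 x42 x19 x92 x45 x41 go381
lemma ch382 : Good 0 ![w62, w46, w63, w92, w45, w42] :=
  good_of _ _ _ _ _ _ _ x62 x46 x63 x92 x45 x42 go382
lemma ch383 : Good 0 ![w62, w46, w53, w92, w63, w42] :=
  good_of _ _ _ _ _ _ _ x62 x46 x53 x92 x63 x42 go383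
lemma ch384 : Good 0 ![w62, w48, w19, w92, w63, w53] :=
  good_of _ _ _ _ _ _ _ x62 x48 x19 x92 x63 x53 go384
lemma ch385 : Good 0 ![w62, w46, w48, w92, w63, w53] :=
  good_of _ _ _ _ _ _ _ x62 x46 x48 x92 x63 x53 go385
lemma ch386 : Good 0 ![w62, w28, w100, w92, w46, w42] :=
  good_of _ _ _ _ _ _ _ x62 x28 x100 x92 x46 x42 go386
lemma ch387 : Good 0 ![w62, w28, w53, w100, w46, w42] :=
  good_of _ _ _ _ _ _ _ x62 x28 x53 x100 x46 x42 go387
lemma ch388 : Good 0 ![w62, w28, w48, w100, w46, w53] :=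
  good_of _ _ _ _ _ _ _ x62 x28 x48 x100 x46 x53 go388
lemma ch389 : Good 0 ![w64, w33, w65, w100, w48, w53] :=
  good_of _ _ _ _ _ _ _ x64 x33 x65 x100 x48 x53 go389
lemma ch390 : Good 0 ![w64, w33, w19, w100, w48, w65] :=
  good_of _ _ _ _ _ _ _ x64 x33 x19 x100 x48 x65 go390
lemma ch391 : Good 0 ![w64, w28, w33, w100, w48, w53] :=
  good_of _ _ _ _ _ _ _ x64 x28 x33 x100 x48 x53 go391
lemma ch392 : Good 0 ![w62, w28, w64, w100, w48, w53] :=
  good_of _ _ _ _ _ _ _ x62 x28 x64 x100 x48 x53 go392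
lemma ch393 : Good 0 ![w62, w93, w28, w92, w46, w42] :=
  good_of _ _ _ _ _ _ _ x62 x93 x28 x92 x46 x42 go393
lemma ch394 : Good 0 ![w66, w43, w28, w93, w46, w42] :=
  good_of _ _ _ _ _ _ _ x66 x43 x28 x93 x46 x42 go394
lemma ch395 : Good 0 ![w66, w47, w28, w93, w46, w43] :=
  good_of _ _ _ _ _ _ _ x66 x47 x28 x93 x46 x43 go395
lemma ch396 : Good 0 ![w66, w99, w28, w93, w47, w43] :=
  good_of _ _ _ _ _ _ _ x66 x99 x28 x93 x47 x43 go396
lemma ch397 : Good 0 ![w67, w10, w28, w99, w47, w43] :=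
  good_of _ _ _ _ _ _ _ x67 x10 x28 x99 x47 x43 go397
lemma ch398 : Good 0 ![w66, w67, w28, w99, w47, w43] :=
  good_of _ _ _ _ _ _ _ x66 x67 x28 x99 x47 x43 go398
lemma ch399 : Good 0 ![w62, w66, w28, w93, w46, w42] :=
  good_of _ _ _ _ _ _ _ x62 x66 x28 x93 x46 x42 go399
lemma ch400 : Good 0 ![w61, w10, w62, w92, w45, w41] :=
  good_of _ _ _ _ _ _ _ x61 x10 x62 x92 x45 x41 go400
lemma ch401 : Good 0 ![w0, w10, w61, w91, w44, w13] :=
  good_of _ _ _ _ _ _ _ x0 x10 x61 x91 x44 x13 go401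
lemma ch402 : Good 0 ![w15, w68, w19, w12, w4, w7] :=
  good_of _ _ _ _ _ _ _ x15 x68 x19 x12 x4 x7 go402
lemma ch403 : Good 0 ![w15, w18, w19, w12, w4, w68] :=
  good_of _ _ _ _ _ _ _ x15 x18 x19 x12 x4 x68 go403
lemma ch404 : Good 0 ![w69, w70, w19, w12, w18, w68] :=
  good_of _ _ _ _ _ _ _ x69 x70 x19 x12 x18 x68 go404
lemma ch405 : Good 0 ![w69, w83, w19, w12, w18, w70] :=
  good_of _ _ _ _ _ _ _ x69 x83 x19 x12 x18 x70 go405
lemma ch406 : Good 0 ![w69, w24, w19, w83, w18, w70] :=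
  good_of _ _ _ _ _ _ _ x69 x24 x19 x83 x18 x70 go406
lemma ch407 : Good 0 ![w71, w10, w72, w83, w24, w70] :=
  good_of _ _ _ _ _ _ _ x71 x10 x72 x83 x24 x70 go407
lemma ch408 : Good 0 ![w71, w85, w19, w83, w24, w72] :=
  good_of _ _ _ _ _ _ _ x71 x85 x19 x83 x24 x72 go408
lemma ch409 : Good 0 ![w71, w28, w30, w85, w24, w72] :=
  good_of _ _ _ _ _ _ _ x71 x28 x30 x85 x24 x72 go409
lemma ch410 : Good 0 ![w71, w28, w87, w85, w30, w72] :=
  good_of _ _ _ _ _ _ _ x71 x28 x87 x85 x30 x72 go410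
lemma ch411 : Good 0 ![w73, w28, w74, w87, w30, w72] :=
  good_of _ _ _ _ _ _ _ x73 x28 x74 x87 x30 x72 go411
lemma ch412 : Good 0 ![w73, w33, w19, w87, w30, w74] :=
  good_of _ _ _ _ _ _ _ x73 x33 x19 x87 x30 x74 go412
lemma ch413 : Good 0 ![w73, w28, w33, w87, w30, w74] :=
  good_of _ _ _ _ _ _ _ x73 x28 x33 x87 x30 x74 go413
lemma ch414 : Good 0 ![w71, w28, w73, w87, w30, w72] :=
  good_of _ _ _ _ _ _ _ x71 x28 x73 x87 x30 x72 go414
lemma ch415 : Good 0 ![w75, w76, w28, w85, w24, w72] :=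
  good_of _ _ _ _ _ _ _ x75 x76 x28 x85 x24 x72 go415
lemma ch416 : Good 0 ![w75, w36, w28, w85, w24, w76] :=
  good_of _ _ _ _ _ _ _ x75 x36 x28 x85 x24 x76 go416
lemma ch417 : Good 0 ![w75, w89, w28, w85, w36, w76] :=
  good_of _ _ _ _ _ _ _ x75 x89 x28 x85 x36 x76 go417
lemma ch418 : Good 0 ![w75, w40, w28, w89, w36, w76] :=
  good_of _ _ _ _ _ _ _ x75 x40 x28 x89 x36 x76 go418
lemma ch419 : Good 0 ![w75, w10, w40, w89, w36, w76] :=
  good_of _ _ _ _ _ _ _ x75 x10 x40 x89 x36 x76 go419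
lemma ch420 : Good 0 ![w71, w75, w28, w85, w24, w72] :=
  good_of _ _ _ _ _ _ _ x71 x75 x28 x85 x24 x72 go420
lemma ch421 : Good 0 ![w69, w10, w71, w83, w24, w70] :=
  good_of _ _ _ _ _ _ _ x69 x10 x71 x83 x24 x70 go421
lemma ch422 : Good 0 ![w15, w69, w19, w12, w18, w68] :=
  good_of _ _ _ _ _ _ _ x15 x69 x19 x12 x18 x68 go422
lemma ch423 : Good 0 ![w44, w18, w19, w12, w4, w15] :=
  good_of _ _ _ _ _ _ _ x44 x18 x19 x12 x4 x15 go423
lemma ch424 : Good 0 ![w44, w10, w77, w12, w18, w15] :=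
  good_of _ _ _ _ _ _ _ x44 x10 x77 x12 x18 x15 go424
lemma ch425 : Good 0 ![w44, w83, w19, w12, w18, w77] :=
  good_of _ _ _ _ _ _ _ x44 x83 x19 x12 x18 x77 go425
lemma ch426 : Good 0 ![w45, w24, w19, w83, w18, w77] :=
  good_of _ _ _ _ _ _ _ x45 x24 x19 x83 x18 x77 go426
lemma ch427 : Good 0 ![w45, w78, w19, w83, w24, w77] :=
  good_of _ _ _ _ _ _ _ x45 x78 x19 x83 x24 x77 go427
lemma ch428 : Good 0 ![w46, w85, w19, w83, w24, w78] :=
  good_of _ _ _ _ _ _ _ x46 x85 x19 x83 x24 x78 go428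
lemma ch429 : Good 0 ![w46, w28, w30, w85, w24, w78] :=
  good_of _ _ _ _ _ _ _ x46 x28 x30 x85 x24 x78 go429
lemma ch430 : Good 0 ![w46, w28, w87, w85, w30, w78] :=
  good_of _ _ _ _ _ _ _ x46 x28 x87 x85 x30 x78 go430
lemma ch431 : Good 0 ![w46, w28, w79, w87, w30, w78] :=
  good_of _ _ _ _ _ _ _ x46 x28 x79 x87 x30 x78 go431
lemma ch432 : Good 0 ![w48, w33, w19, w87, w30, w79] :=
  good_of _ _ _ _ _ _ _ x48 x33 x19 x87 x30 x79 go432
lemma ch433 : Good 0 ![w48, w28, w33, w87, w30, w79] :=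
  good_of _ _ _ _ _ _ _ x48 x28 x33 x87 x30 x79 go433
lemma ch434 : Good 0 ![w46, w28, w48, w87, w30, w79] :=
  good_of _ _ _ _ _ _ _ x46 x28 x48 x87 x30 x79 go434
lemma ch435 : Good 0 ![w46, w36, w28, w85, w24, w78] :=
  good_of _ _ _ _ _ _ _ x46 x36 x28 x85 x24 x78 go435
lemma ch436 : Good 0 ![w46, w80, w28, w85, w36, w78] :=
  good_of _ _ _ _ _ _ _ x46 x80 x28 x85 x36 x78 go436
lemma ch437 : Good 0 ![w47, w89, w28, w85, w36, w80] :=
  good_of _ _ _ _ _ _ _ x47 x89 x28 x85 x36 x80 go437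
lemma ch438 : Good 0 ![w47, w40, w49, w89, w36, w80] :=
  good_of _ _ _ _ _ _ _ x47 x40 x49 x89 x36 x80 go438
lemma ch439 : Good 0 ![w47, w40, w101, w89, w49, w80] :=
  good_of _ _ _ _ _ _ _ x47 x40 x101 x89 x49 x80 go439
lemma ch440 : Good 0 ![w47, w40, w28, w101, w49, w80] :=
  good_of _ _ _ _ _ _ _ x47 x40 x28 x101 x49 x80 go440
lemma ch441 : Good 0 ![w47, w10, w40, w89, w36, w80] :=
  good_of _ _ _ _ _ _ _ x47 x10 x40 x89 x36 x80 go441
lemma ch442 : Good 0 ![w46, w47, w28, w85, w36, w80] :=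
  good_of _ _ _ _ _ _ _ x46 x47 x28 x85 x36 x80 go442
lemma ch443 : Good 0 ![w45, w46, w19, w83, w24, w78] :=
  good_of _ _ _ _ _ _ _ x45 x46 x19 x83 x24 x78 go443
lemma ch444 : Good 0 ![w44, w10, w45, w83, w18, w77] :=
  good_of _ _ _ _ _ _ _ x44 x10 x45 x83 x18 x77 go444
lemma ch445 : Good 0 ![w91, w10, w77, w12, w44, w15] :=
  good_of _ _ _ _ _ _ _ x91 x10 x77 x12 x44 x15 go445
lemma ch446 : Good 0 ![w91, w10, w45, w95, w44, w77] :=
  good_of _ _ _ _ _ _ _ x91 x10 x45 x95 x44 x77 go446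
lemma ch447 : Good 0 ![w92, w96, w19, w95, w45, w77] :=
  good_of _ _ _ _ _ _ _ x92 x96 x19 x95 x45 x77 go447
lemma ch448 : Good 0 ![w92, w78, w19, w96, w45, w77] :=
  good_of _ _ _ _ _ _ _ x92 x78 x19 x96 x45 x77 go448
lemma ch449 : Good 0 ![w92, w46, w19, w96, w45, w78] :=
  good_of _ _ _ _ _ _ _ x92 x46 x19 x96 x45 x78 go449
lemma ch450 : Good 0 ![w92, w10, w97, w96, w46, w78] :=
  good_of _ _ _ _ _ _ _ x92 x10 x97 x96 x46 x78 go450
lemma ch451 : Good 0 ![w93, w28, w79, w97, w46, w78] :=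
  good_of _ _ _ _ _ _ _ x93 x28 x79 x97 x46 x78 go451
lemma ch452 : Good 0 ![w93, w28, w48, w97, w46, w79] :=
  good_of _ _ _ _ _ _ _ x93 x28 x48 x97 x46 x79 go452
lemma ch453 : Good 0 ![w94, w28, w19, w97, w48, w79] :=
  good_of _ _ _ _ _ _ _ x94 x28 x19 x97 x48 x79 go453
lemma ch454 : Good 0 ![w93, w28, w94, w97, w48, w79] :=
  good_of _ _ _ _ _ _ _ x93 x28 x94 x97 x48 x79 go454
lemma ch455 : Good 0 ![w93, w98, w28, w97, w46, w78] :=
  good_of _ _ _ _ _ _ _ x93 x98 x28 x97 x46 x78 go455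
lemma ch456 : Good 0 ![w93, w80, w28, w98, w46, w78] :=
  good_of _ _ _ _ _ _ _ x93 x80 x28 x98 x46 x78 go456
lemma ch457 : Good 0 ![w93, w10, w28, w98, w46, w80] :=
  good_of _ _ _ _ _ _ _ x93 x10 x28 x98 x46 x80 go457
lemma ch458 : Good 0 ![w92, w93, w19, w97, w46, w78] :=
  good_of _ _ _ _ _ _ _ x92 x93 x19 x97 x46 x78 go458
lemma ch459 : Good 0 ![w91, w10, w92, w95, w45, w77] :=
  good_of _ _ _ _ _ _ _ x91 x10 x92 x95 x45 x77 go459
lemma ch460 : Good 0 ![w91, w83, w19, w12, w95, w77] :=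
  good_of _ _ _ _ _ _ _ x91 x83 x19 x12 x95 x77 go460
lemma ch461 : Good 0 ![w92, w96, w19, w83, w95, w77] :=
  good_of _ _ _ _ _ _ _ x92 x96 x19 x83 x95 x77 go461
lemma ch462 : Good 0 ![w92, w78, w19, w83, w96, w77] :=
  good_of _ _ _ _ _ _ _ x92 x78 x19 x83 x96 x77 go462
lemma ch463 : Good 0 ![w92, w85, w19, w83, w96, w78] :=
  good_of _ _ _ _ _ _ _ x92 x85 x19 x83 x96 x78 go463
lemma ch464 : Good 0 ![w93, w10, w97, w85, w96, w78] :=
  good_of _ _ _ _ _ _ _ x93 x10 x97 x85 x96 x78 go464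
lemma ch465 : Good 0 ![w93, w28, w87, w85, w97, w78] :=
  good_of _ _ _ _ _ _ _ x93 x28 x87 x85 x97 x78 go465
lemma ch466 : Good 0 ![w93, w28, w79, w87, w97, w78] :=
  good_of _ _ _ _ _ _ _ x93 x28 x79 x87 x97 x78 go466
lemma ch467 : Good 0 ![w94, w33, w19, w87, w97, w79] :=
  good_of _ _ _ _ _ _ _ x94 x33 x19 x87 x97 x79 go467
lemma ch468 : Good 0 ![w94, w28, w33, w87, w97, w79] :=
  good_of _ _ _ _ _ _ _ x94 x28 x33 x87 x97 x79 go468
lemma ch469 : Good 0 ![w93, w28, w94, w87, w97, w79] :=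
  good_of _ _ _ _ _ _ _ x93 x28 x94 x87 x97 x79 go469
lemma ch470 : Good 0 ![w93, w98, w28, w85, w97, w78] :=
  good_of _ _ _ _ _ _ _ x93 x98 x28 x85 x97 x78 go470
lemma ch471 : Good 0 ![w93, w80, w28, w85, w98, w78] :=
  good_of _ _ _ _ _ _ _ x93 x80 x28 x85 x98 x78 go471
lemma ch472 : Good 0 ![w99, w89, w28, w85, w98, w80] :=
  good_of _ _ _ _ _ _ _ x99 x89 x28 x85 x98 x80 go472
lemma ch473 : Good 0 ![w99, w40, w101, w89, w98, w80] :=
  good_of _ _ _ _ _ _ _ x99 x40 x101 x89 x98 x80 go473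
lemma ch474 : Good 0 ![w99, w40, w28, w101, w98, w80] :=
  good_of _ _ _ _ _ _ _ x99 x40 x28 x101 x98 x80 go474
lemma ch475 : Good 0 ![w99, w10, w40, w89, w98, w80] :=
  good_of _ _ _ _ _ _ _ x99 x10 x40 x89 x98 x80 go475
lemma ch476 : Good 0 ![w93, w99, w28, w85, w98, w80] :=
  good_of _ _ _ _ _ _ _ x93 x99 x28 x85 x98 x80 go476
lemma ch477 : Good 0 ![w92, w93, w19, w85, w96, w78] :=
  good_of _ _ _ _ _ _ _ x92 x93 x19 x85 x96 x78 go477
lemma ch478 : Good 0 ![w91, w10, w92, w83, w95, w77] :=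
  good_of _ _ _ _ _ _ _ x91 x10 x92 x83 x95 x77 go478
lemma ch479 : Good 0 ![w61, w10, w77, w91, w44, w15] :=
  good_of _ _ _ _ _ _ _ x61 x10 x77 x91 x44 x15 go479
lemma ch480 : Good 0 ![w61, w10, w45, w91, w44, w77] :=
  good_of _ _ _ _ _ _ _ x61 x10 x45 x91 x44 x77 go480
lemma ch481 : Good 0 ![w61, w10, w92, w91, w45, w77] :=
  good_of _ _ _ _ _ _ _ x61 x10 x92 x91 x45 x77 go481
lemma ch482 : Good 0 ![w62, w78, w19, w92, w45, w77] :=
  good_of _ _ _ _ _ _ _ x62 x78 x19 x92 x45 x77 go482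
lemma ch483 : Good 0 ![w62, w46, w19, w92, w45, w78] :=
  good_of _ _ _ _ _ _ _ x62 x46 x19 x92 x45 x78 go483
lemma ch484 : Good 0 ![w62, w28, w79, w92, w46, w78] :=
  good_of _ _ _ _ _ _ _ x62 x28 x79 x92 x46 x78 go484
lemma ch485 : Good 0 ![w62, w28, w100, w92, w46, w79] :=
  good_of _ _ _ _ _ _ _ x62 x28 x100 x92 x46 x79 go485
lemma ch486 : Good 0 ![w62, w28, w48, w100, w46, w79] :=
  good_of _ _ _ _ _ _ _ x62 x28 x48 x100 x46 x79 go486
lemma ch487 : Good 0 ![w64, w33, w19, w100, w48, w79] :=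
  good_of _ _ _ _ _ _ _ x64 x33 x19 x100 x48 x79 go487
lemma ch488 : Good 0 ![w64, w28, w33, w100, w48, w79] :=
  good_of _ _ _ _ _ _ _ x64 x28 x33 x100 x48 x79 go488
lemma ch489 : Good 0 ![w62, w28, w64, w100, w48, w79] :=
  good_of _ _ _ _ _ _ _ x62 x28 x64 x100 x48 x79 go489
lemma ch490 : Good 0 ![w62, w93, w28, w92, w46, w78] :=
  good_of _ _ _ _ _ _ _ x62 x93 x28 x92 x46 x78 go490
lemma ch491 : Good 0 ![w66, w80, w28, w93, w46, w78] :=
  good_of _ _ _ _ _ _ _ x66 x80 x28 x93 x46 x78 go491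
lemma ch492 : Good 0 ![w66, w47, w28, w93, w46, w80] :=
  good_of _ _ _ _ _ _ _ x66 x47 x28 x93 x46 x80 go492
lemma ch493 : Good 0 ![w66, w99, w28, w93, w47, w80] :=
  good_of _ _ _ _ _ _ _ x66 x99 x28 x93 x47 x80 go493
lemma ch494 : Good 0 ![w67, w10, w28, w99, w47, w80] :=
  good_of _ _ _ _ _ _ _ x67 x10 x28 x99 x47 x80 go494
lemma ch495 : Good 0 ![w66, w67, w28, w99, w47, w80] :=
  good_of _ _ _ _ _ _ _ x66 x67 x28 x99 x47 x80 go495
lemma ch496 : Good 0 ![w62, w66, w28, w93, w46, w78] :=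
  good_of _ _ _ _ _ _ _ x62 x66 x28 x93 x46 x78 go496
lemma ch497 : Good 0 ![w61, w10, w62, w92, w45, w77] :=
  good_of _ _ _ _ _ _ _ x61 x10 x62 x92 x45 x77 go497
lemma ch498 : Good 0 ![w0, w10, w61, w91, w44, w15] :=
  good_of _ _ _ _ _ _ _ x0 x10 x61 x91 x44 x15 go498
lemma ch499 : Good 0 ![w13, w102, w19, w12, w14, w5] :=
  good_of _ _ _ _ _ _ _ x13 x102 x19 x12 x14 x5 go499
lemma ch500 : Good 0 ![w13, w20, w19, w12, w102, w5] :=
  good_of _ _ _ _ _ _ _ x13 x20 x19 x12 x102 x5 go500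
lemma ch501 : Good 0 ![w82, w83, w19, w12, w102, w20] :=
  good_of _ _ _ _ _ _ _ x82 x83 x19 x12 x102 x20 go501
lemma ch502 : Good 0 ![w84, w103, w19, w83, w102, w20] :=
  good_of _ _ _ _ _ _ _ x84 x103 x19 x83 x102 x20 go502
lemma ch503 : Good 0 ![w84, w25, w19, w83, w103, w20] :=
  good_of _ _ _ _ _ _ _ x84 x25 x19 x83 x103 x20 go503
lemma ch504 : Good 0 ![w84, w85, w19, w83, w103, w25] :=
  good_of _ _ _ _ _ _ _ x84 x85 x19 x83 x103 x25 go504
lemma ch505 : Good 0 ![w86, w28, w29, w85, w103, w25] :=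
  good_of _ _ _ _ _ _ _ x86 x28 x29 x85 x103 x25 go505
lemma ch506 : Good 0 ![w86, w28, w104, w85, w103, w29] :=
  good_of _ _ _ _ _ _ _ x86 x28 x104 x85 x103 x29 go506
lemma ch507 : Good 0 ![w86, w28, w87, w85, w104, w29] :=
  good_of _ _ _ _ _ _ _ x86 x28 x87 x85 x104 x29 go507
lemma ch508 : Good 0 ![w86, w28, w32, w87, w104, w29] :=
  good_of _ _ _ _ _ _ _ x86 x28 x32 x87 x104 x29 go508
lemma ch509 : Good 0 ![w86, w33, w19, w87, w104, w32] :=
  good_of _ _ _ _ _ _ _ x86 x33 x19 x87 x104 x32 go509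
lemma ch510 : Good 0 ![w86, w28, w33, w87, w104, w32] :=
  good_of _ _ _ _ _ _ _ x86 x28 x33 x87 x104 x32 go510
lemma ch511 : Good 0 ![w84, w28, w86, w85, w103, w25] :=
  good_of _ _ _ _ _ _ _ x84 x28 x86 x85 x103 x25 go511
lemma ch512 : Good 0 ![w88, w35, w28, w85, w103, w25] :=
  good_of _ _ _ _ _ _ _ x88 x35 x28 x85 x103 x25 go512
lemma ch513 : Good 0 ![w88, w105, w28, w85, w103, w35] :=
  good_of _ _ _ _ _ _ _ x88 x105 x28 x85 x103 x35 go513
lemma ch514 : Good 0 ![w88, w89, w28, w85, w105, w35] :=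
  good_of _ _ _ _ _ _ _ x88 x89 x28 x85 x105 x35 go514
lemma ch515 : Good 0 ![w88, w10, w38, w89, w105, w35] :=
  good_of _ _ _ _ _ _ _ x88 x10 x38 x89 x105 x35 go515
lemma ch516 : Good 0 ![w90, w40, w28, w89, w105, w38] :=
  good_of _ _ _ _ _ _ _ x90 x40 x28 x89 x105 x38 go516
lemma ch517 : Good 0 ![w90, w10, w40, w89, w105, w38] :=
  good_of _ _ _ _ _ _ _ x90 x10 x40 x89 x105 x38 go517
lemma ch518 : Good 0 ![w88, w10, w90, w89, w105, w38] :=
  good_of _ _ _ _ _ _ _ x88 x10 x90 x89 x105 x38 go518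
lemma ch519 : Good 0 ![w84, w88, w28, w85, w103, w25] :=
  good_of _ _ _ _ _ _ _ x84 x88 x28 x85 x103 x25 go519
lemma ch520 : Good 0 ![w82, w84, w19, w83, w102, w20] :=
  good_of _ _ _ _ _ _ _ x82 x84 x19 x83 x102 x20 go520
lemma ch521 : Good 0 ![w41, w84, w19, w82, w102, w20] :=
  good_of _ _ _ _ _ _ _ x41 x84 x19 x82 x102 x20 go521
lemma ch522 : Good 0 ![w41, w103, w19, w84, w102, w20] :=
  good_of _ _ _ _ _ _ _ x41 x103 x19 x84 x102 x20 go522
lemma ch523 : Good 0 ![w41, w25, w19, w84, w103, w20] :=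
  good_of _ _ _ _ _ _ _ x41 x25 x19 x84 x103 x20 go523
lemma ch524 : Good 0 ![w42, w28, w86, w84, w103, w25] :=
  good_of _ _ _ _ _ _ _ x42 x28 x86 x84 x103 x25 go524
lemma ch525 : Good 0 ![w42, w28, w29, w86, w103, w25] :=
  good_of _ _ _ _ _ _ _ x42 x28 x29 x86 x103 x25 go525
lemma ch526 : Good 0 ![w42, w28, w104, w86, w103, w29] :=
  good_of _ _ _ _ _ _ _ x42 x28 x104 x86 x103 x29 go526
lemma ch527 : Good 0 ![w42, w28, w19, w86, w104, w29] :=
  good_of _ _ _ _ _ _ _ x42 x28 x19 x86 x104 x29 go527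
lemma ch528 : Good 0 ![w42, w88, w28, w84, w103, w25] :=
  good_of _ _ _ _ _ _ _ x42 x88 x28 x84 x103 x25 go528
lemma ch529 : Good 0 ![w42, w35, w28, w88, w103, w25] :=
  good_of _ _ _ _ _ _ _ x42 x35 x28 x88 x103 x25 go529
lemma ch530 : Good 0 ![w42, w105, w28, w88, w103, w35] :=
  good_of _ _ _ _ _ _ _ x42 x105 x28 x88 x103 x35 go530
lemma ch531 : Good 0 ![w43, w10, w90, w88, w105, w35] :=
  good_of _ _ _ _ _ _ _ x43 x10 x90 x88 x105 x35 go531
lemma ch532 : Good 0 ![w43, w10, w38, w90, w105, w35] :=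
  good_of _ _ _ _ _ _ _ x43 x10 x38 x90 x105 x35 go532
lemma ch533 : Good 0 ![w43, w40, w28, w90, w105, w38] :=
  good_of _ _ _ _ _ _ _ x43 x40 x28 x90 x105 x38 go533
lemma ch534 : Good 0 ![w43, w10, w40, w90, w105, w38] :=
  good_of _ _ _ _ _ _ _ x43 x10 x40 x90 x105 x38 go534
lemma ch535 : Good 0 ![w42, w43, w28, w88, w105, w35] :=
  good_of _ _ _ _ _ _ _ x42 x43 x28 x88 x105 x35 go535
lemma ch536 : Good 0 ![w41, w42, w19, w84, w103, w25] :=
  good_of _ _ _ _ _ _ _ x41 x42 x19 x84 x103 x25 go536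
lemma ch537 : Good 0 ![w13, w10, w41, w82, w102, w20] :=
  good_of _ _ _ _ _ _ _ x13 x10 x41 x82 x102 x20 go537
lemma ch538 : Good 0 ![w106, w102, w19, w12, w14, w13] :=
  good_of _ _ _ _ _ _ _ x106 x102 x19 x12 x14 x13 go538
lemma ch539 : Good 0 ![w107, w10, w41, w82, w102, w13] :=
  good_of _ _ _ _ _ _ _ x107 x10 x41 x82 x102 x13 go539
lemma ch540 : Good 0 ![w107, w84, w19, w82, w102, w41] :=
  good_of _ _ _ _ _ _ _ x107 x84 x19 x82 x102 x41 go540
lemma ch541 : Good 0 ![w107, w103, w19, w84, w102, w41] :=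
  good_of _ _ _ _ _ _ _ x107 x103 x19 x84 x102 x41 go541
lemma ch542 : Good 0 ![w107, w42, w19, w84, w103, w41] :=
  good_of _ _ _ _ _ _ _ x107 x42 x19 x84 x103 x41 go542
lemma ch543 : Good 0 ![w108, w10, w86, w84, w103, w42] :=
  good_of _ _ _ _ _ _ _ x108 x10 x86 x84 x103 x42 go543
lemma ch544 : Good 0 ![w108, w28, w104, w86, w103, w42] :=
  good_of _ _ _ _ _ _ _ x108 x28 x104 x86 x103 x42 go544
lemma ch545 : Good 0 ![w108, w28, w19, w86, w104, w42] :=
  good_of _ _ _ _ _ _ _ x108 x28 x19 x86 x104 x42 go545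
lemma ch546 : Good 0 ![w108, w90, w28, w86, w103, w42] :=
  good_of _ _ _ _ _ _ _ x108 x90 x28 x86 x103 x42 go546
lemma ch547 : Good 0 ![w108, w105, w28, w90, w103, w42] :=
  good_of _ _ _ _ _ _ _ x108 x105 x28 x90 x103 x42 go547
lemma ch548 : Good 0 ![w108, w43, w28, w90, w105, w42] :=
  good_of _ _ _ _ _ _ _ x108 x43 x28 x90 x105 x42 go548
lemma ch549 : Good 0 ![w109, w40, w28, w90, w105, w43] :=
  good_of _ _ _ _ _ _ _ x109 x40 x28 x90 x105 x43 go549
lemma ch550 : Good 0 ![w109, w10, w40, w90, w105, w43] :=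
  good_of _ _ _ _ _ _ _ x109 x10 x40 x90 x105 x43 go550
lemma ch551 : Good 0 ![w108, w109, w28, w90, w105, w43] :=
  good_of _ _ _ _ _ _ _ x108 x109 x28 x90 x105 x43 go551
lemma ch552 : Good 0 ![w107, w108, w19, w84, w103, w42] :=
  good_of _ _ _ _ _ _ _ x107 x108 x19 x84 x103 x42 go552
lemma ch553 : Good 0 ![w106, w10, w107, w82, w102, w13] :=
  good_of _ _ _ _ _ _ _ x106 x10 x107 x82 x102 x13 go553
lemma ch554 : Good 0 ![w106, w83, w19, w12, w102, w82] :=
  good_of _ _ _ _ _ _ _ x106 x83 x19 x12 x102 x82 go554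
lemma ch555 : Good 0 ![w107, w84, w19, w83, w102, w82] :=
  good_of _ _ _ _ _ _ _ x107 x84 x19 x83 x102 x82 go555
lemma ch556 : Good 0 ![w107, w103, w19, w83, w102, w84] :=
  good_of _ _ _ _ _ _ _ x107 x103 x19 x83 x102 x84 go556
lemma ch557 : Good 0 ![w108, w85, w19, w83, w103, w84] :=
  good_of _ _ _ _ _ _ _ x108 x85 x19 x83 x103 x84 go557
lemma ch558 : Good 0 ![w108, w10, w86, w85, w103, w84] :=
  good_of _ _ _ _ _ _ _ x108 x10 x86 x85 x103 x84 go558
lemma ch559 : Good 0 ![w108, w28, w104, w85, w103, w86] :=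
  good_of _ _ _ _ _ _ _ x108 x28 x104 x85 x103 x86 go559
lemma ch560 : Good 0 ![w108, w28, w87, w85, w104, w86] :=
  good_of _ _ _ _ _ _ _ x108 x28 x87 x85 x104 x86 go560
lemma ch561 : Good 0 ![w110, w28, w19, w87, w104, w86] :=
  good_of _ _ _ _ _ _ _ x110 x28 x19 x87 x104 x86 go561
lemma ch562 : Good 0 ![w108, w28, w110, w87, w104, w86] :=
  good_of _ _ _ _ _ _ _ x108 x28 x110 x87 x104 x86 go562
lemma ch563 : Good 0 ![w108, w90, w28, w85, w103, w86] :=
  good_of _ _ _ _ _ _ _ x108 x90 x28 x85 x103 x86 go563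
lemma ch564 : Good 0 ![w108, w105, w28, w85, w103, w90] :=
  good_of _ _ _ _ _ _ _ x108 x105 x28 x85 x103 x90 go564
lemma ch565 : Good 0 ![w109, w89, w28, w85, w105, w90] :=
  good_of _ _ _ _ _ _ _ x109 x89 x28 x85 x105 x90 go565
lemma ch566 : Good 0 ![w109, w40, w111, w89, w105, w90] :=
  good_of _ _ _ _ _ _ _ x109 x40 x111 x89 x105 x90 go566
lemma ch567 : Good 0 ![w109, w40, w28, w89, w111, w90] :=
  good_of _ _ _ _ _ _ _ x109 x40 x28 x89 x111 x90 go567
lemma ch568 : Good 0 ![w109, w10, w40, w89, w105, w90] :=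
  good_of _ _ _ _ _ _ _ x109 x10 x40 x89 x105 x90 go568
lemma ch569 : Good 0 ![w108, w109, w28, w85, w105, w90] :=
  good_of _ _ _ _ _ _ _ x108 x109 x28 x85 x105 x90 go569
lemma ch570 : Good 0 ![w107, w108, w19, w83, w103, w84] :=
  good_of _ _ _ _ _ _ _ x107 x108 x19 x83 x103 x84 go570
lemma ch571 : Good 0 ![w106, w10, w107, w83, w102, w82] :=
  good_of _ _ _ _ _ _ _ x106 x10 x107 x83 x102 x82 go571
lemma ch572 : Good 0 ![w91, w10, w107, w82, w106, w13] :=
  good_of _ _ _ _ _ _ _ x91 x10 x107 x82 x106 x13 go572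
lemma ch573 : Good 0 ![w91, w10, w41, w82, w107, w13] :=
  good_of _ _ _ _ _ _ _ x91 x10 x41 x82 x107 x13 go573
lemma ch574 : Good 0 ![w92, w84, w19, w82, w107, w41] :=
  good_of _ _ _ _ _ _ _ x92 x84 x19 x82 x107 x41 go574
lemma ch575 : Good 0 ![w92, w42, w19, w84, w107, w41] :=
  good_of _ _ _ _ _ _ _ x92 x42 x19 x84 x107 x41 go575
lemma ch576 : Good 0 ![w92, w108, w19, w84, w107, w42] :=
  good_of _ _ _ _ _ _ _ x92 x108 x19 x84 x107 x42 go576
lemma ch577 : Good 0 ![w92, w10, w86, w84, w108, w42] :=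
  good_of _ _ _ _ _ _ _ x92 x10 x86 x84 x108 x42 go577
lemma ch578 : Good 0 ![w93, w28, w53, w86, w108, w42] :=
  good_of _ _ _ _ _ _ _ x93 x28 x53 x86 x108 x42 go578
lemma ch579 : Good 0 ![w93, w28, w110, w86, w108, w53] :=
  good_of _ _ _ _ _ _ _ x93 x28 x110 x86 x108 x53 go579
lemma ch580 : Good 0 ![w94, w33, w19, w86, w110, w53] :=
  good_of _ _ _ _ _ _ _ x94 x33 x19 x86 x110 x53 go580
lemma ch581 : Good 0 ![w94, w28, w33, w86, w110, w53] :=
  good_of _ _ _ _ _ _ _ x94 x28 x33 x86 x110 x53 go581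
lemma ch582 : Good 0 ![w93, w28, w94, w86, w110, w53] :=
  good_of _ _ _ _ _ _ _ x93 x28 x94 x86 x110 x53 go582
lemma ch583 : Good 0 ![w93, w90, w28, w86, w108, w42] :=
  good_of _ _ _ _ _ _ _ x93 x90 x28 x86 x108 x42 go583
lemma ch584 : Good 0 ![w93, w43, w28, w90, w108, w42] :=
  good_of _ _ _ _ _ _ _ x93 x43 x28 x90 x108 x42 go584
lemma ch585 : Good 0 ![w93, w10, w28, w90, w108, w43] :=
  good_of _ _ _ _ _ _ _ x93 x10 x28 x90 x108 x43 go585
lemma ch586 : Good 0 ![w92, w93, w19, w86, w108, w42] :=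
  good_of _ _ _ _ _ _ _ x92 x93 x19 x86 x108 x42 go586
lemma ch587 : Good 0 ![w91, w10, w92, w82, w107, w41] :=
  good_of _ _ _ _ _ _ _ x91 x10 x92 x82 x107 x41 go587
lemma ch588 : Good 0 ![w91, w10, w107, w112, w106, w82] :=
  good_of _ _ _ _ _ _ _ x91 x10 x107 x112 x106 x82 go588
lemma ch589 : Good 0 ![w92, w113, w19, w112, w107, w82] :=
  good_of _ _ _ _ _ _ _ x92 x113 x19 x112 x107 x82 go589
lemma ch590 : Good 0 ![w92, w84, w19, w113, w107, w82] :=
  good_of _ _ _ _ _ _ _ x92 x84 x19 x113 x107 x82 go590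
lemma ch591 : Good 0 ![w92, w108, w19, w113, w107, w84] :=
  good_of _ _ _ _ _ _ _ x92 x108 x19 x113 x107 x84 go591
lemma ch592 : Good 0 ![w92, w10, w86, w113, w108, w84] :=
  good_of _ _ _ _ _ _ _ x92 x10 x86 x113 x108 x84 go592
lemma ch593 : Good 0 ![w92, w10, w114, w113, w108, w86] :=
  good_of _ _ _ _ _ _ _ x92 x10 x114 x113 x108 x86 go593
lemma ch594 : Good 0 ![w93, w28, w110, w114, w108, w86] :=
  good_of _ _ _ _ _ _ _ x93 x28 x110 x114 x108 x86 go594
lemma ch595 : Good 0 ![w94, w28, w19, w114, w110, w86] :=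
  good_of _ _ _ _ _ _ _ x94 x28 x19 x114 x110 x86 go595
lemma ch596 : Good 0 ![w93, w28, w94, w114, w110, w86] :=
  good_of _ _ _ _ _ _ _ x93 x28 x94 x114 x110 x86 go596
lemma ch597 : Good 0 ![w93, w90, w28, w114, w108, w86] :=
  good_of _ _ _ _ _ _ _ x93 x90 x28 x114 x108 x86 go597
lemma ch598 : Good 0 ![w93, w115, w28, w114, w108, w90] :=
  good_of _ _ _ _ _ _ _ x93 x115 x28 x114 x108 x90 go598
lemma ch599 : Good 0 ![w93, w109, w28, w115, w108, w90] :=
  good_of _ _ _ _ _ _ _ x93 x109 x28 x115 x108 x90 go599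
lemma ch600 : Good 0 ![w99, w10, w28, w115, w109, w90] :=
  good_of _ _ _ _ _ _ _ x99 x10 x28 x115 x109 x90 go600
lemma ch601 : Good 0 ![w93, w99, w28, w115, w109, w90] :=
  good_of _ _ _ _ _ _ _ x93 x99 x28 x115 x109 x90 go601
lemma ch602 : Good 0 ![w92, w93, w19, w114, w108, w86] :=
  good_of _ _ _ _ _ _ _ x92 x93 x19 x114 x108 x86 go602
lemma ch603 : Good 0 ![w91, w10, w92, w112, w107, w82] :=
  good_of _ _ _ _ _ _ _ x91 x10 x92 x112 x107 x82 go603
lemma ch604 : Good 0 ![w91, w83, w19, w12, w112, w82] :=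
  good_of _ _ _ _ _ _ _ x91 x83 x19 x12 x112 x82 go604
lemma ch605 : Good 0 ![w92, w113, w19, w83, w112, w82] :=
  good_of _ _ _ _ _ _ _ x92 x113 x19 x83 x112 x82 go605
lemma ch606 : Good 0 ![w92, w84, w19, w83, w113, w82] :=
  good_of _ _ _ _ _ _ _ x92 x84 x19 x83 x113 x82 go606
lemma ch607 : Good 0 ![w92, w85, w19, w83, w113, w84] :=
  good_of _ _ _ _ _ _ _ x92 x85 x19 x83 x113 x84 go607
lemma ch608 : Good 0 ![w93, w10, w86, w85, w113, w84] :=
  good_of _ _ _ _ _ _ _ x93 x10 x86 x85 x113 x84 go608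
lemma ch609 : Good 0 ![w93, w10, w114, w85, w113, w86] :=
  good_of _ _ _ _ _ _ _ x93 x10 x114 x85 x113 x86 go609
lemma ch610 : Good 0 ![w93, w28, w87, w85, w114, w86] :=
  good_of _ _ _ _ _ _ _ x93 x28 x87 x85 x114 x86 go610
lemma ch611 : Good 0 ![w94, w28, w19, w87, w114, w86] :=
  good_of _ _ _ _ _ _ _ x94 x28 x19 x87 x114 x86 go611
lemma ch612 : Good 0 ![w93, w28, w94, w87, w114, w86] :=
  good_of _ _ _ _ _ _ _ x93 x28 x94 x87 x114 x86 go612
lemma ch613 : Good 0 ![w93, w90, w28, w85, w114, w86] :=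
  good_of _ _ _ _ _ _ _ x93 x90 x28 x85 x114 x86 go613
lemma ch614 : Good 0 ![w93, w115, w28, w85, w114, w90] :=
  good_of _ _ _ _ _ _ _ x93 x115 x28 x85 x114 x90 go614
lemma ch615 : Good 0 ![w99, w89, w28, w85, w115, w90] :=
  good_of _ _ _ _ _ _ _ x99 x89 x28 x85 x115 x90 go615
lemma ch616 : Good 0 ![w99, w40, w28, w89, w115, w90] :=
  good_of _ _ _ _ _ _ _ x99 x40 x28 x89 x115 x90 go616
lemma ch617 : Good 0 ![w99, w10, w40, w89, w115, w90] :=
  good_of _ _ _ _ _ _ _ x99 x10 x40 x89 x115 x90 go617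
lemma ch618 : Good 0 ![w93, w99, w28, w85, w115, w90] :=
  good_of _ _ _ _ _ _ _ x93 x99 x28 x85 x115 x90 go618
lemma ch619 : Good 0 ![w92, w93, w19, w85, w113, w84] :=
  good_of _ _ _ _ _ _ _ x92 x93 x19 x85 x113 x84 go619
lemma ch620 : Good 0 ![w91, w10, w92, w83, w112, w82] :=
  good_of _ _ _ _ _ _ _ x91 x10 x92 x83 x112 x82 go620
lemma ch621 : Good 0 ![w61, w10, w107, w91, w106, w13] :=
  good_of _ _ _ _ _ _ _ x61 x10 x107 x91 x106 x13 go621
lemma ch622 : Good 0 ![w61, w10, w41, w91, w107, w13] :=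
  good_of _ _ _ _ _ _ _ x61 x10 x41 x91 x107 x13 go622
lemma ch623 : Good 0 ![w61, w10, w92, w91, w107, w41] :=
  good_of _ _ _ _ _ _ _ x61 x10 x92 x91 x107 x41 go623
lemma ch624 : Good 0 ![w62, w42, w19, w92, w107, w41] :=
  good_of _ _ _ _ _ _ _ x62 x42 x19 x92 x107 x41 go624
lemma ch625 : Good 0 ![w62, w108, w116, w92, w107, w42] :=
  good_of _ _ _ _ _ _ _ x62 x108 x116 x92 x107 x42 go625
lemma ch626 : Good 0 ![w62, w108, w53, w92, w116, w42] :=
  good_of _ _ _ _ _ _ _ x62 x108 x53 x92 x116 x42 go626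
lemma ch627 : Good 0 ![w62, w110, w100, w92, w116, w53] :=
  good_of _ _ _ _ _ _ _ x62 x110 x100 x92 x116 x53 go627
lemma ch628 : Good 0 ![w62, w110, w19, w100, w116, w53] :=
  good_of _ _ _ _ _ _ _ x62 x110 x19 x100 x116 x53 go628
lemma ch629 : Good 0 ![w62, w108, w110, w92, w116, w53] :=
  good_of _ _ _ _ _ _ _ x62 x108 x110 x92 x116 x53 go629
lemma ch630 : Good 0 ![w62, w28, w100, w92, w108, w42] :=
  good_of _ _ _ _ _ _ _ x62 x28 x100 x92 x108 x42 go630
lemma ch631 : Good 0 ![w62, w28, w53, w100, w108, w42] :=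
  good_of _ _ _ _ _ _ _ x62 x28 x53 x100 x108 x42 go631
lemma ch632 : Good 0 ![w62, w28, w110, w100, w108, w53] :=
  good_of _ _ _ _ _ _ _ x62 x28 x110 x100 x108 x53 go632
lemma ch633 : Good 0 ![w64, w33, w65, w100, w110, w53] :=
  good_of _ _ _ _ _ _ _ x64 x33 x65 x100 x110 x53 go633
lemma ch634 : Good 0 ![w64, w33, w19, w100, w110, w65] :=
  good_of _ _ _ _ _ _ _ x64 x33 x19 x100 x110 x65 go634
lemma ch635 : Good 0 ![w64, w28, w33, w100, w110, w53] :=
  good_of _ _ _ _ _ _ _ x64 x28 x33 x100 x110 x53 go635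
lemma ch636 : Good 0 ![w62, w28, w64, w100, w110, w53] :=
  good_of _ _ _ _ _ _ _ x62 x28 x64 x100 x110 x53 go636
lemma ch637 : Good 0 ![w62, w93, w28, w92, w108, w42] :=
  good_of _ _ _ _ _ _ _ x62 x93 x28 x92 x108 x42 go637
lemma ch638 : Good 0 ![w66, w43, w28, w93, w108, w42] :=
  good_of _ _ _ _ _ _ _ x66 x43 x28 x93 x108 x42 go638
lemma ch639 : Good 0 ![w66, w109, w28, w93, w108, w43] :=
  good_of _ _ _ _ _ _ _ x66 x109 x28 x93 x108 x43 go639
lemma ch640 : Good 0 ![w66, w99, w28, w93, w109, w43] :=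
  good_of _ _ _ _ _ _ _ x66 x99 x28 x93 x109 x43 go640
lemma ch641 : Good 0 ![w67, w10, w28, w99, w109, w43] :=
  good_of _ _ _ _ _ _ _ x67 x10 x28 x99 x109 x43 go641
lemma ch642 : Good 0 ![w66, w67, w28, w99, w109, w43] :=
  good_of _ _ _ _ _ _ _ x66 x67 x28 x99 x109 x43 go642
lemma ch643 : Good 0 ![w62, w66, w28, w93, w108, w42] :=
  good_of _ _ _ _ _ _ _ x62 x66 x28 x93 x108 x42 go643
lemma ch644 : Good 0 ![w61, w10, w62, w92, w107, w41] :=
  good_of _ _ _ _ _ _ _ x61 x10 x62 x92 x107 x41 go644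
lemma ch645 : Good 0 ![w0, w10, w61, w91, w106, w13] :=
  good_of _ _ _ _ _ _ _ x0 x10 x61 x91 x106 x13 go645
lemma ch646 : Good 0 ![w15, w68, w19, w12, w16, w7] :=
  good_of _ _ _ _ _ _ _ x15 x68 x19 x12 x16 x7 go646
lemma ch647 : Good 0 ![w15, w117, w19, w12, w16, w68] :=
  good_of _ _ _ _ _ _ _ x15 x117 x19 x12 x16 x68 go647
lemma ch648 : Good 0 ![w69, w70, w19, w12, w117, w68] :=
  good_of _ _ _ _ _ _ _ x69 x70 x19 x12 x117 x68 go648
lemma ch649 : Good 0 ![w69, w83, w19, w12, w117, w70] :=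
  good_of _ _ _ _ _ _ _ x69 x83 x19 x12 x117 x70 go649
lemma ch650 : Good 0 ![w69, w118, w19, w83, w117, w70] :=
  good_of _ _ _ _ _ _ _ x69 x118 x19 x83 x117 x70 go650
lemma ch651 : Good 0 ![w71, w10, w72, w83, w118, w70] :=
  good_of _ _ _ _ _ _ _ x71 x10 x72 x83 x118 x70 go651
lemma ch652 : Good 0 ![w71, w85, w19, w83, w118, w72] :=
  good_of _ _ _ _ _ _ _ x71 x85 x19 x83 x118 x72 go652
lemma ch653 : Good 0 ![w71, w28, w119, w85, w118, w72] :=
  good_of _ _ _ _ _ _ _ x71 x28 x119 x85 x118 x72 go653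
lemma ch654 : Good 0 ![w71, w28, w87, w85, w119, w72] :=
  good_of _ _ _ _ _ _ _ x71 x28 x87 x85 x119 x72 go654
lemma ch655 : Good 0 ![w73, w28, w74, w87, w119, w72] :=
  good_of _ _ _ _ _ _ _ x73 x28 x74 x87 x119 x72 go655
lemma ch656 : Good 0 ![w73, w33, w19, w87, w119, w74] :=
  good_of _ _ _ _ _ _ _ x73 x33 x19 x87 x119 x74 go656
lemma ch657 : Good 0 ![w73, w28, w33, w87, w119, w74] :=
  good_of _ _ _ _ _ _ _ x73 x28 x33 x87 x119 x74 go657
lemma ch658 : Good 0 ![w71, w28, w73, w87, w119, w72] :=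
  good_of _ _ _ _ _ _ _ x71 x28 x73 x87 x119 x72 go658
lemma ch659 : Good 0 ![w75, w76, w28, w85, w118, w72] :=
  good_of _ _ _ _ _ _ _ x75 x76 x28 x85 x118 x72 go659
lemma ch660 : Good 0 ![w75, w120, w28, w85, w118, w76] :=
  good_of _ _ _ _ _ _ _ x75 x120 x28 x85 x118 x76 go660
lemma ch661 : Good 0 ![w75, w89, w28, w85, w120, w76] :=
  good_of _ _ _ _ _ _ _ x75 x89 x28 x85 x120 x76 go661
lemma ch662 : Good 0 ![w75, w40, w28, w89, w120, w76] :=
  good_of _ _ _ _ _ _ _ x75 x40 x28 x89 x120 x76 go662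
lemma ch663 : Good 0 ![w75, w10, w40, w89, w120, w76] :=
  good_of _ _ _ _ _ _ _ x75 x10 x40 x89 x120 x76 go663
lemma ch664 : Good 0 ![w71, w75, w28, w85, w118, w72] :=
  good_of _ _ _ _ _ _ _ x71 x75 x28 x85 x118 x72 go664
lemma ch665 : Good 0 ![w69, w10, w71, w83, w118, w70] :=
  good_of _ _ _ _ _ _ _ x69 x10 x71 x83 x118 x70 go665
lemma ch666 : Good 0 ![w15, w69, w19, w12, w117, w68] :=
  good_of _ _ _ _ _ _ _ x15 x69 x19 x12 x117 x68 go666
lemma ch667 : Good 0 ![w121, w117, w19, w12, w16, w15] :=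
  good_of _ _ _ _ _ _ _ x121 x117 x19 x12 x16 x15 go667
lemma ch668 : Good 0 ![w121, w10, w77, w12, w117, w15] :=
  good_of _ _ _ _ _ _ _ x121 x10 x77 x12 x117 x15 go668
lemma ch669 : Good 0 ![w121, w83, w19, w12, w117, w77] :=
  good_of _ _ _ _ _ _ _ x121 x83 x19 x12 x117 x77 go669
lemma ch670 : Good 0 ![w122, w118, w19, w83, w117, w77] :=
  good_of _ _ _ _ _ _ _ x122 x118 x19 x83 x117 x77 go670
lemma ch671 : Good 0 ![w122, w78, w19, w83, w118, w77] :=
  good_of _ _ _ _ _ _ _ x122 x78 x19 x83 x118 x77 go671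
lemma ch672 : Good 0 ![w123, w85, w19, w83, w118, w78] :=
  good_of _ _ _ _ _ _ _ x123 x85 x19 x83 x118 x78 go672
lemma ch673 : Good 0 ![w123, w28, w119, w85, w118, w78] :=
  good_of _ _ _ _ _ _ _ x123 x28 x119 x85 x118 x78 go673
lemma ch674 : Good 0 ![w123, w28, w87, w85, w119, w78] :=
  good_of _ _ _ _ _ _ _ x123 x28 x87 x85 x119 x78 go674
lemma ch675 : Good 0 ![w123, w28, w79, w87, w119, w78] :=
  good_of _ _ _ _ _ _ _ x123 x28 x79 x87 x119 x78 go675
lemma ch676 : Good 0 ![w124, w33, w19, w87, w119, w79] :=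
  good_of _ _ _ _ _ _ _ x124 x33 x19 x87 x119 x79 go676
lemma ch677 : Good 0 ![w124, w28, w33, w87, w119, w79] :=
  good_of _ _ _ _ _ _ _ x124 x28 x33 x87 x119 x79 go677
lemma ch678 : Good 0 ![w123, w28, w124, w87, w119, w79] :=
  good_of _ _ _ _ _ _ _ x123 x28 x124 x87 x119 x79 go678
lemma ch679 : Good 0 ![w123, w120, w28, w85, w118, w78] :=
  good_of _ _ _ _ _ _ _ x123 x120 x28 x85 x118 x78 go679
lemma ch680 : Good 0 ![w123, w80, w28, w85, w120, w78] :=
  good_of _ _ _ _ _ _ _ x123 x80 x28 x85 x120 x78 go680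
lemma ch681 : Good 0 ![w125, w89, w28, w85, w120, w80] :=
  good_of _ _ _ _ _ _ _ x125 x89 x28 x85 x120 x80 go681
lemma ch682 : Good 0 ![w125, w40, w126, w89, w120, w80] :=
  good_of _ _ _ _ _ _ _ x125 x40 x126 x89 x120 x80 go682
lemma ch683 : Good 0 ![w125, w40, w101, w89, w126, w80] :=
  good_of _ _ _ _ _ _ _ x125 x40 x101 x89 x126 x80 go683
lemma ch684 : Good 0 ![w125, w40, w28, w101, w126, w80] :=
  good_of _ _ _ _ _ _ _ x125 x40 x28 x101 x126 x80 go684
lemma ch685 : Good 0 ![w125, w10, w40, w89, w120, w80] :=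
  good_of _ _ _ _ _ _ _ x125 x10 x40 x89 x120 x80 go685
lemma ch686 : Good 0 ![w123, w125, w28, w85, w120, w80] :=
  good_of _ _ _ _ _ _ _ x123 x125 x28 x85 x120 x80 go686
lemma ch687 : Good 0 ![w122, w123, w19, w83, w118, w78] :=
  good_of _ _ _ _ _ _ _ x122 x123 x19 x83 x118 x78 go687
lemma ch688 : Good 0 ![w121, w10, w122, w83, w117, w77] :=
  good_of _ _ _ _ _ _ _ x121 x10 x122 x83 x117 x77 go688
lemma ch689 : Good 0 ![w91, w10, w77, w12, w121, w15] :=
  good_of _ _ _ _ _ _ _ x91 x10 x77 x12 x121 x15 go689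
lemma ch690 : Good 0 ![w91, w10, w122, w127, w121, w77] :=
  good_of _ _ _ _ _ _ _ x91 x10 x122 x127 x121 x77 go690
lemma ch691 : Good 0 ![w92, w128, w19, w127, w122, w77] :=
  good_of _ _ _ _ _ _ _ x92 x128 x19 x127 x122 x77 go691
lemma ch692 : Good 0 ![w92, w78, w19, w128, w122, w77] :=
  good_of _ _ _ _ _ _ _ x92 x78 x19 x128 x122 x77 go692
lemma ch693 : Good 0 ![w92, w123, w19, w128, w122, w78] :=
  good_of _ _ _ _ _ _ _ x92 x123 x19 x128 x122 x78 go693
lemma ch694 : Good 0 ![w92, w10, w129, w128, w123, w78] :=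
  good_of _ _ _ _ _ _ _ x92 x10 x129 x128 x123 x78 go694
lemma ch695 : Good 0 ![w93, w28, w79, w129, w123, w78] :=
  good_of _ _ _ _ _ _ _ x93 x28 x79 x129 x123 x78 go695
lemma ch696 : Good 0 ![w93, w28, w124, w129, w123, w79] :=
  good_of _ _ _ _ _ _ _ x93 x28 x124 x129 x123 x79 go696
lemma ch697 : Good 0 ![w94, w28, w19, w129, w124, w79] :=
  good_of _ _ _ _ _ _ _ x94 x28 x19 x129 x124 x79 go697
lemma ch698 : Good 0 ![w93, w28, w94, w129, w124, w79] :=
  good_of _ _ _ _ _ _ _ x93 x28 x94 x129 x124 x79 go698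
lemma ch699 : Good 0 ![w93, w130, w28, w129, w123, w78] :=
  good_of _ _ _ _ _ _ _ x93 x130 x28 x129 x123 x78 go699
lemma ch700 : Good 0 ![w93, w80, w28, w130, w123, w78] :=
  good_of _ _ _ _ _ _ _ x93 x80 x28 x130 x123 x78 go700
lemma ch701 : Good 0 ![w93, w10, w28, w130, w123, w80] :=
  good_of _ _ _ _ _ _ _ x93 x10 x28 x130 x123 x80 go701
lemma ch702 : Good 0 ![w92, w93, w19, w129, w123, w78] :=
  good_of _ _ _ _ _ _ _ x92 x93 x19 x129 x123 x78 go702
lemma ch703 : Good 0 ![w91, w10, w92, w127, w122, w77] :=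
  good_of _ _ _ _ _ _ _ x91 x10 x92 x127 x122 x77 go703
lemma ch704 : Good 0 ![w91, w83, w19, w12, w127, w77] :=
  good_of _ _ _ _ _ _ _ x91 x83 x19 x12 x127 x77 go704
lemma ch705 : Good 0 ![w92, w128, w19, w83, w127, w77] :=
  good_of _ _ _ _ _ _ _ x92 x128 x19 x83 x127 x77 go705
lemma ch706 : Good 0 ![w92, w78, w19, w83, w128, w77] :=
  good_of _ _ _ _ _ _ _ x92 x78 x19 x83 x128 x77 go706
lemma ch707 : Good 0 ![w92, w85, w19, w83, w128, w78] :=
  good_of _ _ _ _ _ _ _ x92 x85 x19 x83 x128 x78 go707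
lemma ch708 : Good 0 ![w92, w10, w129, w85, w128, w78] :=
  good_of _ _ _ _ _ _ _ x92 x10 x129 x85 x128 x78 go708
lemma ch709 : Good 0 ![w93, w28, w87, w85, w129, w78] :=
  good_of _ _ _ _ _ _ _ x93 x28 x87 x85 x129 x78 go709
lemma ch710 : Good 0 ![w93, w28, w79, w87, w129, w78] :=
  good_of _ _ _ _ _ _ _ x93 x28 x79 x87 x129 x78 go710
lemma ch711 : Good 0 ![w94, w33, w19, w87, w129, w79] :=
  good_of _ _ _ _ _ _ _ x94 x33 x19 x87 x129 x79 go711
lemma ch712 : Good 0 ![w94, w28, w33, w87, w129, w79] :=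
  good_of _ _ _ _ _ _ _ x94 x28 x33 x87 x129 x79 go712
lemma ch713 : Good 0 ![w93, w28, w94, w87, w129, w79] :=
  good_of _ _ _ _ _ _ _ x93 x28 x94 x87 x129 x79 go713
lemma ch714 : Good 0 ![w93, w130, w28, w85, w129, w78] :=
  good_of _ _ _ _ _ _ _ x93 x130 x28 x85 x129 x78 go714
lemma ch715 : Good 0 ![w93, w80, w28, w85, w130, w78] :=
  good_of _ _ _ _ _ _ _ x93 x80 x28 x85 x130 x78 go715
lemma ch716 : Good 0 ![w99, w89, w28, w85, w130, w80] :=
  good_of _ _ _ _ _ _ _ x99 x89 x28 x85 x130 x80 go716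
lemma ch717 : Good 0 ![w99, w40, w101, w89, w130, w80] :=
  good_of _ _ _ _ _ _ _ x99 x40 x101 x89 x130 x80 go717
lemma ch718 : Good 0 ![w99, w40, w28, w101, w130, w80] :=
  good_of _ _ _ _ _ _ _ x99 x40 x28 x101 x130 x80 go718
lemma ch719 : Good 0 ![w99, w10, w40, w89, w130, w80] :=
  good_of _ _ _ _ _ _ _ x99 x10 x40 x89 x130 x80 go719
lemma ch720 : Good 0 ![w93, w99, w28, w85, w130, w80] :=
  good_of _ _ _ _ _ _ _ x93 x99 x28 x85 x130 x80 go720
lemma ch721 : Good 0 ![w92, w93, w19, w85, w129, w78] :=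
  good_of _ _ _ _ _ _ _ x92 x93 x19 x85 x129 x78 go721
lemma ch722 : Good 0 ![w91, w10, w92, w83, w127, w77] :=
  good_of _ _ _ _ _ _ _ x91 x10 x92 x83 x127 x77 go722
lemma ch723 : Good 0 ![w61, w10, w77, w91, w121, w15] :=
  good_of _ _ _ _ _ _ _ x61 x10 x77 x91 x121 x15 go723
lemma ch724 : Good 0 ![w61, w10, w122, w91, w121, w77] :=
  good_of _ _ _ _ _ _ _ x61 x10 x122 x91 x121 x77 go724
lemma ch725 : Good 0 ![w61, w10, w92, w91, w122, w77] :=
  good_of _ _ _ _ _ _ _ x61 x10 x92 x91 x122 x77 go725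
lemma ch726 : Good 0 ![w62, w78, w19, w92, w122, w77] :=
  good_of _ _ _ _ _ _ _ x62 x78 x19 x92 x122 x77 go726
lemma ch727 : Good 0 ![w62, w123, w131, w92, w122, w78] :=
  good_of _ _ _ _ _ _ _ x62 x123 x131 x92 x122 x78 go727
lemma ch728 : Good 0 ![w62, w123, w79, w92, w131, w78] :=
  good_of _ _ _ _ _ _ _ x62 x123 x79 x92 x131 x78 go728
lemma ch729 : Good 0 ![w62, w123, w19, w92, w131, w79] :=
  good_of _ _ _ _ _ _ _ x62 x123 x19 x92 x131 x79 go729
lemma ch730 : Good 0 ![w62, w28, w79, w92, w123, w78] :=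
  good_of _ _ _ _ _ _ _ x62 x28 x79 x92 x123 x78 go730
lemma ch731 : Good 0 ![w62, w28, w100, w92, w123, w79] :=
  good_of _ _ _ _ _ _ _ x62 x28 x100 x92 x123 x79 go731
lemma ch732 : Good 0 ![w62, w28, w124, w100, w123, w79] :=
  good_of _ _ _ _ _ _ _ x62 x28 x124 x100 x123 x79 go732
lemma ch733 : Good 0 ![w64, w33, w19, w100, w124, w79] :=
  good_of _ _ _ _ _ _ _ x64 x33 x19 x100 x124 x79 go733
lemma ch734 : Good 0 ![w64, w28, w33, w100, w124, w79] :=
  good_of _ _ _ _ _ _ _ x64 x28 x33 x100 x124 x79 go734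
lemma ch735 : Good 0 ![w62, w28, w64, w100, w124, w79] :=
  good_of _ _ _ _ _ _ _ x62 x28 x64 x100 x124 x79 go735
lemma ch736 : Good 0 ![w62, w93, w28, w92, w123, w78] :=
  good_of _ _ _ _ _ _ _ x62 x93 x28 x92 x123 x78 go736
lemma ch737 : Good 0 ![w66, w80, w28, w93, w123, w78] :=
  good_of _ _ _ _ _ _ _ x66 x80 x28 x93 x123 x78 go737
lemma ch738 : Good 0 ![w66, w125, w28, w93, w123, w80] :=
  good_of _ _ _ _ _ _ _ x66 x125 x28 x93 x123 x80 go738
lemma ch739 : Good 0 ![w66, w99, w28, w93, w125, w80] :=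
  good_of _ _ _ _ _ _ _ x66 x99 x28 x93 x125 x80 go739
lemma ch740 : Good 0 ![w67, w10, w28, w99, w125, w80] :=
  good_of _ _ _ _ _ _ _ x67 x10 x28 x99 x125 x80 go740
lemma ch741 : Good 0 ![w66, w67, w28, w99, w125, w80] :=
  good_of _ _ _ _ _ _ _ x66 x67 x28 x99 x125 x80 go741
lemma ch742 : Good 0 ![w62, w66, w28, w93, w123, w78] :=
  good_of _ _ _ _ _ _ _ x62 x66 x28 x93 x123 x78 go742
lemma ch743 : Good 0 ![w61, w10, w62, w92, w122, w77] :=
  good_of _ _ _ _ _ _ _ x61 x10 x62 x92 x122 x77 go743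
lemma ch744 : Good 0 ![w0, w10, w61, w91, w121, w15] :=
  good_of _ _ _ _ _ _ _ x0 x10 x61 x91 x121 x15 go744
lemma ch745 : Good 0 ![w0, w1, w2, w17, w132, w5] :=
  good_of _ _ _ _ _ _ _ x0 x1 x2 x17 x132 x5 go745
lemma ch746 : Good 0 ![w0, w1, w2, w17, w133, w7] :=
  good_of _ _ _ _ _ _ _ x0 x1 x2 x17 x133 x7 go746
lemma ch747 : Good 0 ![w13, w10, w2, w17, w132, w5] :=
  good_of _ _ _ _ _ _ _ x13 x10 x2 x17 x132 x5 go747
lemma ch748 : Good 0 ![w0, w10, w2, w17, w132, w13] :=
  good_of _ _ _ _ _ _ _ x0 x10 x2 x17 x132 x13 go748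
lemma ch749 : Good 0 ![w15, w10, w2, w17, w133, w7] :=
  good_of _ _ _ _ _ _ _ x15 x10 x2 x17 x133 x7 go749
lemma ch750 : Good 0 ![w0, w10, w2, w17, w133, w15] :=
  good_of _ _ _ _ _ _ _ x0 x10 x2 x17 x133 x15 go750
lemma ch751 : Good 0 ![w13, w134, w19, w17, w132, w5] :=
  good_of _ _ _ _ _ _ _ x13 x134 x19 x17 x132 x5 go751
lemma ch752 : Good 0 ![w13, w20, w19, w17, w134, w5] :=
  good_of _ _ _ _ _ _ _ x13 x20 x19 x17 x134 x5 go752
lemma ch753 : Good 0 ![w21, w22, w19, w17, w134, w20] :=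
  good_of _ _ _ _ _ _ _ x21 x22 x19 x17 x134 x20 go753
lemma ch754 : Good 0 ![w23, w135, w19, w22, w134, w20] :=
  good_of _ _ _ _ _ _ _ x23 x135 x19 x22 x134 x20 go754
lemma ch755 : Good 0 ![w23, w25, w19, w22, w135, w20] :=
  good_of _ _ _ _ _ _ _ x23 x25 x19 x22 x135 x20 go755
lemma ch756 : Good 0 ![w23, w26, w19, w22, w135, w25] :=
  good_of _ _ _ _ _ _ _ x23 x26 x19 x22 x135 x25 go756
lemma ch757 : Good 0 ![w27, w28, w29, w26, w135, w25] :=
  good_of _ _ _ _ _ _ _ x27 x28 x29 x26 x135 x25 go757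
lemma ch758 : Good 0 ![w27, w28, w136, w26, w135, w29] :=
  good_of _ _ _ _ _ _ _ x27 x28 x136 x26 x135 x29 go758
lemma ch759 : Good 0 ![w27, w28, w31, w26, w136, w29] :=
  good_of _ _ _ _ _ _ _ x27 x28 x31 x26 x136 x29 go759
lemma ch760 : Good 0 ![w27, w28, w32, w31, w136, w29] :=
  good_of _ _ _ _ _ _ _ x27 x28 x32 x31 x136 x29 go760
lemma ch761 : Good 0 ![w27, w33, w19, w31, w136, w32] :=
  good_of _ _ _ _ _ _ _ x27 x33 x19 x31 x136 x32 go761
lemma ch762 : Good 0 ![w27, w28, w33, w31, w136, w32] :=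
  good_of _ _ _ _ _ _ _ x27 x28 x33 x31 x136 x32 go762
lemma ch763 : Good 0 ![w23, w28, w27, w26, w135, w25] :=
  good_of _ _ _ _ _ _ _ x23 x28 x27 x26 x135 x25 go763
lemma ch764 : Good 0 ![w34, w35, w28, w26, w135, w25] :=
  good_of _ _ _ _ _ _ _ x34 x35 x28 x26 x135 x25 go764
lemma ch765 : Good 0 ![w34, w137, w28, w26, w135, w35] :=
  good_of _ _ _ _ _ _ _ x34 x137 x28 x26 x135 x35 go765
lemma ch766 : Good 0 ![w34, w37, w28, w26, w137, w35] :=
  good_of _ _ _ _ _ _ _ x34 x37 x28 x26 x137 x35 go766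
lemma ch767 : Good 0 ![w34, w10, w38, w37, w137, w35] :=
  good_of _ _ _ _ _ _ _ x34 x10 x38 x37 x137 x35 go767
lemma ch768 : Good 0 ![w39, w40, w28, w37, w137, w38] :=
  good_of _ _ _ _ _ _ _ x39 x40 x28 x37 x137 x38 go768
lemma ch769 : Good 0 ![w39, w10, w40, w37, w137, w38] :=
  good_of _ _ _ _ _ _ _ x39 x10 x40 x37 x137 x38 go769
lemma ch770 : Good 0 ![w34, w10, w39, w37, w137, w38] :=
  good_of _ _ _ _ _ _ _ x34 x10 x39 x37 x137 x38 go770
lemma ch771 : Good 0 ![w23, w34, w28, w26, w135, w25] :=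
  good_of _ _ _ _ _ _ _ x23 x34 x28 x26 x135 x25 go771
lemma ch772 : Good 0 ![w21, w23, w19, w22, w134, w20] :=
  good_of _ _ _ _ _ _ _ x21 x23 x19 x22 x134 x20 go772
lemma ch773 : Good 0 ![w41, w23, w19, w21, w134, w20] :=
  good_of _ _ _ _ _ _ _ x41 x23 x19 x21 x134 x20 go773
lemma ch774 : Good 0 ![w41, w135, w19, w23, w134, w20] :=
  good_of _ _ _ _ _ _ _ x41 x135 x19 x23 x134 x20 go774
lemma ch775 : Good 0 ![w41, w25, w19, w23, w135, w20] :=
  good_of _ _ _ _ _ _ _ x41 x25 x19 x23 x135 x20 go775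
lemma ch776 : Good 0 ![w42, w28, w27, w23, w135, w25] :=
  good_of _ _ _ _ _ _ _ x42 x28 x27 x23 x135 x25 go776
lemma ch777 : Good 0 ![w42, w28, w29, w27, w135, w25] :=
  good_of _ _ _ _ _ _ _ x42 x28 x29 x27 x135 x25 go777
lemma ch778 : Good 0 ![w42, w28, w136, w27, w135, w29] :=
  good_of _ _ _ _ _ _ _ x42 x28 x136 x27 x135 x29 go778
lemma ch779 : Good 0 ![w42, w28, w19, w27, w136, w29] :=
  good_of _ _ _ _ _ _ _ x42 x28 x19 x27 x136 x29 go779
lemma ch780 : Good 0 ![w42, w34, w28, w23, w135, w25] :=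
  good_of _ _ _ _ _ _ _ x42 x34 x28 x23 x135 x25 go780
lemma ch781 : Good 0 ![w42, w35, w28, w34, w135, w25] :=
  good_of _ _ _ _ _ _ _ x42 x35 x28 x34 x135 x25 go781
lemma ch782 : Good 0 ![w42, w137, w28, w34, w135, w35] :=
  good_of _ _ _ _ _ _ _ x42 x137 x28 x34 x135 x35 go782
lemma ch783 : Good 0 ![w43, w10, w39, w34, w137, w35] :=
  good_of _ _ _ _ _ _ _ x43 x10 x39 x34 x137 x35 go783
lemma ch784 : Good 0 ![w43, w10, w38, w39, w137, w35] :=
  good_of _ _ _ _ _ _ _ x43 x10 x38 x39 x137 x35 go784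
lemma ch785 : Good 0 ![w43, w40, w28, w39, w137, w38] :=
  good_of _ _ _ _ _ _ _ x43 x40 x28 x39 x137 x38 go785
lemma ch786 : Good 0 ![w43, w10, w40, w39, w137, w38] :=
  good_of _ _ _ _ _ _ _ x43 x10 x40 x39 x137 x38 go786
lemma ch787 : Good 0 ![w42, w43, w28, w34, w137, w35] :=
  good_of _ _ _ _ _ _ _ x42 x43 x28 x34 x137 x35 go787
lemma ch788 : Good 0 ![w41, w42, w19, w23, w135, w25] :=
  good_of _ _ _ _ _ _ _ x41 x42 x19 x23 x135 x25 go788
lemma ch789 : Good 0 ![w13, w10, w41, w21, w134, w20] :=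
  good_of _ _ _ _ _ _ _ x13 x10 x41 x21 x134 x20 go789
lemma ch790 : Good 0 ![w138, w134, w19, w17, w132, w13] :=
  good_of _ _ _ _ _ _ _ x138 x134 x19 x17 x132 x13 go790
lemma ch791 : Good 0 ![w139, w10, w41, w21, w134, w13] :=
  good_of _ _ _ _ _ _ _ x139 x10 x41 x21 x134 x13 go791
lemma ch792 : Good 0 ![w139, w23, w19, w21, w134, w41] :=
  good_of _ _ _ _ _ _ _ x139 x23 x19 x21 x134 x41 go792
lemma ch793 : Good 0 ![w139, w135, w19, w23, w134, w41] :=
  good_of _ _ _ _ _ _ _ x139 x135 x19 x23 x134 x41 go793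
lemma ch794 : Good 0 ![w139, w42, w19, w23, w135, w41] :=
  good_of _ _ _ _ _ _ _ x139 x42 x19 x23 x135 x41 go794
lemma ch795 : Good 0 ![w140, w10, w27, w23, w135, w42] :=
  good_of _ _ _ _ _ _ _ x140 x10 x27 x23 x135 x42 go795
lemma ch796 : Good 0 ![w140, w28, w19, w27, w135, w42] :=
  good_of _ _ _ _ _ _ _ x140 x28 x19 x27 x135 x42 go796
lemma ch797 : Good 0 ![w140, w39, w28, w27, w135, w42] :=
  good_of _ _ _ _ _ _ _ x140 x39 x28 x27 x135 x42 go797
lemma ch798 : Good 0 ![w140, w137, w28, w39, w135, w42] :=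
  good_of _ _ _ _ _ _ _ x140 x137 x28 x39 x135 x42 go798
lemma ch799 : Good 0 ![w140, w43, w28, w39, w137, w42] :=
  good_of _ _ _ _ _ _ _ x140 x43 x28 x39 x137 x42 go799
lemma ch800 : Good 0 ![w141, w40, w28, w39, w137, w43] :=
  good_of _ _ _ _ _ _ _ x141 x40 x28 x39 x137 x43 go800
lemma ch801 : Good 0 ![w141, w10, w40, w39, w137, w43] :=
  good_of _ _ _ _ _ _ _ x141 x10 x40 x39 x137 x43 go801
lemma ch802 : Good 0 ![w140, w141, w28, w39, w137, w43] :=
  good_of _ _ _ _ _ _ _ x140 x141 x28 x39 x137 x43 go802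
lemma ch803 : Good 0 ![w139, w140, w19, w23, w135, w42] :=
  good_of _ _ _ _ _ _ _ x139 x140 x19 x23 x135 x42 go803
lemma ch804 : Good 0 ![w138, w10, w139, w21, w134, w13] :=
  good_of _ _ _ _ _ _ _ x138 x10 x139 x21 x134 x13 go804
lemma ch805 : Good 0 ![w138, w22, w19, w17, w134, w21] :=
  good_of _ _ _ _ _ _ _ x138 x22 x19 x17 x134 x21 go805
lemma ch806 : Good 0 ![w139, w23, w19, w22, w134, w21] :=
  good_of _ _ _ _ _ _ _ x139 x23 x19 x22 x134 x21 go806
lemma ch807 : Good 0 ![w139, w135, w19, w22, w134, w23] :=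
  good_of _ _ _ _ _ _ _ x139 x135 x19 x22 x134 x23 go807
lemma ch808 : Good 0 ![w140, w26, w19, w22, w135, w23] :=
  good_of _ _ _ _ _ _ _ x140 x26 x19 x22 x135 x23 go808
lemma ch809 : Good 0 ![w140, w10, w27, w26, w135, w23] :=
  good_of _ _ _ _ _ _ _ x140 x10 x27 x26 x135 x23 go809
lemma ch810 : Good 0 ![w140, w28, w136, w26, w135, w27] :=
  good_of _ _ _ _ _ _ _ x140 x28 x136 x26 x135 x27 go810
lemma ch811 : Good 0 ![w140, w28, w31, w26, w136, w27] :=
  good_of _ _ _ _ _ _ _ x140 x28 x31 x26 x136 x27 go811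
lemma ch812 : Good 0 ![w142, w28, w19, w31, w136, w27] :=
  good_of _ _ _ _ _ _ _ x142 x28 x19 x31 x136 x27 go812
lemma ch813 : Good 0 ![w140, w28, w142, w31, w136, w27] :=
  good_of _ _ _ _ _ _ _ x140 x28 x142 x31 x136 x27 go813
lemma ch814 : Good 0 ![w140, w39, w28, w26, w135, w27] :=
  good_of _ _ _ _ _ _ _ x140 x39 x28 x26 x135 x27 go814
lemma ch815 : Good 0 ![w140, w137, w28, w26, w135, w39] :=
  good_of _ _ _ _ _ _ _ x140 x137 x28 x26 x135 x39 go815
lemma ch816 : Good 0 ![w141, w37, w28, w26, w137, w39] :=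
  good_of _ _ _ _ _ _ _ x141 x37 x28 x26 x137 x39 go816
lemma ch817 : Good 0 ![w141, w40, w143, w37, w137, w39] :=
  good_of _ _ _ _ _ _ _ x141 x40 x143 x37 x137 x39 go817
lemma ch818 : Good 0 ![w141, w40, w28, w37, w143, w39] :=
  good_of _ _ _ _ _ _ _ x141 x40 x28 x37 x143 x39 go818
lemma ch819 : Good 0 ![w141, w10, w40, w37, w137, w39] :=
  good_of _ _ _ _ _ _ _ x141 x10 x40 x37 x137 x39 go819
lemma ch820 : Good 0 ![w140, w141, w28, w26, w137, w39] :=
  good_of _ _ _ _ _ _ _ x140 x141 x28 x26 x137 x39 go820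
lemma ch821 : Good 0 ![w139, w140, w19, w22, w135, w23] :=
  good_of _ _ _ _ _ _ _ x139 x140 x19 x22 x135 x23 go821
lemma ch822 : Good 0 ![w138, w10, w139, w22, w134, w21] :=
  good_of _ _ _ _ _ _ _ x138 x10 x139 x22 x134 x21 go822
lemma ch823 : Good 0 ![w50, w10, w139, w21, w138, w13] :=
  good_of _ _ _ _ _ _ _ x50 x10 x139 x21 x138 x13 go823
lemma ch824 : Good 0 ![w50, w10, w41, w21, w139, w13] :=
  good_of _ _ _ _ _ _ _ x50 x10 x41 x21 x139 x13 go824
lemma ch825 : Good 0 ![w51, w23, w19, w21, w139, w41] :=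
  good_of _ _ _ _ _ _ _ x51 x23 x19 x21 x139 x41 go825
lemma ch826 : Good 0 ![w51, w42, w19, w23, w139, w41] :=
  good_of _ _ _ _ _ _ _ x51 x42 x19 x23 x139 x41 go826
lemma ch827 : Good 0 ![w51, w140, w19, w23, w139, w42] :=
  good_of _ _ _ _ _ _ _ x51 x140 x19 x23 x139 x42 go827
lemma ch828 : Good 0 ![w51, w10, w27, w23, w140, w42] :=
  good_of _ _ _ _ _ _ _ x51 x10 x27 x23 x140 x42 go828
lemma ch829 : Good 0 ![w52, w28, w53, w27, w140, w42] :=
  good_of _ _ _ _ _ _ _ x52 x28 x53 x27 x140 x42 go829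
lemma ch830 : Good 0 ![w52, w28, w142, w27, w140, w53] :=
  good_of _ _ _ _ _ _ _ x52 x28 x142 x27 x140 x53 go830
lemma ch831 : Good 0 ![w52, w28, w19, w27, w142, w53] :=
  good_of _ _ _ _ _ _ _ x52 x28 x19 x27 x142 x53 go831
lemma ch832 : Good 0 ![w51, w28, w52, w27, w140, w42] :=
  good_of _ _ _ _ _ _ _ x51 x28 x52 x27 x140 x42 go832
lemma ch833 : Good 0 ![w54, w39, w28, w27, w140, w42] :=
  good_of _ _ _ _ _ _ _ x54 x39 x28 x27 x140 x42 go833
lemma ch834 : Good 0 ![w54, w43, w28, w39, w140, w42] :=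
  good_of _ _ _ _ _ _ _ x54 x43 x28 x39 x140 x42 go834
lemma ch835 : Good 0 ![w54, w10, w28, w39, w140, w43] :=
  good_of _ _ _ _ _ _ _ x54 x10 x28 x39 x140 x43 go835
lemma ch836 : Good 0 ![w51, w54, w28, w27, w140, w42] :=
  good_of _ _ _ _ _ _ _ x51 x54 x28 x27 x140 x42 go836
lemma ch837 : Good 0 ![w50, w10, w51, w21, w139, w41] :=
  good_of _ _ _ _ _ _ _ x50 x10 x51 x21 x139 x41 go837
lemma ch838 : Good 0 ![w50, w10, w139, w144, w138, w21] :=
  good_of _ _ _ _ _ _ _ x50 x10 x139 x144 x138 x21 go838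
lemma ch839 : Good 0 ![w51, w145, w19, w144, w139, w21] :=
  good_of _ _ _ _ _ _ _ x51 x145 x19 x144 x139 x21 go839
lemma ch840 : Good 0 ![w51, w23, w19, w145, w139, w21] :=
  good_of _ _ _ _ _ _ _ x51 x23 x19 x145 x139 x21 go840
lemma ch841 : Good 0 ![w51, w140, w19, w145, w139, w23] :=
  good_of _ _ _ _ _ _ _ x51 x140 x19 x145 x139 x23 go841
lemma ch842 : Good 0 ![w51, w10, w27, w145, w140, w23] :=
  good_of _ _ _ _ _ _ _ x51 x10 x27 x145 x140 x23 go842
lemma ch843 : Good 0 ![w51, w10, w146, w145, w140, w27] :=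
  good_of _ _ _ _ _ _ _ x51 x10 x146 x145 x140 x27 go843
lemma ch844 : Good 0 ![w54, w28, w142, w146, w140, w27] :=
  good_of _ _ _ _ _ _ _ x54 x28 x142 x146 x140 x27 go844
lemma ch845 : Good 0 ![w58, w28, w19, w146, w142, w27] :=
  good_of _ _ _ _ _ _ _ x58 x28 x19 x146 x142 x27 go845
lemma ch846 : Good 0 ![w54, w28, w58, w146, w142, w27] :=
  good_of _ _ _ _ _ _ _ x54 x28 x58 x146 x142 x27 go846
lemma ch847 : Good 0 ![w54, w39, w28, w146, w140, w27] :=
  good_of _ _ _ _ _ _ _ x54 x39 x28 x146 x140 x27 go847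
lemma ch848 : Good 0 ![w54, w147, w28, w146, w140, w39] :=
  good_of _ _ _ _ _ _ _ x54 x147 x28 x146 x140 x39 go848
lemma ch849 : Good 0 ![w54, w141, w28, w147, w140, w39] :=
  good_of _ _ _ _ _ _ _ x54 x141 x28 x147 x140 x39 go849
lemma ch850 : Good 0 ![w60, w10, w28, w147, w141, w39] :=
  good_of _ _ _ _ _ _ _ x60 x10 x28 x147 x141 x39 go850
lemma ch851 : Good 0 ![w54, w60, w28, w147, w141, w39] :=
  good_of _ _ _ _ _ _ _ x54 x60 x28 x147 x141 x39 go851
lemma ch852 : Good 0 ![w51, w54, w19, w146, w140, w27] :=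
  good_of _ _ _ _ _ _ _ x51 x54 x19 x146 x140 x27 go852
lemma ch853 : Good 0 ![w50, w10, w51, w144, w139, w21] :=
  good_of _ _ _ _ _ _ _ x50 x10 x51 x144 x139 x21 go853
lemma ch854 : Good 0 ![w50, w22, w19, w17, w144, w21] :=
  good_of _ _ _ _ _ _ _ x50 x22 x19 x17 x144 x21 go854
lemma ch855 : Good 0 ![w51, w145, w19, w22, w144, w21] :=
  good_of _ _ _ _ _ _ _ x51 x145 x19 x22 x144 x21 go855
lemma ch856 : Good 0 ![w51, w23, w19, w22, w145, w21] :=
  good_of _ _ _ _ _ _ _ x51 x23 x19 x22 x145 x21 go856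
lemma ch857 : Good 0 ![w51, w26, w19, w22, w145, w23] :=
  good_of _ _ _ _ _ _ _ x51 x26 x19 x22 x145 x23 go857
lemma ch858 : Good 0 ![w54, w10, w27, w26, w145, w23] :=
  good_of _ _ _ _ _ _ _ x54 x10 x27 x26 x145 x23 go858
lemma ch859 : Good 0 ![w54, w10, w146, w26, w145, w27] :=
  good_of _ _ _ _ _ _ _ x54 x10 x146 x26 x145 x27 go859
lemma ch860 : Good 0 ![w54, w28, w31, w26, w146, w27] :=
  good_of _ _ _ _ _ _ _ x54 x28 x31 x26 x146 x27 go860
lemma ch861 : Good 0 ![w58, w28, w19, w31, w146, w27] :=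
  good_of _ _ _ _ _ _ _ x58 x28 x19 x31 x146 x27 go861
lemma ch862 : Good 0 ![w54, w28, w58, w31, w146, w27] :=
  good_of _ _ _ _ _ _ _ x54 x28 x58 x31 x146 x27 go862
lemma ch863 : Good 0 ![w54, w39, w28, w26, w146, w27] :=
  good_of _ _ _ _ _ _ _ x54 x39 x28 x26 x146 x27 go863
lemma ch864 : Good 0 ![w54, w147, w28, w26, w146, w39] :=
  good_of _ _ _ _ _ _ _ x54 x147 x28 x26 x146 x39 go864
lemma ch865 : Good 0 ![w60, w37, w28, w26, w147, w39] :=
  good_of _ _ _ _ _ _ _ x60 x37 x28 x26 x147 x39 go865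
lemma ch866 : Good 0 ![w60, w40, w28, w37, w147, w39] :=
  good_of _ _ _ _ _ _ _ x60 x40 x28 x37 x147 x39 go866
lemma ch867 : Good 0 ![w60, w10, w40, w37, w147, w39] :=
  good_of _ _ _ _ _ _ _ x60 x10 x40 x37 x147 x39 go867
lemma ch868 : Good 0 ![w54, w60, w28, w26, w147, w39] :=
  good_of _ _ _ _ _ _ _ x54 x60 x28 x26 x147 x39 go868
lemma ch869 : Good 0 ![w51, w54, w19, w26, w145, w23] :=
  good_of _ _ _ _ _ _ _ x51 x54 x19 x26 x145 x23 go869
lemma ch870 : Good 0 ![w50, w10, w51, w22, w144, w21] :=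
  good_of _ _ _ _ _ _ _ x50 x10 x51 x22 x144 x21 go870
lemma ch871 : Good 0 ![w61, w10, w139, w50, w138, w13] :=
  good_of _ _ _ _ _ _ _ x61 x10 x139 x50 x138 x13 go871
lemma ch872 : Good 0 ![w61, w10, w41, w50, w139, w13] :=
  good_of _ _ _ _ _ _ _ x61 x10 x41 x50 x139 x13 go872
lemma ch873 : Good 0 ![w61, w10, w51, w50, w139, w41] :=
  good_of _ _ _ _ _ _ _ x61 x10 x51 x50 x139 x41 go873
lemma ch874 : Good 0 ![w62, w42, w19, w51, w139, w41] :=
  good_of _ _ _ _ _ _ _ x62 x42 x19 x51 x139 x41 go874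
lemma ch875 : Good 0 ![w62, w140, w148, w51, w139, w42] :=
  good_of _ _ _ _ _ _ _ x62 x140 x148 x51 x139 x42 go875
lemma ch876 : Good 0 ![w62, w140, w53, w51, w148, w42] :=
  good_of _ _ _ _ _ _ _ x62 x140 x53 x51 x148 x42 go876
lemma ch877 : Good 0 ![w62, w142, w19, w51, w148, w53] :=
  good_of _ _ _ _ _ _ _ x62 x142 x19 x51 x148 x53 go877
lemma ch878 : Good 0 ![w62, w140, w142, w51, w148, w53] :=
  good_of _ _ _ _ _ _ _ x62 x140 x142 x51 x148 x53 go878
lemma ch879 : Good 0 ![w62, w28, w52, w51, w140, w42] :=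
  good_of _ _ _ _ _ _ _ x62 x28 x52 x51 x140 x42 go879
lemma ch880 : Good 0 ![w62, w28, w53, w52, w140, w42] :=
  good_of _ _ _ _ _ _ _ x62 x28 x53 x52 x140 x42 go880
lemma ch881 : Good 0 ![w62, w28, w142, w52, w140, w53] :=
  good_of _ _ _ _ _ _ _ x62 x28 x142 x52 x140 x53 go881
lemma ch882 : Good 0 ![w64, w33, w65, w52, w142, w53] :=
  good_of _ _ _ _ _ _ _ x64 x33 x65 x52 x142 x53 go882
lemma ch883 : Good 0 ![w64, w33, w19, w52, w142, w65] :=
  good_of _ _ _ _ _ _ _ x64 x33 x19 x52 x142 x65 go883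
lemma ch884 : Good 0 ![w64, w28, w33, w52, w142, w53] :=
  good_of _ _ _ _ _ _ _ x64 x28 x33 x52 x142 x53 go884
lemma ch885 : Good 0 ![w62, w28, w64, w52, w142, w53] :=
  good_of _ _ _ _ _ _ _ x62 x28 x64 x52 x142 x53 go885
lemma ch886 : Good 0 ![w62, w54, w28, w51, w140, w42] :=
  good_of _ _ _ _ _ _ _ x62 x54 x28 x51 x140 x42 go886
lemma ch887 : Good 0 ![w66, w43, w28, w54, w140, w42] :=
  good_of _ _ _ _ _ _ _ x66 x43 x28 x54 x140 x42 go887
lemma ch888 : Good 0 ![w66, w141, w28, w54, w140, w43] :=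
  good_of _ _ _ _ _ _ _ x66 x141 x28 x54 x140 x43 go888
lemma ch889 : Good 0 ![w66, w60, w28, w54, w141, w43] :=
  good_of _ _ _ _ _ _ _ x66 x60 x28 x54 x141 x43 go889
lemma ch890 : Good 0 ![w67, w10, w28, w60, w141, w43] :=
  good_of _ _ _ _ _ _ _ x67 x10 x28 x60 x141 x43 go890
lemma ch891 : Good 0 ![w66, w67, w28, w60, w141, w43] :=
  good_of _ _ _ _ _ _ _ x66 x67 x28 x60 x141 x43 go891
lemma ch892 : Good 0 ![w62, w66, w28, w54, w140, w42] :=
  good_of _ _ _ _ _ _ _ x62 x66 x28 x54 x140 x42 go892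
lemma ch893 : Good 0 ![w61, w10, w62, w51, w139, w41] :=
  good_of _ _ _ _ _ _ _ x61 x10 x62 x51 x139 x41 go893
lemma ch894 : Good 0 ![w0, w10, w61, w50, w138, w13] :=
  good_of _ _ _ _ _ _ _ x0 x10 x61 x50 x138 x13 go894
lemma ch895 : Good 0 ![w15, w68, w19, w17, w133, w7] :=
  good_of _ _ _ _ _ _ _ x15 x68 x19 x17 x133 x7 go895
lemma ch896 : Good 0 ![w15, w149, w19, w17, w133, w68] :=
  good_of _ _ _ _ _ _ _ x15 x149 x19 x17 x133 x68 go896
lemma ch897 : Good 0 ![w69, w70, w19, w17, w149, w68] :=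
  good_of _ _ _ _ _ _ _ x69 x70 x19 x17 x149 x68 go897
lemma ch898 : Good 0 ![w69, w22, w19, w17, w149, w70] :=
  good_of _ _ _ _ _ _ _ x69 x22 x19 x17 x149 x70 go898
lemma ch899 : Good 0 ![w69, w150, w19, w22, w149, w70] :=
  good_of _ _ _ _ _ _ _ x69 x150 x19 x22 x149 x70 go899
lemma ch900 : Good 0 ![w71, w10, w72, w22, w150, w70] :=
  good_of _ _ _ _ _ _ _ x71 x10 x72 x22 x150 x70 go900
lemma ch901 : Good 0 ![w71, w26, w19, w22, w150, w72] :=
  good_of _ _ _ _ _ _ _ x71 x26 x19 x22 x150 x72 go901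
lemma ch902 : Good 0 ![w71, w28, w151, w26, w150, w72] :=
  good_of _ _ _ _ _ _ _ x71 x28 x151 x26 x150 x72 go902
lemma ch903 : Good 0 ![w71, w28, w31, w26, w151, w72] :=
  good_of _ _ _ _ _ _ _ x71 x28 x31 x26 x151 x72 go903
lemma ch904 : Good 0 ![w73, w28, w74, w31, w151, w72] :=
  good_of _ _ _ _ _ _ _ x73 x28 x74 x31 x151 x72 go904
lemma ch905 : Good 0 ![w73, w33, w19, w31, w151, w74] :=
  good_of _ _ _ _ _ _ _ x73 x33 x19 x31 x151 x74 go905
lemma ch906 : Good 0 ![w73, w28, w33, w31, w151, w74] :=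
  good_of _ _ _ _ _ _ _ x73 x28 x33 x31 x151 x74 go906
lemma ch907 : Good 0 ![w71, w28, w73, w31, w151, w72] :=
  good_of _ _ _ _ _ _ _ x71 x28 x73 x31 x151 x72 go907
lemma ch908 : Good 0 ![w75, w76, w28, w26, w150, w72] :=
  good_of _ _ _ _ _ _ _ x75 x76 x28 x26 x150 x72 go908
lemma ch909 : Good 0 ![w75, w152, w28, w26, w150, w76] :=
  good_of _ _ _ _ _ _ _ x75 x152 x28 x26 x150 x76 go909
lemma ch910 : Good 0 ![w75, w37, w28, w26, w152, w76] :=
  good_of _ _ _ _ _ _ _ x75 x37 x28 x26 x152 x76 go910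
lemma ch911 : Good 0 ![w75, w40, w28, w37, w152, w76] :=
  good_of _ _ _ _ _ _ _ x75 x40 x28 x37 x152 x76 go911
lemma ch912 : Good 0 ![w75, w10, w40, w37, w152, w76] :=
  good_of _ _ _ _ _ _ _ x75 x10 x40 x37 x152 x76 go912
lemma ch913 : Good 0 ![w71, w75, w28, w26, w150, w72] :=
  good_of _ _ _ _ _ _ _ x71 x75 x28 x26 x150 x72 go913
lemma ch914 : Good 0 ![w69, w10, w71, w22, w150, w70] :=
  good_of _ _ _ _ _ _ _ x69 x10 x71 x22 x150 x70 go914
lemma ch915 : Good 0 ![w15, w69, w19, w17, w149, w68] :=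
  good_of _ _ _ _ _ _ _ x15 x69 x19 x17 x149 x68 go915
lemma ch916 : Good 0 ![w153, w149, w19, w17, w133, w15] :=
  good_of _ _ _ _ _ _ _ x153 x149 x19 x17 x133 x15 go916
lemma ch917 : Good 0 ![w153, w10, w77, w17, w149, w15] :=
  good_of _ _ _ _ _ _ _ x153 x10 x77 x17 x149 x15 go917
lemma ch918 : Good 0 ![w153, w22, w19, w17, w149, w77] :=
  good_of _ _ _ _ _ _ _ x153 x22 x19 x17 x149 x77 go918
lemma ch919 : Good 0 ![w154, w150, w19, w22, w149, w77] :=
  good_of _ _ _ _ _ _ _ x154 x150 x19 x22 x149 x77 go919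
lemma ch920 : Good 0 ![w154, w78, w19, w22, w150, w77] :=
  good_of _ _ _ _ _ _ _ x154 x78 x19 x22 x150 x77 go920
lemma ch921 : Good 0 ![w155, w26, w19, w22, w150, w78] :=
  good_of _ _ _ _ _ _ _ x155 x26 x19 x22 x150 x78 go921
lemma ch922 : Good 0 ![w155, w28, w151, w26, w150, w78] :=
  good_of _ _ _ _ _ _ _ x155 x28 x151 x26 x150 x78 go922
lemma ch923 : Good 0 ![w155, w28, w31, w26, w151, w78] :=
  good_of _ _ _ _ _ _ _ x155 x28 x31 x26 x151 x78 go923
lemma ch924 : Good 0 ![w155, w28, w79, w31, w151, w78] :=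
  good_of _ _ _ _ _ _ _ x155 x28 x79 x31 x151 x78 go924
lemma ch925 : Good 0 ![w156, w33, w19, w31, w151, w79] :=
  good_of _ _ _ _ _ _ _ x156 x33 x19 x31 x151 x79 go925
lemma ch926 : Good 0 ![w156, w28, w33, w31, w151, w79] :=
  good_of _ _ _ _ _ _ _ x156 x28 x33 x31 x151 x79 go926
lemma ch927 : Good 0 ![w155, w28, w156, w31, w151, w79] :=
  good_of _ _ _ _ _ _ _ x155 x28 x156 x31 x151 x79 go927
lemma ch928 : Good 0 ![w155, w152, w28, w26, w150, w78] :=
  good_of _ _ _ _ _ _ _ x155 x152 x28 x26 x150 x78 go928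
lemma ch929 : Good 0 ![w155, w80, w28, w26, w152, w78] :=
  good_of _ _ _ _ _ _ _ x155 x80 x28 x26 x152 x78 go929
lemma ch930 : Good 0 ![w157, w37, w28, w26, w152, w80] :=
  good_of _ _ _ _ _ _ _ x157 x37 x28 x26 x152 x80 go930
lemma ch931 : Good 0 ![w157, w40, w158, w37, w152, w80] :=
  good_of _ _ _ _ _ _ _ x157 x40 x158 x37 x152 x80 go931
lemma ch932 : Good 0 ![w157, w40, w81, w37, w158, w80] :=
  good_of _ _ _ _ _ _ _ x157 x40 x81 x37 x158 x80 go932
lemma ch933 : Good 0 ![w157, w40, w28, w81, w158, w80] :=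
  good_of _ _ _ _ _ _ _ x157 x40 x28 x81 x158 x80 go933
lemma ch934 : Good 0 ![w157, w10, w40, w37, w152, w80] :=
  good_of _ _ _ _ _ _ _ x157 x10 x40 x37 x152 x80 go934
lemma ch935 : Good 0 ![w155, w157, w28, w26, w152, w80] :=
  good_of _ _ _ _ _ _ _ x155 x157 x28 x26 x152 x80 go935
lemma ch936 : Good 0 ![w154, w155, w19, w22, w150, w78] :=
  good_of _ _ _ _ _ _ _ x154 x155 x19 x22 x150 x78 go936
lemma ch937 : Good 0 ![w153, w10, w154, w22, w149, w77] :=
  good_of _ _ _ _ _ _ _ x153 x10 x154 x22 x149 x77 go937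
lemma ch938 : Good 0 ![w50, w10, w77, w17, w153, w15] :=
  good_of _ _ _ _ _ _ _ x50 x10 x77 x17 x153 x15 go938
lemma ch939 : Good 0 ![w50, w10, w154, w159, w153, w77] :=
  good_of _ _ _ _ _ _ _ x50 x10 x154 x159 x153 x77 go939
lemma ch940 : Good 0 ![w51, w160, w19, w159, w154, w77] :=
  good_of _ _ _ _ _ _ _ x51 x160 x19 x159 x154 x77 go940
lemma ch941 : Good 0 ![w51, w78, w19, w160, w154, w77] :=
  good_of _ _ _ _ _ _ _ x51 x78 x19 x160 x154 x77 go941
lemma ch942 : Good 0 ![w51, w155, w19, w160, w154, w78] :=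
  good_of _ _ _ _ _ _ _ x51 x155 x19 x160 x154 x78 go942
lemma ch943 : Good 0 ![w51, w10, w161, w160, w155, w78] :=
  good_of _ _ _ _ _ _ _ x51 x10 x161 x160 x155 x78 go943
lemma ch944 : Good 0 ![w51, w28, w79, w161, w155, w78] :=
  good_of _ _ _ _ _ _ _ x51 x28 x79 x161 x155 x78 go944
lemma ch945 : Good 0 ![w52, w28, w19, w161, w155, w79] :=
  good_of _ _ _ _ _ _ _ x52 x28 x19 x161 x155 x79 go945
lemma ch946 : Good 0 ![w51, w28, w52, w161, w155, w79] :=
  good_of _ _ _ _ _ _ _ x51 x28 x52 x161 x155 x79 go946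
lemma ch947 : Good 0 ![w54, w162, w28, w161, w155, w78] :=
  good_of _ _ _ _ _ _ _ x54 x162 x28 x161 x155 x78 go947
lemma ch948 : Good 0 ![w54, w80, w28, w162, w155, w78] :=
  good_of _ _ _ _ _ _ _ x54 x80 x28 x162 x155 x78 go948
lemma ch949 : Good 0 ![w54, w10, w28, w162, w155, w80] :=
  good_of _ _ _ _ _ _ _ x54 x10 x28 x162 x155 x80 go949
lemma ch950 : Good 0 ![w51, w54, w28, w161, w155, w78] :=
  good_of _ _ _ _ _ _ _ x51 x54 x28 x161 x155 x78 go950
lemma ch951 : Good 0 ![w50, w10, w51, w159, w154, w77] :=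
  good_of _ _ _ _ _ _ _ x50 x10 x51 x159 x154 x77 go951
lemma ch952 : Good 0 ![w50, w22, w19, w17, w159, w77] :=
  good_of _ _ _ _ _ _ _ x50 x22 x19 x17 x159 x77 go952
lemma ch953 : Good 0 ![w51, w160, w19, w22, w159, w77] :=
  good_of _ _ _ _ _ _ _ x51 x160 x19 x22 x159 x77 go953
lemma ch954 : Good 0 ![w51, w78, w19, w22, w160, w77] :=
  good_of _ _ _ _ _ _ _ x51 x78 x19 x22 x160 x77 go954
lemma ch955 : Good 0 ![w51, w26, w19, w22, w160, w78] :=
  good_of _ _ _ _ _ _ _ x51 x26 x19 x22 x160 x78 go955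
lemma ch956 : Good 0 ![w51, w10, w161, w26, w160, w78] :=
  good_of _ _ _ _ _ _ _ x51 x10 x161 x26 x160 x78 go956
lemma ch957 : Good 0 ![w54, w28, w31, w26, w161, w78] :=
  good_of _ _ _ _ _ _ _ x54 x28 x31 x26 x161 x78 go957
lemma ch958 : Good 0 ![w54, w28, w79, w31, w161, w78] :=
  good_of _ _ _ _ _ _ _ x54 x28 x79 x31 x161 x78 go958
lemma ch959 : Good 0 ![w58, w33, w19, w31, w161, w79] :=
  good_of _ _ _ _ _ _ _ x58 x33 x19 x31 x161 x79 go959
lemma ch960 : Good 0 ![w58, w28, w33, w31, w161, w79] :=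
  good_of _ _ _ _ _ _ _ x58 x28 x33 x31 x161 x79 go960
lemma ch961 : Good 0 ![w54, w28, w58, w31, w161, w79] :=
  good_of _ _ _ _ _ _ _ x54 x28 x58 x31 x161 x79 go961
lemma ch962 : Good 0 ![w54, w162, w28, w26, w161, w78] :=
  good_of _ _ _ _ _ _ _ x54 x162 x28 x26 x161 x78 go962
lemma ch963 : Good 0 ![w54, w80, w28, w26, w162, w78] :=
  good_of _ _ _ _ _ _ _ x54 x80 x28 x26 x162 x78 go963
lemma ch964 : Good 0 ![w60, w37, w28, w26, w162, w80] :=
  good_of _ _ _ _ _ _ _ x60 x37 x28 x26 x162 x80 go964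
lemma ch965 : Good 0 ![w60, w40, w81, w37, w162, w80] :=
  good_of _ _ _ _ _ _ _ x60 x40 x81 x37 x162 x80 go965
lemma ch966 : Good 0 ![w60, w40, w28, w81, w162, w80] :=
  good_of _ _ _ _ _ _ _ x60 x40 x28 x81 x162 x80 go966
lemma ch967 : Good 0 ![w60, w10, w40, w37, w162, w80] :=
  good_of _ _ _ _ _ _ _ x60 x10 x40 x37 x162 x80 go967
lemma ch968 : Good 0 ![w54, w60, w28, w26, w162, w80] :=
  good_of _ _ _ _ _ _ _ x54 x60 x28 x26 x162 x80 go968
lemma ch969 : Good 0 ![w51, w54, w19, w26, w161, w78] :=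
  good_of _ _ _ _ _ _ _ x51 x54 x19 x26 x161 x78 go969
lemma ch970 : Good 0 ![w50, w10, w51, w22, w159, w77] :=
  good_of _ _ _ _ _ _ _ x50 x10 x51 x22 x159 x77 go970
lemma ch971 : Good 0 ![w61, w10, w77, w50, w153, w15] :=
  good_of _ _ _ _ _ _ _ x61 x10 x77 x50 x153 x15 go971
lemma ch972 : Good 0 ![w61, w10, w154, w50, w153, w77] :=
  good_of _ _ _ _ _ _ _ x61 x10 x154 x50 x153 x77 go972
lemma ch973 : Good 0 ![w61, w10, w51, w50, w154, w77] :=
  good_of _ _ _ _ _ _ _ x61 x10 x51 x50 x154 x77 go973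
lemma ch974 : Good 0 ![w62, w78, w19, w51, w154, w77] :=
  good_of _ _ _ _ _ _ _ x62 x78 x19 x51 x154 x77 go974
lemma ch975 : Good 0 ![w62, w155, w19, w51, w154, w78] :=
  good_of _ _ _ _ _ _ _ x62 x155 x19 x51 x154 x78 go975
lemma ch976 : Good 0 ![w62, w28, w79, w51, w155, w78] :=
  good_of _ _ _ _ _ _ _ x62 x28 x79 x51 x155 x78 go976
lemma ch977 : Good 0 ![w62, w28, w52, w51, w155, w79] :=
  good_of _ _ _ _ _ _ _ x62 x28 x52 x51 x155 x79 go977
lemma ch978 : Good 0 ![w62, w28, w156, w52, w155, w79] :=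
  good_of _ _ _ _ _ _ _ x62 x28 x156 x52 x155 x79 go978
lemma ch979 : Good 0 ![w64, w33, w19, w52, w156, w79] :=
  good_of _ _ _ _ _ _ _ x64 x33 x19 x52 x156 x79 go979
lemma ch980 : Good 0 ![w64, w28, w33, w52, w156, w79] :=
  good_of _ _ _ _ _ _ _ x64 x28 x33 x52 x156 x79 go980
lemma ch981 : Good 0 ![w62, w28, w64, w52, w156, w79] :=
  good_of _ _ _ _ _ _ _ x62 x28 x64 x52 x156 x79 go981
lemma ch982 : Good 0 ![w62, w54, w28, w51, w155, w78] :=
  good_of _ _ _ _ _ _ _ x62 x54 x28 x51 x155 x78 go982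
lemma ch983 : Good 0 ![w66, w80, w28, w54, w155, w78] :=
  good_of _ _ _ _ _ _ _ x66 x80 x28 x54 x155 x78 go983
lemma ch984 : Good 0 ![w66, w157, w28, w54, w155, w80] :=
  good_of _ _ _ _ _ _ _ x66 x157 x28 x54 x155 x80 go984
lemma ch985 : Good 0 ![w66, w60, w28, w54, w157, w80] :=
  good_of _ _ _ _ _ _ _ x66 x60 x28 x54 x157 x80 go985
lemma ch986 : Good 0 ![w67, w10, w28, w60, w157, w80] :=
  good_of _ _ _ _ _ _ _ x67 x10 x28 x60 x157 x80 go986
lemma ch987 : Good 0 ![w66, w67, w28, w60, w157, w80] :=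
  good_of _ _ _ _ _ _ _ x66 x67 x28 x60 x157 x80 go987
lemma ch988 : Good 0 ![w62, w66, w28, w54, w155, w78] :=
  good_of _ _ _ _ _ _ _ x62 x66 x28 x54 x155 x78 go988
lemma ch989 : Good 0 ![w61, w10, w62, w51, w154, w77] :=
  good_of _ _ _ _ _ _ _ x61 x10 x62 x51 x154 x77 go989
lemma ch990 : Good 0 ![w0, w10, w61, w50, w153, w15] :=
  good_of _ _ _ _ _ _ _ x0 x10 x61 x50 x153 x15 go990
lemma ch991 : Good 0 ![w13, w134, w19, w163, w132, w5] :=
  good_of _ _ _ _ _ _ _ x13 x134 x19 x163 x132 x5 go991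
lemma ch992 : Good 0 ![w13, w20, w19, w163, w134, w5] :=
  good_of _ _ _ _ _ _ _ x13 x20 x19 x163 x134 x5 go992
lemma ch993 : Good 0 ![w164, w165, w19, w163, w134, w20] :=
  good_of _ _ _ _ _ _ _ x164 x165 x19 x163 x134 x20 go993
lemma ch994 : Good 0 ![w166, w135, w19, w165, w134, w20] :=
  good_of _ _ _ _ _ _ _ x166 x135 x19 x165 x134 x20 go994
lemma ch995 : Good 0 ![w166, w25, w19, w165, w135, w20] :=
  good_of _ _ _ _ _ _ _ x166 x25 x19 x165 x135 x20 go995
lemma ch996 : Good 0 ![w166, w167, w19, w165, w135, w25] :=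
  good_of _ _ _ _ _ _ _ x166 x167 x19 x165 x135 x25 go996
lemma ch997 : Good 0 ![w168, w35, w29, w167, w135, w25] :=
  good_of _ _ _ _ _ _ _ x168 x35 x29 x167 x135 x25 go997
lemma ch998 : Good 0 ![w168, w38, w29, w167, w135, w35] :=
  good_of _ _ _ _ _ _ _ x168 x38 x29 x167 x135 x35 go998
lemma ch999 : Good 0 ![w168, w137, w38, w167, w135, w35] :=
  good_of _ _ _ _ _ _ _ x168 x137 x38 x167 x135 x35 go999
lemma ch1000 : Good 0 ![w168, w169, w38, w167, w137, w35] :=
  good_of _ _ _ _ _ _ _ x168 x169 x38 x167 x137 x35 go1000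
lemma ch1001 : Good 0 ![w168, w10, w38, w169, w137, w35] :=
  good_of _ _ _ _ _ _ _ x168 x10 x38 x169 x137 x35 go1001
lemma ch1002 : Good 0 ![w170, w168, w29, w167, w135, w25] :=
  good_of _ _ _ _ _ _ _ x170 x168 x29 x167 x135 x25 go1002
lemma ch1003 : Good 0 ![w170, w28, w136, w167, w135, w29] :=
  good_of _ _ _ _ _ _ _ x170 x28 x136 x167 x135 x29 go1003
lemma ch1004 : Good 0 ![w170, w28, w171, w167, w136, w29] :=
  good_of _ _ _ _ _ _ _ x170 x28 x171 x167 x136 x29 go1004
lemma ch1005 : Good 0 ![w170, w28, w32, w171, w136, w29] :=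
  good_of _ _ _ _ _ _ _ x170 x28 x32 x171 x136 x29 go1005
lemma ch1006 : Good 0 ![w170, w33, w19, w171, w136, w32] :=
  good_of _ _ _ _ _ _ _ x170 x33 x19 x171 x136 x32 go1006
lemma ch1007 : Good 0 ![w170, w28, w33, w171, w136, w32] :=
  good_of _ _ _ _ _ _ _ x170 x28 x33 x171 x136 x32 go1007
lemma ch1008 : Good 0 ![w168, w38, w28, w167, w135, w29] :=
  good_of _ _ _ _ _ _ _ x168 x38 x28 x167 x135 x29 go1008
lemma ch1009 : Good 0 ![w168, w137, w28, w167, w135, w38] :=
  good_of _ _ _ _ _ _ _ x168 x137 x28 x167 x135 x38 go1009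
lemma ch1010 : Good 0 ![w168, w169, w28, w167, w137, w38] :=
  good_of _ _ _ _ _ _ _ x168 x169 x28 x167 x137 x38 go1010
lemma ch1011 : Good 0 ![w168, w40, w143, w169, w137, w38] :=
  good_of _ _ _ _ _ _ _ x168 x40 x143 x169 x137 x38 go1011
lemma ch1012 : Good 0 ![w168, w40, w28, w169, w143, w38] :=
  good_of _ _ _ _ _ _ _ x168 x40 x28 x169 x143 x38 go1012
lemma ch1013 : Good 0 ![w172, w10, w40, w169, w137, w38] :=
  good_of _ _ _ _ _ _ _ x172 x10 x40 x169 x137 x38 go1013
lemma ch1014 : Good 0 ![w168, w172, w40, w169, w137, w38] :=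
  good_of _ _ _ _ _ _ _ x168 x172 x40 x169 x137 x38 go1014
lemma ch1015 : Good 0 ![w170, w168, w28, w167, w135, w29] :=
  good_of _ _ _ _ _ _ _ x170 x168 x28 x167 x135 x29 go1015
lemma ch1016 : Good 0 ![w173, w168, w170, w167, w135, w25] :=
  good_of _ _ _ _ _ _ _ x173 x168 x170 x167 x135 x25 go1016
lemma ch1017 : Good 0 ![w173, w35, w168, w167, w135, w25] :=
  good_of _ _ _ _ _ _ _ x173 x35 x168 x167 x135 x25 go1017
lemma ch1018 : Good 0 ![w173, w137, w168, w167, w135, w35] :=
  good_of _ _ _ _ _ _ _ x173 x137 x168 x167 x135 x35 go1018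
lemma ch1019 : Good 0 ![w173, w169, w168, w167, w137, w35] :=
  good_of _ _ _ _ _ _ _ x173 x169 x168 x167 x137 x35 go1019
lemma ch1020 : Good 0 ![w174, w10, w168, w169, w137, w35] :=
  good_of _ _ _ _ _ _ _ x174 x10 x168 x169 x137 x35 go1020
lemma ch1021 : Good 0 ![w173, w174, w168, w169, w137, w35] :=
  good_of _ _ _ _ _ _ _ x173 x174 x168 x169 x137 x35 go1021
lemma ch1022 : Good 0 ![w166, w173, w170, w167, w135, w25] :=
  good_of _ _ _ _ _ _ _ x166 x173 x170 x167 x135 x25 go1022
lemma ch1023 : Good 0 ![w164, w166, w19, w165, w134, w20] :=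
  good_of _ _ _ _ _ _ _ x164 x166 x19 x165 x134 x20 go1023
lemma ch1024 : Good 0 ![w41, w166, w19, w164, w134, w20] :=
  good_of _ _ _ _ _ _ _ x41 x166 x19 x164 x134 x20 go1024
lemma ch1025 : Good 0 ![w41, w135, w19, w166, w134, w20] :=
  good_of _ _ _ _ _ _ _ x41 x135 x19 x166 x134 x20 go1025
lemma ch1026 : Good 0 ![w41, w25, w19, w166, w135, w20] :=
  good_of _ _ _ _ _ _ _ x41 x25 x19 x166 x135 x20 go1026
lemma ch1027 : Good 0 ![w42, w173, w170, w166, w135, w25] :=
  good_of _ _ _ _ _ _ _ x42 x173 x170 x166 x135 x25 go1027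
lemma ch1028 : Good 0 ![w42, w168, w170, w173, w135, w25] :=
  good_of _ _ _ _ _ _ _ x42 x168 x170 x173 x135 x25 go1028
lemma ch1029 : Good 0 ![w42, w35, w168, w173, w135, w25] :=
  good_of _ _ _ _ _ _ _ x42 x35 x168 x173 x135 x25 go1029
lemma ch1030 : Good 0 ![w42, w10, w168, w173, w135, w35] :=
  good_of _ _ _ _ _ _ _ x42 x10 x168 x173 x135 x35 go1030
lemma ch1031 : Good 0 ![w42, w28, w29, w170, w135, w25] :=
  good_of _ _ _ _ _ _ _ x42 x28 x29 x170 x135 x25 go1031
lemma ch1032 : Good 0 ![w42, w28, w136, w170, w135, w29] :=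
  good_of _ _ _ _ _ _ _ x42 x28 x136 x170 x135 x29 go1032
lemma ch1033 : Good 0 ![w53, w28, w19, w170, w136, w29] :=
  good_of _ _ _ _ _ _ _ x53 x28 x19 x170 x136 x29 go1033
lemma ch1034 : Good 0 ![w42, w28, w53, w170, w136, w29] :=
  good_of _ _ _ _ _ _ _ x42 x28 x53 x170 x136 x29 go1034
lemma ch1035 : Good 0 ![w42, w168, w28, w170, w135, w25] :=
  good_of _ _ _ _ _ _ _ x42 x168 x28 x170 x135 x25 go1035
lemma ch1036 : Good 0 ![w42, w35, w28, w168, w135, w25] :=
  good_of _ _ _ _ _ _ _ x42 x35 x28 x168 x135 x25 go1036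
lemma ch1037 : Good 0 ![w42, w137, w28, w168, w135, w35] :=
  good_of _ _ _ _ _ _ _ x42 x137 x28 x168 x135 x35 go1037
lemma ch1038 : Good 0 ![w43, w10, w38, w168, w137, w35] :=
  good_of _ _ _ _ _ _ _ x43 x10 x38 x168 x137 x35 go1038
lemma ch1039 : Good 0 ![w43, w40, w28, w168, w137, w38] :=
  good_of _ _ _ _ _ _ _ x43 x40 x28 x168 x137 x38 go1039
lemma ch1040 : Good 0 ![w43, w10, w40, w168, w137, w38] :=
  good_of _ _ _ _ _ _ _ x43 x10 x40 x168 x137 x38 go1040
lemma ch1041 : Good 0 ![w42, w43, w28, w168, w137, w35] :=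
  good_of _ _ _ _ _ _ _ x42 x43 x28 x168 x137 x35 go1041
lemma ch1042 : Good 0 ![w41, w42, w19, w166, w135, w25] :=
  good_of _ _ _ _ _ _ _ x41 x42 x19 x166 x135 x25 go1042
lemma ch1043 : Good 0 ![w13, w10, w41, w164, w134, w20] :=
  good_of _ _ _ _ _ _ _ x13 x10 x41 x164 x134 x20 go1043
lemma ch1044 : Good 0 ![w138, w134, w19, w163, w132, w13] :=
  good_of _ _ _ _ _ _ _ x138 x134 x19 x163 x132 x13 go1044
lemma ch1045 : Good 0 ![w139, w10, w41, w164, w134, w13] :=
  good_of _ _ _ _ _ _ _ x139 x10 x41 x164 x134 x13 go1045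
lemma ch1046 : Good 0 ![w139, w166, w19, w164, w134, w41] :=
  good_of _ _ _ _ _ _ _ x139 x166 x19 x164 x134 x41 go1046
lemma ch1047 : Good 0 ![w139, w135, w19, w166, w134, w41] :=
  good_of _ _ _ _ _ _ _ x139 x135 x19 x166 x134 x41 go1047
lemma ch1048 : Good 0 ![w139, w42, w19, w166, w135, w41] :=
  good_of _ _ _ _ _ _ _ x139 x42 x19 x166 x135 x41 go1048
lemma ch1049 : Good 0 ![w140, w10, w170, w166, w135, w42] :=
  good_of _ _ _ _ _ _ _ x140 x10 x170 x166 x135 x42 go1049
lemma ch1050 : Good 0 ![w140, w28, w19, w170, w135, w42] :=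
  good_of _ _ _ _ _ _ _ x140 x28 x19 x170 x135 x42 go1050
lemma ch1051 : Good 0 ![w140, w168, w28, w170, w135, w42] :=
  good_of _ _ _ _ _ _ _ x140 x168 x28 x170 x135 x42 go1051
lemma ch1052 : Good 0 ![w140, w137, w28, w168, w135, w42] :=
  good_of _ _ _ _ _ _ _ x140 x137 x28 x168 x135 x42 go1052
lemma ch1053 : Good 0 ![w140, w43, w28, w168, w137, w42] :=
  good_of _ _ _ _ _ _ _ x140 x43 x28 x168 x137 x42 go1053
lemma ch1054 : Good 0 ![w141, w40, w28, w168, w137, w43] :=
  good_of _ _ _ _ _ _ _ x141 x40 x28 x168 x137 x43 go1054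
lemma ch1055 : Good 0 ![w141, w10, w40, w168, w137, w43] :=
  good_of _ _ _ _ _ _ _ x141 x10 x40 x168 x137 x43 go1055
lemma ch1056 : Good 0 ![w140, w141, w28, w168, w137, w43] :=
  good_of _ _ _ _ _ _ _ x140 x141 x28 x168 x137 x43 go1056
lemma ch1057 : Good 0 ![w139, w140, w19, w166, w135, w42] :=
  good_of _ _ _ _ _ _ _ x139 x140 x19 x166 x135 x42 go1057
lemma ch1058 : Good 0 ![w138, w10, w139, w164, w134, w13] :=
  good_of _ _ _ _ _ _ _ x138 x10 x139 x164 x134 x13 go1058
lemma ch1059 : Good 0 ![w138, w165, w19, w163, w134, w164] :=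
  good_of _ _ _ _ _ _ _ x138 x165 x19 x163 x134 x164 go1059
lemma ch1060 : Good 0 ![w139, w166, w19, w165, w134, w164] :=
  good_of _ _ _ _ _ _ _ x139 x166 x19 x165 x134 x164 go1060
lemma ch1061 : Good 0 ![w139, w135, w19, w165, w134, w166] :=
  good_of _ _ _ _ _ _ _ x139 x135 x19 x165 x134 x166 go1061
lemma ch1062 : Good 0 ![w140, w167, w19, w165, w135, w166] :=
  good_of _ _ _ _ _ _ _ x140 x167 x19 x165 x135 x166 go1062
lemma ch1063 : Good 0 ![w140, w173, w170, w167, w135, w166] :=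
  good_of _ _ _ _ _ _ _ x140 x173 x170 x167 x135 x166 go1063
lemma ch1064 : Good 0 ![w140, w168, w170, w167, w135, w173] :=
  good_of _ _ _ _ _ _ _ x140 x168 x170 x167 x135 x173 go1064
lemma ch1065 : Good 0 ![w140, w137, w168, w167, w135, w173] :=
  good_of _ _ _ _ _ _ _ x140 x137 x168 x167 x135 x173 go1065
lemma ch1066 : Good 0 ![w141, w169, w168, w167, w137, w173] :=
  good_of _ _ _ _ _ _ _ x141 x169 x168 x167 x137 x173 go1066
lemma ch1067 : Good 0 ![w141, w10, w168, w169, w137, w173] :=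
  good_of _ _ _ _ _ _ _ x141 x10 x168 x169 x137 x173 go1067
lemma ch1068 : Good 0 ![w140, w141, w168, w167, w137, w173] :=
  good_of _ _ _ _ _ _ _ x140 x141 x168 x167 x137 x173 go1068
lemma ch1069 : Good 0 ![w140, w28, w136, w167, w135, w170] :=
  good_of _ _ _ _ _ _ _ x140 x28 x136 x167 x135 x170 go1069
lemma ch1070 : Good 0 ![w140, w28, w171, w167, w136, w170] :=
  good_of _ _ _ _ _ _ _ x140 x28 x171 x167 x136 x170 go1070
lemma ch1071 : Good 0 ![w142, w28, w175, w171, w136, w170] :=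
  good_of _ _ _ _ _ _ _ x142 x28 x175 x171 x136 x170 go1071
lemma ch1072 : Good 0 ![w142, w33, w19, w171, w136, w175] :=
  good_of _ _ _ _ _ _ _ x142 x33 x19 x171 x136 x175 go1072
lemma ch1073 : Good 0 ![w142, w28, w33, w171, w136, w175] :=
  good_of _ _ _ _ _ _ _ x142 x28 x33 x171 x136 x175 go1073
lemma ch1074 : Good 0 ![w140, w28, w142, w171, w136, w170] :=
  good_of _ _ _ _ _ _ _ x140 x28 x142 x171 x136 x170 go1074
lemma ch1075 : Good 0 ![w140, w168, w28, w167, w135, w170] :=
  good_of _ _ _ _ _ _ _ x140 x168 x28 x167 x135 x170 go1075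
lemma ch1076 : Good 0 ![w140, w137, w28, w167, w135, w168] :=
  good_of _ _ _ _ _ _ _ x140 x137 x28 x167 x135 x168 go1076
lemma ch1077 : Good 0 ![w141, w169, w176, w167, w137, w168] :=
  good_of _ _ _ _ _ _ _ x141 x169 x176 x167 x137 x168 go1077
lemma ch1078 : Good 0 ![w141, w169, w28, w176, w137, w168] :=
  good_of _ _ _ _ _ _ _ x141 x169 x28 x176 x137 x168 go1078
lemma ch1079 : Good 0 ![w141, w40, w143, w169, w137, w168] :=
  good_of _ _ _ _ _ _ _ x141 x40 x143 x169 x137 x168 go1079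
lemma ch1080 : Good 0 ![w141, w40, w177, w169, w143, w168] :=
  good_of _ _ _ _ _ _ _ x141 x40 x177 x169 x143 x168 go1080
lemma ch1081 : Good 0 ![w141, w40, w28, w177, w143, w168] :=
  good_of _ _ _ _ _ _ _ x141 x40 x28 x177 x143 x168 go1081
lemma ch1082 : Good 0 ![w141, w10, w40, w169, w137, w168] :=
  good_of _ _ _ _ _ _ _ x141 x10 x40 x169 x137 x168 go1082
lemma ch1083 : Good 0 ![w140, w141, w28, w167, w137, w168] :=
  good_of _ _ _ _ _ _ _ x140 x141 x28 x167 x137 x168 go1083
lemma ch1084 : Good 0 ![w139, w140, w19, w165, w135, w166] :=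
  good_of _ _ _ _ _ _ _ x139 x140 x19 x165 x135 x166 go1084
lemma ch1085 : Good 0 ![w178, w166, w139, w165, w134, w164] :=
  good_of _ _ _ _ _ _ _ x178 x166 x139 x165 x134 x164 go1085
lemma ch1086 : Good 0 ![w178, w135, w139, w165, w134, w166] :=
  good_of _ _ _ _ _ _ _ x178 x135 x139 x165 x134 x166 go1086
lemma ch1087 : Good 0 ![w178, w140, w139, w165, w135, w166] :=
  good_of _ _ _ _ _ _ _ x178 x140 x139 x165 x135 x166 go1087
lemma ch1088 : Good 0 ![w179, w10, w140, w165, w135, w166] :=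
  good_of _ _ _ _ _ _ _ x179 x10 x140 x165 x135 x166 go1088
lemma ch1089 : Good 0 ![w178, w10, w140, w179, w135, w166] :=
  good_of _ _ _ _ _ _ _ x178 x10 x140 x179 x135 x166 go1089
lemma ch1090 : Good 0 ![w138, w178, w139, w165, w134, w164] :=
  good_of _ _ _ _ _ _ _ x138 x178 x139 x165 x134 x164 go1090
lemma ch1091 : Good 0 ![w180, w10, w139, w164, w138, w13] :=
  good_of _ _ _ _ _ _ _ x180 x10 x139 x164 x138 x13 go1091
lemma ch1092 : Good 0 ![w180, w10, w41, w164, w139, w13] :=
  good_of _ _ _ _ _ _ _ x180 x10 x41 x164 x139 x13 go1092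
lemma ch1093 : Good 0 ![w181, w166, w19, w164, w139, w41] :=
  good_of _ _ _ _ _ _ _ x181 x166 x19 x164 x139 x41 go1093
lemma ch1094 : Good 0 ![w181, w42, w19, w166, w139, w41] :=
  good_of _ _ _ _ _ _ _ x181 x42 x19 x166 x139 x41 go1094
lemma ch1095 : Good 0 ![w181, w140, w19, w166, w139, w42] :=
  good_of _ _ _ _ _ _ _ x181 x140 x19 x166 x139 x42 go1095
lemma ch1096 : Good 0 ![w181, w10, w170, w166, w140, w42] :=
  good_of _ _ _ _ _ _ _ x181 x10 x170 x166 x140 x42 go1096
lemma ch1097 : Good 0 ![w182, w28, w53, w170, w140, w42] :=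
  good_of _ _ _ _ _ _ _ x182 x28 x53 x170 x140 x42 go1097
lemma ch1098 : Good 0 ![w182, w28, w142, w170, w140, w53] :=
  good_of _ _ _ _ _ _ _ x182 x28 x142 x170 x140 x53 go1098
lemma ch1099 : Good 0 ![w182, w28, w19, w170, w142, w53] :=
  good_of _ _ _ _ _ _ _ x182 x28 x19 x170 x142 x53 go1099
lemma ch1100 : Good 0 ![w181, w28, w182, w170, w140, w42] :=
  good_of _ _ _ _ _ _ _ x181 x28 x182 x170 x140 x42 go1100
lemma ch1101 : Good 0 ![w183, w168, w28, w170, w140, w42] :=
  good_of _ _ _ _ _ _ _ x183 x168 x28 x170 x140 x42 go1101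
lemma ch1102 : Good 0 ![w183, w43, w28, w168, w140, w42] :=
  good_of _ _ _ _ _ _ _ x183 x43 x28 x168 x140 x42 go1102
lemma ch1103 : Good 0 ![w183, w141, w28, w168, w140, w43] :=
  good_of _ _ _ _ _ _ _ x183 x141 x28 x168 x140 x43 go1103
lemma ch1104 : Good 0 ![w183, w10, w28, w168, w141, w43] :=
  good_of _ _ _ _ _ _ _ x183 x10 x28 x168 x141 x43 go1104
lemma ch1105 : Good 0 ![w181, w183, w28, w170, w140, w42] :=
  good_of _ _ _ _ _ _ _ x181 x183 x28 x170 x140 x42 go1105
lemma ch1106 : Good 0 ![w180, w10, w181, w164, w139, w41] :=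
  good_of _ _ _ _ _ _ _ x180 x10 x181 x164 x139 x41 go1106
lemma ch1107 : Good 0 ![w180, w10, w139, w184, w138, w164] :=
  good_of _ _ _ _ _ _ _ x180 x10 x139 x184 x138 x164 go1107
lemma ch1108 : Good 0 ![w181, w179, w19, w184, w139, w164] :=
  good_of _ _ _ _ _ _ _ x181 x179 x19 x184 x139 x164 go1108
lemma ch1109 : Good 0 ![w181, w166, w19, w179, w139, w164] :=
  good_of _ _ _ _ _ _ _ x181 x166 x19 x179 x139 x164 go1109
lemma ch1110 : Good 0 ![w181, w140, w19, w179, w139, w166] :=
  good_of _ _ _ _ _ _ _ x181 x140 x19 x179 x139 x166 go1110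
lemma ch1111 : Good 0 ![w181, w10, w170, w179, w140, w166] :=
  good_of _ _ _ _ _ _ _ x181 x10 x170 x179 x140 x166 go1111
lemma ch1112 : Good 0 ![w181, w10, w185, w179, w140, w170] :=
  good_of _ _ _ _ _ _ _ x181 x10 x185 x179 x140 x170 go1112
lemma ch1113 : Good 0 ![w182, w28, w142, w185, w140, w170] :=
  good_of _ _ _ _ _ _ _ x182 x28 x142 x185 x140 x170 go1113
lemma ch1114 : Good 0 ![w182, w28, w175, w185, w142, w170] :=
  good_of _ _ _ _ _ _ _ x182 x28 x175 x185 x142 x170 go1114
lemma ch1115 : Good 0 ![w182, w28, w19, w185, w142, w175] :=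
  good_of _ _ _ _ _ _ _ x182 x28 x19 x185 x142 x175 go1115
lemma ch1116 : Good 0 ![w181, w28, w182, w185, w140, w170] :=
  good_of _ _ _ _ _ _ _ x181 x28 x182 x185 x140 x170 go1116
lemma ch1117 : Good 0 ![w183, w168, w28, w185, w140, w170] :=
  good_of _ _ _ _ _ _ _ x183 x168 x28 x185 x140 x170 go1117
lemma ch1118 : Good 0 ![w183, w186, w28, w185, w140, w168] :=
  good_of _ _ _ _ _ _ _ x183 x186 x28 x185 x140 x168 go1118
lemma ch1119 : Good 0 ![w183, w141, w28, w186, w140, w168] :=
  good_of _ _ _ _ _ _ _ x183 x141 x28 x186 x140 x168 go1119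
lemma ch1120 : Good 0 ![w187, w40, w28, w186, w141, w168] :=
  good_of _ _ _ _ _ _ _ x187 x40 x28 x186 x141 x168 go1120
lemma ch1121 : Good 0 ![w187, w10, w40, w186, w141, w168] :=
  good_of _ _ _ _ _ _ _ x187 x10 x40 x186 x141 x168 go1121
lemma ch1122 : Good 0 ![w183, w187, w28, w186, w141, w168] :=
  good_of _ _ _ _ _ _ _ x183 x187 x28 x186 x141 x168 go1122
lemma ch1123 : Good 0 ![w181, w183, w28, w185, w140, w170] :=
  good_of _ _ _ _ _ _ _ x181 x183 x28 x185 x140 x170 go1123
lemma ch1124 : Good 0 ![w180, w10, w181, w184, w139, w164] :=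
  good_of _ _ _ _ _ _ _ x180 x10 x181 x184 x139 x164 go1124
lemma ch1125 : Good 0 ![w180, w165, w19, w163, w184, w164] :=
  good_of _ _ _ _ _ _ _ x180 x165 x19 x163 x184 x164 go1125
lemma ch1126 : Good 0 ![w181, w179, w19, w165, w184, w164] :=
  good_of _ _ _ _ _ _ _ x181 x179 x19 x165 x184 x164 go1126
lemma ch1127 : Good 0 ![w181, w166, w19, w165, w179, w164] :=
  good_of _ _ _ _ _ _ _ x181 x166 x19 x165 x179 x164 go1127
lemma ch1128 : Good 0 ![w181, w167, w19, w165, w179, w166] :=
  good_of _ _ _ _ _ _ _ x181 x167 x19 x165 x179 x166 go1128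
lemma ch1129 : Good 0 ![w183, w173, w170, w167, w179, w166] :=
  good_of _ _ _ _ _ _ _ x183 x173 x170 x167 x179 x166 go1129
lemma ch1130 : Good 0 ![w183, w188, w170, w167, w179, w173] :=
  good_of _ _ _ _ _ _ _ x183 x188 x170 x167 x179 x173 go1130
lemma ch1131 : Good 0 ![w183, w168, w170, w167, w188, w173] :=
  good_of _ _ _ _ _ _ _ x183 x168 x170 x167 x188 x173 go1131
lemma ch1132 : Good 0 ![w187, w169, w168, w167, w188, w173] :=
  good_of _ _ _ _ _ _ _ x187 x169 x168 x167 x188 x173 go1132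
lemma ch1133 : Good 0 ![w187, w10, w168, w169, w188, w173] :=
  good_of _ _ _ _ _ _ _ x187 x10 x168 x169 x188 x173 go1133
lemma ch1134 : Good 0 ![w183, w187, w168, w167, w188, w173] :=
  good_of _ _ _ _ _ _ _ x183 x187 x168 x167 x188 x173 go1134
lemma ch1135 : Good 0 ![w181, w183, w170, w167, w179, w166] :=
  good_of _ _ _ _ _ _ _ x181 x183 x170 x167 x179 x166 go1135
lemma ch1136 : Good 0 ![w183, w188, w185, w167, w179, w170] :=
  good_of _ _ _ _ _ _ _ x183 x188 x185 x167 x179 x170 go1136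
lemma ch1137 : Good 0 ![w183, w168, w185, w167, w188, w170] :=
  good_of _ _ _ _ _ _ _ x183 x168 x185 x167 x188 x170 go1137
lemma ch1138 : Good 0 ![w183, w186, w185, w167, w188, w168] :=
  good_of _ _ _ _ _ _ _ x183 x186 x185 x167 x188 x168 go1138
lemma ch1139 : Good 0 ![w187, w169, w186, w167, w188, w168] :=
  good_of _ _ _ _ _ _ _ x187 x169 x186 x167 x188 x168 go1139
lemma ch1140 : Good 0 ![w187, w10, w186, w169, w188, w168] :=
  good_of _ _ _ _ _ _ _ x187 x10 x186 x169 x188 x168 go1140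
lemma ch1141 : Good 0 ![w183, w187, w186, w167, w188, w168] :=
  good_of _ _ _ _ _ _ _ x183 x187 x186 x167 x188 x168 go1141
lemma ch1142 : Good 0 ![w181, w183, w185, w167, w179, w170] :=
  good_of _ _ _ _ _ _ _ x181 x183 x185 x167 x179 x170 go1142
lemma ch1143 : Good 0 ![w183, w28, w171, w167, w185, w170] :=
  good_of _ _ _ _ _ _ _ x183 x28 x171 x167 x185 x170 go1143
lemma ch1144 : Good 0 ![w189, w28, w175, w171, w185, w170] :=
  good_of _ _ _ _ _ _ _ x189 x28 x175 x171 x185 x170 go1144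
lemma ch1145 : Good 0 ![w189, w33, w19, w171, w185, w175] :=
  good_of _ _ _ _ _ _ _ x189 x33 x19 x171 x185 x175 go1145
lemma ch1146 : Good 0 ![w189, w28, w33, w171, w185, w175] :=
  good_of _ _ _ _ _ _ _ x189 x28 x33 x171 x185 x175 go1146
lemma ch1147 : Good 0 ![w183, w28, w189, w171, w185, w170] :=
  good_of _ _ _ _ _ _ _ x183 x28 x189 x171 x185 x170 go1147
lemma ch1148 : Good 0 ![w183, w168, w28, w167, w185, w170] :=
  good_of _ _ _ _ _ _ _ x183 x168 x28 x167 x185 x170 go1148
lemma ch1149 : Good 0 ![w183, w186, w28, w167, w185, w168] :=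
  good_of _ _ _ _ _ _ _ x183 x186 x28 x167 x185 x168 go1149
lemma ch1150 : Good 0 ![w187, w169, w28, w167, w186, w168] :=
  good_of _ _ _ _ _ _ _ x187 x169 x28 x167 x186 x168 go1150
lemma ch1151 : Good 0 ![w187, w190, w177, w169, w186, w168] :=
  good_of _ _ _ _ _ _ _ x187 x190 x177 x169 x186 x168 go1151
lemma ch1152 : Good 0 ![w187, w40, w177, w190, w186, w168] :=
  good_of _ _ _ _ _ _ _ x187 x40 x177 x190 x186 x168 go1152
lemma ch1153 : Good 0 ![w187, w40, w28, w177, w186, w168] :=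
  good_of _ _ _ _ _ _ _ x187 x40 x28 x177 x186 x168 go1153
lemma ch1154 : Good 0 ![w187, w172, w190, w169, w186, w168] :=
  good_of _ _ _ _ _ _ _ x187 x172 x190 x169 x186 x168 go1154
lemma ch1155 : Good 0 ![w187, w172, w40, w190, w186, w168] :=
  good_of _ _ _ _ _ _ _ x187 x172 x40 x190 x186 x168 go1155
lemma ch1156 : Good 0 ![w187, w10, w40, w169, w186, w172] :=
  good_of _ _ _ _ _ _ _ x187 x10 x40 x169 x186 x172 go1156
lemma ch1157 : Good 0 ![w183, w187, w28, w167, w186, w168] :=
  good_of _ _ _ _ _ _ _ x183 x187 x28 x167 x186 x168 go1157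
lemma ch1158 : Good 0 ![w181, w183, w19, w167, w185, w170] :=
  good_of _ _ _ _ _ _ _ x181 x183 x19 x167 x185 x170 go1158
lemma ch1159 : Good 0 ![w180, w179, w181, w165, w184, w164] :=
  good_of _ _ _ _ _ _ _ x180 x179 x181 x165 x184 x164 go1159
lemma ch1160 : Good 0 ![w180, w166, w181, w165, w179, w164] :=
  good_of _ _ _ _ _ _ _ x180 x166 x181 x165 x179 x164 go1160
lemma ch1161 : Good 0 ![w180, w10, w181, w165, w179, w166] :=
  good_of _ _ _ _ _ _ _ x180 x10 x181 x165 x179 x166 go1161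
lemma ch1162 : Good 0 ![w61, w10, w139, w180, w138, w13] :=
  good_of _ _ _ _ _ _ _ x61 x10 x139 x180 x138 x13 go1162
lemma ch1163 : Good 0 ![w61, w10, w41, w180, w139, w13] :=
  good_of _ _ _ _ _ _ _ x61 x10 x41 x180 x139 x13 go1163
lemma ch1164 : Good 0 ![w61, w10, w181, w180, w139, w41] :=
  good_of _ _ _ _ _ _ _ x61 x10 x181 x180 x139 x41 go1164
lemma ch1165 : Good 0 ![w62, w42, w19, w181, w139, w41] :=
  good_of _ _ _ _ _ _ _ x62 x42 x19 x181 x139 x41 go1165
lemma ch1166 : Good 0 ![w62, w140, w148, w181, w139, w42] :=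
  good_of _ _ _ _ _ _ _ x62 x140 x148 x181 x139 x42 go1166
lemma ch1167 : Good 0 ![w62, w140, w53, w181, w148, w42] :=
  good_of _ _ _ _ _ _ _ x62 x140 x53 x181 x148 x42 go1167
lemma ch1168 : Good 0 ![w62, w142, w19, w181, w148, w53] :=
  good_of _ _ _ _ _ _ _ x62 x142 x19 x181 x148 x53 go1168
lemma ch1169 : Good 0 ![w62, w140, w142, w181, w148, w53] :=
  good_of _ _ _ _ _ _ _ x62 x140 x142 x181 x148 x53 go1169
lemma ch1170 : Good 0 ![w62, w28, w182, w181, w140, w42] :=
  good_of _ _ _ _ _ _ _ x62 x28 x182 x181 x140 x42 go1170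
lemma ch1171 : Good 0 ![w62, w28, w53, w182, w140, w42] :=
  good_of _ _ _ _ _ _ _ x62 x28 x53 x182 x140 x42 go1171
lemma ch1172 : Good 0 ![w62, w28, w142, w182, w140, w53] :=
  good_of _ _ _ _ _ _ _ x62 x28 x142 x182 x140 x53 go1172
lemma ch1173 : Good 0 ![w64, w33, w65, w182, w142, w53] :=
  good_of _ _ _ _ _ _ _ x64 x33 x65 x182 x142 x53 go1173
lemma ch1174 : Good 0 ![w64, w33, w19, w182, w142, w65] :=
  good_of _ _ _ _ _ _ _ x64 x33 x19 x182 x142 x65 go1174
lemma ch1175 : Good 0 ![w64, w28, w33, w182, w142, w53] :=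
  good_of _ _ _ _ _ _ _ x64 x28 x33 x182 x142 x53 go1175
lemma ch1176 : Good 0 ![w62, w28, w64, w182, w142, w53] :=
  good_of _ _ _ _ _ _ _ x62 x28 x64 x182 x142 x53 go1176
lemma ch1177 : Good 0 ![w62, w183, w28, w181, w140, w42] :=
  good_of _ _ _ _ _ _ _ x62 x183 x28 x181 x140 x42 go1177
lemma ch1178 : Good 0 ![w66, w43, w28, w183, w140, w42] :=
  good_of _ _ _ _ _ _ _ x66 x43 x28 x183 x140 x42 go1178
lemma ch1179 : Good 0 ![w66, w141, w28, w183, w140, w43] :=
  good_of _ _ _ _ _ _ _ x66 x141 x28 x183 x140 x43 go1179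
lemma ch1180 : Good 0 ![w66, w187, w28, w183, w141, w43] :=
  good_of _ _ _ _ _ _ _ x66 x187 x28 x183 x141 x43 go1180
lemma ch1181 : Good 0 ![w67, w10, w28, w187, w141, w43] :=
  good_of _ _ _ _ _ _ _ x67 x10 x28 x187 x141 x43 go1181
lemma ch1182 : Good 0 ![w66, w67, w28, w187, w141, w43] :=
  good_of _ _ _ _ _ _ _ x66 x67 x28 x187 x141 x43 go1182
lemma ch1183 : Good 0 ![w62, w66, w28, w183, w140, w42] :=
  good_of _ _ _ _ _ _ _ x62 x66 x28 x183 x140 x42 go1183
lemma ch1184 : Good 0 ![w61, w10, w62, w181, w139, w41] :=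
  good_of _ _ _ _ _ _ _ x61 x10 x62 x181 x139 x41 go1184
lemma ch1185 : Good 0 ![w0, w10, w61, w180, w138, w13] :=
  good_of _ _ _ _ _ _ _ x0 x10 x61 x180 x138 x13 go1185
lemma ch1186 : Good 0 ![w15, w68, w19, w191, w133, w7] :=
  good_of _ _ _ _ _ _ _ x15 x68 x19 x191 x133 x7 go1186
lemma ch1187 : Good 0 ![w15, w149, w19, w191, w133, w68] :=
  good_of _ _ _ _ _ _ _ x15 x149 x19 x191 x133 x68 go1187
lemma ch1188 : Good 0 ![w69, w70, w19, w191, w149, w68] :=
  good_of _ _ _ _ _ _ _ x69 x70 x19 x191 x149 x68 go1188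
lemma ch1189 : Good 0 ![w69, w192, w19, w191, w149, w70] :=
  good_of _ _ _ _ _ _ _ x69 x192 x19 x191 x149 x70 go1189
lemma ch1190 : Good 0 ![w69, w150, w19, w192, w149, w70] :=
  good_of _ _ _ _ _ _ _ x69 x150 x19 x192 x149 x70 go1190
lemma ch1191 : Good 0 ![w71, w193, w72, w192, w150, w70] :=
  good_of _ _ _ _ _ _ _ x71 x193 x72 x192 x150 x70 go1191
lemma ch1192 : Good 0 ![w71, w194, w72, w193, w150, w70] :=
  good_of _ _ _ _ _ _ _ x71 x194 x72 x193 x150 x70 go1192
lemma ch1193 : Good 0 ![w75, w76, w72, w193, w150, w194] :=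
  good_of _ _ _ _ _ _ _ x75 x76 x72 x193 x150 x194 go1193
lemma ch1194 : Good 0 ![w75, w10, w76, w193, w150, w194] :=
  good_of _ _ _ _ _ _ _ x75 x10 x76 x193 x150 x194 go1194
lemma ch1195 : Good 0 ![w71, w75, w72, w193, w150, w194] :=
  good_of _ _ _ _ _ _ _ x71 x75 x72 x193 x150 x194 go1195
lemma ch1196 : Good 0 ![w71, w193, w19, w192, w150, w72] :=
  good_of _ _ _ _ _ _ _ x71 x193 x19 x192 x150 x72 go1196
lemma ch1197 : Good 0 ![w71, w28, w151, w193, w150, w72] :=
  good_of _ _ _ _ _ _ _ x71 x28 x151 x193 x150 x72 go1197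
lemma ch1198 : Good 0 ![w71, w28, w195, w193, w151, w72] :=
  good_of _ _ _ _ _ _ _ x71 x28 x195 x193 x151 x72 go1198
lemma ch1199 : Good 0 ![w73, w28, w74, w195, w151, w72] :=
  good_of _ _ _ _ _ _ _ x73 x28 x74 x195 x151 x72 go1199
lemma ch1200 : Good 0 ![w73, w33, w19, w195, w151, w74] :=
  good_of _ _ _ _ _ _ _ x73 x33 x19 x195 x151 x74 go1200
lemma ch1201 : Good 0 ![w73, w28, w33, w195, w151, w74] :=
  good_of _ _ _ _ _ _ _ x73 x28 x33 x195 x151 x74 go1201
lemma ch1202 : Good 0 ![w71, w28, w73, w195, w151, w72] :=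
  good_of _ _ _ _ _ _ _ x71 x28 x73 x195 x151 x72 go1202
lemma ch1203 : Good 0 ![w75, w76, w28, w193, w150, w72] :=
  good_of _ _ _ _ _ _ _ x75 x76 x28 x193 x150 x72 go1203
lemma ch1204 : Good 0 ![w75, w152, w28, w193, w150, w76] :=
  good_of _ _ _ _ _ _ _ x75 x152 x28 x193 x150 x76 go1204
lemma ch1205 : Good 0 ![w75, w196, w28, w193, w152, w76] :=
  good_of _ _ _ _ _ _ _ x75 x196 x28 x193 x152 x76 go1205
lemma ch1206 : Good 0 ![w75, w40, w158, w196, w152, w76] :=
  good_of _ _ _ _ _ _ _ x75 x40 x158 x196 x152 x76 go1206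
lemma ch1207 : Good 0 ![w75, w40, w28, w196, w158, w76] :=
  good_of _ _ _ _ _ _ _ x75 x40 x28 x196 x158 x76 go1207
lemma ch1208 : Good 0 ![w75, w10, w40, w196, w152, w76] :=
  good_of _ _ _ _ _ _ _ x75 x10 x40 x196 x152 x76 go1208
lemma ch1209 : Good 0 ![w71, w75, w28, w193, w150, w72] :=
  good_of _ _ _ _ _ _ _ x71 x75 x28 x193 x150 x72 go1209
lemma ch1210 : Good 0 ![w69, w10, w71, w192, w150, w70] :=
  good_of _ _ _ _ _ _ _ x69 x10 x71 x192 x150 x70 go1210
lemma ch1211 : Good 0 ![w15, w69, w19, w191, w149, w68] :=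
  good_of _ _ _ _ _ _ _ x15 x69 x19 x191 x149 x68 go1211
lemma ch1212 : Good 0 ![w153, w149, w19, w191, w133, w15] :=
  good_of _ _ _ _ _ _ _ x153 x149 x19 x191 x133 x15 go1212
lemma ch1213 : Good 0 ![w153, w10, w77, w191, w149, w15] :=
  good_of _ _ _ _ _ _ _ x153 x10 x77 x191 x149 x15 go1213
lemma ch1214 : Good 0 ![w153, w192, w19, w191, w149, w77] :=
  good_of _ _ _ _ _ _ _ x153 x192 x19 x191 x149 x77 go1214
lemma ch1215 : Good 0 ![w154, w150, w19, w192, w149, w77] :=
  good_of _ _ _ _ _ _ _ x154 x150 x19 x192 x149 x77 go1215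
lemma ch1216 : Good 0 ![w154, w78, w19, w192, w150, w77] :=
  good_of _ _ _ _ _ _ _ x154 x78 x19 x192 x150 x77 go1216
lemma ch1217 : Good 0 ![w155, w193, w19, w192, w150, w78] :=
  good_of _ _ _ _ _ _ _ x155 x193 x19 x192 x150 x78 go1217
lemma ch1218 : Good 0 ![w155, w28, w151, w193, w150, w78] :=
  good_of _ _ _ _ _ _ _ x155 x28 x151 x193 x150 x78 go1218
lemma ch1219 : Good 0 ![w155, w28, w195, w193, w151, w78] :=
  good_of _ _ _ _ _ _ _ x155 x28 x195 x193 x151 x78 go1219
lemma ch1220 : Good 0 ![w155, w28, w79, w195, w151, w78] :=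
  good_of _ _ _ _ _ _ _ x155 x28 x79 x195 x151 x78 go1220
lemma ch1221 : Good 0 ![w156, w33, w19, w195, w151, w79] :=
  good_of _ _ _ _ _ _ _ x156 x33 x19 x195 x151 x79 go1221
lemma ch1222 : Good 0 ![w156, w28, w33, w195, w151, w79] :=
  good_of _ _ _ _ _ _ _ x156 x28 x33 x195 x151 x79 go1222
lemma ch1223 : Good 0 ![w155, w28, w156, w195, w151, w79] :=
  good_of _ _ _ _ _ _ _ x155 x28 x156 x195 x151 x79 go1223
lemma ch1224 : Good 0 ![w155, w152, w28, w193, w150, w78] :=
  good_of _ _ _ _ _ _ _ x155 x152 x28 x193 x150 x78 go1224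
lemma ch1225 : Good 0 ![w155, w80, w28, w193, w152, w78] :=
  good_of _ _ _ _ _ _ _ x155 x80 x28 x193 x152 x78 go1225
lemma ch1226 : Good 0 ![w157, w196, w197, w193, w152, w80] :=
  good_of _ _ _ _ _ _ _ x157 x196 x197 x193 x152 x80 go1226
lemma ch1227 : Good 0 ![w157, w196, w28, w197, w152, w80] :=
  good_of _ _ _ _ _ _ _ x157 x196 x28 x197 x152 x80 go1227
lemma ch1228 : Good 0 ![w157, w40, w158, w196, w152, w80] :=
  good_of _ _ _ _ _ _ _ x157 x40 x158 x196 x152 x80 go1228
lemma ch1229 : Good 0 ![w157, w40, w198, w196, w158, w80] :=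
  good_of _ _ _ _ _ _ _ x157 x40 x198 x196 x158 x80 go1229
lemma ch1230 : Good 0 ![w157, w40, w28, w198, w158, w80] :=
  good_of _ _ _ _ _ _ _ x157 x40 x28 x198 x158 x80 go1230
lemma ch1231 : Good 0 ![w157, w10, w40, w196, w152, w80] :=
  good_of _ _ _ _ _ _ _ x157 x10 x40 x196 x152 x80 go1231
lemma ch1232 : Good 0 ![w155, w157, w28, w193, w152, w80] :=
  good_of _ _ _ _ _ _ _ x155 x157 x28 x193 x152 x80 go1232
lemma ch1233 : Good 0 ![w154, w155, w19, w192, w150, w78] :=
  good_of _ _ _ _ _ _ _ x154 x155 x19 x192 x150 x78 go1233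
lemma ch1234 : Good 0 ![w153, w10, w154, w192, w149, w77] :=
  good_of _ _ _ _ _ _ _ x153 x10 x154 x192 x149 x77 go1234
lemma ch1235 : Good 0 ![w199, w10, w77, w191, w153, w15] :=
  good_of _ _ _ _ _ _ _ x199 x10 x77 x191 x153 x15 go1235
lemma ch1236 : Good 0 ![w199, w10, w154, w200, w153, w77] :=
  good_of _ _ _ _ _ _ _ x199 x10 x154 x200 x153 x77 go1236
lemma ch1237 : Good 0 ![w201, w202, w19, w200, w154, w77] :=
  good_of _ _ _ _ _ _ _ x201 x202 x19 x200 x154 x77 go1237
lemma ch1238 : Good 0 ![w201, w78, w19, w202, w154, w77] :=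
  good_of _ _ _ _ _ _ _ x201 x78 x19 x202 x154 x77 go1238
lemma ch1239 : Good 0 ![w201, w155, w19, w202, w154, w78] :=
  good_of _ _ _ _ _ _ _ x201 x155 x19 x202 x154 x78 go1239
lemma ch1240 : Good 0 ![w201, w10, w203, w202, w155, w78] :=
  good_of _ _ _ _ _ _ _ x201 x10 x203 x202 x155 x78 go1240
lemma ch1241 : Good 0 ![w201, w28, w79, w203, w155, w78] :=
  good_of _ _ _ _ _ _ _ x201 x28 x79 x203 x155 x78 go1241
lemma ch1242 : Good 0 ![w204, w28, w19, w203, w155, w79] :=
  good_of _ _ _ _ _ _ _ x204 x28 x19 x203 x155 x79 go1242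
lemma ch1243 : Good 0 ![w201, w28, w204, w203, w155, w79] :=
  good_of _ _ _ _ _ _ _ x201 x28 x204 x203 x155 x79 go1243
lemma ch1244 : Good 0 ![w205, w206, w28, w203, w155, w78] :=
  good_of _ _ _ _ _ _ _ x205 x206 x28 x203 x155 x78 go1244
lemma ch1245 : Good 0 ![w205, w80, w28, w206, w155, w78] :=
  good_of _ _ _ _ _ _ _ x205 x80 x28 x206 x155 x78 go1245
lemma ch1246 : Good 0 ![w205, w157, w28, w206, w155, w80] :=
  good_of _ _ _ _ _ _ _ x205 x157 x28 x206 x155 x80 go1246
lemma ch1247 : Good 0 ![w207, w10, w28, w206, w157, w80] :=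
  good_of _ _ _ _ _ _ _ x207 x10 x28 x206 x157 x80 go1247
lemma ch1248 : Good 0 ![w205, w207, w28, w206, w157, w80] :=
  good_of _ _ _ _ _ _ _ x205 x207 x28 x206 x157 x80 go1248
lemma ch1249 : Good 0 ![w201, w205, w28, w203, w155, w78] :=
  good_of _ _ _ _ _ _ _ x201 x205 x28 x203 x155 x78 go1249
lemma ch1250 : Good 0 ![w199, w10, w201, w200, w154, w77] :=
  good_of _ _ _ _ _ _ _ x199 x10 x201 x200 x154 x77 go1250
lemma ch1251 : Good 0 ![w199, w192, w19, w191, w200, w77] :=
  good_of _ _ _ _ _ _ _ x199 x192 x19 x191 x200 x77 go1251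
lemma ch1252 : Good 0 ![w201, w202, w19, w192, w200, w77] :=
  good_of _ _ _ _ _ _ _ x201 x202 x19 x192 x200 x77 go1252
lemma ch1253 : Good 0 ![w201, w78, w19, w192, w202, w77] :=
  good_of _ _ _ _ _ _ _ x201 x78 x19 x192 x202 x77 go1253
lemma ch1254 : Good 0 ![w201, w193, w19, w192, w202, w78] :=
  good_of _ _ _ _ _ _ _ x201 x193 x19 x192 x202 x78 go1254
lemma ch1255 : Good 0 ![w205, w208, w203, w193, w202, w78] :=
  good_of _ _ _ _ _ _ _ x205 x208 x203 x193 x202 x78 go1255
lemma ch1256 : Good 0 ![w205, w206, w203, w193, w208, w78] :=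
  good_of _ _ _ _ _ _ _ x205 x206 x203 x193 x208 x78 go1256
lemma ch1257 : Good 0 ![w205, w80, w206, w193, w208, w78] :=
  good_of _ _ _ _ _ _ _ x205 x80 x206 x193 x208 x78 go1257
lemma ch1258 : Good 0 ![w205, w10, w206, w193, w208, w80] :=
  good_of _ _ _ _ _ _ _ x205 x10 x206 x193 x208 x80 go1258
lemma ch1259 : Good 0 ![w201, w205, w203, w193, w202, w78] :=
  good_of _ _ _ _ _ _ _ x201 x205 x203 x193 x202 x78 go1259
lemma ch1260 : Good 0 ![w205, w28, w195, w193, w203, w78] :=
  good_of _ _ _ _ _ _ _ x205 x28 x195 x193 x203 x78 go1260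
lemma ch1261 : Good 0 ![w205, w28, w79, w195, w203, w78] :=
  good_of _ _ _ _ _ _ _ x205 x28 x79 x195 x203 x78 go1261
lemma ch1262 : Good 0 ![w209, w33, w19, w195, w203, w79] :=
  good_of _ _ _ _ _ _ _ x209 x33 x19 x195 x203 x79 go1262
lemma ch1263 : Good 0 ![w209, w28, w33, w195, w203, w79] :=
  good_of _ _ _ _ _ _ _ x209 x28 x33 x195 x203 x79 go1263
lemma ch1264 : Good 0 ![w205, w28, w209, w195, w203, w79] :=
  good_of _ _ _ _ _ _ _ x205 x28 x209 x195 x203 x79 go1264
lemma ch1265 : Good 0 ![w205, w206, w28, w193, w203, w78] :=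
  good_of _ _ _ _ _ _ _ x205 x206 x28 x193 x203 x78 go1265
lemma ch1266 : Good 0 ![w205, w80, w28, w193, w206, w78] :=
  good_of _ _ _ _ _ _ _ x205 x80 x28 x193 x206 x78 go1266
lemma ch1267 : Good 0 ![w207, w196, w28, w193, w206, w80] :=
  good_of _ _ _ _ _ _ _ x207 x196 x28 x193 x206 x80 go1267
lemma ch1268 : Good 0 ![w207, w210, w198, w196, w206, w80] :=
  good_of _ _ _ _ _ _ _ x207 x210 x198 x196 x206 x80 go1268
lemma ch1269 : Good 0 ![w207, w40, w198, w196, w206, w210] :=
  good_of _ _ _ _ _ _ _ x207 x40 x198 x196 x206 x210 go1269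
lemma ch1270 : Good 0 ![w207, w40, w28, w198, w206, w80] :=
  good_of _ _ _ _ _ _ _ x207 x40 x28 x198 x206 x80 go1270
lemma ch1271 : Good 0 ![w207, w10, w40, w196, w206, w80] :=
  good_of _ _ _ _ _ _ _ x207 x10 x40 x196 x206 x80 go1271
lemma ch1272 : Good 0 ![w205, w207, w28, w193, w206, w80] :=
  good_of _ _ _ _ _ _ _ x205 x207 x28 x193 x206 x80 go1272
lemma ch1273 : Good 0 ![w201, w205, w19, w193, w203, w78] :=
  good_of _ _ _ _ _ _ _ x201 x205 x19 x193 x203 x78 go1273
lemma ch1274 : Good 0 ![w199, w10, w201, w192, w200, w77] :=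
  good_of _ _ _ _ _ _ _ x199 x10 x201 x192 x200 x77 go1274
lemma ch1275 : Good 0 ![w61, w10, w77, w199, w153, w15] :=
  good_of _ _ _ _ _ _ _ x61 x10 x77 x199 x153 x15 go1275
lemma ch1276 : Good 0 ![w61, w10, w154, w199, w153, w77] :=
  good_of _ _ _ _ _ _ _ x61 x10 x154 x199 x153 x77 go1276
lemma ch1277 : Good 0 ![w61, w10, w201, w199, w154, w77] :=
  good_of _ _ _ _ _ _ _ x61 x10 x201 x199 x154 x77 go1277
lemma ch1278 : Good 0 ![w62, w78, w19, w201, w154, w77] :=
  good_of _ _ _ _ _ _ _ x62 x78 x19 x201 x154 x77 go1278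
lemma ch1279 : Good 0 ![w62, w155, w19, w201, w154, w78] :=
  good_of _ _ _ _ _ _ _ x62 x155 x19 x201 x154 x78 go1279
lemma ch1280 : Good 0 ![w62, w28, w79, w201, w155, w78] :=
  good_of _ _ _ _ _ _ _ x62 x28 x79 x201 x155 x78 go1280
lemma ch1281 : Good 0 ![w62, w28, w204, w201, w155, w79] :=
  good_of _ _ _ _ _ _ _ x62 x28 x204 x201 x155 x79 go1281
lemma ch1282 : Good 0 ![w62, w28, w156, w204, w155, w79] :=
  good_of _ _ _ _ _ _ _ x62 x28 x156 x204 x155 x79 go1282
lemma ch1283 : Good 0 ![w64, w33, w19, w204, w156, w79] :=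
  good_of _ _ _ _ _ _ _ x64 x33 x19 x204 x156 x79 go1283
lemma ch1284 : Good 0 ![w64, w28, w33, w204, w156, w79] :=
  good_of _ _ _ _ _ _ _ x64 x28 x33 x204 x156 x79 go1284
lemma ch1285 : Good 0 ![w62, w28, w64, w204, w156, w79] :=
  good_of _ _ _ _ _ _ _ x62 x28 x64 x204 x156 x79 go1285
lemma ch1286 : Good 0 ![w62, w205, w28, w201, w155, w78] :=
  good_of _ _ _ _ _ _ _ x62 x205 x28 x201 x155 x78 go1286
lemma ch1287 : Good 0 ![w66, w80, w28, w205, w155, w78] :=
  good_of _ _ _ _ _ _ _ x66 x80 x28 x205 x155 x78 go1287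
lemma ch1288 : Good 0 ![w66, w157, w28, w205, w155, w80] :=
  good_of _ _ _ _ _ _ _ x66 x157 x28 x205 x155 x80 go1288
lemma ch1289 : Good 0 ![w66, w207, w28, w205, w157, w80] :=
  good_of _ _ _ _ _ _ _ x66 x207 x28 x205 x157 x80 go1289
lemma ch1290 : Good 0 ![w67, w10, w28, w207, w157, w80] :=
  good_of _ _ _ _ _ _ _ x67 x10 x28 x207 x157 x80 go1290
lemma ch1291 : Good 0 ![w66, w67, w28, w207, w157, w80] :=
  good_of _ _ _ _ _ _ _ x66 x67 x28 x207 x157 x80 go1291
lemma ch1292 : Good 0 ![w62, w66, w28, w205, w155, w78] :=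
  good_of _ _ _ _ _ _ _ x62 x66 x28 x205 x155 x78 go1292
lemma ch1293 : Good 0 ![w61, w10, w62, w201, w154, w77] :=
  good_of _ _ _ _ _ _ _ x61 x10 x62 x201 x154 x77 go1293
lemma ch1294 : Good 0 ![w0, w10, w61, w199, w153, w15] :=
  good_of _ _ _ _ _ _ _ x0 x10 x61 x199 x153 x15 go1294
lemma ch1295 : Good 0 ![w13, w102, w19, w163, w14, w5] :=
  good_of _ _ _ _ _ _ _ x13 x102 x19 x163 x14 x5 go1295
lemma ch1296 : Good 0 ![w13, w20, w19, w163, w102, w5] :=
  good_of _ _ _ _ _ _ _ x13 x20 x19 x163 x102 x5 go1296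
lemma ch1297 : Good 0 ![w164, w165, w19, w163, w102, w20] :=
  good_of _ _ _ _ _ _ _ x164 x165 x19 x163 x102 x20 go1297
lemma ch1298 : Good 0 ![w166, w103, w19, w165, w102, w20] :=
  good_of _ _ _ _ _ _ _ x166 x103 x19 x165 x102 x20 go1298
lemma ch1299 : Good 0 ![w166, w25, w19, w165, w103, w20] :=
  good_of _ _ _ _ _ _ _ x166 x25 x19 x165 x103 x20 go1299
lemma ch1300 : Good 0 ![w166, w167, w19, w165, w103, w25] :=
  good_of _ _ _ _ _ _ _ x166 x167 x19 x165 x103 x25 go1300
lemma ch1301 : Good 0 ![w168, w35, w29, w167, w103, w25] :=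
  good_of _ _ _ _ _ _ _ x168 x35 x29 x167 x103 x25 go1301
lemma ch1302 : Good 0 ![w168, w38, w29, w167, w103, w35] :=
  good_of _ _ _ _ _ _ _ x168 x38 x29 x167 x103 x35 go1302
lemma ch1303 : Good 0 ![w168, w105, w38, w167, w103, w35] :=
  good_of _ _ _ _ _ _ _ x168 x105 x38 x167 x103 x35 go1303
lemma ch1304 : Good 0 ![w168, w169, w38, w167, w105, w35] :=
  good_of _ _ _ _ _ _ _ x168 x169 x38 x167 x105 x35 go1304
lemma ch1305 : Good 0 ![w168, w10, w38, w169, w105, w35] :=
  good_of _ _ _ _ _ _ _ x168 x10 x38 x169 x105 x35 go1305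
lemma ch1306 : Good 0 ![w170, w168, w29, w167, w103, w25] :=
  good_of _ _ _ _ _ _ _ x170 x168 x29 x167 x103 x25 go1306
lemma ch1307 : Good 0 ![w170, w28, w104, w167, w103, w29] :=
  good_of _ _ _ _ _ _ _ x170 x28 x104 x167 x103 x29 go1307
lemma ch1308 : Good 0 ![w170, w28, w171, w167, w104, w29] :=
  good_of _ _ _ _ _ _ _ x170 x28 x171 x167 x104 x29 go1308
lemma ch1309 : Good 0 ![w170, w28, w32, w171, w104, w29] :=
  good_of _ _ _ _ _ _ _ x170 x28 x32 x171 x104 x29 go1309
lemma ch1310 : Good 0 ![w170, w33, w19, w171, w104, w32] :=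
  good_of _ _ _ _ _ _ _ x170 x33 x19 x171 x104 x32 go1310
lemma ch1311 : Good 0 ![w170, w28, w33, w171, w104, w32] :=
  good_of _ _ _ _ _ _ _ x170 x28 x33 x171 x104 x32 go1311
lemma ch1312 : Good 0 ![w168, w38, w28, w167, w103, w29] :=
  good_of _ _ _ _ _ _ _ x168 x38 x28 x167 x103 x29 go1312
lemma ch1313 : Good 0 ![w168, w105, w28, w167, w103, w38] :=
  good_of _ _ _ _ _ _ _ x168 x105 x28 x167 x103 x38 go1313
lemma ch1314 : Good 0 ![w168, w169, w28, w167, w105, w38] :=
  good_of _ _ _ _ _ _ _ x168 x169 x28 x167 x105 x38 go1314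
lemma ch1315 : Good 0 ![w168, w40, w111, w169, w105, w38] :=
  good_of _ _ _ _ _ _ _ x168 x40 x111 x169 x105 x38 go1315
lemma ch1316 : Good 0 ![w168, w40, w28, w169, w111, w38] :=
  good_of _ _ _ _ _ _ _ x168 x40 x28 x169 x111 x38 go1316
lemma ch1317 : Good 0 ![w172, w10, w40, w169, w105, w38] :=
  good_of _ _ _ _ _ _ _ x172 x10 x40 x169 x105 x38 go1317
lemma ch1318 : Good 0 ![w168, w172, w40, w169, w105, w38] :=
  good_of _ _ _ _ _ _ _ x168 x172 x40 x169 x105 x38 go1318
lemma ch1319 : Good 0 ![w170, w168, w28, w167, w103, w29] :=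
  good_of _ _ _ _ _ _ _ x170 x168 x28 x167 x103 x29 go1319
lemma ch1320 : Good 0 ![w173, w168, w170, w167, w103, w25] :=
  good_of _ _ _ _ _ _ _ x173 x168 x170 x167 x103 x25 go1320
lemma ch1321 : Good 0 ![w173, w35, w168, w167, w103, w25] :=
  good_of _ _ _ _ _ _ _ x173 x35 x168 x167 x103 x25 go1321
lemma ch1322 : Good 0 ![w173, w105, w168, w167, w103, w35] :=
  good_of _ _ _ _ _ _ _ x173 x105 x168 x167 x103 x35 go1322
lemma ch1323 : Good 0 ![w173, w169, w168, w167, w105, w35] :=
  good_of _ _ _ _ _ _ _ x173 x169 x168 x167 x105 x35 go1323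
lemma ch1324 : Good 0 ![w174, w10, w168, w169, w105, w35] :=
  good_of _ _ _ _ _ _ _ x174 x10 x168 x169 x105 x35 go1324
lemma ch1325 : Good 0 ![w173, w174, w168, w169, w105, w35] :=
  good_of _ _ _ _ _ _ _ x173 x174 x168 x169 x105 x35 go1325
lemma ch1326 : Good 0 ![w166, w173, w170, w167, w103, w25] :=
  good_of _ _ _ _ _ _ _ x166 x173 x170 x167 x103 x25 go1326
lemma ch1327 : Good 0 ![w164, w166, w19, w165, w102, w20] :=
  good_of _ _ _ _ _ _ _ x164 x166 x19 x165 x102 x20 go1327
lemma ch1328 : Good 0 ![w41, w166, w19, w164, w102, w20] :=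
  good_of _ _ _ _ _ _ _ x41 x166 x19 x164 x102 x20 go1328
lemma ch1329 : Good 0 ![w41, w103, w19, w166, w102, w20] :=
  good_of _ _ _ _ _ _ _ x41 x103 x19 x166 x102 x20 go1329
lemma ch1330 : Good 0 ![w41, w25, w19, w166, w103, w20] :=
  good_of _ _ _ _ _ _ _ x41 x25 x19 x166 x103 x20 go1330
lemma ch1331 : Good 0 ![w42, w173, w170, w166, w103, w25] :=
  good_of _ _ _ _ _ _ _ x42 x173 x170 x166 x103 x25 go1331
lemma ch1332 : Good 0 ![w42, w168, w170, w173, w103, w25] :=
  good_of _ _ _ _ _ _ _ x42 x168 x170 x173 x103 x25 go1332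
lemma ch1333 : Good 0 ![w42, w35, w168, w173, w103, w25] :=
  good_of _ _ _ _ _ _ _ x42 x35 x168 x173 x103 x25 go1333
lemma ch1334 : Good 0 ![w42, w10, w168, w173, w103, w35] :=
  good_of _ _ _ _ _ _ _ x42 x10 x168 x173 x103 x35 go1334
lemma ch1335 : Good 0 ![w42, w28, w29, w170, w103, w25] :=
  good_of _ _ _ _ _ _ _ x42 x28 x29 x170 x103 x25 go1335
lemma ch1336 : Good 0 ![w42, w28, w104, w170, w103, w29] :=
  good_of _ _ _ _ _ _ _ x42 x28 x104 x170 x103 x29 go1336
lemma ch1337 : Good 0 ![w53, w28, w19, w170, w104, w29] :=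
  good_of _ _ _ _ _ _ _ x53 x28 x19 x170 x104 x29 go1337
lemma ch1338 : Good 0 ![w42, w28, w53, w170, w104, w29] :=
  good_of _ _ _ _ _ _ _ x42 x28 x53 x170 x104 x29 go1338
lemma ch1339 : Good 0 ![w42, w168, w28, w170, w103, w25] :=
  good_of _ _ _ _ _ _ _ x42 x168 x28 x170 x103 x25 go1339
lemma ch1340 : Good 0 ![w42, w35, w28, w168, w103, w25] :=
  good_of _ _ _ _ _ _ _ x42 x35 x28 x168 x103 x25 go1340
lemma ch1341 : Good 0 ![w42, w105, w28, w168, w103, w35] :=
  good_of _ _ _ _ _ _ _ x42 x105 x28 x168 x103 x35 go1341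
lemma ch1342 : Good 0 ![w43, w10, w38, w168, w105, w35] :=
  good_of _ _ _ _ _ _ _ x43 x10 x38 x168 x105 x35 go1342
lemma ch1343 : Good 0 ![w43, w40, w28, w168, w105, w38] :=
  good_of _ _ _ _ _ _ _ x43 x40 x28 x168 x105 x38 go1343
lemma ch1344 : Good 0 ![w43, w10, w40, w168, w105, w38] :=
  good_of _ _ _ _ _ _ _ x43 x10 x40 x168 x105 x38 go1344
lemma ch1345 : Good 0 ![w42, w43, w28, w168, w105, w35] :=
  good_of _ _ _ _ _ _ _ x42 x43 x28 x168 x105 x35 go1345
lemma ch1346 : Good 0 ![w41, w42, w19, w166, w103, w25] :=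
  good_of _ _ _ _ _ _ _ x41 x42 x19 x166 x103 x25 go1346
lemma ch1347 : Good 0 ![w13, w10, w41, w164, w102, w20] :=
  good_of _ _ _ _ _ _ _ x13 x10 x41 x164 x102 x20 go1347
lemma ch1348 : Good 0 ![w106, w102, w19, w163, w14, w13] :=
  good_of _ _ _ _ _ _ _ x106 x102 x19 x163 x14 x13 go1348
lemma ch1349 : Good 0 ![w107, w10, w41, w164, w102, w13] :=
  good_of _ _ _ _ _ _ _ x107 x10 x41 x164 x102 x13 go1349
lemma ch1350 : Good 0 ![w107, w166, w19, w164, w102, w41] :=
  good_of _ _ _ _ _ _ _ x107 x166 x19 x164 x102 x41 go1350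
lemma ch1351 : Good 0 ![w107, w103, w19, w166, w102, w41] :=
  good_of _ _ _ _ _ _ _ x107 x103 x19 x166 x102 x41 go1351
lemma ch1352 : Good 0 ![w107, w42, w19, w166, w103, w41] :=
  good_of _ _ _ _ _ _ _ x107 x42 x19 x166 x103 x41 go1352
lemma ch1353 : Good 0 ![w108, w10, w170, w166, w103, w42] :=
  good_of _ _ _ _ _ _ _ x108 x10 x170 x166 x103 x42 go1353
lemma ch1354 : Good 0 ![w108, w28, w104, w170, w103, w42] :=
  good_of _ _ _ _ _ _ _ x108 x28 x104 x170 x103 x42 go1354
lemma ch1355 : Good 0 ![w108, w28, w53, w170, w104, w42] :=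
  good_of _ _ _ _ _ _ _ x108 x28 x53 x170 x104 x42 go1355
lemma ch1356 : Good 0 ![w108, w28, w19, w170, w104, w53] :=
  good_of _ _ _ _ _ _ _ x108 x28 x19 x170 x104 x53 go1356
lemma ch1357 : Good 0 ![w108, w168, w28, w170, w103, w42] :=
  good_of _ _ _ _ _ _ _ x108 x168 x28 x170 x103 x42 go1357
lemma ch1358 : Good 0 ![w108, w105, w28, w168, w103, w42] :=
  good_of _ _ _ _ _ _ _ x108 x105 x28 x168 x103 x42 go1358
lemma ch1359 : Good 0 ![w108, w43, w28, w168, w105, w42] :=
  good_of _ _ _ _ _ _ _ x108 x43 x28 x168 x105 x42 go1359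
lemma ch1360 : Good 0 ![w109, w40, w111, w168, w105, w43] :=
  good_of _ _ _ _ _ _ _ x109 x40 x111 x168 x105 x43 go1360
lemma ch1361 : Good 0 ![w109, w40, w28, w168, w111, w43] :=
  good_of _ _ _ _ _ _ _ x109 x40 x28 x168 x111 x43 go1361
lemma ch1362 : Good 0 ![w109, w10, w40, w168, w105, w43] :=
  good_of _ _ _ _ _ _ _ x109 x10 x40 x168 x105 x43 go1362
lemma ch1363 : Good 0 ![w108, w109, w28, w168, w105, w43] :=
  good_of _ _ _ _ _ _ _ x108 x109 x28 x168 x105 x43 go1363
lemma ch1364 : Good 0 ![w107, w108, w19, w166, w103, w42] :=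
  good_of _ _ _ _ _ _ _ x107 x108 x19 x166 x103 x42 go1364
lemma ch1365 : Good 0 ![w106, w10, w107, w164, w102, w13] :=
  good_of _ _ _ _ _ _ _ x106 x10 x107 x164 x102 x13 go1365
lemma ch1366 : Good 0 ![w106, w165, w19, w163, w102, w164] :=
  good_of _ _ _ _ _ _ _ x106 x165 x19 x163 x102 x164 go1366
lemma ch1367 : Good 0 ![w107, w166, w19, w165, w102, w164] :=
  good_of _ _ _ _ _ _ _ x107 x166 x19 x165 x102 x164 go1367
lemma ch1368 : Good 0 ![w107, w103, w19, w165, w102, w166] :=
  good_of _ _ _ _ _ _ _ x107 x103 x19 x165 x102 x166 go1368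
lemma ch1369 : Good 0 ![w108, w167, w19, w165, w103, w166] :=
  good_of _ _ _ _ _ _ _ x108 x167 x19 x165 x103 x166 go1369
lemma ch1370 : Good 0 ![w108, w173, w170, w167, w103, w166] :=
  good_of _ _ _ _ _ _ _ x108 x173 x170 x167 x103 x166 go1370
lemma ch1371 : Good 0 ![w108, w168, w170, w167, w103, w173] :=
  good_of _ _ _ _ _ _ _ x108 x168 x170 x167 x103 x173 go1371
lemma ch1372 : Good 0 ![w108, w105, w168, w167, w103, w173] :=
  good_of _ _ _ _ _ _ _ x108 x105 x168 x167 x103 x173 go1372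
lemma ch1373 : Good 0 ![w109, w169, w168, w167, w105, w173] :=
  good_of _ _ _ _ _ _ _ x109 x169 x168 x167 x105 x173 go1373
lemma ch1374 : Good 0 ![w109, w10, w168, w169, w105, w173] :=
  good_of _ _ _ _ _ _ _ x109 x10 x168 x169 x105 x173 go1374
lemma ch1375 : Good 0 ![w108, w109, w168, w167, w105, w173] :=
  good_of _ _ _ _ _ _ _ x108 x109 x168 x167 x105 x173 go1375
lemma ch1376 : Good 0 ![w108, w28, w104, w167, w103, w170] :=
  good_of _ _ _ _ _ _ _ x108 x28 x104 x167 x103 x170 go1376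
lemma ch1377 : Good 0 ![w108, w28, w171, w167, w104, w170] :=
  good_of _ _ _ _ _ _ _ x108 x28 x171 x167 x104 x170 go1377
lemma ch1378 : Good 0 ![w110, w28, w175, w171, w104, w170] :=
  good_of _ _ _ _ _ _ _ x110 x28 x175 x171 x104 x170 go1378
lemma ch1379 : Good 0 ![w110, w33, w19, w171, w104, w175] :=
  good_of _ _ _ _ _ _ _ x110 x33 x19 x171 x104 x175 go1379
lemma ch1380 : Good 0 ![w110, w28, w33, w171, w104, w175] :=
  good_of _ _ _ _ _ _ _ x110 x28 x33 x171 x104 x175 go1380
lemma ch1381 : Good 0 ![w108, w28, w110, w171, w104, w170] :=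
  good_of _ _ _ _ _ _ _ x108 x28 x110 x171 x104 x170 go1381
lemma ch1382 : Good 0 ![w108, w168, w28, w167, w103, w170] :=
  good_of _ _ _ _ _ _ _ x108 x168 x28 x167 x103 x170 go1382
lemma ch1383 : Good 0 ![w108, w105, w28, w167, w103, w168] :=
  good_of _ _ _ _ _ _ _ x108 x105 x28 x167 x103 x168 go1383
lemma ch1384 : Good 0 ![w109, w169, w176, w167, w105, w168] :=
  good_of _ _ _ _ _ _ _ x109 x169 x176 x167 x105 x168 go1384
lemma ch1385 : Good 0 ![w109, w169, w28, w176, w105, w168] :=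
  good_of _ _ _ _ _ _ _ x109 x169 x28 x176 x105 x168 go1385
lemma ch1386 : Good 0 ![w109, w40, w111, w169, w105, w168] :=
  good_of _ _ _ _ _ _ _ x109 x40 x111 x169 x105 x168 go1386
lemma ch1387 : Good 0 ![w109, w40, w177, w169, w111, w168] :=
  good_of _ _ _ _ _ _ _ x109 x40 x177 x169 x111 x168 go1387
lemma ch1388 : Good 0 ![w109, w40, w28, w177, w111, w168] :=
  good_of _ _ _ _ _ _ _ x109 x40 x28 x177 x111 x168 go1388
lemma ch1389 : Good 0 ![w109, w10, w40, w169, w105, w168] :=
  good_of _ _ _ _ _ _ _ x109 x10 x40 x169 x105 x168 go1389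
lemma ch1390 : Good 0 ![w108, w109, w28, w167, w105, w168] :=
  good_of _ _ _ _ _ _ _ x108 x109 x28 x167 x105 x168 go1390
lemma ch1391 : Good 0 ![w107, w108, w19, w165, w103, w166] :=
  good_of _ _ _ _ _ _ _ x107 x108 x19 x165 x103 x166 go1391
lemma ch1392 : Good 0 ![w211, w166, w107, w165, w102, w164] :=
  good_of _ _ _ _ _ _ _ x211 x166 x107 x165 x102 x164 go1392
lemma ch1393 : Good 0 ![w211, w103, w107, w165, w102, w166] :=
  good_of _ _ _ _ _ _ _ x211 x103 x107 x165 x102 x166 go1393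
lemma ch1394 : Good 0 ![w211, w108, w107, w165, w103, w166] :=
  good_of _ _ _ _ _ _ _ x211 x108 x107 x165 x103 x166 go1394
lemma ch1395 : Good 0 ![w212, w10, w108, w165, w103, w166] :=
  good_of _ _ _ _ _ _ _ x212 x10 x108 x165 x103 x166 go1395
lemma ch1396 : Good 0 ![w211, w10, w108, w212, w103, w166] :=
  good_of _ _ _ _ _ _ _ x211 x10 x108 x212 x103 x166 go1396
lemma ch1397 : Good 0 ![w106, w211, w107, w165, w102, w164] :=
  good_of _ _ _ _ _ _ _ x106 x211 x107 x165 x102 x164 go1397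
lemma ch1398 : Good 0 ![w180, w10, w107, w164, w106, w13] :=
  good_of _ _ _ _ _ _ _ x180 x10 x107 x164 x106 x13 go1398
lemma ch1399 : Good 0 ![w180, w10, w41, w164, w107, w13] :=
  good_of _ _ _ _ _ _ _ x180 x10 x41 x164 x107 x13 go1399
lemma ch1400 : Good 0 ![w181, w166, w19, w164, w107, w41] :=
  good_of _ _ _ _ _ _ _ x181 x166 x19 x164 x107 x41 go1400
lemma ch1401 : Good 0 ![w181, w42, w19, w166, w107, w41] :=
  good_of _ _ _ _ _ _ _ x181 x42 x19 x166 x107 x41 go1401
lemma ch1402 : Good 0 ![w181, w108, w19, w166, w107, w42] :=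
  good_of _ _ _ _ _ _ _ x181 x108 x19 x166 x107 x42 go1402
lemma ch1403 : Good 0 ![w181, w10, w170, w166, w108, w42] :=
  good_of _ _ _ _ _ _ _ x181 x10 x170 x166 x108 x42 go1403
lemma ch1404 : Good 0 ![w182, w28, w53, w170, w108, w42] :=
  good_of _ _ _ _ _ _ _ x182 x28 x53 x170 x108 x42 go1404
lemma ch1405 : Good 0 ![w182, w28, w110, w170, w108, w53] :=
  good_of _ _ _ _ _ _ _ x182 x28 x110 x170 x108 x53 go1405
lemma ch1406 : Good 0 ![w182, w28, w19, w170, w110, w53] :=
  good_of _ _ _ _ _ _ _ x182 x28 x19 x170 x110 x53 go1406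
lemma ch1407 : Good 0 ![w181, w28, w182, w170, w108, w42] :=
  good_of _ _ _ _ _ _ _ x181 x28 x182 x170 x108 x42 go1407
lemma ch1408 : Good 0 ![w183, w168, w28, w170, w108, w42] :=
  good_of _ _ _ _ _ _ _ x183 x168 x28 x170 x108 x42 go1408
lemma ch1409 : Good 0 ![w183, w43, w28, w168, w108, w42] :=
  good_of _ _ _ _ _ _ _ x183 x43 x28 x168 x108 x42 go1409
lemma ch1410 : Good 0 ![w183, w109, w28, w168, w108, w43] :=
  good_of _ _ _ _ _ _ _ x183 x109 x28 x168 x108 x43 go1410
lemma ch1411 : Good 0 ![w183, w10, w28, w168, w109, w43] :=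
  good_of _ _ _ _ _ _ _ x183 x10 x28 x168 x109 x43 go1411
lemma ch1412 : Good 0 ![w181, w183, w28, w170, w108, w42] :=
  good_of _ _ _ _ _ _ _ x181 x183 x28 x170 x108 x42 go1412
lemma ch1413 : Good 0 ![w180, w10, w181, w164, w107, w41] :=
  good_of _ _ _ _ _ _ _ x180 x10 x181 x164 x107 x41 go1413
lemma ch1414 : Good 0 ![w180, w10, w107, w213, w106, w164] :=
  good_of _ _ _ _ _ _ _ x180 x10 x107 x213 x106 x164 go1414
lemma ch1415 : Good 0 ![w181, w212, w19, w213, w107, w164] :=
  good_of _ _ _ _ _ _ _ x181 x212 x19 x213 x107 x164 go1415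
lemma ch1416 : Good 0 ![w181, w166, w19, w212, w107, w164] :=
  good_of _ _ _ _ _ _ _ x181 x166 x19 x212 x107 x164 go1416
lemma ch1417 : Good 0 ![w181, w108, w19, w212, w107, w166] :=
  good_of _ _ _ _ _ _ _ x181 x108 x19 x212 x107 x166 go1417
lemma ch1418 : Good 0 ![w181, w10, w170, w212, w108, w166] :=
  good_of _ _ _ _ _ _ _ x181 x10 x170 x212 x108 x166 go1418
lemma ch1419 : Good 0 ![w181, w10, w214, w212, w108, w170] :=
  good_of _ _ _ _ _ _ _ x181 x10 x214 x212 x108 x170 go1419
lemma ch1420 : Good 0 ![w182, w28, w110, w214, w108, w170] :=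
  good_of _ _ _ _ _ _ _ x182 x28 x110 x214 x108 x170 go1420
lemma ch1421 : Good 0 ![w182, w28, w175, w214, w110, w170] :=
  good_of _ _ _ _ _ _ _ x182 x28 x175 x214 x110 x170 go1421
lemma ch1422 : Good 0 ![w182, w28, w19, w214, w110, w175] :=
  good_of _ _ _ _ _ _ _ x182 x28 x19 x214 x110 x175 go1422
lemma ch1423 : Good 0 ![w181, w28, w182, w214, w108, w170] :=
  good_of _ _ _ _ _ _ _ x181 x28 x182 x214 x108 x170 go1423
lemma ch1424 : Good 0 ![w183, w168, w28, w214, w108, w170] :=
  good_of _ _ _ _ _ _ _ x183 x168 x28 x214 x108 x170 go1424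
lemma ch1425 : Good 0 ![w183, w215, w28, w214, w108, w168] :=
  good_of _ _ _ _ _ _ _ x183 x215 x28 x214 x108 x168 go1425
lemma ch1426 : Good 0 ![w183, w109, w28, w215, w108, w168] :=
  good_of _ _ _ _ _ _ _ x183 x109 x28 x215 x108 x168 go1426
lemma ch1427 : Good 0 ![w187, w40, w28, w215, w109, w168] :=
  good_of _ _ _ _ _ _ _ x187 x40 x28 x215 x109 x168 go1427
lemma ch1428 : Good 0 ![w187, w10, w40, w215, w109, w168] :=
  good_of _ _ _ _ _ _ _ x187 x10 x40 x215 x109 x168 go1428
lemma ch1429 : Good 0 ![w183, w187, w28, w215, w109, w168] :=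
  good_of _ _ _ _ _ _ _ x183 x187 x28 x215 x109 x168 go1429
lemma ch1430 : Good 0 ![w181, w183, w28, w214, w108, w170] :=
  good_of _ _ _ _ _ _ _ x181 x183 x28 x214 x108 x170 go1430
lemma ch1431 : Good 0 ![w180, w10, w181, w213, w107, w164] :=
  good_of _ _ _ _ _ _ _ x180 x10 x181 x213 x107 x164 go1431
lemma ch1432 : Good 0 ![w180, w165, w19, w163, w213, w164] :=
  good_of _ _ _ _ _ _ _ x180 x165 x19 x163 x213 x164 go1432
lemma ch1433 : Good 0 ![w181, w212, w19, w165, w213, w164] :=
  good_of _ _ _ _ _ _ _ x181 x212 x19 x165 x213 x164 go1433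
lemma ch1434 : Good 0 ![w181, w166, w19, w165, w212, w164] :=
  good_of _ _ _ _ _ _ _ x181 x166 x19 x165 x212 x164 go1434
lemma ch1435 : Good 0 ![w181, w167, w19, w165, w212, w166] :=
  good_of _ _ _ _ _ _ _ x181 x167 x19 x165 x212 x166 go1435
lemma ch1436 : Good 0 ![w183, w173, w170, w167, w212, w166] :=
  good_of _ _ _ _ _ _ _ x183 x173 x170 x167 x212 x166 go1436
lemma ch1437 : Good 0 ![w183, w216, w170, w167, w212, w173] :=
  good_of _ _ _ _ _ _ _ x183 x216 x170 x167 x212 x173 go1437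
lemma ch1438 : Good 0 ![w183, w168, w170, w167, w216, w173] :=
  good_of _ _ _ _ _ _ _ x183 x168 x170 x167 x216 x173 go1438
lemma ch1439 : Good 0 ![w187, w169, w168, w167, w216, w173] :=
  good_of _ _ _ _ _ _ _ x187 x169 x168 x167 x216 x173 go1439
lemma ch1440 : Good 0 ![w187, w10, w168, w169, w216, w173] :=
  good_of _ _ _ _ _ _ _ x187 x10 x168 x169 x216 x173 go1440
lemma ch1441 : Good 0 ![w183, w187, w168, w167, w216, w173] :=
  good_of _ _ _ _ _ _ _ x183 x187 x168 x167 x216 x173 go1441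
lemma ch1442 : Good 0 ![w181, w183, w170, w167, w212, w166] :=
  good_of _ _ _ _ _ _ _ x181 x183 x170 x167 x212 x166 go1442
lemma ch1443 : Good 0 ![w183, w216, w214, w167, w212, w170] :=
  good_of _ _ _ _ _ _ _ x183 x216 x214 x167 x212 x170 go1443
lemma ch1444 : Good 0 ![w183, w168, w214, w167, w216, w170] :=
  good_of _ _ _ _ _ _ _ x183 x168 x214 x167 x216 x170 go1444
lemma ch1445 : Good 0 ![w183, w215, w214, w167, w216, w168] :=
  good_of _ _ _ _ _ _ _ x183 x215 x214 x167 x216 x168 go1445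
lemma ch1446 : Good 0 ![w187, w169, w215, w167, w216, w168] :=
  good_of _ _ _ _ _ _ _ x187 x169 x215 x167 x216 x168 go1446
lemma ch1447 : Good 0 ![w187, w10, w215, w169, w216, w168] :=
  good_of _ _ _ _ _ _ _ x187 x10 x215 x169 x216 x168 go1447
lemma ch1448 : Good 0 ![w183, w187, w215, w167, w216, w168] :=
  good_of _ _ _ _ _ _ _ x183 x187 x215 x167 x216 x168 go1448
lemma ch1449 : Good 0 ![w181, w183, w214, w167, w212, w170] :=
  good_of _ _ _ _ _ _ _ x181 x183 x214 x167 x212 x170 go1449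
lemma ch1450 : Good 0 ![w183, w28, w171, w167, w214, w170] :=
  good_of _ _ _ _ _ _ _ x183 x28 x171 x167 x214 x170 go1450
lemma ch1451 : Good 0 ![w189, w28, w175, w171, w214, w170] :=
  good_of _ _ _ _ _ _ _ x189 x28 x175 x171 x214 x170 go1451
lemma ch1452 : Good 0 ![w189, w33, w19, w171, w214, w175] :=
  good_of _ _ _ _ _ _ _ x189 x33 x19 x171 x214 x175 go1452
lemma ch1453 : Good 0 ![w189, w28, w33, w171, w214, w175] :=
  good_of _ _ _ _ _ _ _ x189 x28 x33 x171 x214 x175 go1453
lemma ch1454 : Good 0 ![w183, w28, w189, w171, w214, w170] :=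
  good_of _ _ _ _ _ _ _ x183 x28 x189 x171 x214 x170 go1454
lemma ch1455 : Good 0 ![w183, w168, w28, w167, w214, w170] :=
  good_of _ _ _ _ _ _ _ x183 x168 x28 x167 x214 x170 go1455
lemma ch1456 : Good 0 ![w183, w215, w28, w167, w214, w168] :=
  good_of _ _ _ _ _ _ _ x183 x215 x28 x167 x214 x168 go1456
lemma ch1457 : Good 0 ![w187, w169, w28, w167, w215, w168] :=
  good_of _ _ _ _ _ _ _ x187 x169 x28 x167 x215 x168 go1457
lemma ch1458 : Good 0 ![w187, w190, w177, w169, w215, w168] :=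
  good_of _ _ _ _ _ _ _ x187 x190 x177 x169 x215 x168 go1458
lemma ch1459 : Good 0 ![w187, w40, w177, w190, w215, w168] :=
  good_of _ _ _ _ _ _ _ x187 x40 x177 x190 x215 x168 go1459
lemma ch1460 : Good 0 ![w187, w40, w28, w177, w215, w168] :=
  good_of _ _ _ _ _ _ _ x187 x40 x28 x177 x215 x168 go1460
lemma ch1461 : Good 0 ![w187, w172, w190, w169, w215, w168] :=
  good_of _ _ _ _ _ _ _ x187 x172 x190 x169 x215 x168 go1461
lemma ch1462 : Good 0 ![w187, w172, w40, w190, w215, w168] :=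
  good_of _ _ _ _ _ _ _ x187 x172 x40 x190 x215 x168 go1462
lemma ch1463 : Good 0 ![w187, w10, w40, w169, w215, w172] :=
  good_of _ _ _ _ _ _ _ x187 x10 x40 x169 x215 x172 go1463
lemma ch1464 : Good 0 ![w183, w187, w28, w167, w215, w168] :=
  good_of _ _ _ _ _ _ _ x183 x187 x28 x167 x215 x168 go1464
lemma ch1465 : Good 0 ![w181, w183, w19, w167, w214, w170] :=
  good_of _ _ _ _ _ _ _ x181 x183 x19 x167 x214 x170 go1465
lemma ch1466 : Good 0 ![w180, w212, w181, w165, w213, w164] :=
  good_of _ _ _ _ _ _ _ x180 x212 x181 x165 x213 x164 go1466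
lemma ch1467 : Good 0 ![w180, w166, w181, w165, w212, w164] :=
  good_of _ _ _ _ _ _ _ x180 x166 x181 x165 x212 x164 go1467
lemma ch1468 : Good 0 ![w180, w10, w181, w165, w212, w166] :=
  good_of _ _ _ _ _ _ _ x180 x10 x181 x165 x212 x166 go1468
lemma ch1469 : Good 0 ![w61, w10, w107, w180, w106, w13] :=
  good_of _ _ _ _ _ _ _ x61 x10 x107 x180 x106 x13 go1469
lemma ch1470 : Good 0 ![w61, w10, w41, w180, w107, w13] :=
  good_of _ _ _ _ _ _ _ x61 x10 x41 x180 x107 x13 go1470
lemma ch1471 : Good 0 ![w61, w10, w181, w180, w107, w41] :=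
  good_of _ _ _ _ _ _ _ x61 x10 x181 x180 x107 x41 go1471
lemma ch1472 : Good 0 ![w62, w42, w19, w181, w107, w41] :=
  good_of _ _ _ _ _ _ _ x62 x42 x19 x181 x107 x41 go1472
lemma ch1473 : Good 0 ![w62, w108, w116, w181, w107, w42] :=
  good_of _ _ _ _ _ _ _ x62 x108 x116 x181 x107 x42 go1473
lemma ch1474 : Good 0 ![w62, w108, w53, w181, w116, w42] :=
  good_of _ _ _ _ _ _ _ x62 x108 x53 x181 x116 x42 go1474
lemma ch1475 : Good 0 ![w62, w110, w19, w181, w116, w53] :=
  good_of _ _ _ _ _ _ _ x62 x110 x19 x181 x116 x53 go1475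
lemma ch1476 : Good 0 ![w62, w108, w110, w181, w116, w53] :=
  good_of _ _ _ _ _ _ _ x62 x108 x110 x181 x116 x53 go1476
lemma ch1477 : Good 0 ![w62, w28, w182, w181, w108, w42] :=
  good_of _ _ _ _ _ _ _ x62 x28 x182 x181 x108 x42 go1477
lemma ch1478 : Good 0 ![w62, w28, w53, w182, w108, w42] :=
  good_of _ _ _ _ _ _ _ x62 x28 x53 x182 x108 x42 go1478
lemma ch1479 : Good 0 ![w62, w28, w110, w182, w108, w53] :=
  good_of _ _ _ _ _ _ _ x62 x28 x110 x182 x108 x53 go1479
lemma ch1480 : Good 0 ![w64, w33, w65, w182, w110, w53] :=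
  good_of _ _ _ _ _ _ _ x64 x33 x65 x182 x110 x53 go1480
lemma ch1481 : Good 0 ![w64, w33, w19, w182, w110, w65] :=
  good_of _ _ _ _ _ _ _ x64 x33 x19 x182 x110 x65 go1481
lemma ch1482 : Good 0 ![w64, w28, w33, w182, w110, w53] :=
  good_of _ _ _ _ _ _ _ x64 x28 x33 x182 x110 x53 go1482
lemma ch1483 : Good 0 ![w62, w28, w64, w182, w110, w53] :=
  good_of _ _ _ _ _ _ _ x62 x28 x64 x182 x110 x53 go1483
lemma ch1484 : Good 0 ![w62, w183, w28, w181, w108, w42] :=
  good_of _ _ _ _ _ _ _ x62 x183 x28 x181 x108 x42 go1484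
lemma ch1485 : Good 0 ![w66, w43, w28, w183, w108, w42] :=
  good_of _ _ _ _ _ _ _ x66 x43 x28 x183 x108 x42 go1485
lemma ch1486 : Good 0 ![w66, w109, w28, w183, w108, w43] :=
  good_of _ _ _ _ _ _ _ x66 x109 x28 x183 x108 x43 go1486
lemma ch1487 : Good 0 ![w66, w187, w28, w183, w109, w43] :=
  good_of _ _ _ _ _ _ _ x66 x187 x28 x183 x109 x43 go1487
lemma ch1488 : Good 0 ![w67, w10, w28, w187, w109, w43] :=
  good_of _ _ _ _ _ _ _ x67 x10 x28 x187 x109 x43 go1488
lemma ch1489 : Good 0 ![w66, w67, w28, w187, w109, w43] :=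
  good_of _ _ _ _ _ _ _ x66 x67 x28 x187 x109 x43 go1489
lemma ch1490 : Good 0 ![w62, w66, w28, w183, w108, w42] :=
  good_of _ _ _ _ _ _ _ x62 x66 x28 x183 x108 x42 go1490
lemma ch1491 : Good 0 ![w61, w10, w62, w181, w107, w41] :=
  good_of _ _ _ _ _ _ _ x61 x10 x62 x181 x107 x41 go1491
lemma ch1492 : Good 0 ![w0, w10, w61, w180, w106, w13] :=
  good_of _ _ _ _ _ _ _ x0 x10 x61 x180 x106 x13 go1492
lemma ch1493 : Good 0 ![w15, w68, w19, w191, w16, w7] :=
  good_of _ _ _ _ _ _ _ x15 x68 x19 x191 x16 x7 go1493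
lemma ch1494 : Good 0 ![w15, w117, w19, w191, w16, w68] :=
  good_of _ _ _ _ _ _ _ x15 x117 x19 x191 x16 x68 go1494
lemma ch1495 : Good 0 ![w69, w70, w19, w191, w117, w68] :=
  good_of _ _ _ _ _ _ _ x69 x70 x19 x191 x117 x68 go1495
lemma ch1496 : Good 0 ![w69, w192, w19, w191, w117, w70] :=
  good_of _ _ _ _ _ _ _ x69 x192 x19 x191 x117 x70 go1496
lemma ch1497 : Good 0 ![w69, w118, w19, w192, w117, w70] :=
  good_of _ _ _ _ _ _ _ x69 x118 x19 x192 x117 x70 go1497
lemma ch1498 : Good 0 ![w71, w193, w72, w192, w118, w70] :=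
  good_of _ _ _ _ _ _ _ x71 x193 x72 x192 x118 x70 go1498
lemma ch1499 : Good 0 ![w71, w194, w72, w193, w118, w70] :=
  good_of _ _ _ _ _ _ _ x71 x194 x72 x193 x118 x70 go1499
lemma ch1500 : Good 0 ![w75, w76, w72, w193, w118, w194] :=
  good_of _ _ _ _ _ _ _ x75 x76 x72 x193 x118 x194 go1500
lemma ch1501 : Good 0 ![w75, w10, w76, w193, w118, w194] :=
  good_of _ _ _ _ _ _ _ x75 x10 x76 x193 x118 x194 go1501
lemma ch1502 : Good 0 ![w71, w75, w72, w193, w118, w194] :=
  good_of _ _ _ _ _ _ _ x71 x75 x72 x193 x118 x194 go1502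
lemma ch1503 : Good 0 ![w71, w193, w19, w192, w118, w72] :=
  good_of _ _ _ _ _ _ _ x71 x193 x19 x192 x118 x72 go1503
lemma ch1504 : Good 0 ![w71, w28, w119, w193, w118, w72] :=
  good_of _ _ _ _ _ _ _ x71 x28 x119 x193 x118 x72 go1504
lemma ch1505 : Good 0 ![w71, w28, w195, w193, w119, w72] :=
  good_of _ _ _ _ _ _ _ x71 x28 x195 x193 x119 x72 go1505
lemma ch1506 : Good 0 ![w73, w28, w74, w195, w119, w72] :=
  good_of _ _ _ _ _ _ _ x73 x28 x74 x195 x119 x72 go1506
lemma ch1507 : Good 0 ![w73, w33, w19, w195, w119, w74] :=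
  good_of _ _ _ _ _ _ _ x73 x33 x19 x195 x119 x74 go1507
lemma ch1508 : Good 0 ![w73, w28, w33, w195, w119, w74] :=
  good_of _ _ _ _ _ _ _ x73 x28 x33 x195 x119 x74 go1508
lemma ch1509 : Good 0 ![w71, w28, w73, w195, w119, w72] :=
  good_of _ _ _ _ _ _ _ x71 x28 x73 x195 x119 x72 go1509
lemma ch1510 : Good 0 ![w75, w76, w28, w193, w118, w72] :=
  good_of _ _ _ _ _ _ _ x75 x76 x28 x193 x118 x72 go1510
lemma ch1511 : Good 0 ![w75, w120, w28, w193, w118, w76] :=
  good_of _ _ _ _ _ _ _ x75 x120 x28 x193 x118 x76 go1511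
lemma ch1512 : Good 0 ![w75, w196, w28, w193, w120, w76] :=
  good_of _ _ _ _ _ _ _ x75 x196 x28 x193 x120 x76 go1512
lemma ch1513 : Good 0 ![w75, w40, w126, w196, w120, w76] :=
  good_of _ _ _ _ _ _ _ x75 x40 x126 x196 x120 x76 go1513
lemma ch1514 : Good 0 ![w75, w40, w28, w196, w126, w76] :=
  good_of _ _ _ _ _ _ _ x75 x40 x28 x196 x126 x76 go1514
lemma ch1515 : Good 0 ![w75, w10, w40, w196, w120, w76] :=
  good_of _ _ _ _ _ _ _ x75 x10 x40 x196 x120 x76 go1515
lemma ch1516 : Good 0 ![w71, w75, w28, w193, w118, w72] :=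
  good_of _ _ _ _ _ _ _ x71 x75 x28 x193 x118 x72 go1516
lemma ch1517 : Good 0 ![w69, w10, w71, w192, w118, w70] :=
  good_of _ _ _ _ _ _ _ x69 x10 x71 x192 x118 x70 go1517
lemma ch1518 : Good 0 ![w15, w69, w19, w191, w117, w68] :=
  good_of _ _ _ _ _ _ _ x15 x69 x19 x191 x117 x68 go1518
lemma ch1519 : Good 0 ![w121, w117, w19, w191, w16, w15] :=
  good_of _ _ _ _ _ _ _ x121 x117 x19 x191 x16 x15 go1519
lemma ch1520 : Good 0 ![w121, w10, w77, w191, w117, w15] :=
  good_of _ _ _ _ _ _ _ x121 x10 x77 x191 x117 x15 go1520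
lemma ch1521 : Good 0 ![w121, w192, w19, w191, w117, w77] :=
  good_of _ _ _ _ _ _ _ x121 x192 x19 x191 x117 x77 go1521
lemma ch1522 : Good 0 ![w122, w118, w19, w192, w117, w77] :=
  good_of _ _ _ _ _ _ _ x122 x118 x19 x192 x117 x77 go1522
lemma ch1523 : Good 0 ![w122, w78, w19, w192, w118, w77] :=
  good_of _ _ _ _ _ _ _ x122 x78 x19 x192 x118 x77 go1523
lemma ch1524 : Good 0 ![w123, w193, w19, w192, w118, w78] :=
  good_of _ _ _ _ _ _ _ x123 x193 x19 x192 x118 x78 go1524
lemma ch1525 : Good 0 ![w123, w28, w119, w193, w118, w78] :=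
  good_of _ _ _ _ _ _ _ x123 x28 x119 x193 x118 x78 go1525
lemma ch1526 : Good 0 ![w123, w28, w195, w193, w119, w78] :=
  good_of _ _ _ _ _ _ _ x123 x28 x195 x193 x119 x78 go1526
lemma ch1527 : Good 0 ![w123, w28, w79, w195, w119, w78] :=
  good_of _ _ _ _ _ _ _ x123 x28 x79 x195 x119 x78 go1527
lemma ch1528 : Good 0 ![w124, w33, w19, w195, w119, w79] :=
  good_of _ _ _ _ _ _ _ x124 x33 x19 x195 x119 x79 go1528
lemma ch1529 : Good 0 ![w124, w28, w33, w195, w119, w79] :=
  good_of _ _ _ _ _ _ _ x124 x28 x33 x195 x119 x79 go1529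
lemma ch1530 : Good 0 ![w123, w28, w124, w195, w119, w79] :=
  good_of _ _ _ _ _ _ _ x123 x28 x124 x195 x119 x79 go1530
lemma ch1531 : Good 0 ![w123, w120, w28, w193, w118, w78] :=
  good_of _ _ _ _ _ _ _ x123 x120 x28 x193 x118 x78 go1531
lemma ch1532 : Good 0 ![w123, w80, w28, w193, w120, w78] :=
  good_of _ _ _ _ _ _ _ x123 x80 x28 x193 x120 x78 go1532
lemma ch1533 : Good 0 ![w125, w196, w197, w193, w120, w80] :=
  good_of _ _ _ _ _ _ _ x125 x196 x197 x193 x120 x80 go1533
lemma ch1534 : Good 0 ![w125, w196, w126, w197, w120, w80] :=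
  good_of _ _ _ _ _ _ _ x125 x196 x126 x197 x120 x80 go1534
lemma ch1535 : Good 0 ![w125, w196, w28, w197, w126, w80] :=
  good_of _ _ _ _ _ _ _ x125 x196 x28 x197 x126 x80 go1535
lemma ch1536 : Good 0 ![w125, w40, w126, w196, w120, w80] :=
  good_of _ _ _ _ _ _ _ x125 x40 x126 x196 x120 x80 go1536
lemma ch1537 : Good 0 ![w125, w40, w198, w196, w126, w80] :=
  good_of _ _ _ _ _ _ _ x125 x40 x198 x196 x126 x80 go1537
lemma ch1538 : Good 0 ![w125, w40, w28, w198, w126, w80] :=
  good_of _ _ _ _ _ _ _ x125 x40 x28 x198 x126 x80 go1538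
lemma ch1539 : Good 0 ![w125, w10, w40, w196, w120, w80] :=
  good_of _ _ _ _ _ _ _ x125 x10 x40 x196 x120 x80 go1539
lemma ch1540 : Good 0 ![w123, w125, w28, w193, w120, w80] :=
  good_of _ _ _ _ _ _ _ x123 x125 x28 x193 x120 x80 go1540
lemma ch1541 : Good 0 ![w122, w123, w19, w192, w118, w78] :=
  good_of _ _ _ _ _ _ _ x122 x123 x19 x192 x118 x78 go1541
lemma ch1542 : Good 0 ![w121, w10, w122, w192, w117, w77] :=
  good_of _ _ _ _ _ _ _ x121 x10 x122 x192 x117 x77 go1542
lemma ch1543 : Good 0 ![w199, w10, w77, w191, w121, w15] :=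
  good_of _ _ _ _ _ _ _ x199 x10 x77 x191 x121 x15 go1543
lemma ch1544 : Good 0 ![w199, w10, w122, w217, w121, w77] :=
  good_of _ _ _ _ _ _ _ x199 x10 x122 x217 x121 x77 go1544
lemma ch1545 : Good 0 ![w201, w218, w19, w217, w122, w77] :=
  good_of _ _ _ _ _ _ _ x201 x218 x19 x217 x122 x77 go1545
lemma ch1546 : Good 0 ![w201, w78, w19, w218, w122, w77] :=
  good_of _ _ _ _ _ _ _ x201 x78 x19 x218 x122 x77 go1546
lemma ch1547 : Good 0 ![w201, w123, w19, w218, w122, w78] :=
  good_of _ _ _ _ _ _ _ x201 x123 x19 x218 x122 x78 go1547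
lemma ch1548 : Good 0 ![w201, w10, w219, w218, w123, w78] :=
  good_of _ _ _ _ _ _ _ x201 x10 x219 x218 x123 x78 go1548
lemma ch1549 : Good 0 ![w201, w28, w79, w219, w123, w78] :=
  good_of _ _ _ _ _ _ _ x201 x28 x79 x219 x123 x78 go1549
lemma ch1550 : Good 0 ![w204, w28, w124, w219, w123, w79] :=
  good_of _ _ _ _ _ _ _ x204 x28 x124 x219 x123 x79 go1550
lemma ch1551 : Good 0 ![w204, w28, w19, w219, w124, w79] :=
  good_of _ _ _ _ _ _ _ x204 x28 x19 x219 x124 x79 go1551
lemma ch1552 : Good 0 ![w201, w28, w204, w219, w123, w79] :=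
  good_of _ _ _ _ _ _ _ x201 x28 x204 x219 x123 x79 go1552
lemma ch1553 : Good 0 ![w205, w220, w28, w219, w123, w78] :=
  good_of _ _ _ _ _ _ _ x205 x220 x28 x219 x123 x78 go1553
lemma ch1554 : Good 0 ![w205, w80, w28, w220, w123, w78] :=
  good_of _ _ _ _ _ _ _ x205 x80 x28 x220 x123 x78 go1554
lemma ch1555 : Good 0 ![w205, w125, w28, w220, w123, w80] :=
  good_of _ _ _ _ _ _ _ x205 x125 x28 x220 x123 x80 go1555
lemma ch1556 : Good 0 ![w207, w10, w28, w220, w125, w80] :=
  good_of _ _ _ _ _ _ _ x207 x10 x28 x220 x125 x80 go1556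
lemma ch1557 : Good 0 ![w205, w207, w28, w220, w125, w80] :=
  good_of _ _ _ _ _ _ _ x205 x207 x28 x220 x125 x80 go1557
lemma ch1558 : Good 0 ![w201, w205, w28, w219, w123, w78] :=
  good_of _ _ _ _ _ _ _ x201 x205 x28 x219 x123 x78 go1558
lemma ch1559 : Good 0 ![w199, w10, w201, w217, w122, w77] :=
  good_of _ _ _ _ _ _ _ x199 x10 x201 x217 x122 x77 go1559
lemma ch1560 : Good 0 ![w199, w192, w19, w191, w217, w77] :=
  good_of _ _ _ _ _ _ _ x199 x192 x19 x191 x217 x77 go1560
lemma ch1561 : Good 0 ![w201, w218, w19, w192, w217, w77] :=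
  good_of _ _ _ _ _ _ _ x201 x218 x19 x192 x217 x77 go1561
lemma ch1562 : Good 0 ![w201, w78, w19, w192, w218, w77] :=
  good_of _ _ _ _ _ _ _ x201 x78 x19 x192 x218 x77 go1562
lemma ch1563 : Good 0 ![w201, w193, w19, w192, w218, w78] :=
  good_of _ _ _ _ _ _ _ x201 x193 x19 x192 x218 x78 go1563
lemma ch1564 : Good 0 ![w205, w221, w219, w193, w218, w78] :=
  good_of _ _ _ _ _ _ _ x205 x221 x219 x193 x218 x78 go1564
lemma ch1565 : Good 0 ![w205, w220, w219, w193, w221, w78] :=
  good_of _ _ _ _ _ _ _ x205 x220 x219 x193 x221 x78 go1565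
lemma ch1566 : Good 0 ![w205, w80, w220, w193, w221, w78] :=
  good_of _ _ _ _ _ _ _ x205 x80 x220 x193 x221 x78 go1566
lemma ch1567 : Good 0 ![w205, w10, w220, w193, w221, w80] :=
  good_of _ _ _ _ _ _ _ x205 x10 x220 x193 x221 x80 go1567
lemma ch1568 : Good 0 ![w201, w205, w219, w193, w218, w78] :=
  good_of _ _ _ _ _ _ _ x201 x205 x219 x193 x218 x78 go1568
lemma ch1569 : Good 0 ![w205, w28, w195, w193, w219, w78] :=
  good_of _ _ _ _ _ _ _ x205 x28 x195 x193 x219 x78 go1569
lemma ch1570 : Good 0 ![w205, w28, w79, w195, w219, w78] :=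
  good_of _ _ _ _ _ _ _ x205 x28 x79 x195 x219 x78 go1570
lemma ch1571 : Good 0 ![w209, w33, w19, w195, w219, w79] :=
  good_of _ _ _ _ _ _ _ x209 x33 x19 x195 x219 x79 go1571
lemma ch1572 : Good 0 ![w209, w28, w33, w195, w219, w79] :=
  good_of _ _ _ _ _ _ _ x209 x28 x33 x195 x219 x79 go1572
lemma ch1573 : Good 0 ![w205, w28, w209, w195, w219, w79] :=
  good_of _ _ _ _ _ _ _ x205 x28 x209 x195 x219 x79 go1573
lemma ch1574 : Good 0 ![w205, w220, w28, w193, w219, w78] :=
  good_of _ _ _ _ _ _ _ x205 x220 x28 x193 x219 x78 go1574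
lemma ch1575 : Good 0 ![w205, w80, w28, w193, w220, w78] :=
  good_of _ _ _ _ _ _ _ x205 x80 x28 x193 x220 x78 go1575
lemma ch1576 : Good 0 ![w207, w196, w28, w193, w220, w80] :=
  good_of _ _ _ _ _ _ _ x207 x196 x28 x193 x220 x80 go1576
lemma ch1577 : Good 0 ![w207, w210, w198, w196, w220, w80] :=
  good_of _ _ _ _ _ _ _ x207 x210 x198 x196 x220 x80 go1577
lemma ch1578 : Good 0 ![w207, w40, w198, w196, w220, w210] :=
  good_of _ _ _ _ _ _ _ x207 x40 x198 x196 x220 x210 go1578
lemma ch1579 : Good 0 ![w207, w40, w28, w198, w220, w80] :=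
  good_of _ _ _ _ _ _ _ x207 x40 x28 x198 x220 x80 go1579
lemma ch1580 : Good 0 ![w207, w10, w40, w196, w220, w80] :=
  good_of _ _ _ _ _ _ _ x207 x10 x40 x196 x220 x80 go1580
lemma ch1581 : Good 0 ![w205, w207, w28, w193, w220, w80] :=
  good_of _ _ _ _ _ _ _ x205 x207 x28 x193 x220 x80 go1581
lemma ch1582 : Good 0 ![w201, w205, w19, w193, w219, w78] :=
  good_of _ _ _ _ _ _ _ x201 x205 x19 x193 x219 x78 go1582
lemma ch1583 : Good 0 ![w199, w10, w201, w192, w217, w77] :=
  good_of _ _ _ _ _ _ _ x199 x10 x201 x192 x217 x77 go1583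
lemma ch1584 : Good 0 ![w61, w10, w77, w199, w121, w15] :=
  good_of _ _ _ _ _ _ _ x61 x10 x77 x199 x121 x15 go1584
lemma ch1585 : Good 0 ![w61, w10, w122, w199, w121, w77] :=
  good_of _ _ _ _ _ _ _ x61 x10 x122 x199 x121 x77 go1585
lemma ch1586 : Good 0 ![w61, w10, w201, w199, w122, w77] :=
  good_of _ _ _ _ _ _ _ x61 x10 x201 x199 x122 x77 go1586
lemma ch1587 : Good 0 ![w62, w78, w19, w201, w122, w77] :=
  good_of _ _ _ _ _ _ _ x62 x78 x19 x201 x122 x77 go1587
lemma ch1588 : Good 0 ![w62, w123, w19, w201, w122, w78] :=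
  good_of _ _ _ _ _ _ _ x62 x123 x19 x201 x122 x78 go1588
lemma ch1589 : Good 0 ![w62, w28, w79, w201, w123, w78] :=
  good_of _ _ _ _ _ _ _ x62 x28 x79 x201 x123 x78 go1589
lemma ch1590 : Good 0 ![w62, w28, w204, w201, w123, w79] :=
  good_of _ _ _ _ _ _ _ x62 x28 x204 x201 x123 x79 go1590
lemma ch1591 : Good 0 ![w62, w28, w124, w204, w123, w79] :=
  good_of _ _ _ _ _ _ _ x62 x28 x124 x204 x123 x79 go1591
lemma ch1592 : Good 0 ![w64, w33, w19, w204, w124, w79] :=
  good_of _ _ _ _ _ _ _ x64 x33 x19 x204 x124 x79 go1592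
lemma ch1593 : Good 0 ![w64, w28, w33, w204, w124, w79] :=
  good_of _ _ _ _ _ _ _ x64 x28 x33 x204 x124 x79 go1593
lemma ch1594 : Good 0 ![w62, w28, w64, w204, w124, w79] :=
  good_of _ _ _ _ _ _ _ x62 x28 x64 x204 x124 x79 go1594
lemma ch1595 : Good 0 ![w62, w205, w28, w201, w123, w78] :=
  good_of _ _ _ _ _ _ _ x62 x205 x28 x201 x123 x78 go1595
lemma ch1596 : Good 0 ![w66, w80, w28, w205, w123, w78] :=
  good_of _ _ _ _ _ _ _ x66 x80 x28 x205 x123 x78 go1596
lemma ch1597 : Good 0 ![w66, w125, w28, w205, w123, w80] :=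
  good_of _ _ _ _ _ _ _ x66 x125 x28 x205 x123 x80 go1597
lemma ch1598 : Good 0 ![w66, w207, w28, w205, w125, w80] :=
  good_of _ _ _ _ _ _ _ x66 x207 x28 x205 x125 x80 go1598
lemma ch1599 : Good 0 ![w67, w10, w28, w207, w125, w80] :=
  good_of _ _ _ _ _ _ _ x67 x10 x28 x207 x125 x80 go1599
lemma ch1600 : Good 0 ![w66, w67, w28, w207, w125, w80] :=
  good_of _ _ _ _ _ _ _ x66 x67 x28 x207 x125 x80 go1600
lemma ch1601 : Good 0 ![w62, w66, w28, w205, w123, w78] :=
  good_of _ _ _ _ _ _ _ x62 x66 x28 x205 x123 x78 go1601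
lemma ch1602 : Good 0 ![w61, w10, w62, w201, w122, w77] :=
  good_of _ _ _ _ _ _ _ x61 x10 x62 x201 x122 x77 go1602
lemma ch1603 : Good 0 ![w0, w10, w61, w199, w121, w15] :=
  good_of _ _ _ _ _ _ _ x0 x10 x61 x199 x121 x15 go1603

lemma tp0 : Good 0 ![w0, w1, w2, w3, w4, w6] :=
  split14 (m := w8) (by decide +kernel) ch2 ch3
lemma tp1 : Good 0 ![w0, w1, w2, w3, w4, w7] :=
  split15 (m := w6) (by decide +kernel) ch1 tp0
lemma tp2 : Good 0 ![w0, w10, w2, w3, w4, w5] :=
  split03 (m := w9) (by decide +kernel) ch4 ch5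
lemma tp3 : Good 0 ![w0, w10, w11, w3, w4, w5] :=
  split03 (m := w9) (by decide +kernel) ch7 ch8
lemma tp4 : Good 0 ![w0, w10, w11, w12, w14, w5] :=
  split05 (m := w13) (by decide +kernel) ch12 ch13
lemma tp5 : Good 0 ![w0, w10, w11, w12, w16, w7] :=
  split05 (m := w15) (by decide +kernel) ch14 ch15
lemma tp6 : Good 0 ![w27, w28, w19, w31, w30, w32] :=
  split12 (m := w33) (by decide +kernel) ch30 ch31
lemma tp7 : Good 0 ![w27, w28, w19, w31, w30, w29] :=
  split25 (m := w32) (by decide +kernel) ch29 tp6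
lemma tp8 : Good 0 ![w27, w28, w19, w26, w30, w29] :=
  split23 (m := w31) (by decide +kernel) ch28 tp7
lemma tp9 : Good 0 ![w27, w28, w19, w26, w24, w29] :=
  split24 (m := w30) (by decide +kernel) ch27 tp8
lemma tp10 : Good 0 ![w27, w28, w19, w26, w24, w25] :=
  split25 (m := w29) (by decide +kernel) ch26 tp9
lemma tp11 : Good 0 ![w23, w28, w19, w26, w24, w25] :=
  split02 (m := w27) (by decide +kernel) tp10 ch32
lemma tp12 : Good 0 ![w39, w10, w28, w37, w36, w38] :=
  split12 (m := w40) (by decide +kernel) ch37 ch38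
lemma tp13 : Good 0 ![w34, w10, w28, w37, w36, w38] :=
  split02 (m := w39) (by decide +kernel) tp12 ch39
lemma tp14 : Good 0 ![w34, w10, w28, w37, w36, w35] :=
  split25 (m := w38) (by decide +kernel) ch36 tp13
lemma tp15 : Good 0 ![w34, w10, w28, w26, w36, w35] :=
  split13 (m := w37) (by decide +kernel) ch35 tp14
lemma tp16 : Good 0 ![w34, w10, w28, w26, w24, w35] :=
  split14 (m := w36) (by decide +kernel) ch34 tp15
lemma tp17 : Good 0 ![w34, w10, w28, w26, w24, w25] :=
  split15 (m := w35) (by decide +kernel) ch33 tp16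
lemma tp18 : Good 0 ![w23, w10, w28, w26, w24, w25] :=
  split01 (m := w34) (by decide +kernel) tp17 ch40
lemma tp19 : Good 0 ![w23, w10, w19, w26, w24, w25] :=
  split12 (m := w28) (by decide +kernel) tp11 tp18
lemma tp20 : Good 0 ![w23, w10, w19, w22, w24, w25] :=
  split13 (m := w26) (by decide +kernel) ch25 tp19
lemma tp21 : Good 0 ![w23, w10, w19, w22, w24, w20] :=
  split15 (m := w25) (by decide +kernel) ch24 tp20
lemma tp22 : Good 0 ![w23, w10, w19, w22, w18, w20] :=
  split14 (m := w24) (by decide +kernel) ch23 tp21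
lemma tp23 : Good 0 ![w21, w10, w19, w22, w18, w20] :=
  split01 (m := w23) (by decide +kernel) tp22 ch41
lemma tp24 : Good 0 ![w21, w10, w19, w17, w18, w20] :=
  split13 (m := w22) (by decide +kernel) ch22 tp23
lemma tp25 : Good 0 ![w42, w28, w19, w27, w24, w29] :=
  split24 (m := w30) (by decide +kernel) ch47 ch48
lemma tp26 : Good 0 ![w42, w28, w19, w27, w24, w25] :=
  split25 (m := w29) (by decide +kernel) ch46 tp25
lemma tp27 : Good 0 ![w42, w28, w19, w23, w24, w25] :=
  split23 (m := w27) (by decide +kernel) ch45 tp26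
lemma tp28 : Good 0 ![w43, w10, w28, w39, w36, w38] :=
  split12 (m := w40) (by decide +kernel) ch54 ch55
lemma tp29 : Good 0 ![w43, w10, w28, w39, w36, w35] :=
  split25 (m := w38) (by decide +kernel) ch53 tp28
lemma tp30 : Good 0 ![w43, w10, w28, w34, w36, w35] :=
  split23 (m := w39) (by decide +kernel) ch52 tp29
lemma tp31 : Good 0 ![w42, w10, w28, w34, w36, w35] :=
  split01 (m := w43) (by decide +kernel) tp30 ch56
lemma tp32 : Good 0 ![w42, w10, w28, w34, w24, w35] :=
  split14 (m := w36) (by decide +kernel) ch51 tp31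
lemma tp33 : Good 0 ![w42, w10, w28, w34, w24, w25] :=
  split15 (m := w35) (by decide +kernel) ch50 tp32
lemma tp34 : Good 0 ![w42, w10, w28, w23, w24, w25] :=
  split13 (m := w34) (by decide +kernel) ch49 tp33
lemma tp35 : Good 0 ![w42, w10, w19, w23, w24, w25] :=
  split12 (m := w28) (by decide +kernel) tp27 tp34
lemma tp36 : Good 0 ![w41, w10, w19, w23, w24, w25] :=
  split01 (m := w42) (by decide +kernel) tp35 ch57
lemma tp37 : Good 0 ![w41, w10, w19, w23, w24, w20] :=
  split15 (m := w25) (by decide +kernel) ch44 tp36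
lemma tp38 : Good 0 ![w41, w10, w19, w23, w18, w20] :=
  split14 (m := w24) (by decide +kernel) ch43 tp37
lemma tp39 : Good 0 ![w41, w10, w19, w21, w18, w20] :=
  split13 (m := w23) (by decide +kernel) ch42 tp38
lemma tp40 : Good 0 ![w13, w10, w19, w21, w18, w20] :=
  split02 (m := w41) (by decide +kernel) tp39 ch58
lemma tp41 : Good 0 ![w13, w10, w19, w17, w18, w20] :=
  split03 (m := w21) (by decide +kernel) tp24 tp40
lemma tp42 : Good 0 ![w13, w10, w19, w17, w18, w5] :=
  split15 (m := w20) (by decide +kernel) ch21 tp41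
lemma tp43 : Good 0 ![w13, w10, w19, w17, w4, w5] :=
  split14 (m := w18) (by decide +kernel) ch20 tp42
lemma tp44 : Good 0 ![w46, w10, w28, w39, w36, w43] :=
  split01 (m := w47) (by decide +kernel) ch69 ch70
lemma tp45 : Good 0 ![w46, w10, w28, w39, w36, w42] :=
  split15 (m := w43) (by decide +kernel) ch68 tp44
lemma tp46 : Good 0 ![w46, w10, w28, w39, w24, w42] :=
  split14 (m := w36) (by decide +kernel) ch67 tp45
lemma tp47 : Good 0 ![w46, w10, w28, w27, w24, w42] :=
  split13 (m := w39) (by decide +kernel) ch66 tp46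
lemma tp48 : Good 0 ![w46, w10, w19, w27, w24, w42] :=
  split12 (m := w28) (by decide +kernel) ch65 tp47
lemma tp49 : Good 0 ![w46, w10, w19, w23, w24, w42] :=
  split23 (m := w27) (by decide +kernel) ch64 tp48
lemma tp50 : Good 0 ![w45, w10, w19, w23, w24, w42] :=
  split01 (m := w46) (by decide +kernel) tp49 ch71
lemma tp51 : Good 0 ![w45, w10, w19, w23, w24, w41] :=
  split15 (m := w42) (by decide +kernel) ch63 tp50
lemma tp52 : Good 0 ![w45, w10, w19, w23, w18, w41] :=
  split14 (m := w24) (by decide +kernel) ch62 tp51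
lemma tp53 : Good 0 ![w45, w10, w19, w21, w18, w41] :=
  split13 (m := w23) (by decide +kernel) ch61 tp52
lemma tp54 : Good 0 ![w45, w10, w19, w21, w18, w13] :=
  split25 (m := w41) (by decide +kernel) ch60 tp53
lemma tp55 : Good 0 ![w44, w10, w19, w21, w18, w13] :=
  split02 (m := w45) (by decide +kernel) tp54 ch72
lemma tp56 : Good 0 ![w46, w28, w19, w31, w30, w27] :=
  split02 (m := w48) (by decide +kernel) ch80 ch81
lemma tp57 : Good 0 ![w46, w28, w19, w26, w30, w27] :=
  split23 (m := w31) (by decide +kernel) ch79 tp56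
lemma tp58 : Good 0 ![w46, w28, w19, w26, w24, w27] :=
  split24 (m := w30) (by decide +kernel) ch78 tp57
lemma tp59 : Good 0 ![w47, w40, w28, w37, w36, w39] :=
  split24 (m := w49) (by decide +kernel) ch85 ch86
lemma tp60 : Good 0 ![w47, w10, w28, w37, w36, w39] :=
  split12 (m := w40) (by decide +kernel) tp59 ch87
lemma tp61 : Good 0 ![w47, w10, w28, w26, w36, w39] :=
  split13 (m := w37) (by decide +kernel) ch84 tp60
lemma tp62 : Good 0 ![w46, w10, w28, w26, w36, w39] :=
  split01 (m := w47) (by decide +kernel) tp61 ch88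
lemma tp63 : Good 0 ![w46, w10, w28, w26, w24, w39] :=
  split14 (m := w36) (by decide +kernel) ch83 tp62
lemma tp64 : Good 0 ![w46, w10, w28, w26, w24, w27] :=
  split15 (m := w39) (by decide +kernel) ch82 tp63
lemma tp65 : Good 0 ![w46, w10, w19, w26, w24, w27] :=
  split12 (m := w28) (by decide +kernel) tp58 tp64
lemma tp66 : Good 0 ![w46, w10, w19, w26, w24, w23] :=
  split25 (m := w27) (by decide +kernel) ch77 tp65
lemma tp67 : Good 0 ![w46, w10, w19, w22, w24, w23] :=
  split13 (m := w26) (by decide +kernel) ch76 tp66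
lemma tp68 : Good 0 ![w45, w10, w19, w22, w24, w23] :=
  split01 (m := w46) (by decide +kernel) tp67 ch89
lemma tp69 : Good 0 ![w45, w10, w19, w22, w18, w23] :=
  split14 (m := w24) (by decide +kernel) ch75 tp68
lemma tp70 : Good 0 ![w45, w10, w19, w22, w18, w21] :=
  split15 (m := w23) (by decide +kernel) ch74 tp69
lemma tp71 : Good 0 ![w44, w10, w19, w22, w18, w21] :=
  split02 (m := w45) (by decide +kernel) tp70 ch90
lemma tp72 : Good 0 ![w44, w10, w19, w17, w18, w21] :=
  split13 (m := w22) (by decide +kernel) ch73 tp71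
lemma tp73 : Good 0 ![w44, w10, w19, w17, w18, w13] :=
  split35 (m := w21) (by decide +kernel) tp55 tp72
lemma tp74 : Good 0 ![w44, w10, w19, w17, w4, w13] :=
  split14 (m := w18) (by decide +kernel) ch59 tp73
lemma tp75 : Good 0 ![w52, w28, w19, w27, w46, w53] :=
  split24 (m := w48) (by decide +kernel) ch98 ch99
lemma tp76 : Good 0 ![w52, w28, w19, w27, w46, w42] :=
  split25 (m := w53) (by decide +kernel) ch97 tp75
lemma tp77 : Good 0 ![w51, w28, w19, w27, w46, w42] :=
  split02 (m := w52) (by decide +kernel) tp76 ch100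
lemma tp78 : Good 0 ![w54, w10, w28, w39, w46, w42] :=
  split15 (m := w43) (by decide +kernel) ch102 ch103
lemma tp79 : Good 0 ![w54, w10, w28, w27, w46, w42] :=
  split13 (m := w39) (by decide +kernel) ch101 tp78
lemma tp80 : Good 0 ![w51, w10, w28, w27, w46, w42] :=
  split01 (m := w54) (by decide +kernel) tp79 ch104
lemma tp81 : Good 0 ![w51, w10, w19, w27, w46, w42] :=
  split12 (m := w28) (by decide +kernel) tp77 tp80
lemma tp82 : Good 0 ![w51, w10, w19, w23, w46, w42] :=
  split23 (m := w27) (by decide +kernel) ch96 tp81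
lemma tp83 : Good 0 ![w51, w10, w19, w23, w45, w42] :=
  split14 (m := w46) (by decide +kernel) ch95 tp82
lemma tp84 : Good 0 ![w51, w10, w19, w23, w45, w41] :=
  split15 (m := w42) (by decide +kernel) ch94 tp83
lemma tp85 : Good 0 ![w51, w10, w19, w21, w45, w41] :=
  split13 (m := w23) (by decide +kernel) ch93 tp84
lemma tp86 : Good 0 ![w50, w10, w19, w21, w45, w41] :=
  split02 (m := w51) (by decide +kernel) tp85 ch105
lemma tp87 : Good 0 ![w50, w10, w19, w21, w45, w13] :=
  split25 (m := w41) (by decide +kernel) ch92 tp86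
lemma tp88 : Good 0 ![w50, w10, w19, w21, w44, w13] :=
  split24 (m := w45) (by decide +kernel) ch91 tp87
lemma tp89 : Good 0 ![w54, w28, w19, w57, w48, w27] :=
  split02 (m := w58) (by decide +kernel) ch113 ch114
lemma tp90 : Good 0 ![w54, w28, w19, w57, w46, w27] :=
  split24 (m := w48) (by decide +kernel) ch112 tp89
lemma tp91 : Good 0 ![w54, w10, w28, w59, w47, w39] :=
  split01 (m := w60) (by decide +kernel) ch118 ch119
lemma tp92 : Good 0 ![w54, w10, w28, w59, w46, w39] :=
  split14 (m := w47) (by decide +kernel) ch117 tp91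
lemma tp93 : Good 0 ![w54, w10, w28, w57, w46, w39] :=
  split13 (m := w59) (by decide +kernel) ch116 tp92
lemma tp94 : Good 0 ![w54, w10, w28, w57, w46, w27] :=
  split15 (m := w39) (by decide +kernel) ch115 tp93
lemma tp95 : Good 0 ![w54, w10, w19, w57, w46, w27] :=
  split12 (m := w28) (by decide +kernel) tp90 tp94
lemma tp96 : Good 0 ![w51, w10, w19, w57, w46, w27] :=
  split01 (m := w54) (by decide +kernel) tp95 ch120
lemma tp97 : Good 0 ![w51, w10, w19, w56, w46, w27] :=
  split23 (m := w57) (by decide +kernel) ch111 tp96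
lemma tp98 : Good 0 ![w51, w10, w19, w56, w46, w23] :=
  split25 (m := w27) (by decide +kernel) ch110 tp97
lemma tp99 : Good 0 ![w51, w10, w19, w56, w45, w23] :=
  split14 (m := w46) (by decide +kernel) ch109 tp98
lemma tp100 : Good 0 ![w51, w10, w19, w56, w45, w21] :=
  split15 (m := w23) (by decide +kernel) ch108 tp99
lemma tp101 : Good 0 ![w51, w10, w19, w55, w45, w21] :=
  split13 (m := w56) (by decide +kernel) ch107 tp100
lemma tp102 : Good 0 ![w50, w10, w19, w55, w45, w21] :=
  split02 (m := w51) (by decide +kernel) tp101 ch121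
lemma tp103 : Good 0 ![w50, w10, w19, w55, w44, w21] :=
  split24 (m := w45) (by decide +kernel) ch106 tp102
lemma tp104 : Good 0 ![w54, w28, w19, w31, w57, w27] :=
  split02 (m := w58) (by decide +kernel) ch129 ch130
lemma tp105 : Good 0 ![w54, w28, w19, w26, w57, w27] :=
  split23 (m := w31) (by decide +kernel) ch128 tp104
lemma tp106 : Good 0 ![w60, w10, w28, w37, w59, w39] :=
  split12 (m := w40) (by decide +kernel) ch134 ch135
lemma tp107 : Good 0 ![w60, w10, w28, w26, w59, w39] :=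
  split13 (m := w37) (by decide +kernel) ch133 tp106
lemma tp108 : Good 0 ![w54, w10, w28, w26, w59, w39] :=
  split01 (m := w60) (by decide +kernel) tp107 ch136
lemma tp109 : Good 0 ![w54, w10, w28, w26, w57, w39] :=
  split14 (m := w59) (by decide +kernel) ch132 tp108
lemma tp110 : Good 0 ![w54, w10, w28, w26, w57, w27] :=
  split15 (m := w39) (by decide +kernel) ch131 tp109
lemma tp111 : Good 0 ![w54, w10, w19, w26, w57, w27] :=
  split12 (m := w28) (by decide +kernel) tp105 tp110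
lemma tp112 : Good 0 ![w54, w10, w19, w26, w56, w27] :=
  split24 (m := w57) (by decide +kernel) ch127 tp111
lemma tp113 : Good 0 ![w54, w10, w19, w26, w56, w23] :=
  split25 (m := w27) (by decide +kernel) ch126 tp112
lemma tp114 : Good 0 ![w51, w10, w19, w26, w56, w23] :=
  split01 (m := w54) (by decide +kernel) tp113 ch137
lemma tp115 : Good 0 ![w51, w10, w19, w22, w56, w23] :=
  split13 (m := w26) (by decide +kernel) ch125 tp114
lemma tp116 : Good 0 ![w51, w10, w19, w22, w56, w21] :=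
  split15 (m := w23) (by decide +kernel) ch124 tp115
lemma tp117 : Good 0 ![w51, w10, w19, w22, w55, w21] :=
  split14 (m := w56) (by decide +kernel) ch123 tp116
lemma tp118 : Good 0 ![w50, w10, w19, w22, w55, w21] :=
  split02 (m := w51) (by decide +kernel) tp117 ch138
lemma tp119 : Good 0 ![w50, w10, w19, w17, w55, w21] :=
  split13 (m := w22) (by decide +kernel) ch122 tp118
lemma tp120 : Good 0 ![w50, w10, w19, w17, w44, w21] :=
  split34 (m := w55) (by decide +kernel) tp103 tp119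
lemma tp121 : Good 0 ![w50, w10, w19, w17, w44, w13] :=
  split35 (m := w21) (by decide +kernel) tp88 tp120
lemma tp122 : Good 0 ![w62, w46, w19, w51, w63, w53] :=
  split12 (m := w48) (by decide +kernel) ch145 ch146
lemma tp123 : Good 0 ![w62, w46, w19, w51, w63, w42] :=
  split25 (m := w53) (by decide +kernel) ch144 tp122
lemma tp124 : Good 0 ![w62, w46, w19, w51, w45, w42] :=
  split24 (m := w63) (by decide +kernel) ch143 tp123
lemma tp125 : Good 0 ![w64, w33, w19, w52, w48, w53] :=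
  split25 (m := w65) (by decide +kernel) ch150 ch151
lemma tp126 : Good 0 ![w64, w28, w19, w52, w48, w53] :=
  split12 (m := w33) (by decide +kernel) tp125 ch152
lemma tp127 : Good 0 ![w62, w28, w19, w52, w48, w53] :=
  split02 (m := w64) (by decide +kernel) tp126 ch153
lemma tp128 : Good 0 ![w62, w28, w19, w52, w46, w53] :=
  split24 (m := w48) (by decide +kernel) ch149 tp127
lemma tp129 : Good 0 ![w62, w28, w19, w52, w46, w42] :=
  split25 (m := w53) (by decide +kernel) ch148 tp128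
lemma tp130 : Good 0 ![w62, w28, w19, w51, w46, w42] :=
  split23 (m := w52) (by decide +kernel) ch147 tp129
lemma tp131 : Good 0 ![w66, w10, w28, w60, w47, w43] :=
  split01 (m := w67) (by decide +kernel) ch158 ch159
lemma tp132 : Good 0 ![w66, w10, w28, w54, w47, w43] :=
  split13 (m := w60) (by decide +kernel) ch157 tp131
lemma tp133 : Good 0 ![w66, w10, w28, w54, w46, w43] :=
  split14 (m := w47) (by decide +kernel) ch156 tp132
lemma tp134 : Good 0 ![w66, w10, w28, w54, w46, w42] :=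
  split15 (m := w43) (by decide +kernel) ch155 tp133
lemma tp135 : Good 0 ![w62, w10, w28, w54, w46, w42] :=
  split01 (m := w66) (by decide +kernel) tp134 ch160
lemma tp136 : Good 0 ![w62, w10, w28, w51, w46, w42] :=
  split13 (m := w54) (by decide +kernel) ch154 tp135
lemma tp137 : Good 0 ![w62, w10, w19, w51, w46, w42] :=
  split12 (m := w28) (by decide +kernel) tp130 tp136
lemma tp138 : Good 0 ![w62, w10, w19, w51, w45, w42] :=
  split14 (m := w46) (by decide +kernel) tp124 tp137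
lemma tp139 : Good 0 ![w62, w10, w19, w51, w45, w41] :=
  split15 (m := w42) (by decide +kernel) ch142 tp138
lemma tp140 : Good 0 ![w61, w10, w19, w51, w45, w41] :=
  split02 (m := w62) (by decide +kernel) tp139 ch161
lemma tp141 : Good 0 ![w61, w10, w19, w50, w45, w41] :=
  split23 (m := w51) (by decide +kernel) ch141 tp140
lemma tp142 : Good 0 ![w61, w10, w19, w50, w45, w13] :=
  split25 (m := w41) (by decide +kernel) ch140 tp141
lemma tp143 : Good 0 ![w61, w10, w19, w50, w44, w13] :=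
  split24 (m := w45) (by decide +kernel) ch139 tp142
lemma tp144 : Good 0 ![w0, w10, w19, w50, w44, w13] :=
  split02 (m := w61) (by decide +kernel) tp143 ch162
lemma tp145 : Good 0 ![w0, w10, w19, w17, w44, w13] :=
  split03 (m := w50) (by decide +kernel) tp121 tp144
lemma tp146 : Good 0 ![w0, w10, w19, w17, w4, w13] :=
  split04 (m := w44) (by decide +kernel) tp74 tp145
lemma tp147 : Good 0 ![w0, w10, w19, w17, w4, w5] :=
  split05 (m := w13) (by decide +kernel) tp43 tp146
lemma tp148 : Good 0 ![w73, w28, w19, w31, w30, w74] :=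
  split12 (m := w33) (by decide +kernel) ch173 ch174
lemma tp149 : Good 0 ![w73, w28, w19, w31, w30, w72] :=
  split25 (m := w74) (by decide +kernel) ch172 tp148
lemma tp150 : Good 0 ![w71, w28, w19, w31, w30, w72] :=
  split02 (m := w73) (by decide +kernel) tp149 ch175
lemma tp151 : Good 0 ![w71, w28, w19, w26, w30, w72] :=
  split23 (m := w31) (by decide +kernel) ch171 tp150
lemma tp152 : Good 0 ![w71, w28, w19, w26, w24, w72] :=
  split24 (m := w30) (by decide +kernel) ch170 tp151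
lemma tp153 : Good 0 ![w75, w10, w28, w37, w36, w76] :=
  split12 (m := w40) (by decide +kernel) ch179 ch180
lemma tp154 : Good 0 ![w75, w10, w28, w26, w36, w76] :=
  split13 (m := w37) (by decide +kernel) ch178 tp153
lemma tp155 : Good 0 ![w75, w10, w28, w26, w24, w76] :=
  split14 (m := w36) (by decide +kernel) ch177 tp154
lemma tp156 : Good 0 ![w75, w10, w28, w26, w24, w72] :=
  split15 (m := w76) (by decide +kernel) ch176 tp155
lemma tp157 : Good 0 ![w71, w10, w28, w26, w24, w72] :=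
  split01 (m := w75) (by decide +kernel) tp156 ch181
lemma tp158 : Good 0 ![w71, w10, w19, w26, w24, w72] :=
  split12 (m := w28) (by decide +kernel) tp152 tp157
lemma tp159 : Good 0 ![w71, w10, w19, w22, w24, w72] :=
  split13 (m := w26) (by decide +kernel) ch169 tp158
lemma tp160 : Good 0 ![w71, w10, w19, w22, w24, w70] :=
  split25 (m := w72) (by decide +kernel) ch168 tp159
lemma tp161 : Good 0 ![w69, w10, w19, w22, w24, w70] :=
  split02 (m := w71) (by decide +kernel) tp160 ch182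
lemma tp162 : Good 0 ![w69, w10, w19, w22, w18, w70] :=
  split14 (m := w24) (by decide +kernel) ch167 tp161
lemma tp163 : Good 0 ![w69, w10, w19, w17, w18, w70] :=
  split13 (m := w22) (by decide +kernel) ch166 tp162
lemma tp164 : Good 0 ![w69, w10, w19, w17, w18, w68] :=
  split15 (m := w70) (by decide +kernel) ch165 tp163
lemma tp165 : Good 0 ![w15, w10, w19, w17, w18, w68] :=
  split01 (m := w69) (by decide +kernel) tp164 ch183
lemma tp166 : Good 0 ![w15, w10, w19, w17, w4, w68] :=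
  split14 (m := w18) (by decide +kernel) ch164 tp165
lemma tp167 : Good 0 ![w15, w10, w19, w17, w4, w7] :=
  split15 (m := w68) (by decide +kernel) ch163 tp166
lemma tp168 : Good 0 ![w48, w28, w19, w31, w30, w79] :=
  split12 (m := w33) (by decide +kernel) ch193 ch194
lemma tp169 : Good 0 ![w46, w28, w19, w31, w30, w79] :=
  split02 (m := w48) (by decide +kernel) tp168 ch195
lemma tp170 : Good 0 ![w46, w28, w19, w31, w30, w78] :=
  split25 (m := w79) (by decide +kernel) ch192 tp169
lemma tp171 : Good 0 ![w46, w28, w19, w26, w30, w78] :=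
  split23 (m := w31) (by decide +kernel) ch191 tp170
lemma tp172 : Good 0 ![w46, w28, w19, w26, w24, w78] :=
  split24 (m := w30) (by decide +kernel) ch190 tp171
lemma tp173 : Good 0 ![w47, w40, w28, w37, w49, w80] :=
  split23 (m := w81) (by decide +kernel) ch200 ch201
lemma tp174 : Good 0 ![w47, w40, w28, w37, w36, w80] :=
  split24 (m := w49) (by decide +kernel) ch199 tp173
lemma tp175 : Good 0 ![w47, w10, w28, w37, w36, w80] :=
  split12 (m := w40) (by decide +kernel) tp174 ch202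
lemma tp176 : Good 0 ![w47, w10, w28, w26, w36, w80] :=
  split13 (m := w37) (by decide +kernel) ch198 tp175
lemma tp177 : Good 0 ![w46, w10, w28, w26, w36, w80] :=
  split01 (m := w47) (by decide +kernel) tp176 ch203
lemma tp178 : Good 0 ![w46, w10, w28, w26, w36, w78] :=
  split15 (m := w80) (by decide +kernel) ch197 tp177
lemma tp179 : Good 0 ![w46, w10, w28, w26, w24, w78] :=
  split14 (m := w36) (by decide +kernel) ch196 tp178
lemma tp180 : Good 0 ![w46, w10, w19, w26, w24, w78] :=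
  split12 (m := w28) (by decide +kernel) tp172 tp179
lemma tp181 : Good 0 ![w46, w10, w19, w22, w24, w78] :=
  split13 (m := w26) (by decide +kernel) ch189 tp180
lemma tp182 : Good 0 ![w45, w10, w19, w22, w24, w78] :=
  split01 (m := w46) (by decide +kernel) tp181 ch204
lemma tp183 : Good 0 ![w45, w10, w19, w22, w24, w77] :=
  split15 (m := w78) (by decide +kernel) ch188 tp182
lemma tp184 : Good 0 ![w45, w10, w19, w22, w18, w77] :=
  split14 (m := w24) (by decide +kernel) ch187 tp183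
lemma tp185 : Good 0 ![w44, w10, w19, w22, w18, w77] :=
  split02 (m := w45) (by decide +kernel) tp184 ch205
lemma tp186 : Good 0 ![w44, w10, w19, w17, w18, w77] :=
  split13 (m := w22) (by decide +kernel) ch186 tp185
lemma tp187 : Good 0 ![w44, w10, w19, w17, w18, w15] :=
  split25 (m := w77) (by decide +kernel) ch185 tp186
lemma tp188 : Good 0 ![w44, w10, w19, w17, w4, w15] :=
  split14 (m := w18) (by decide +kernel) ch184 tp187
lemma tp189 : Good 0 ![w51, w28, w19, w57, w46, w79] :=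
  split02 (m := w52) (by decide +kernel) ch213 ch214
lemma tp190 : Good 0 ![w51, w28, w19, w57, w46, w78] :=
  split25 (m := w79) (by decide +kernel) ch212 tp189
lemma tp191 : Good 0 ![w54, w10, w28, w59, w46, w78] :=
  split15 (m := w80) (by decide +kernel) ch216 ch217
lemma tp192 : Good 0 ![w54, w10, w28, w57, w46, w78] :=
  split13 (m := w59) (by decide +kernel) ch215 tp191
lemma tp193 : Good 0 ![w51, w10, w28, w57, w46, w78] :=
  split01 (m := w54) (by decide +kernel) tp192 ch218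
lemma tp194 : Good 0 ![w51, w10, w19, w57, w46, w78] :=
  split12 (m := w28) (by decide +kernel) tp190 tp193
lemma tp195 : Good 0 ![w51, w10, w19, w56, w46, w78] :=
  split23 (m := w57) (by decide +kernel) ch211 tp194
lemma tp196 : Good 0 ![w51, w10, w19, w56, w45, w78] :=
  split14 (m := w46) (by decide +kernel) ch210 tp195
lemma tp197 : Good 0 ![w51, w10, w19, w56, w45, w77] :=
  split15 (m := w78) (by decide +kernel) ch209 tp196
lemma tp198 : Good 0 ![w51, w10, w19, w55, w45, w77] :=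
  split13 (m := w56) (by decide +kernel) ch208 tp197
lemma tp199 : Good 0 ![w50, w10, w19, w55, w45, w77] :=
  split02 (m := w51) (by decide +kernel) tp198 ch219
lemma tp200 : Good 0 ![w50, w10, w19, w55, w44, w77] :=
  split24 (m := w45) (by decide +kernel) ch207 tp199
lemma tp201 : Good 0 ![w58, w28, w19, w31, w57, w79] :=
  split12 (m := w33) (by decide +kernel) ch227 ch228
lemma tp202 : Good 0 ![w54, w28, w19, w31, w57, w79] :=
  split02 (m := w58) (by decide +kernel) tp201 ch229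
lemma tp203 : Good 0 ![w54, w28, w19, w31, w57, w78] :=
  split25 (m := w79) (by decide +kernel) ch226 tp202
lemma tp204 : Good 0 ![w54, w28, w19, w26, w57, w78] :=
  split23 (m := w31) (by decide +kernel) ch225 tp203
lemma tp205 : Good 0 ![w60, w40, w28, w37, w59, w80] :=
  split23 (m := w81) (by decide +kernel) ch233 ch234
lemma tp206 : Good 0 ![w60, w10, w28, w37, w59, w80] :=
  split12 (m := w40) (by decide +kernel) tp205 ch235
lemma tp207 : Good 0 ![w60, w10, w28, w26, w59, w80] :=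
  split13 (m := w37) (by decide +kernel) ch232 tp206
lemma tp208 : Good 0 ![w54, w10, w28, w26, w59, w80] :=
  split01 (m := w60) (by decide +kernel) tp207 ch236
lemma tp209 : Good 0 ![w54, w10, w28, w26, w59, w78] :=
  split15 (m := w80) (by decide +kernel) ch231 tp208
lemma tp210 : Good 0 ![w54, w10, w28, w26, w57, w78] :=
  split14 (m := w59) (by decide +kernel) ch230 tp209
lemma tp211 : Good 0 ![w54, w10, w19, w26, w57, w78] :=
  split12 (m := w28) (by decide +kernel) tp204 tp210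
lemma tp212 : Good 0 ![w51, w10, w19, w26, w57, w78] :=
  split01 (m := w54) (by decide +kernel) tp211 ch237
lemma tp213 : Good 0 ![w51, w10, w19, w26, w56, w78] :=
  split24 (m := w57) (by decide +kernel) ch224 tp212
lemma tp214 : Good 0 ![w51, w10, w19, w22, w56, w78] :=
  split13 (m := w26) (by decide +kernel) ch223 tp213
lemma tp215 : Good 0 ![w51, w10, w19, w22, w56, w77] :=
  split15 (m := w78) (by decide +kernel) ch222 tp214
lemma tp216 : Good 0 ![w51, w10, w19, w22, w55, w77] :=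
  split14 (m := w56) (by decide +kernel) ch221 tp215
lemma tp217 : Good 0 ![w50, w10, w19, w22, w55, w77] :=
  split02 (m := w51) (by decide +kernel) tp216 ch238
lemma tp218 : Good 0 ![w50, w10, w19, w17, w55, w77] :=
  split13 (m := w22) (by decide +kernel) ch220 tp217
lemma tp219 : Good 0 ![w50, w10, w19, w17, w44, w77] :=
  split34 (m := w55) (by decide +kernel) tp200 tp218
lemma tp220 : Good 0 ![w50, w10, w19, w17, w44, w15] :=
  split25 (m := w77) (by decide +kernel) ch206 tp219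
lemma tp221 : Good 0 ![w64, w28, w19, w52, w48, w79] :=
  split12 (m := w33) (by decide +kernel) ch247 ch248
lemma tp222 : Good 0 ![w62, w28, w19, w52, w48, w79] :=
  split02 (m := w64) (by decide +kernel) tp221 ch249
lemma tp223 : Good 0 ![w62, w28, w19, w52, w46, w79] :=
  split24 (m := w48) (by decide +kernel) ch246 tp222
lemma tp224 : Good 0 ![w62, w28, w19, w51, w46, w79] :=
  split23 (m := w52) (by decide +kernel) ch245 tp223
lemma tp225 : Good 0 ![w62, w28, w19, w51, w46, w78] :=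
  split25 (m := w79) (by decide +kernel) ch244 tp224
lemma tp226 : Good 0 ![w66, w10, w28, w60, w47, w80] :=
  split01 (m := w67) (by decide +kernel) ch254 ch255
lemma tp227 : Good 0 ![w66, w10, w28, w54, w47, w80] :=
  split13 (m := w60) (by decide +kernel) ch253 tp226
lemma tp228 : Good 0 ![w66, w10, w28, w54, w46, w80] :=
  split14 (m := w47) (by decide +kernel) ch252 tp227
lemma tp229 : Good 0 ![w66, w10, w28, w54, w46, w78] :=
  split15 (m := w80) (by decide +kernel) ch251 tp228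
lemma tp230 : Good 0 ![w62, w10, w28, w54, w46, w78] :=
  split01 (m := w66) (by decide +kernel) tp229 ch256
lemma tp231 : Good 0 ![w62, w10, w28, w51, w46, w78] :=
  split13 (m := w54) (by decide +kernel) ch250 tp230
lemma tp232 : Good 0 ![w62, w10, w19, w51, w46, w78] :=
  split12 (m := w28) (by decide +kernel) tp225 tp231
lemma tp233 : Good 0 ![w62, w10, w19, w51, w45, w78] :=
  split14 (m := w46) (by decide +kernel) ch243 tp232
lemma tp234 : Good 0 ![w62, w10, w19, w51, w45, w77] :=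
  split15 (m := w78) (by decide +kernel) ch242 tp233
lemma tp235 : Good 0 ![w61, w10, w19, w51, w45, w77] :=
  split02 (m := w62) (by decide +kernel) tp234 ch257
lemma tp236 : Good 0 ![w61, w10, w19, w50, w45, w77] :=
  split23 (m := w51) (by decide +kernel) ch241 tp235
lemma tp237 : Good 0 ![w61, w10, w19, w50, w44, w77] :=
  split24 (m := w45) (by decide +kernel) ch240 tp236
lemma tp238 : Good 0 ![w61, w10, w19, w50, w44, w15] :=
  split25 (m := w77) (by decide +kernel) ch239 tp237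
lemma tp239 : Good 0 ![w0, w10, w19, w50, w44, w15] :=
  split02 (m := w61) (by decide +kernel) tp238 ch258
lemma tp240 : Good 0 ![w0, w10, w19, w17, w44, w15] :=
  split03 (m := w50) (by decide +kernel) tp220 tp239
lemma tp241 : Good 0 ![w0, w10, w19, w17, w4, w15] :=
  split04 (m := w44) (by decide +kernel) tp188 tp240
lemma tp242 : Good 0 ![w0, w10, w19, w17, w4, w7] :=
  split05 (m := w15) (by decide +kernel) tp167 tp241
lemma tp243 : Good 0 ![w86, w28, w19, w87, w30, w32] :=
  split12 (m := w33) (by decide +kernel) ch269 ch270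
lemma tp244 : Good 0 ![w86, w28, w19, w87, w30, w29] :=
  split25 (m := w32) (by decide +kernel) ch268 tp243
lemma tp245 : Good 0 ![w86, w28, w19, w85, w30, w29] :=
  split23 (m := w87) (by decide +kernel) ch267 tp244
lemma tp246 : Good 0 ![w86, w28, w19, w85, w24, w29] :=
  split24 (m := w30) (by decide +kernel) ch266 tp245
lemma tp247 : Good 0 ![w86, w28, w19, w85, w24, w25] :=
  split25 (m := w29) (by decide +kernel) ch265 tp246
lemma tp248 : Good 0 ![w84, w28, w19, w85, w24, w25] :=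
  split02 (m := w86) (by decide +kernel) tp247 ch271
lemma tp249 : Good 0 ![w90, w10, w28, w89, w36, w38] :=
  split12 (m := w40) (by decide +kernel) ch276 ch277
lemma tp250 : Good 0 ![w88, w10, w28, w89, w36, w38] :=
  split02 (m := w90) (by decide +kernel) tp249 ch278
lemma tp251 : Good 0 ![w88, w10, w28, w89, w36, w35] :=
  split25 (m := w38) (by decide +kernel) ch275 tp250
lemma tp252 : Good 0 ![w88, w10, w28, w85, w36, w35] :=
  split13 (m := w89) (by decide +kernel) ch274 tp251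
lemma tp253 : Good 0 ![w88, w10, w28, w85, w24, w35] :=
  split14 (m := w36) (by decide +kernel) ch273 tp252
lemma tp254 : Good 0 ![w88, w10, w28, w85, w24, w25] :=
  split15 (m := w35) (by decide +kernel) ch272 tp253
lemma tp255 : Good 0 ![w84, w10, w28, w85, w24, w25] :=
  split01 (m := w88) (by decide +kernel) tp254 ch279
lemma tp256 : Good 0 ![w84, w10, w19, w85, w24, w25] :=
  split12 (m := w28) (by decide +kernel) tp248 tp255
lemma tp257 : Good 0 ![w84, w10, w19, w83, w24, w25] :=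
  split13 (m := w85) (by decide +kernel) ch264 tp256
lemma tp258 : Good 0 ![w84, w10, w19, w83, w24, w20] :=
  split15 (m := w25) (by decide +kernel) ch263 tp257
lemma tp259 : Good 0 ![w84, w10, w19, w83, w18, w20] :=
  split14 (m := w24) (by decide +kernel) ch262 tp258
lemma tp260 : Good 0 ![w82, w10, w19, w83, w18, w20] :=
  split01 (m := w84) (by decide +kernel) tp259 ch280
lemma tp261 : Good 0 ![w82, w10, w19, w12, w18, w20] :=
  split13 (m := w83) (by decide +kernel) ch261 tp260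
lemma tp262 : Good 0 ![w42, w28, w19, w86, w24, w29] :=
  split24 (m := w30) (by decide +kernel) ch286 ch287
lemma tp263 : Good 0 ![w42, w28, w19, w86, w24, w25] :=
  split25 (m := w29) (by decide +kernel) ch285 tp262
lemma tp264 : Good 0 ![w42, w28, w19, w84, w24, w25] :=
  split23 (m := w86) (by decide +kernel) ch284 tp263
lemma tp265 : Good 0 ![w43, w10, w28, w90, w36, w38] :=
  split12 (m := w40) (by decide +kernel) ch293 ch294
lemma tp266 : Good 0 ![w43, w10, w28, w90, w36, w35] :=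
  split25 (m := w38) (by decide +kernel) ch292 tp265
lemma tp267 : Good 0 ![w43, w10, w28, w88, w36, w35] :=
  split23 (m := w90) (by decide +kernel) ch291 tp266
lemma tp268 : Good 0 ![w42, w10, w28, w88, w36, w35] :=
  split01 (m := w43) (by decide +kernel) tp267 ch295
lemma tp269 : Good 0 ![w42, w10, w28, w88, w24, w35] :=
  split14 (m := w36) (by decide +kernel) ch290 tp268
lemma tp270 : Good 0 ![w42, w10, w28, w88, w24, w25] :=
  split15 (m := w35) (by decide +kernel) ch289 tp269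
lemma tp271 : Good 0 ![w42, w10, w28, w84, w24, w25] :=
  split13 (m := w88) (by decide +kernel) ch288 tp270
lemma tp272 : Good 0 ![w42, w10, w19, w84, w24, w25] :=
  split12 (m := w28) (by decide +kernel) tp264 tp271
lemma tp273 : Good 0 ![w41, w10, w19, w84, w24, w25] :=
  split01 (m := w42) (by decide +kernel) tp272 ch296
lemma tp274 : Good 0 ![w41, w10, w19, w84, w24, w20] :=
  split15 (m := w25) (by decide +kernel) ch283 tp273
lemma tp275 : Good 0 ![w41, w10, w19, w84, w18, w20] :=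
  split14 (m := w24) (by decide +kernel) ch282 tp274
lemma tp276 : Good 0 ![w41, w10, w19, w82, w18, w20] :=
  split13 (m := w84) (by decide +kernel) ch281 tp275
lemma tp277 : Good 0 ![w13, w10, w19, w82, w18, w20] :=
  split02 (m := w41) (by decide +kernel) tp276 ch297
lemma tp278 : Good 0 ![w13, w10, w19, w12, w18, w20] :=
  split03 (m := w82) (by decide +kernel) tp261 tp277
lemma tp279 : Good 0 ![w13, w10, w19, w12, w18, w5] :=
  split15 (m := w20) (by decide +kernel) ch260 tp278
lemma tp280 : Good 0 ![w13, w10, w19, w12, w4, w5] :=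
  split14 (m := w18) (by decide +kernel) ch259 tp279
lemma tp281 : Good 0 ![w46, w10, w28, w90, w36, w43] :=
  split01 (m := w47) (by decide +kernel) ch308 ch309
lemma tp282 : Good 0 ![w46, w10, w28, w90, w36, w42] :=
  split15 (m := w43) (by decide +kernel) ch307 tp281
lemma tp283 : Good 0 ![w46, w10, w28, w90, w24, w42] :=
  split14 (m := w36) (by decide +kernel) ch306 tp282
lemma tp284 : Good 0 ![w46, w10, w28, w86, w24, w42] :=
  split13 (m := w90) (by decide +kernel) ch305 tp283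
lemma tp285 : Good 0 ![w46, w10, w19, w86, w24, w42] :=
  split12 (m := w28) (by decide +kernel) ch304 tp284
lemma tp286 : Good 0 ![w46, w10, w19, w84, w24, w42] :=
  split23 (m := w86) (by decide +kernel) ch303 tp285
lemma tp287 : Good 0 ![w45, w10, w19, w84, w24, w42] :=
  split01 (m := w46) (by decide +kernel) tp286 ch310
lemma tp288 : Good 0 ![w45, w10, w19, w84, w24, w41] :=
  split15 (m := w42) (by decide +kernel) ch302 tp287
lemma tp289 : Good 0 ![w45, w10, w19, w84, w18, w41] :=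
  split14 (m := w24) (by decide +kernel) ch301 tp288
lemma tp290 : Good 0 ![w45, w10, w19, w82, w18, w41] :=
  split13 (m := w84) (by decide +kernel) ch300 tp289
lemma tp291 : Good 0 ![w45, w10, w19, w82, w18, w13] :=
  split25 (m := w41) (by decide +kernel) ch299 tp290
lemma tp292 : Good 0 ![w44, w10, w19, w82, w18, w13] :=
  split02 (m := w45) (by decide +kernel) tp291 ch311
lemma tp293 : Good 0 ![w46, w28, w19, w87, w30, w86] :=
  split02 (m := w48) (by decide +kernel) ch319 ch320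
lemma tp294 : Good 0 ![w46, w28, w19, w85, w30, w86] :=
  split23 (m := w87) (by decide +kernel) ch318 tp293
lemma tp295 : Good 0 ![w46, w28, w19, w85, w24, w86] :=
  split24 (m := w30) (by decide +kernel) ch317 tp294
lemma tp296 : Good 0 ![w47, w40, w28, w89, w36, w90] :=
  split24 (m := w49) (by decide +kernel) ch324 ch325
lemma tp297 : Good 0 ![w47, w10, w28, w89, w36, w90] :=
  split12 (m := w40) (by decide +kernel) tp296 ch326
lemma tp298 : Good 0 ![w47, w10, w28, w85, w36, w90] :=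
  split13 (m := w89) (by decide +kernel) ch323 tp297
lemma tp299 : Good 0 ![w46, w10, w28, w85, w36, w90] :=
  split01 (m := w47) (by decide +kernel) tp298 ch327
lemma tp300 : Good 0 ![w46, w10, w28, w85, w24, w90] :=
  split14 (m := w36) (by decide +kernel) ch322 tp299
lemma tp301 : Good 0 ![w46, w10, w28, w85, w24, w86] :=
  split15 (m := w90) (by decide +kernel) ch321 tp300
lemma tp302 : Good 0 ![w46, w10, w19, w85, w24, w86] :=
  split12 (m := w28) (by decide +kernel) tp295 tp301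
lemma tp303 : Good 0 ![w46, w10, w19, w85, w24, w84] :=
  split25 (m := w86) (by decide +kernel) ch316 tp302
lemma tp304 : Good 0 ![w46, w10, w19, w83, w24, w84] :=
  split13 (m := w85) (by decide +kernel) ch315 tp303
lemma tp305 : Good 0 ![w45, w10, w19, w83, w24, w84] :=
  split01 (m := w46) (by decide +kernel) tp304 ch328
lemma tp306 : Good 0 ![w45, w10, w19, w83, w18, w84] :=
  split14 (m := w24) (by decide +kernel) ch314 tp305
lemma tp307 : Good 0 ![w45, w10, w19, w83, w18, w82] :=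
  split15 (m := w84) (by decide +kernel) ch313 tp306
lemma tp308 : Good 0 ![w44, w10, w19, w83, w18, w82] :=
  split02 (m := w45) (by decide +kernel) tp307 ch329
lemma tp309 : Good 0 ![w44, w10, w19, w12, w18, w82] :=
  split13 (m := w83) (by decide +kernel) ch312 tp308
lemma tp310 : Good 0 ![w44, w10, w19, w12, w18, w13] :=
  split35 (m := w82) (by decide +kernel) tp292 tp309
lemma tp311 : Good 0 ![w44, w10, w19, w12, w4, w13] :=
  split14 (m := w18) (by decide +kernel) ch298 tp310
lemma tp312 : Good 0 ![w93, w28, w19, w86, w48, w53] :=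
  split02 (m := w94) (by decide +kernel) ch338 ch339
lemma tp313 : Good 0 ![w93, w28, w19, w86, w46, w53] :=
  split24 (m := w48) (by decide +kernel) ch337 tp312
lemma tp314 : Good 0 ![w93, w28, w19, w86, w46, w42] :=
  split25 (m := w53) (by decide +kernel) ch336 tp313
lemma tp315 : Good 0 ![w93, w10, w28, w90, w46, w42] :=
  split15 (m := w43) (by decide +kernel) ch341 ch342
lemma tp316 : Good 0 ![w93, w10, w28, w86, w46, w42] :=
  split13 (m := w90) (by decide +kernel) ch340 tp315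
lemma tp317 : Good 0 ![w93, w10, w19, w86, w46, w42] :=
  split12 (m := w28) (by decide +kernel) tp314 tp316
lemma tp318 : Good 0 ![w92, w10, w19, w86, w46, w42] :=
  split01 (m := w93) (by decide +kernel) tp317 ch343
lemma tp319 : Good 0 ![w92, w10, w19, w84, w46, w42] :=
  split23 (m := w86) (by decide +kernel) ch335 tp318
lemma tp320 : Good 0 ![w92, w10, w19, w84, w45, w42] :=
  split14 (m := w46) (by decide +kernel) ch334 tp319
lemma tp321 : Good 0 ![w92, w10, w19, w84, w45, w41] :=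
  split15 (m := w42) (by decide +kernel) ch333 tp320
lemma tp322 : Good 0 ![w92, w10, w19, w82, w45, w41] :=
  split13 (m := w84) (by decide +kernel) ch332 tp321
lemma tp323 : Good 0 ![w91, w10, w19, w82, w45, w41] :=
  split02 (m := w92) (by decide +kernel) tp322 ch344
lemma tp324 : Good 0 ![w91, w10, w19, w82, w45, w13] :=
  split25 (m := w41) (by decide +kernel) ch331 tp323
lemma tp325 : Good 0 ![w91, w10, w19, w82, w44, w13] :=
  split24 (m := w45) (by decide +kernel) ch330 tp324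
lemma tp326 : Good 0 ![w93, w28, w19, w97, w48, w86] :=
  split02 (m := w94) (by decide +kernel) ch352 ch353
lemma tp327 : Good 0 ![w93, w28, w19, w97, w46, w86] :=
  split24 (m := w48) (by decide +kernel) ch351 tp326
lemma tp328 : Good 0 ![w93, w10, w28, w98, w47, w90] :=
  split01 (m := w99) (by decide +kernel) ch357 ch358
lemma tp329 : Good 0 ![w93, w10, w28, w98, w46, w90] :=
  split14 (m := w47) (by decide +kernel) ch356 tp328
lemma tp330 : Good 0 ![w93, w10, w28, w97, w46, w90] :=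
  split13 (m := w98) (by decide +kernel) ch355 tp329
lemma tp331 : Good 0 ![w93, w10, w28, w97, w46, w86] :=
  split15 (m := w90) (by decide +kernel) ch354 tp330
lemma tp332 : Good 0 ![w93, w10, w19, w97, w46, w86] :=
  split12 (m := w28) (by decide +kernel) tp327 tp331
lemma tp333 : Good 0 ![w92, w10, w19, w97, w46, w86] :=
  split01 (m := w93) (by decide +kernel) tp332 ch359
lemma tp334 : Good 0 ![w92, w10, w19, w96, w46, w86] :=
  split23 (m := w97) (by decide +kernel) ch350 tp333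
lemma tp335 : Good 0 ![w92, w10, w19, w96, w46, w84] :=
  split25 (m := w86) (by decide +kernel) ch349 tp334
lemma tp336 : Good 0 ![w92, w10, w19, w96, w45, w84] :=
  split14 (m := w46) (by decide +kernel) ch348 tp335
lemma tp337 : Good 0 ![w92, w10, w19, w96, w45, w82] :=
  split15 (m := w84) (by decide +kernel) ch347 tp336
lemma tp338 : Good 0 ![w92, w10, w19, w95, w45, w82] :=
  split13 (m := w96) (by decide +kernel) ch346 tp337
lemma tp339 : Good 0 ![w91, w10, w19, w95, w45, w82] :=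
  split02 (m := w92) (by decide +kernel) tp338 ch360
lemma tp340 : Good 0 ![w91, w10, w19, w95, w44, w82] :=
  split24 (m := w45) (by decide +kernel) ch345 tp339
lemma tp341 : Good 0 ![w93, w28, w19, w87, w97, w86] :=
  split02 (m := w94) (by decide +kernel) ch368 ch369
lemma tp342 : Good 0 ![w93, w28, w19, w85, w97, w86] :=
  split23 (m := w87) (by decide +kernel) ch367 tp341
lemma tp343 : Good 0 ![w99, w10, w28, w89, w98, w90] :=
  split12 (m := w40) (by decide +kernel) ch373 ch374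
lemma tp344 : Good 0 ![w99, w10, w28, w85, w98, w90] :=
  split13 (m := w89) (by decide +kernel) ch372 tp343
lemma tp345 : Good 0 ![w93, w10, w28, w85, w98, w90] :=
  split01 (m := w99) (by decide +kernel) tp344 ch375
lemma tp346 : Good 0 ![w93, w10, w28, w85, w97, w90] :=
  split14 (m := w98) (by decide +kernel) ch371 tp345
lemma tp347 : Good 0 ![w93, w10, w28, w85, w97, w86] :=
  split15 (m := w90) (by decide +kernel) ch370 tp346
lemma tp348 : Good 0 ![w93, w10, w19, w85, w97, w86] :=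
  split12 (m := w28) (by decide +kernel) tp342 tp347
lemma tp349 : Good 0 ![w93, w10, w19, w85, w96, w86] :=
  split24 (m := w97) (by decide +kernel) ch366 tp348
lemma tp350 : Good 0 ![w93, w10, w19, w85, w96, w84] :=
  split25 (m := w86) (by decide +kernel) ch365 tp349
lemma tp351 : Good 0 ![w92, w10, w19, w85, w96, w84] :=
  split01 (m := w93) (by decide +kernel) tp350 ch376
lemma tp352 : Good 0 ![w92, w10, w19, w83, w96, w84] :=
  split13 (m := w85) (by decide +kernel) ch364 tp351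
lemma tp353 : Good 0 ![w92, w10, w19, w83, w96, w82] :=
  split15 (m := w84) (by decide +kernel) ch363 tp352
lemma tp354 : Good 0 ![w92, w10, w19, w83, w95, w82] :=
  split14 (m := w96) (by decide +kernel) ch362 tp353
lemma tp355 : Good 0 ![w91, w10, w19, w83, w95, w82] :=
  split02 (m := w92) (by decide +kernel) tp354 ch377
lemma tp356 : Good 0 ![w91, w10, w19, w12, w95, w82] :=
  split13 (m := w83) (by decide +kernel) ch361 tp355
lemma tp357 : Good 0 ![w91, w10, w19, w12, w44, w82] :=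
  split34 (m := w95) (by decide +kernel) tp340 tp356
lemma tp358 : Good 0 ![w91, w10, w19, w12, w44, w13] :=
  split35 (m := w82) (by decide +kernel) tp325 tp357
lemma tp359 : Good 0 ![w62, w46, w19, w92, w63, w53] :=
  split12 (m := w48) (by decide +kernel) ch384 ch385
lemma tp360 : Good 0 ![w62, w46, w19, w92, w63, w42] :=
  split25 (m := w53) (by decide +kernel) ch383 tp359
lemma tp361 : Good 0 ![w62, w46, w19, w92, w45, w42] :=
  split24 (m := w63) (by decide +kernel) ch382 tp360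
lemma tp362 : Good 0 ![w64, w33, w19, w100, w48, w53] :=
  split25 (m := w65) (by decide +kernel) ch389 ch390
lemma tp363 : Good 0 ![w64, w28, w19, w100, w48, w53] :=
  split12 (m := w33) (by decide +kernel) tp362 ch391
lemma tp364 : Good 0 ![w62, w28, w19, w100, w48, w53] :=
  split02 (m := w64) (by decide +kernel) tp363 ch392
lemma tp365 : Good 0 ![w62, w28, w19, w100, w46, w53] :=
  split24 (m := w48) (by decide +kernel) ch388 tp364
lemma tp366 : Good 0 ![w62, w28, w19, w100, w46, w42] :=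
  split25 (m := w53) (by decide +kernel) ch387 tp365
lemma tp367 : Good 0 ![w62, w28, w19, w92, w46, w42] :=
  split23 (m := w100) (by decide +kernel) ch386 tp366
lemma tp368 : Good 0 ![w66, w10, w28, w99, w47, w43] :=
  split01 (m := w67) (by decide +kernel) ch397 ch398
lemma tp369 : Good 0 ![w66, w10, w28, w93, w47, w43] :=
  split13 (m := w99) (by decide +kernel) ch396 tp368
lemma tp370 : Good 0 ![w66, w10, w28, w93, w46, w43] :=
  split14 (m := w47) (by decide +kernel) ch395 tp369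
lemma tp371 : Good 0 ![w66, w10, w28, w93, w46, w42] :=
  split15 (m := w43) (by decide +kernel) ch394 tp370
lemma tp372 : Good 0 ![w62, w10, w28, w93, w46, w42] :=
  split01 (m := w66) (by decide +kernel) tp371 ch399
lemma tp373 : Good 0 ![w62, w10, w28, w92, w46, w42] :=
  split13 (m := w93) (by decide +kernel) ch393 tp372
lemma tp374 : Good 0 ![w62, w10, w19, w92, w46, w42] :=
  split12 (m := w28) (by decide +kernel) tp367 tp373
lemma tp375 : Good 0 ![w62, w10, w19, w92, w45, w42] :=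
  split14 (m := w46) (by decide +kernel) tp361 tp374
lemma tp376 : Good 0 ![w62, w10, w19, w92, w45, w41] :=
  split15 (m := w42) (by decide +kernel) ch381 tp375
lemma tp377 : Good 0 ![w61, w10, w19, w92, w45, w41] :=
  split02 (m := w62) (by decide +kernel) tp376 ch400
lemma tp378 : Good 0 ![w61, w10, w19, w91, w45, w41] :=
  split23 (m := w92) (by decide +kernel) ch380 tp377
lemma tp379 : Good 0 ![w61, w10, w19, w91, w45, w13] :=
  split25 (m := w41) (by decide +kernel) ch379 tp378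
lemma tp380 : Good 0 ![w61, w10, w19, w91, w44, w13] :=
  split24 (m := w45) (by decide +kernel) ch378 tp379
lemma tp381 : Good 0 ![w0, w10, w19, w91, w44, w13] :=
  split02 (m := w61) (by decide +kernel) tp380 ch401
lemma tp382 : Good 0 ![w0, w10, w19, w12, w44, w13] :=
  split03 (m := w91) (by decide +kernel) tp358 tp381
lemma tp383 : Good 0 ![w0, w10, w19, w12, w4, w13] :=
  split04 (m := w44) (by decide +kernel) tp311 tp382
lemma tp384 : Good 0 ![w0, w10, w19, w12, w4, w5] :=
  split05 (m := w13) (by decide +kernel) tp280 tp383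
lemma tp385 : Good 0 ![w73, w28, w19, w87, w30, w74] :=
  split12 (m := w33) (by decide +kernel) ch412 ch413
lemma tp386 : Good 0 ![w73, w28, w19, w87, w30, w72] :=
  split25 (m := w74) (by decide +kernel) ch411 tp385
lemma tp387 : Good 0 ![w71, w28, w19, w87, w30, w72] :=
  split02 (m := w73) (by decide +kernel) tp386 ch414
lemma tp388 : Good 0 ![w71, w28, w19, w85, w30, w72] :=
  split23 (m := w87) (by decide +kernel) ch410 tp387
lemma tp389 : Good 0 ![w71, w28, w19, w85, w24, w72] :=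
  split24 (m := w30) (by decide +kernel) ch409 tp388
lemma tp390 : Good 0 ![w75, w10, w28, w89, w36, w76] :=
  split12 (m := w40) (by decide +kernel) ch418 ch419
lemma tp391 : Good 0 ![w75, w10, w28, w85, w36, w76] :=
  split13 (m := w89) (by decide +kernel) ch417 tp390
lemma tp392 : Good 0 ![w75, w10, w28, w85, w24, w76] :=
  split14 (m := w36) (by decide +kernel) ch416 tp391
lemma tp393 : Good 0 ![w75, w10, w28, w85, w24, w72] :=
  split15 (m := w76) (by decide +kernel) ch415 tp392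
lemma tp394 : Good 0 ![w71, w10, w28, w85, w24, w72] :=
  split01 (m := w75) (by decide +kernel) tp393 ch420
lemma tp395 : Good 0 ![w71, w10, w19, w85, w24, w72] :=
  split12 (m := w28) (by decide +kernel) tp389 tp394
lemma tp396 : Good 0 ![w71, w10, w19, w83, w24, w72] :=
  split13 (m := w85) (by decide +kernel) ch408 tp395
lemma tp397 : Good 0 ![w71, w10, w19, w83, w24, w70] :=
  split25 (m := w72) (by decide +kernel) ch407 tp396
lemma tp398 : Good 0 ![w69, w10, w19, w83, w24, w70] :=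
  split02 (m := w71) (by decide +kernel) tp397 ch421
lemma tp399 : Good 0 ![w69, w10, w19, w83, w18, w70] :=
  split14 (m := w24) (by decide +kernel) ch406 tp398
lemma tp400 : Good 0 ![w69, w10, w19, w12, w18, w70] :=
  split13 (m := w83) (by decide +kernel) ch405 tp399
lemma tp401 : Good 0 ![w69, w10, w19, w12, w18, w68] :=
  split15 (m := w70) (by decide +kernel) ch404 tp400
lemma tp402 : Good 0 ![w15, w10, w19, w12, w18, w68] :=
  split01 (m := w69) (by decide +kernel) tp401 ch422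
lemma tp403 : Good 0 ![w15, w10, w19, w12, w4, w68] :=
  split14 (m := w18) (by decide +kernel) ch403 tp402
lemma tp404 : Good 0 ![w15, w10, w19, w12, w4, w7] :=
  split15 (m := w68) (by decide +kernel) ch402 tp403
lemma tp405 : Good 0 ![w48, w28, w19, w87, w30, w79] :=
  split12 (m := w33) (by decide +kernel) ch432 ch433
lemma tp406 : Good 0 ![w46, w28, w19, w87, w30, w79] :=
  split02 (m := w48) (by decide +kernel) tp405 ch434
lemma tp407 : Good 0 ![w46, w28, w19, w87, w30, w78] :=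
  split25 (m := w79) (by decide +kernel) ch431 tp406
lemma tp408 : Good 0 ![w46, w28, w19, w85, w30, w78] :=
  split23 (m := w87) (by decide +kernel) ch430 tp407
lemma tp409 : Good 0 ![w46, w28, w19, w85, w24, w78] :=
  split24 (m := w30) (by decide +kernel) ch429 tp408
lemma tp410 : Good 0 ![w47, w40, w28, w89, w49, w80] :=
  split23 (m := w101) (by decide +kernel) ch439 ch440
lemma tp411 : Good 0 ![w47, w40, w28, w89, w36, w80] :=
  split24 (m := w49) (by decide +kernel) ch438 tp410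
lemma tp412 : Good 0 ![w47, w10, w28, w89, w36, w80] :=
  split12 (m := w40) (by decide +kernel) tp411 ch441
lemma tp413 : Good 0 ![w47, w10, w28, w85, w36, w80] :=
  split13 (m := w89) (by decide +kernel) ch437 tp412
lemma tp414 : Good 0 ![w46, w10, w28, w85, w36, w80] :=
  split01 (m := w47) (by decide +kernel) tp413 ch442
lemma tp415 : Good 0 ![w46, w10, w28, w85, w36, w78] :=
  split15 (m := w80) (by decide +kernel) ch436 tp414
lemma tp416 : Good 0 ![w46, w10, w28, w85, w24, w78] :=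
  split14 (m := w36) (by decide +kernel) ch435 tp415
lemma tp417 : Good 0 ![w46, w10, w19, w85, w24, w78] :=
  split12 (m := w28) (by decide +kernel) tp409 tp416
lemma tp418 : Good 0 ![w46, w10, w19, w83, w24, w78] :=
  split13 (m := w85) (by decide +kernel) ch428 tp417
lemma tp419 : Good 0 ![w45, w10, w19, w83, w24, w78] :=
  split01 (m := w46) (by decide +kernel) tp418 ch443
lemma tp420 : Good 0 ![w45, w10, w19, w83, w24, w77] :=
  split15 (m := w78) (by decide +kernel) ch427 tp419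
lemma tp421 : Good 0 ![w45, w10, w19, w83, w18, w77] :=
  split14 (m := w24) (by decide +kernel) ch426 tp420
lemma tp422 : Good 0 ![w44, w10, w19, w83, w18, w77] :=
  split02 (m := w45) (by decide +kernel) tp421 ch444
lemma tp423 : Good 0 ![w44, w10, w19, w12, w18, w77] :=
  split13 (m := w83) (by decide +kernel) ch425 tp422
lemma tp424 : Good 0 ![w44, w10, w19, w12, w18, w15] :=
  split25 (m := w77) (by decide +kernel) ch424 tp423
lemma tp425 : Good 0 ![w44, w10, w19, w12, w4, w15] :=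
  split14 (m := w18) (by decide +kernel) ch423 tp424
lemma tp426 : Good 0 ![w93, w28, w19, w97, w48, w79] :=
  split02 (m := w94) (by decide +kernel) ch453 ch454
lemma tp427 : Good 0 ![w93, w28, w19, w97, w46, w79] :=
  split24 (m := w48) (by decide +kernel) ch452 tp426
lemma tp428 : Good 0 ![w93, w28, w19, w97, w46, w78] :=
  split25 (m := w79) (by decide +kernel) ch451 tp427
lemma tp429 : Good 0 ![w93, w10, w28, w98, w46, w78] :=
  split15 (m := w80) (by decide +kernel) ch456 ch457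
lemma tp430 : Good 0 ![w93, w10, w28, w97, w46, w78] :=
  split13 (m := w98) (by decide +kernel) ch455 tp429
lemma tp431 : Good 0 ![w93, w10, w19, w97, w46, w78] :=
  split12 (m := w28) (by decide +kernel) tp428 tp430
lemma tp432 : Good 0 ![w92, w10, w19, w97, w46, w78] :=
  split01 (m := w93) (by decide +kernel) tp431 ch458
lemma tp433 : Good 0 ![w92, w10, w19, w96, w46, w78] :=
  split23 (m := w97) (by decide +kernel) ch450 tp432
lemma tp434 : Good 0 ![w92, w10, w19, w96, w45, w78] :=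
  split14 (m := w46) (by decide +kernel) ch449 tp433
lemma tp435 : Good 0 ![w92, w10, w19, w96, w45, w77] :=
  split15 (m := w78) (by decide +kernel) ch448 tp434
lemma tp436 : Good 0 ![w92, w10, w19, w95, w45, w77] :=
  split13 (m := w96) (by decide +kernel) ch447 tp435
lemma tp437 : Good 0 ![w91, w10, w19, w95, w45, w77] :=
  split02 (m := w92) (by decide +kernel) tp436 ch459
lemma tp438 : Good 0 ![w91, w10, w19, w95, w44, w77] :=
  split24 (m := w45) (by decide +kernel) ch446 tp437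
lemma tp439 : Good 0 ![w94, w28, w19, w87, w97, w79] :=
  split12 (m := w33) (by decide +kernel) ch467 ch468
lemma tp440 : Good 0 ![w93, w28, w19, w87, w97, w79] :=
  split02 (m := w94) (by decide +kernel) tp439 ch469
lemma tp441 : Good 0 ![w93, w28, w19, w87, w97, w78] :=
  split25 (m := w79) (by decide +kernel) ch466 tp440
lemma tp442 : Good 0 ![w93, w28, w19, w85, w97, w78] :=
  split23 (m := w87) (by decide +kernel) ch465 tp441
lemma tp443 : Good 0 ![w99, w40, w28, w89, w98, w80] :=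
  split23 (m := w101) (by decide +kernel) ch473 ch474
lemma tp444 : Good 0 ![w99, w10, w28, w89, w98, w80] :=
  split12 (m := w40) (by decide +kernel) tp443 ch475
lemma tp445 : Good 0 ![w99, w10, w28, w85, w98, w80] :=
  split13 (m := w89) (by decide +kernel) ch472 tp444
lemma tp446 : Good 0 ![w93, w10, w28, w85, w98, w80] :=
  split01 (m := w99) (by decide +kernel) tp445 ch476
lemma tp447 : Good 0 ![w93, w10, w28, w85, w98, w78] :=
  split15 (m := w80) (by decide +kernel) ch471 tp446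
lemma tp448 : Good 0 ![w93, w10, w28, w85, w97, w78] :=
  split14 (m := w98) (by decide +kernel) ch470 tp447
lemma tp449 : Good 0 ![w93, w10, w19, w85, w97, w78] :=
  split12 (m := w28) (by decide +kernel) tp442 tp448
lemma tp450 : Good 0 ![w93, w10, w19, w85, w96, w78] :=
  split24 (m := w97) (by decide +kernel) ch464 tp449
lemma tp451 : Good 0 ![w92, w10, w19, w85, w96, w78] :=
  split01 (m := w93) (by decide +kernel) tp450 ch477
lemma tp452 : Good 0 ![w92, w10, w19, w83, w96, w78] :=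
  split13 (m := w85) (by decide +kernel) ch463 tp451
lemma tp453 : Good 0 ![w92, w10, w19, w83, w96, w77] :=
  split15 (m := w78) (by decide +kernel) ch462 tp452
lemma tp454 : Good 0 ![w92, w10, w19, w83, w95, w77] :=
  split14 (m := w96) (by decide +kernel) ch461 tp453
lemma tp455 : Good 0 ![w91, w10, w19, w83, w95, w77] :=
  split02 (m := w92) (by decide +kernel) tp454 ch478
lemma tp456 : Good 0 ![w91, w10, w19, w12, w95, w77] :=
  split13 (m := w83) (by decide +kernel) ch460 tp455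
lemma tp457 : Good 0 ![w91, w10, w19, w12, w44, w77] :=
  split34 (m := w95) (by decide +kernel) tp438 tp456
lemma tp458 : Good 0 ![w91, w10, w19, w12, w44, w15] :=
  split25 (m := w77) (by decide +kernel) ch445 tp457
lemma tp459 : Good 0 ![w64, w28, w19, w100, w48, w79] :=
  split12 (m := w33) (by decide +kernel) ch487 ch488
lemma tp460 : Good 0 ![w62, w28, w19, w100, w48, w79] :=
  split02 (m := w64) (by decide +kernel) tp459 ch489
lemma tp461 : Good 0 ![w62, w28, w19, w100, w46, w79] :=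
  split24 (m := w48) (by decide +kernel) ch486 tp460
lemma tp462 : Good 0 ![w62, w28, w19, w92, w46, w79] :=
  split23 (m := w100) (by decide +kernel) ch485 tp461
lemma tp463 : Good 0 ![w62, w28, w19, w92, w46, w78] :=
  split25 (m := w79) (by decide +kernel) ch484 tp462
lemma tp464 : Good 0 ![w66, w10, w28, w99, w47, w80] :=
  split01 (m := w67) (by decide +kernel) ch494 ch495
lemma tp465 : Good 0 ![w66, w10, w28, w93, w47, w80] :=
  split13 (m := w99) (by decide +kernel) ch493 tp464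
lemma tp466 : Good 0 ![w66, w10, w28, w93, w46, w80] :=
  split14 (m := w47) (by decide +kernel) ch492 tp465
lemma tp467 : Good 0 ![w66, w10, w28, w93, w46, w78] :=
  split15 (m := w80) (by decide +kernel) ch491 tp466
lemma tp468 : Good 0 ![w62, w10, w28, w93, w46, w78] :=
  split01 (m := w66) (by decide +kernel) tp467 ch496
lemma tp469 : Good 0 ![w62, w10, w28, w92, w46, w78] :=
  split13 (m := w93) (by decide +kernel) ch490 tp468
lemma tp470 : Good 0 ![w62, w10, w19, w92, w46, w78] :=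
  split12 (m := w28) (by decide +kernel) tp463 tp469
lemma tp471 : Good 0 ![w62, w10, w19, w92, w45, w78] :=
  split14 (m := w46) (by decide +kernel) ch483 tp470
lemma tp472 : Good 0 ![w62, w10, w19, w92, w45, w77] :=
  split15 (m := w78) (by decide +kernel) ch482 tp471
lemma tp473 : Good 0 ![w61, w10, w19, w92, w45, w77] :=
  split02 (m := w62) (by decide +kernel) tp472 ch497
lemma tp474 : Good 0 ![w61, w10, w19, w91, w45, w77] :=
  split23 (m := w92) (by decide +kernel) ch481 tp473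
lemma tp475 : Good 0 ![w61, w10, w19, w91, w44, w77] :=
  split24 (m := w45) (by decide +kernel) ch480 tp474
lemma tp476 : Good 0 ![w61, w10, w19, w91, w44, w15] :=
  split25 (m := w77) (by decide +kernel) ch479 tp475
lemma tp477 : Good 0 ![w0, w10, w19, w91, w44, w15] :=
  split02 (m := w61) (by decide +kernel) tp476 ch498
lemma tp478 : Good 0 ![w0, w10, w19, w12, w44, w15] :=
  split03 (m := w91) (by decide +kernel) tp458 tp477
lemma tp479 : Good 0 ![w0, w10, w19, w12, w4, w15] :=
  split04 (m := w44) (by decide +kernel) tp425 tp478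
lemma tp480 : Good 0 ![w0, w10, w19, w12, w4, w7] :=
  split05 (m := w15) (by decide +kernel) tp404 tp479
lemma tp481 : Good 0 ![w86, w28, w19, w87, w104, w32] :=
  split12 (m := w33) (by decide +kernel) ch509 ch510
lemma tp482 : Good 0 ![w86, w28, w19, w87, w104, w29] :=
  split25 (m := w32) (by decide +kernel) ch508 tp481
lemma tp483 : Good 0 ![w86, w28, w19, w85, w104, w29] :=
  split23 (m := w87) (by decide +kernel) ch507 tp482
lemma tp484 : Good 0 ![w86, w28, w19, w85, w103, w29] :=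
  split24 (m := w104) (by decide +kernel) ch506 tp483
lemma tp485 : Good 0 ![w86, w28, w19, w85, w103, w25] :=
  split25 (m := w29) (by decide +kernel) ch505 tp484
lemma tp486 : Good 0 ![w84, w28, w19, w85, w103, w25] :=
  split02 (m := w86) (by decide +kernel) tp485 ch511
lemma tp487 : Good 0 ![w90, w10, w28, w89, w105, w38] :=
  split12 (m := w40) (by decide +kernel) ch516 ch517
lemma tp488 : Good 0 ![w88, w10, w28, w89, w105, w38] :=
  split02 (m := w90) (by decide +kernel) tp487 ch518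
lemma tp489 : Good 0 ![w88, w10, w28, w89, w105, w35] :=
  split25 (m := w38) (by decide +kernel) ch515 tp488
lemma tp490 : Good 0 ![w88, w10, w28, w85, w105, w35] :=
  split13 (m := w89) (by decide +kernel) ch514 tp489
lemma tp491 : Good 0 ![w88, w10, w28, w85, w103, w35] :=
  split14 (m := w105) (by decide +kernel) ch513 tp490
lemma tp492 : Good 0 ![w88, w10, w28, w85, w103, w25] :=
  split15 (m := w35) (by decide +kernel) ch512 tp491
lemma tp493 : Good 0 ![w84, w10, w28, w85, w103, w25] :=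
  split01 (m := w88) (by decide +kernel) tp492 ch519
lemma tp494 : Good 0 ![w84, w10, w19, w85, w103, w25] :=
  split12 (m := w28) (by decide +kernel) tp486 tp493
lemma tp495 : Good 0 ![w84, w10, w19, w83, w103, w25] :=
  split13 (m := w85) (by decide +kernel) ch504 tp494
lemma tp496 : Good 0 ![w84, w10, w19, w83, w103, w20] :=
  split15 (m := w25) (by decide +kernel) ch503 tp495
lemma tp497 : Good 0 ![w84, w10, w19, w83, w102, w20] :=
  split14 (m := w103) (by decide +kernel) ch502 tp496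
lemma tp498 : Good 0 ![w82, w10, w19, w83, w102, w20] :=
  split01 (m := w84) (by decide +kernel) tp497 ch520
lemma tp499 : Good 0 ![w82, w10, w19, w12, w102, w20] :=
  split13 (m := w83) (by decide +kernel) ch501 tp498
lemma tp500 : Good 0 ![w42, w28, w19, w86, w103, w29] :=
  split24 (m := w104) (by decide +kernel) ch526 ch527
lemma tp501 : Good 0 ![w42, w28, w19, w86, w103, w25] :=
  split25 (m := w29) (by decide +kernel) ch525 tp500
lemma tp502 : Good 0 ![w42, w28, w19, w84, w103, w25] :=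
  split23 (m := w86) (by decide +kernel) ch524 tp501
lemma tp503 : Good 0 ![w43, w10, w28, w90, w105, w38] :=
  split12 (m := w40) (by decide +kernel) ch533 ch534
lemma tp504 : Good 0 ![w43, w10, w28, w90, w105, w35] :=
  split25 (m := w38) (by decide +kernel) ch532 tp503
lemma tp505 : Good 0 ![w43, w10, w28, w88, w105, w35] :=
  split23 (m := w90) (by decide +kernel) ch531 tp504
lemma tp506 : Good 0 ![w42, w10, w28, w88, w105, w35] :=
  split01 (m := w43) (by decide +kernel) tp505 ch535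
lemma tp507 : Good 0 ![w42, w10, w28, w88, w103, w35] :=
  split14 (m := w105) (by decide +kernel) ch530 tp506
lemma tp508 : Good 0 ![w42, w10, w28, w88, w103, w25] :=
  split15 (m := w35) (by decide +kernel) ch529 tp507
lemma tp509 : Good 0 ![w42, w10, w28, w84, w103, w25] :=
  split13 (m := w88) (by decide +kernel) ch528 tp508
lemma tp510 : Good 0 ![w42, w10, w19, w84, w103, w25] :=
  split12 (m := w28) (by decide +kernel) tp502 tp509
lemma tp511 : Good 0 ![w41, w10, w19, w84, w103, w25] :=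
  split01 (m := w42) (by decide +kernel) tp510 ch536
lemma tp512 : Good 0 ![w41, w10, w19, w84, w103, w20] :=
  split15 (m := w25) (by decide +kernel) ch523 tp511
lemma tp513 : Good 0 ![w41, w10, w19, w84, w102, w20] :=
  split14 (m := w103) (by decide +kernel) ch522 tp512
lemma tp514 : Good 0 ![w41, w10, w19, w82, w102, w20] :=
  split13 (m := w84) (by decide +kernel) ch521 tp513
lemma tp515 : Good 0 ![w13, w10, w19, w82, w102, w20] :=
  split02 (m := w41) (by decide +kernel) tp514 ch537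
lemma tp516 : Good 0 ![w13, w10, w19, w12, w102, w20] :=
  split03 (m := w82) (by decide +kernel) tp499 tp515
lemma tp517 : Good 0 ![w13, w10, w19, w12, w102, w5] :=
  split15 (m := w20) (by decide +kernel) ch500 tp516
lemma tp518 : Good 0 ![w13, w10, w19, w12, w14, w5] :=
  split14 (m := w102) (by decide +kernel) ch499 tp517
lemma tp519 : Good 0 ![w108, w28, w19, w86, w103, w42] :=
  split24 (m := w104) (by decide +kernel) ch544 ch545
lemma tp520 : Good 0 ![w109, w10, w28, w90, w105, w43] :=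
  split12 (m := w40) (by decide +kernel) ch549 ch550
lemma tp521 : Good 0 ![w108, w10, w28, w90, w105, w43] :=
  split01 (m := w109) (by decide +kernel) tp520 ch551
lemma tp522 : Good 0 ![w108, w10, w28, w90, w105, w42] :=
  split15 (m := w43) (by decide +kernel) ch548 tp521
lemma tp523 : Good 0 ![w108, w10, w28, w90, w103, w42] :=
  split14 (m := w105) (by decide +kernel) ch547 tp522
lemma tp524 : Good 0 ![w108, w10, w28, w86, w103, w42] :=
  split13 (m := w90) (by decide +kernel) ch546 tp523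
lemma tp525 : Good 0 ![w108, w10, w19, w86, w103, w42] :=
  split12 (m := w28) (by decide +kernel) tp519 tp524
lemma tp526 : Good 0 ![w108, w10, w19, w84, w103, w42] :=
  split23 (m := w86) (by decide +kernel) ch543 tp525
lemma tp527 : Good 0 ![w107, w10, w19, w84, w103, w42] :=
  split01 (m := w108) (by decide +kernel) tp526 ch552
lemma tp528 : Good 0 ![w107, w10, w19, w84, w103, w41] :=
  split15 (m := w42) (by decide +kernel) ch542 tp527
lemma tp529 : Good 0 ![w107, w10, w19, w84, w102, w41] :=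
  split14 (m := w103) (by decide +kernel) ch541 tp528
lemma tp530 : Good 0 ![w107, w10, w19, w82, w102, w41] :=
  split13 (m := w84) (by decide +kernel) ch540 tp529
lemma tp531 : Good 0 ![w107, w10, w19, w82, w102, w13] :=
  split25 (m := w41) (by decide +kernel) ch539 tp530
lemma tp532 : Good 0 ![w106, w10, w19, w82, w102, w13] :=
  split02 (m := w107) (by decide +kernel) tp531 ch553
lemma tp533 : Good 0 ![w108, w28, w19, w87, w104, w86] :=
  split02 (m := w110) (by decide +kernel) ch561 ch562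
lemma tp534 : Good 0 ![w108, w28, w19, w85, w104, w86] :=
  split23 (m := w87) (by decide +kernel) ch560 tp533
lemma tp535 : Good 0 ![w108, w28, w19, w85, w103, w86] :=
  split24 (m := w104) (by decide +kernel) ch559 tp534
lemma tp536 : Good 0 ![w109, w40, w28, w89, w105, w90] :=
  split24 (m := w111) (by decide +kernel) ch566 ch567
lemma tp537 : Good 0 ![w109, w10, w28, w89, w105, w90] :=
  split12 (m := w40) (by decide +kernel) tp536 ch568
lemma tp538 : Good 0 ![w109, w10, w28, w85, w105, w90] :=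
  split13 (m := w89) (by decide +kernel) ch565 tp537
lemma tp539 : Good 0 ![w108, w10, w28, w85, w105, w90] :=
  split01 (m := w109) (by decide +kernel) tp538 ch569
lemma tp540 : Good 0 ![w108, w10, w28, w85, w103, w90] :=
  split14 (m := w105) (by decide +kernel) ch564 tp539
lemma tp541 : Good 0 ![w108, w10, w28, w85, w103, w86] :=
  split15 (m := w90) (by decide +kernel) ch563 tp540
lemma tp542 : Good 0 ![w108, w10, w19, w85, w103, w86] :=
  split12 (m := w28) (by decide +kernel) tp535 tp541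
lemma tp543 : Good 0 ![w108, w10, w19, w85, w103, w84] :=
  split25 (m := w86) (by decide +kernel) ch558 tp542
lemma tp544 : Good 0 ![w108, w10, w19, w83, w103, w84] :=
  split13 (m := w85) (by decide +kernel) ch557 tp543
lemma tp545 : Good 0 ![w107, w10, w19, w83, w103, w84] :=
  split01 (m := w108) (by decide +kernel) tp544 ch570
lemma tp546 : Good 0 ![w107, w10, w19, w83, w102, w84] :=
  split14 (m := w103) (by decide +kernel) ch556 tp545
lemma tp547 : Good 0 ![w107, w10, w19, w83, w102, w82] :=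
  split15 (m := w84) (by decide +kernel) ch555 tp546
lemma tp548 : Good 0 ![w106, w10, w19, w83, w102, w82] :=
  split02 (m := w107) (by decide +kernel) tp547 ch571
lemma tp549 : Good 0 ![w106, w10, w19, w12, w102, w82] :=
  split13 (m := w83) (by decide +kernel) ch554 tp548
lemma tp550 : Good 0 ![w106, w10, w19, w12, w102, w13] :=
  split35 (m := w82) (by decide +kernel) tp532 tp549
lemma tp551 : Good 0 ![w106, w10, w19, w12, w14, w13] :=
  split14 (m := w102) (by decide +kernel) ch538 tp550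
lemma tp552 : Good 0 ![w94, w28, w19, w86, w110, w53] :=
  split12 (m := w33) (by decide +kernel) ch580 ch581
lemma tp553 : Good 0 ![w93, w28, w19, w86, w110, w53] :=
  split02 (m := w94) (by decide +kernel) tp552 ch582
lemma tp554 : Good 0 ![w93, w28, w19, w86, w108, w53] :=
  split24 (m := w110) (by decide +kernel) ch579 tp553
lemma tp555 : Good 0 ![w93, w28, w19, w86, w108, w42] :=
  split25 (m := w53) (by decide +kernel) ch578 tp554
lemma tp556 : Good 0 ![w93, w10, w28, w90, w108, w42] :=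
  split15 (m := w43) (by decide +kernel) ch584 ch585
lemma tp557 : Good 0 ![w93, w10, w28, w86, w108, w42] :=
  split13 (m := w90) (by decide +kernel) ch583 tp556
lemma tp558 : Good 0 ![w93, w10, w19, w86, w108, w42] :=
  split12 (m := w28) (by decide +kernel) tp555 tp557
lemma tp559 : Good 0 ![w92, w10, w19, w86, w108, w42] :=
  split01 (m := w93) (by decide +kernel) tp558 ch586
lemma tp560 : Good 0 ![w92, w10, w19, w84, w108, w42] :=
  split23 (m := w86) (by decide +kernel) ch577 tp559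
lemma tp561 : Good 0 ![w92, w10, w19, w84, w107, w42] :=
  split14 (m := w108) (by decide +kernel) ch576 tp560
lemma tp562 : Good 0 ![w92, w10, w19, w84, w107, w41] :=
  split15 (m := w42) (by decide +kernel) ch575 tp561
lemma tp563 : Good 0 ![w92, w10, w19, w82, w107, w41] :=
  split13 (m := w84) (by decide +kernel) ch574 tp562
lemma tp564 : Good 0 ![w91, w10, w19, w82, w107, w41] :=
  split02 (m := w92) (by decide +kernel) tp563 ch587
lemma tp565 : Good 0 ![w91, w10, w19, w82, w107, w13] :=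
  split25 (m := w41) (by decide +kernel) ch573 tp564
lemma tp566 : Good 0 ![w91, w10, w19, w82, w106, w13] :=
  split24 (m := w107) (by decide +kernel) ch572 tp565
lemma tp567 : Good 0 ![w93, w28, w19, w114, w110, w86] :=
  split02 (m := w94) (by decide +kernel) ch595 ch596
lemma tp568 : Good 0 ![w93, w28, w19, w114, w108, w86] :=
  split24 (m := w110) (by decide +kernel) ch594 tp567
lemma tp569 : Good 0 ![w93, w10, w28, w115, w109, w90] :=
  split01 (m := w99) (by decide +kernel) ch600 ch601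
lemma tp570 : Good 0 ![w93, w10, w28, w115, w108, w90] :=
  split14 (m := w109) (by decide +kernel) ch599 tp569
lemma tp571 : Good 0 ![w93, w10, w28, w114, w108, w90] :=
  split13 (m := w115) (by decide +kernel) ch598 tp570
lemma tp572 : Good 0 ![w93, w10, w28, w114, w108, w86] :=
  split15 (m := w90) (by decide +kernel) ch597 tp571
lemma tp573 : Good 0 ![w93, w10, w19, w114, w108, w86] :=
  split12 (m := w28) (by decide +kernel) tp568 tp572
lemma tp574 : Good 0 ![w92, w10, w19, w114, w108, w86] :=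
  split01 (m := w93) (by decide +kernel) tp573 ch602
lemma tp575 : Good 0 ![w92, w10, w19, w113, w108, w86] :=
  split23 (m := w114) (by decide +kernel) ch593 tp574
lemma tp576 : Good 0 ![w92, w10, w19, w113, w108, w84] :=
  split25 (m := w86) (by decide +kernel) ch592 tp575
lemma tp577 : Good 0 ![w92, w10, w19, w113, w107, w84] :=
  split14 (m := w108) (by decide +kernel) ch591 tp576
lemma tp578 : Good 0 ![w92, w10, w19, w113, w107, w82] :=
  split15 (m := w84) (by decide +kernel) ch590 tp577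
lemma tp579 : Good 0 ![w92, w10, w19, w112, w107, w82] :=
  split13 (m := w113) (by decide +kernel) ch589 tp578
lemma tp580 : Good 0 ![w91, w10, w19, w112, w107, w82] :=
  split02 (m := w92) (by decide +kernel) tp579 ch603
lemma tp581 : Good 0 ![w91, w10, w19, w112, w106, w82] :=
  split24 (m := w107) (by decide +kernel) ch588 tp580
lemma tp582 : Good 0 ![w93, w28, w19, w87, w114, w86] :=
  split02 (m := w94) (by decide +kernel) ch611 ch612
lemma tp583 : Good 0 ![w93, w28, w19, w85, w114, w86] :=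
  split23 (m := w87) (by decide +kernel) ch610 tp582
lemma tp584 : Good 0 ![w99, w10, w28, w89, w115, w90] :=
  split12 (m := w40) (by decide +kernel) ch616 ch617
lemma tp585 : Good 0 ![w99, w10, w28, w85, w115, w90] :=
  split13 (m := w89) (by decide +kernel) ch615 tp584
lemma tp586 : Good 0 ![w93, w10, w28, w85, w115, w90] :=
  split01 (m := w99) (by decide +kernel) tp585 ch618
lemma tp587 : Good 0 ![w93, w10, w28, w85, w114, w90] :=
  split14 (m := w115) (by decide +kernel) ch614 tp586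
lemma tp588 : Good 0 ![w93, w10, w28, w85, w114, w86] :=
  split15 (m := w90) (by decide +kernel) ch613 tp587
lemma tp589 : Good 0 ![w93, w10, w19, w85, w114, w86] :=
  split12 (m := w28) (by decide +kernel) tp583 tp588
lemma tp590 : Good 0 ![w93, w10, w19, w85, w113, w86] :=
  split24 (m := w114) (by decide +kernel) ch609 tp589
lemma tp591 : Good 0 ![w93, w10, w19, w85, w113, w84] :=
  split25 (m := w86) (by decide +kernel) ch608 tp590
lemma tp592 : Good 0 ![w92, w10, w19, w85, w113, w84] :=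
  split01 (m := w93) (by decide +kernel) tp591 ch619
lemma tp593 : Good 0 ![w92, w10, w19, w83, w113, w84] :=
  split13 (m := w85) (by decide +kernel) ch607 tp592
lemma tp594 : Good 0 ![w92, w10, w19, w83, w113, w82] :=
  split15 (m := w84) (by decide +kernel) ch606 tp593
lemma tp595 : Good 0 ![w92, w10, w19, w83, w112, w82] :=
  split14 (m := w113) (by decide +kernel) ch605 tp594
lemma tp596 : Good 0 ![w91, w10, w19, w83, w112, w82] :=
  split02 (m := w92) (by decide +kernel) tp595 ch620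
lemma tp597 : Good 0 ![w91, w10, w19, w12, w112, w82] :=
  split13 (m := w83) (by decide +kernel) ch604 tp596
lemma tp598 : Good 0 ![w91, w10, w19, w12, w106, w82] :=
  split34 (m := w112) (by decide +kernel) tp581 tp597
lemma tp599 : Good 0 ![w91, w10, w19, w12, w106, w13] :=
  split35 (m := w82) (by decide +kernel) tp566 tp598
lemma tp600 : Good 0 ![w62, w110, w19, w92, w116, w53] :=
  split23 (m := w100) (by decide +kernel) ch627 ch628
lemma tp601 : Good 0 ![w62, w108, w19, w92, w116, w53] :=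
  split12 (m := w110) (by decide +kernel) tp600 ch629
lemma tp602 : Good 0 ![w62, w108, w19, w92, w116, w42] :=
  split25 (m := w53) (by decide +kernel) ch626 tp601
lemma tp603 : Good 0 ![w62, w108, w19, w92, w107, w42] :=
  split24 (m := w116) (by decide +kernel) ch625 tp602
lemma tp604 : Good 0 ![w64, w33, w19, w100, w110, w53] :=
  split25 (m := w65) (by decide +kernel) ch633 ch634
lemma tp605 : Good 0 ![w64, w28, w19, w100, w110, w53] :=
  split12 (m := w33) (by decide +kernel) tp604 ch635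
lemma tp606 : Good 0 ![w62, w28, w19, w100, w110, w53] :=
  split02 (m := w64) (by decide +kernel) tp605 ch636
lemma tp607 : Good 0 ![w62, w28, w19, w100, w108, w53] :=
  split24 (m := w110) (by decide +kernel) ch632 tp606
lemma tp608 : Good 0 ![w62, w28, w19, w100, w108, w42] :=
  split25 (m := w53) (by decide +kernel) ch631 tp607
lemma tp609 : Good 0 ![w62, w28, w19, w92, w108, w42] :=
  split23 (m := w100) (by decide +kernel) ch630 tp608
lemma tp610 : Good 0 ![w66, w10, w28, w99, w109, w43] :=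
  split01 (m := w67) (by decide +kernel) ch641 ch642
lemma tp611 : Good 0 ![w66, w10, w28, w93, w109, w43] :=
  split13 (m := w99) (by decide +kernel) ch640 tp610
lemma tp612 : Good 0 ![w66, w10, w28, w93, w108, w43] :=
  split14 (m := w109) (by decide +kernel) ch639 tp611
lemma tp613 : Good 0 ![w66, w10, w28, w93, w108, w42] :=
  split15 (m := w43) (by decide +kernel) ch638 tp612
lemma tp614 : Good 0 ![w62, w10, w28, w93, w108, w42] :=
  split01 (m := w66) (by decide +kernel) tp613 ch643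
lemma tp615 : Good 0 ![w62, w10, w28, w92, w108, w42] :=
  split13 (m := w93) (by decide +kernel) ch637 tp614
lemma tp616 : Good 0 ![w62, w10, w19, w92, w108, w42] :=
  split12 (m := w28) (by decide +kernel) tp609 tp615
lemma tp617 : Good 0 ![w62, w10, w19, w92, w107, w42] :=
  split14 (m := w108) (by decide +kernel) tp603 tp616
lemma tp618 : Good 0 ![w62, w10, w19, w92, w107, w41] :=
  split15 (m := w42) (by decide +kernel) ch624 tp617
lemma tp619 : Good 0 ![w61, w10, w19, w92, w107, w41] :=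
  split02 (m := w62) (by decide +kernel) tp618 ch644
lemma tp620 : Good 0 ![w61, w10, w19, w91, w107, w41] :=
  split23 (m := w92) (by decide +kernel) ch623 tp619
lemma tp621 : Good 0 ![w61, w10, w19, w91, w107, w13] :=
  split25 (m := w41) (by decide +kernel) ch622 tp620
lemma tp622 : Good 0 ![w61, w10, w19, w91, w106, w13] :=
  split24 (m := w107) (by decide +kernel) ch621 tp621
lemma tp623 : Good 0 ![w0, w10, w19, w91, w106, w13] :=
  split02 (m := w61) (by decide +kernel) tp622 ch645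
lemma tp624 : Good 0 ![w0, w10, w19, w12, w106, w13] :=
  split03 (m := w91) (by decide +kernel) tp599 tp623
lemma tp625 : Good 0 ![w0, w10, w19, w12, w14, w13] :=
  split04 (m := w106) (by decide +kernel) tp551 tp624
lemma tp626 : Good 0 ![w0, w10, w19, w12, w14, w5] :=
  split05 (m := w13) (by decide +kernel) tp518 tp625
lemma tp627 : Good 0 ![w73, w28, w19, w87, w119, w74] :=
  split12 (m := w33) (by decide +kernel) ch656 ch657
lemma tp628 : Good 0 ![w73, w28, w19, w87, w119, w72] :=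
  split25 (m := w74) (by decide +kernel) ch655 tp627
lemma tp629 : Good 0 ![w71, w28, w19, w87, w119, w72] :=
  split02 (m := w73) (by decide +kernel) tp628 ch658
lemma tp630 : Good 0 ![w71, w28, w19, w85, w119, w72] :=
  split23 (m := w87) (by decide +kernel) ch654 tp629
lemma tp631 : Good 0 ![w71, w28, w19, w85, w118, w72] :=
  split24 (m := w119) (by decide +kernel) ch653 tp630
lemma tp632 : Good 0 ![w75, w10, w28, w89, w120, w76] :=
  split12 (m := w40) (by decide +kernel) ch662 ch663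
lemma tp633 : Good 0 ![w75, w10, w28, w85, w120, w76] :=
  split13 (m := w89) (by decide +kernel) ch661 tp632
lemma tp634 : Good 0 ![w75, w10, w28, w85, w118, w76] :=
  split14 (m := w120) (by decide +kernel) ch660 tp633
lemma tp635 : Good 0 ![w75, w10, w28, w85, w118, w72] :=
  split15 (m := w76) (by decide +kernel) ch659 tp634
lemma tp636 : Good 0 ![w71, w10, w28, w85, w118, w72] :=
  split01 (m := w75) (by decide +kernel) tp635 ch664
lemma tp637 : Good 0 ![w71, w10, w19, w85, w118, w72] :=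
  split12 (m := w28) (by decide +kernel) tp631 tp636
lemma tp638 : Good 0 ![w71, w10, w19, w83, w118, w72] :=
  split13 (m := w85) (by decide +kernel) ch652 tp637
lemma tp639 : Good 0 ![w71, w10, w19, w83, w118, w70] :=
  split25 (m := w72) (by decide +kernel) ch651 tp638
lemma tp640 : Good 0 ![w69, w10, w19, w83, w118, w70] :=
  split02 (m := w71) (by decide +kernel) tp639 ch665
lemma tp641 : Good 0 ![w69, w10, w19, w83, w117, w70] :=
  split14 (m := w118) (by decide +kernel) ch650 tp640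
lemma tp642 : Good 0 ![w69, w10, w19, w12, w117, w70] :=
  split13 (m := w83) (by decide +kernel) ch649 tp641
lemma tp643 : Good 0 ![w69, w10, w19, w12, w117, w68] :=
  split15 (m := w70) (by decide +kernel) ch648 tp642
lemma tp644 : Good 0 ![w15, w10, w19, w12, w117, w68] :=
  split01 (m := w69) (by decide +kernel) tp643 ch666
lemma tp645 : Good 0 ![w15, w10, w19, w12, w16, w68] :=
  split14 (m := w117) (by decide +kernel) ch647 tp644
lemma tp646 : Good 0 ![w15, w10, w19, w12, w16, w7] :=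
  split15 (m := w68) (by decide +kernel) ch646 tp645
lemma tp647 : Good 0 ![w124, w28, w19, w87, w119, w79] :=
  split12 (m := w33) (by decide +kernel) ch676 ch677
lemma tp648 : Good 0 ![w123, w28, w19, w87, w119, w79] :=
  split02 (m := w124) (by decide +kernel) tp647 ch678
lemma tp649 : Good 0 ![w123, w28, w19, w87, w119, w78] :=
  split25 (m := w79) (by decide +kernel) ch675 tp648
lemma tp650 : Good 0 ![w123, w28, w19, w85, w119, w78] :=
  split23 (m := w87) (by decide +kernel) ch674 tp649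
lemma tp651 : Good 0 ![w123, w28, w19, w85, w118, w78] :=
  split24 (m := w119) (by decide +kernel) ch673 tp650
lemma tp652 : Good 0 ![w125, w40, w28, w89, w126, w80] :=
  split23 (m := w101) (by decide +kernel) ch683 ch684
lemma tp653 : Good 0 ![w125, w40, w28, w89, w120, w80] :=
  split24 (m := w126) (by decide +kernel) ch682 tp652
lemma tp654 : Good 0 ![w125, w10, w28, w89, w120, w80] :=
  split12 (m := w40) (by decide +kernel) tp653 ch685
lemma tp655 : Good 0 ![w125, w10, w28, w85, w120, w80] :=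
  split13 (m := w89) (by decide +kernel) ch681 tp654
lemma tp656 : Good 0 ![w123, w10, w28, w85, w120, w80] :=
  split01 (m := w125) (by decide +kernel) tp655 ch686
lemma tp657 : Good 0 ![w123, w10, w28, w85, w120, w78] :=
  split15 (m := w80) (by decide +kernel) ch680 tp656
lemma tp658 : Good 0 ![w123, w10, w28, w85, w118, w78] :=
  split14 (m := w120) (by decide +kernel) ch679 tp657
lemma tp659 : Good 0 ![w123, w10, w19, w85, w118, w78] :=
  split12 (m := w28) (by decide +kernel) tp651 tp658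
lemma tp660 : Good 0 ![w123, w10, w19, w83, w118, w78] :=
  split13 (m := w85) (by decide +kernel) ch672 tp659
lemma tp661 : Good 0 ![w122, w10, w19, w83, w118, w78] :=
  split01 (m := w123) (by decide +kernel) tp660 ch687
lemma tp662 : Good 0 ![w122, w10, w19, w83, w118, w77] :=
  split15 (m := w78) (by decide +kernel) ch671 tp661
lemma tp663 : Good 0 ![w122, w10, w19, w83, w117, w77] :=
  split14 (m := w118) (by decide +kernel) ch670 tp662
lemma tp664 : Good 0 ![w121, w10, w19, w83, w117, w77] :=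
  split02 (m := w122) (by decide +kernel) tp663 ch688
lemma tp665 : Good 0 ![w121, w10, w19, w12, w117, w77] :=
  split13 (m := w83) (by decide +kernel) ch669 tp664
lemma tp666 : Good 0 ![w121, w10, w19, w12, w117, w15] :=
  split25 (m := w77) (by decide +kernel) ch668 tp665
lemma tp667 : Good 0 ![w121, w10, w19, w12, w16, w15] :=
  split14 (m := w117) (by decide +kernel) ch667 tp666
lemma tp668 : Good 0 ![w93, w28, w19, w129, w124, w79] :=
  split02 (m := w94) (by decide +kernel) ch697 ch698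
lemma tp669 : Good 0 ![w93, w28, w19, w129, w123, w79] :=
  split24 (m := w124) (by decide +kernel) ch696 tp668
lemma tp670 : Good 0 ![w93, w28, w19, w129, w123, w78] :=
  split25 (m := w79) (by decide +kernel) ch695 tp669
lemma tp671 : Good 0 ![w93, w10, w28, w130, w123, w78] :=
  split15 (m := w80) (by decide +kernel) ch700 ch701
lemma tp672 : Good 0 ![w93, w10, w28, w129, w123, w78] :=
  split13 (m := w130) (by decide +kernel) ch699 tp671
lemma tp673 : Good 0 ![w93, w10, w19, w129, w123, w78] :=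
  split12 (m := w28) (by decide +kernel) tp670 tp672
lemma tp674 : Good 0 ![w92, w10, w19, w129, w123, w78] :=
  split01 (m := w93) (by decide +kernel) tp673 ch702
lemma tp675 : Good 0 ![w92, w10, w19, w128, w123, w78] :=
  split23 (m := w129) (by decide +kernel) ch694 tp674
lemma tp676 : Good 0 ![w92, w10, w19, w128, w122, w78] :=
  split14 (m := w123) (by decide +kernel) ch693 tp675
lemma tp677 : Good 0 ![w92, w10, w19, w128, w122, w77] :=
  split15 (m := w78) (by decide +kernel) ch692 tp676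
lemma tp678 : Good 0 ![w92, w10, w19, w127, w122, w77] :=
  split13 (m := w128) (by decide +kernel) ch691 tp677
lemma tp679 : Good 0 ![w91, w10, w19, w127, w122, w77] :=
  split02 (m := w92) (by decide +kernel) tp678 ch703
lemma tp680 : Good 0 ![w91, w10, w19, w127, w121, w77] :=
  split24 (m := w122) (by decide +kernel) ch690 tp679
lemma tp681 : Good 0 ![w94, w28, w19, w87, w129, w79] :=
  split12 (m := w33) (by decide +kernel) ch711 ch712
lemma tp682 : Good 0 ![w93, w28, w19, w87, w129, w79] :=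
  split02 (m := w94) (by decide +kernel) tp681 ch713
lemma tp683 : Good 0 ![w93, w28, w19, w87, w129, w78] :=
  split25 (m := w79) (by decide +kernel) ch710 tp682
lemma tp684 : Good 0 ![w93, w28, w19, w85, w129, w78] :=
  split23 (m := w87) (by decide +kernel) ch709 tp683
lemma tp685 : Good 0 ![w99, w40, w28, w89, w130, w80] :=
  split23 (m := w101) (by decide +kernel) ch717 ch718
lemma tp686 : Good 0 ![w99, w10, w28, w89, w130, w80] :=
  split12 (m := w40) (by decide +kernel) tp685 ch719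
lemma tp687 : Good 0 ![w99, w10, w28, w85, w130, w80] :=
  split13 (m := w89) (by decide +kernel) ch716 tp686
lemma tp688 : Good 0 ![w93, w10, w28, w85, w130, w80] :=
  split01 (m := w99) (by decide +kernel) tp687 ch720
lemma tp689 : Good 0 ![w93, w10, w28, w85, w130, w78] :=
  split15 (m := w80) (by decide +kernel) ch715 tp688
lemma tp690 : Good 0 ![w93, w10, w28, w85, w129, w78] :=
  split14 (m := w130) (by decide +kernel) ch714 tp689
lemma tp691 : Good 0 ![w93, w10, w19, w85, w129, w78] :=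
  split12 (m := w28) (by decide +kernel) tp684 tp690
lemma tp692 : Good 0 ![w92, w10, w19, w85, w129, w78] :=
  split01 (m := w93) (by decide +kernel) tp691 ch721
lemma tp693 : Good 0 ![w92, w10, w19, w85, w128, w78] :=
  split24 (m := w129) (by decide +kernel) ch708 tp692
lemma tp694 : Good 0 ![w92, w10, w19, w83, w128, w78] :=
  split13 (m := w85) (by decide +kernel) ch707 tp693
lemma tp695 : Good 0 ![w92, w10, w19, w83, w128, w77] :=
  split15 (m := w78) (by decide +kernel) ch706 tp694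
lemma tp696 : Good 0 ![w92, w10, w19, w83, w127, w77] :=
  split14 (m := w128) (by decide +kernel) ch705 tp695
lemma tp697 : Good 0 ![w91, w10, w19, w83, w127, w77] :=
  split02 (m := w92) (by decide +kernel) tp696 ch722
lemma tp698 : Good 0 ![w91, w10, w19, w12, w127, w77] :=
  split13 (m := w83) (by decide +kernel) ch704 tp697
lemma tp699 : Good 0 ![w91, w10, w19, w12, w121, w77] :=
  split34 (m := w127) (by decide +kernel) tp680 tp698
lemma tp700 : Good 0 ![w91, w10, w19, w12, w121, w15] :=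
  split25 (m := w77) (by decide +kernel) ch689 tp699
lemma tp701 : Good 0 ![w62, w123, w19, w92, w131, w78] :=
  split25 (m := w79) (by decide +kernel) ch728 ch729
lemma tp702 : Good 0 ![w62, w123, w19, w92, w122, w78] :=
  split24 (m := w131) (by decide +kernel) ch727 tp701
lemma tp703 : Good 0 ![w64, w28, w19, w100, w124, w79] :=
  split12 (m := w33) (by decide +kernel) ch733 ch734
lemma tp704 : Good 0 ![w62, w28, w19, w100, w124, w79] :=
  split02 (m := w64) (by decide +kernel) tp703 ch735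
lemma tp705 : Good 0 ![w62, w28, w19, w100, w123, w79] :=
  split24 (m := w124) (by decide +kernel) ch732 tp704
lemma tp706 : Good 0 ![w62, w28, w19, w92, w123, w79] :=
  split23 (m := w100) (by decide +kernel) ch731 tp705
lemma tp707 : Good 0 ![w62, w28, w19, w92, w123, w78] :=
  split25 (m := w79) (by decide +kernel) ch730 tp706
lemma tp708 : Good 0 ![w66, w10, w28, w99, w125, w80] :=
  split01 (m := w67) (by decide +kernel) ch740 ch741
lemma tp709 : Good 0 ![w66, w10, w28, w93, w125, w80] :=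
  split13 (m := w99) (by decide +kernel) ch739 tp708
lemma tp710 : Good 0 ![w66, w10, w28, w93, w123, w80] :=
  split14 (m := w125) (by decide +kernel) ch738 tp709
lemma tp711 : Good 0 ![w66, w10, w28, w93, w123, w78] :=
  split15 (m := w80) (by decide +kernel) ch737 tp710
lemma tp712 : Good 0 ![w62, w10, w28, w93, w123, w78] :=
  split01 (m := w66) (by decide +kernel) tp711 ch742
lemma tp713 : Good 0 ![w62, w10, w28, w92, w123, w78] :=
  split13 (m := w93) (by decide +kernel) ch736 tp712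
lemma tp714 : Good 0 ![w62, w10, w19, w92, w123, w78] :=
  split12 (m := w28) (by decide +kernel) tp707 tp713
lemma tp715 : Good 0 ![w62, w10, w19, w92, w122, w78] :=
  split14 (m := w123) (by decide +kernel) tp702 tp714
lemma tp716 : Good 0 ![w62, w10, w19, w92, w122, w77] :=
  split15 (m := w78) (by decide +kernel) ch726 tp715
lemma tp717 : Good 0 ![w61, w10, w19, w92, w122, w77] :=
  split02 (m := w62) (by decide +kernel) tp716 ch743
lemma tp718 : Good 0 ![w61, w10, w19, w91, w122, w77] :=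
  split23 (m := w92) (by decide +kernel) ch725 tp717
lemma tp719 : Good 0 ![w61, w10, w19, w91, w121, w77] :=
  split24 (m := w122) (by decide +kernel) ch724 tp718
lemma tp720 : Good 0 ![w61, w10, w19, w91, w121, w15] :=
  split25 (m := w77) (by decide +kernel) ch723 tp719
lemma tp721 : Good 0 ![w0, w10, w19, w91, w121, w15] :=
  split02 (m := w61) (by decide +kernel) tp720 ch744
lemma tp722 : Good 0 ![w0, w10, w19, w12, w121, w15] :=
  split03 (m := w91) (by decide +kernel) tp700 tp721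
lemma tp723 : Good 0 ![w0, w10, w19, w12, w16, w15] :=
  split04 (m := w121) (by decide +kernel) tp667 tp722
lemma tp724 : Good 0 ![w0, w10, w19, w12, w16, w7] :=
  split05 (m := w15) (by decide +kernel) tp646 tp723
lemma tp725 : Good 0 ![w0, w10, w2, w17, w132, w5] :=
  split05 (m := w13) (by decide +kernel) ch747 ch748
lemma tp726 : Good 0 ![w0, w10, w2, w17, w133, w7] :=
  split05 (m := w15) (by decide +kernel) ch749 ch750
lemma tp727 : Good 0 ![w27, w28, w19, w31, w136, w32] :=
  split12 (m := w33) (by decide +kernel) ch761 ch762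
lemma tp728 : Good 0 ![w27, w28, w19, w31, w136, w29] :=
  split25 (m := w32) (by decide +kernel) ch760 tp727
lemma tp729 : Good 0 ![w27, w28, w19, w26, w136, w29] :=
  split23 (m := w31) (by decide +kernel) ch759 tp728
lemma tp730 : Good 0 ![w27, w28, w19, w26, w135, w29] :=
  split24 (m := w136) (by decide +kernel) ch758 tp729
lemma tp731 : Good 0 ![w27, w28, w19, w26, w135, w25] :=
  split25 (m := w29) (by decide +kernel) ch757 tp730
lemma tp732 : Good 0 ![w23, w28, w19, w26, w135, w25] :=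
  split02 (m := w27) (by decide +kernel) tp731 ch763
lemma tp733 : Good 0 ![w39, w10, w28, w37, w137, w38] :=
  split12 (m := w40) (by decide +kernel) ch768 ch769
lemma tp734 : Good 0 ![w34, w10, w28, w37, w137, w38] :=
  split02 (m := w39) (by decide +kernel) tp733 ch770
lemma tp735 : Good 0 ![w34, w10, w28, w37, w137, w35] :=
  split25 (m := w38) (by decide +kernel) ch767 tp734
lemma tp736 : Good 0 ![w34, w10, w28, w26, w137, w35] :=
  split13 (m := w37) (by decide +kernel) ch766 tp735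
lemma tp737 : Good 0 ![w34, w10, w28, w26, w135, w35] :=
  split14 (m := w137) (by decide +kernel) ch765 tp736
lemma tp738 : Good 0 ![w34, w10, w28, w26, w135, w25] :=
  split15 (m := w35) (by decide +kernel) ch764 tp737
lemma tp739 : Good 0 ![w23, w10, w28, w26, w135, w25] :=
  split01 (m := w34) (by decide +kernel) tp738 ch771
lemma tp740 : Good 0 ![w23, w10, w19, w26, w135, w25] :=
  split12 (m := w28) (by decide +kernel) tp732 tp739
lemma tp741 : Good 0 ![w23, w10, w19, w22, w135, w25] :=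
  split13 (m := w26) (by decide +kernel) ch756 tp740
lemma tp742 : Good 0 ![w23, w10, w19, w22, w135, w20] :=
  split15 (m := w25) (by decide +kernel) ch755 tp741
lemma tp743 : Good 0 ![w23, w10, w19, w22, w134, w20] :=
  split14 (m := w135) (by decide +kernel) ch754 tp742
lemma tp744 : Good 0 ![w21, w10, w19, w22, w134, w20] :=
  split01 (m := w23) (by decide +kernel) tp743 ch772
lemma tp745 : Good 0 ![w21, w10, w19, w17, w134, w20] :=
  split13 (m := w22) (by decide +kernel) ch753 tp744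
lemma tp746 : Good 0 ![w42, w28, w19, w27, w135, w29] :=
  split24 (m := w136) (by decide +kernel) ch778 ch779
lemma tp747 : Good 0 ![w42, w28, w19, w27, w135, w25] :=
  split25 (m := w29) (by decide +kernel) ch777 tp746
lemma tp748 : Good 0 ![w42, w28, w19, w23, w135, w25] :=
  split23 (m := w27) (by decide +kernel) ch776 tp747
lemma tp749 : Good 0 ![w43, w10, w28, w39, w137, w38] :=
  split12 (m := w40) (by decide +kernel) ch785 ch786
lemma tp750 : Good 0 ![w43, w10, w28, w39, w137, w35] :=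
  split25 (m := w38) (by decide +kernel) ch784 tp749
lemma tp751 : Good 0 ![w43, w10, w28, w34, w137, w35] :=
  split23 (m := w39) (by decide +kernel) ch783 tp750
lemma tp752 : Good 0 ![w42, w10, w28, w34, w137, w35] :=
  split01 (m := w43) (by decide +kernel) tp751 ch787
lemma tp753 : Good 0 ![w42, w10, w28, w34, w135, w35] :=
  split14 (m := w137) (by decide +kernel) ch782 tp752
lemma tp754 : Good 0 ![w42, w10, w28, w34, w135, w25] :=
  split15 (m := w35) (by decide +kernel) ch781 tp753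
lemma tp755 : Good 0 ![w42, w10, w28, w23, w135, w25] :=
  split13 (m := w34) (by decide +kernel) ch780 tp754
lemma tp756 : Good 0 ![w42, w10, w19, w23, w135, w25] :=
  split12 (m := w28) (by decide +kernel) tp748 tp755
lemma tp757 : Good 0 ![w41, w10, w19, w23, w135, w25] :=
  split01 (m := w42) (by decide +kernel) tp756 ch788
lemma tp758 : Good 0 ![w41, w10, w19, w23, w135, w20] :=
  split15 (m := w25) (by decide +kernel) ch775 tp757
lemma tp759 : Good 0 ![w41, w10, w19, w23, w134, w20] :=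
  split14 (m := w135) (by decide +kernel) ch774 tp758
lemma tp760 : Good 0 ![w41, w10, w19, w21, w134, w20] :=
  split13 (m := w23) (by decide +kernel) ch773 tp759
lemma tp761 : Good 0 ![w13, w10, w19, w21, w134, w20] :=
  split02 (m := w41) (by decide +kernel) tp760 ch789
lemma tp762 : Good 0 ![w13, w10, w19, w17, w134, w20] :=
  split03 (m := w21) (by decide +kernel) tp745 tp761
lemma tp763 : Good 0 ![w13, w10, w19, w17, w134, w5] :=
  split15 (m := w20) (by decide +kernel) ch752 tp762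
lemma tp764 : Good 0 ![w13, w10, w19, w17, w132, w5] :=
  split14 (m := w134) (by decide +kernel) ch751 tp763
lemma tp765 : Good 0 ![w141, w10, w28, w39, w137, w43] :=
  split12 (m := w40) (by decide +kernel) ch800 ch801
lemma tp766 : Good 0 ![w140, w10, w28, w39, w137, w43] :=
  split01 (m := w141) (by decide +kernel) tp765 ch802
lemma tp767 : Good 0 ![w140, w10, w28, w39, w137, w42] :=
  split15 (m := w43) (by decide +kernel) ch799 tp766
lemma tp768 : Good 0 ![w140, w10, w28, w39, w135, w42] :=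
  split14 (m := w137) (by decide +kernel) ch798 tp767
lemma tp769 : Good 0 ![w140, w10, w28, w27, w135, w42] :=
  split13 (m := w39) (by decide +kernel) ch797 tp768
lemma tp770 : Good 0 ![w140, w10, w19, w27, w135, w42] :=
  split12 (m := w28) (by decide +kernel) ch796 tp769
lemma tp771 : Good 0 ![w140, w10, w19, w23, w135, w42] :=
  split23 (m := w27) (by decide +kernel) ch795 tp770
lemma tp772 : Good 0 ![w139, w10, w19, w23, w135, w42] :=
  split01 (m := w140) (by decide +kernel) tp771 ch803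
lemma tp773 : Good 0 ![w139, w10, w19, w23, w135, w41] :=
  split15 (m := w42) (by decide +kernel) ch794 tp772
lemma tp774 : Good 0 ![w139, w10, w19, w23, w134, w41] :=
  split14 (m := w135) (by decide +kernel) ch793 tp773
lemma tp775 : Good 0 ![w139, w10, w19, w21, w134, w41] :=
  split13 (m := w23) (by decide +kernel) ch792 tp774
lemma tp776 : Good 0 ![w139, w10, w19, w21, w134, w13] :=
  split25 (m := w41) (by decide +kernel) ch791 tp775
lemma tp777 : Good 0 ![w138, w10, w19, w21, w134, w13] :=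
  split02 (m := w139) (by decide +kernel) tp776 ch804
lemma tp778 : Good 0 ![w140, w28, w19, w31, w136, w27] :=
  split02 (m := w142) (by decide +kernel) ch812 ch813
lemma tp779 : Good 0 ![w140, w28, w19, w26, w136, w27] :=
  split23 (m := w31) (by decide +kernel) ch811 tp778
lemma tp780 : Good 0 ![w140, w28, w19, w26, w135, w27] :=
  split24 (m := w136) (by decide +kernel) ch810 tp779
lemma tp781 : Good 0 ![w141, w40, w28, w37, w137, w39] :=
  split24 (m := w143) (by decide +kernel) ch817 ch818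
lemma tp782 : Good 0 ![w141, w10, w28, w37, w137, w39] :=
  split12 (m := w40) (by decide +kernel) tp781 ch819
lemma tp783 : Good 0 ![w141, w10, w28, w26, w137, w39] :=
  split13 (m := w37) (by decide +kernel) ch816 tp782
lemma tp784 : Good 0 ![w140, w10, w28, w26, w137, w39] :=
  split01 (m := w141) (by decide +kernel) tp783 ch820
lemma tp785 : Good 0 ![w140, w10, w28, w26, w135, w39] :=
  split14 (m := w137) (by decide +kernel) ch815 tp784
lemma tp786 : Good 0 ![w140, w10, w28, w26, w135, w27] :=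
  split15 (m := w39) (by decide +kernel) ch814 tp785
lemma tp787 : Good 0 ![w140, w10, w19, w26, w135, w27] :=
  split12 (m := w28) (by decide +kernel) tp780 tp786
lemma tp788 : Good 0 ![w140, w10, w19, w26, w135, w23] :=
  split25 (m := w27) (by decide +kernel) ch809 tp787
lemma tp789 : Good 0 ![w140, w10, w19, w22, w135, w23] :=
  split13 (m := w26) (by decide +kernel) ch808 tp788
lemma tp790 : Good 0 ![w139, w10, w19, w22, w135, w23] :=
  split01 (m := w140) (by decide +kernel) tp789 ch821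
lemma tp791 : Good 0 ![w139, w10, w19, w22, w134, w23] :=
  split14 (m := w135) (by decide +kernel) ch807 tp790
lemma tp792 : Good 0 ![w139, w10, w19, w22, w134, w21] :=
  split15 (m := w23) (by decide +kernel) ch806 tp791
lemma tp793 : Good 0 ![w138, w10, w19, w22, w134, w21] :=
  split02 (m := w139) (by decide +kernel) tp792 ch822
lemma tp794 : Good 0 ![w138, w10, w19, w17, w134, w21] :=
  split13 (m := w22) (by decide +kernel) ch805 tp793
lemma tp795 : Good 0 ![w138, w10, w19, w17, w134, w13] :=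
  split35 (m := w21) (by decide +kernel) tp777 tp794
lemma tp796 : Good 0 ![w138, w10, w19, w17, w132, w13] :=
  split14 (m := w134) (by decide +kernel) ch790 tp795
lemma tp797 : Good 0 ![w52, w28, w19, w27, w140, w53] :=
  split24 (m := w142) (by decide +kernel) ch830 ch831
lemma tp798 : Good 0 ![w52, w28, w19, w27, w140, w42] :=
  split25 (m := w53) (by decide +kernel) ch829 tp797
lemma tp799 : Good 0 ![w51, w28, w19, w27, w140, w42] :=
  split02 (m := w52) (by decide +kernel) tp798 ch832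
lemma tp800 : Good 0 ![w54, w10, w28, w39, w140, w42] :=
  split15 (m := w43) (by decide +kernel) ch834 ch835
lemma tp801 : Good 0 ![w54, w10, w28, w27, w140, w42] :=
  split13 (m := w39) (by decide +kernel) ch833 tp800
lemma tp802 : Good 0 ![w51, w10, w28, w27, w140, w42] :=
  split01 (m := w54) (by decide +kernel) tp801 ch836
lemma tp803 : Good 0 ![w51, w10, w19, w27, w140, w42] :=
  split12 (m := w28) (by decide +kernel) tp799 tp802
lemma tp804 : Good 0 ![w51, w10, w19, w23, w140, w42] :=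
  split23 (m := w27) (by decide +kernel) ch828 tp803
lemma tp805 : Good 0 ![w51, w10, w19, w23, w139, w42] :=
  split14 (m := w140) (by decide +kernel) ch827 tp804
lemma tp806 : Good 0 ![w51, w10, w19, w23, w139, w41] :=
  split15 (m := w42) (by decide +kernel) ch826 tp805
lemma tp807 : Good 0 ![w51, w10, w19, w21, w139, w41] :=
  split13 (m := w23) (by decide +kernel) ch825 tp806
lemma tp808 : Good 0 ![w50, w10, w19, w21, w139, w41] :=
  split02 (m := w51) (by decide +kernel) tp807 ch837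
lemma tp809 : Good 0 ![w50, w10, w19, w21, w139, w13] :=
  split25 (m := w41) (by decide +kernel) ch824 tp808
lemma tp810 : Good 0 ![w50, w10, w19, w21, w138, w13] :=
  split24 (m := w139) (by decide +kernel) ch823 tp809
lemma tp811 : Good 0 ![w54, w28, w19, w146, w142, w27] :=
  split02 (m := w58) (by decide +kernel) ch845 ch846
lemma tp812 : Good 0 ![w54, w28, w19, w146, w140, w27] :=
  split24 (m := w142) (by decide +kernel) ch844 tp811
lemma tp813 : Good 0 ![w54, w10, w28, w147, w141, w39] :=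
  split01 (m := w60) (by decide +kernel) ch850 ch851
lemma tp814 : Good 0 ![w54, w10, w28, w147, w140, w39] :=
  split14 (m := w141) (by decide +kernel) ch849 tp813
lemma tp815 : Good 0 ![w54, w10, w28, w146, w140, w39] :=
  split13 (m := w147) (by decide +kernel) ch848 tp814
lemma tp816 : Good 0 ![w54, w10, w28, w146, w140, w27] :=
  split15 (m := w39) (by decide +kernel) ch847 tp815
lemma tp817 : Good 0 ![w54, w10, w19, w146, w140, w27] :=
  split12 (m := w28) (by decide +kernel) tp812 tp816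
lemma tp818 : Good 0 ![w51, w10, w19, w146, w140, w27] :=
  split01 (m := w54) (by decide +kernel) tp817 ch852
lemma tp819 : Good 0 ![w51, w10, w19, w145, w140, w27] :=
  split23 (m := w146) (by decide +kernel) ch843 tp818
lemma tp820 : Good 0 ![w51, w10, w19, w145, w140, w23] :=
  split25 (m := w27) (by decide +kernel) ch842 tp819
lemma tp821 : Good 0 ![w51, w10, w19, w145, w139, w23] :=
  split14 (m := w140) (by decide +kernel) ch841 tp820
lemma tp822 : Good 0 ![w51, w10, w19, w145, w139, w21] :=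
  split15 (m := w23) (by decide +kernel) ch840 tp821
lemma tp823 : Good 0 ![w51, w10, w19, w144, w139, w21] :=
  split13 (m := w145) (by decide +kernel) ch839 tp822
lemma tp824 : Good 0 ![w50, w10, w19, w144, w139, w21] :=
  split02 (m := w51) (by decide +kernel) tp823 ch853
lemma tp825 : Good 0 ![w50, w10, w19, w144, w138, w21] :=
  split24 (m := w139) (by decide +kernel) ch838 tp824
lemma tp826 : Good 0 ![w54, w28, w19, w31, w146, w27] :=
  split02 (m := w58) (by decide +kernel) ch861 ch862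
lemma tp827 : Good 0 ![w54, w28, w19, w26, w146, w27] :=
  split23 (m := w31) (by decide +kernel) ch860 tp826
lemma tp828 : Good 0 ![w60, w10, w28, w37, w147, w39] :=
  split12 (m := w40) (by decide +kernel) ch866 ch867
lemma tp829 : Good 0 ![w60, w10, w28, w26, w147, w39] :=
  split13 (m := w37) (by decide +kernel) ch865 tp828
lemma tp830 : Good 0 ![w54, w10, w28, w26, w147, w39] :=
  split01 (m := w60) (by decide +kernel) tp829 ch868
lemma tp831 : Good 0 ![w54, w10, w28, w26, w146, w39] :=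
  split14 (m := w147) (by decide +kernel) ch864 tp830
lemma tp832 : Good 0 ![w54, w10, w28, w26, w146, w27] :=
  split15 (m := w39) (by decide +kernel) ch863 tp831
lemma tp833 : Good 0 ![w54, w10, w19, w26, w146, w27] :=
  split12 (m := w28) (by decide +kernel) tp827 tp832
lemma tp834 : Good 0 ![w54, w10, w19, w26, w145, w27] :=
  split24 (m := w146) (by decide +kernel) ch859 tp833
lemma tp835 : Good 0 ![w54, w10, w19, w26, w145, w23] :=
  split25 (m := w27) (by decide +kernel) ch858 tp834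
lemma tp836 : Good 0 ![w51, w10, w19, w26, w145, w23] :=
  split01 (m := w54) (by decide +kernel) tp835 ch869
lemma tp837 : Good 0 ![w51, w10, w19, w22, w145, w23] :=
  split13 (m := w26) (by decide +kernel) ch857 tp836
lemma tp838 : Good 0 ![w51, w10, w19, w22, w145, w21] :=
  split15 (m := w23) (by decide +kernel) ch856 tp837
lemma tp839 : Good 0 ![w51, w10, w19, w22, w144, w21] :=
  split14 (m := w145) (by decide +kernel) ch855 tp838
lemma tp840 : Good 0 ![w50, w10, w19, w22, w144, w21] :=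
  split02 (m := w51) (by decide +kernel) tp839 ch870
lemma tp841 : Good 0 ![w50, w10, w19, w17, w144, w21] :=
  split13 (m := w22) (by decide +kernel) ch854 tp840
lemma tp842 : Good 0 ![w50, w10, w19, w17, w138, w21] :=
  split34 (m := w144) (by decide +kernel) tp825 tp841
lemma tp843 : Good 0 ![w50, w10, w19, w17, w138, w13] :=
  split35 (m := w21) (by decide +kernel) tp810 tp842
lemma tp844 : Good 0 ![w62, w140, w19, w51, w148, w53] :=
  split12 (m := w142) (by decide +kernel) ch877 ch878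
lemma tp845 : Good 0 ![w62, w140, w19, w51, w148, w42] :=
  split25 (m := w53) (by decide +kernel) ch876 tp844
lemma tp846 : Good 0 ![w62, w140, w19, w51, w139, w42] :=
  split24 (m := w148) (by decide +kernel) ch875 tp845
lemma tp847 : Good 0 ![w64, w33, w19, w52, w142, w53] :=
  split25 (m := w65) (by decide +kernel) ch882 ch883
lemma tp848 : Good 0 ![w64, w28, w19, w52, w142, w53] :=
  split12 (m := w33) (by decide +kernel) tp847 ch884
lemma tp849 : Good 0 ![w62, w28, w19, w52, w142, w53] :=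
  split02 (m := w64) (by decide +kernel) tp848 ch885
lemma tp850 : Good 0 ![w62, w28, w19, w52, w140, w53] :=
  split24 (m := w142) (by decide +kernel) ch881 tp849
lemma tp851 : Good 0 ![w62, w28, w19, w52, w140, w42] :=
  split25 (m := w53) (by decide +kernel) ch880 tp850
lemma tp852 : Good 0 ![w62, w28, w19, w51, w140, w42] :=
  split23 (m := w52) (by decide +kernel) ch879 tp851
lemma tp853 : Good 0 ![w66, w10, w28, w60, w141, w43] :=
  split01 (m := w67) (by decide +kernel) ch890 ch891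
lemma tp854 : Good 0 ![w66, w10, w28, w54, w141, w43] :=
  split13 (m := w60) (by decide +kernel) ch889 tp853
lemma tp855 : Good 0 ![w66, w10, w28, w54, w140, w43] :=
  split14 (m := w141) (by decide +kernel) ch888 tp854
lemma tp856 : Good 0 ![w66, w10, w28, w54, w140, w42] :=
  split15 (m := w43) (by decide +kernel) ch887 tp855
lemma tp857 : Good 0 ![w62, w10, w28, w54, w140, w42] :=
  split01 (m := w66) (by decide +kernel) tp856 ch892
lemma tp858 : Good 0 ![w62, w10, w28, w51, w140, w42] :=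
  split13 (m := w54) (by decide +kernel) ch886 tp857
lemma tp859 : Good 0 ![w62, w10, w19, w51, w140, w42] :=
  split12 (m := w28) (by decide +kernel) tp852 tp858
lemma tp860 : Good 0 ![w62, w10, w19, w51, w139, w42] :=
  split14 (m := w140) (by decide +kernel) tp846 tp859
lemma tp861 : Good 0 ![w62, w10, w19, w51, w139, w41] :=
  split15 (m := w42) (by decide +kernel) ch874 tp860
lemma tp862 : Good 0 ![w61, w10, w19, w51, w139, w41] :=
  split02 (m := w62) (by decide +kernel) tp861 ch893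
lemma tp863 : Good 0 ![w61, w10, w19, w50, w139, w41] :=
  split23 (m := w51) (by decide +kernel) ch873 tp862
lemma tp864 : Good 0 ![w61, w10, w19, w50, w139, w13] :=
  split25 (m := w41) (by decide +kernel) ch872 tp863
lemma tp865 : Good 0 ![w61, w10, w19, w50, w138, w13] :=
  split24 (m := w139) (by decide +kernel) ch871 tp864
lemma tp866 : Good 0 ![w0, w10, w19, w50, w138, w13] :=
  split02 (m := w61) (by decide +kernel) tp865 ch894
lemma tp867 : Good 0 ![w0, w10, w19, w17, w138, w13] :=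
  split03 (m := w50) (by decide +kernel) tp843 tp866
lemma tp868 : Good 0 ![w0, w10, w19, w17, w132, w13] :=
  split04 (m := w138) (by decide +kernel) tp796 tp867
lemma tp869 : Good 0 ![w0, w10, w19, w17, w132, w5] :=
  split05 (m := w13) (by decide +kernel) tp764 tp868
lemma tp870 : Good 0 ![w73, w28, w19, w31, w151, w74] :=
  split12 (m := w33) (by decide +kernel) ch905 ch906
lemma tp871 : Good 0 ![w73, w28, w19, w31, w151, w72] :=
  split25 (m := w74) (by decide +kernel) ch904 tp870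
lemma tp872 : Good 0 ![w71, w28, w19, w31, w151, w72] :=
  split02 (m := w73) (by decide +kernel) tp871 ch907
lemma tp873 : Good 0 ![w71, w28, w19, w26, w151, w72] :=
  split23 (m := w31) (by decide +kernel) ch903 tp872
lemma tp874 : Good 0 ![w71, w28, w19, w26, w150, w72] :=
  split24 (m := w151) (by decide +kernel) ch902 tp873
lemma tp875 : Good 0 ![w75, w10, w28, w37, w152, w76] :=
  split12 (m := w40) (by decide +kernel) ch911 ch912
lemma tp876 : Good 0 ![w75, w10, w28, w26, w152, w76] :=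
  split13 (m := w37) (by decide +kernel) ch910 tp875
lemma tp877 : Good 0 ![w75, w10, w28, w26, w150, w76] :=
  split14 (m := w152) (by decide +kernel) ch909 tp876
lemma tp878 : Good 0 ![w75, w10, w28, w26, w150, w72] :=
  split15 (m := w76) (by decide +kernel) ch908 tp877
lemma tp879 : Good 0 ![w71, w10, w28, w26, w150, w72] :=
  split01 (m := w75) (by decide +kernel) tp878 ch913
lemma tp880 : Good 0 ![w71, w10, w19, w26, w150, w72] :=
  split12 (m := w28) (by decide +kernel) tp874 tp879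
lemma tp881 : Good 0 ![w71, w10, w19, w22, w150, w72] :=
  split13 (m := w26) (by decide +kernel) ch901 tp880
lemma tp882 : Good 0 ![w71, w10, w19, w22, w150, w70] :=
  split25 (m := w72) (by decide +kernel) ch900 tp881
lemma tp883 : Good 0 ![w69, w10, w19, w22, w150, w70] :=
  split02 (m := w71) (by decide +kernel) tp882 ch914
lemma tp884 : Good 0 ![w69, w10, w19, w22, w149, w70] :=
  split14 (m := w150) (by decide +kernel) ch899 tp883
lemma tp885 : Good 0 ![w69, w10, w19, w17, w149, w70] :=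
  split13 (m := w22) (by decide +kernel) ch898 tp884
lemma tp886 : Good 0 ![w69, w10, w19, w17, w149, w68] :=
  split15 (m := w70) (by decide +kernel) ch897 tp885
lemma tp887 : Good 0 ![w15, w10, w19, w17, w149, w68] :=
  split01 (m := w69) (by decide +kernel) tp886 ch915
lemma tp888 : Good 0 ![w15, w10, w19, w17, w133, w68] :=
  split14 (m := w149) (by decide +kernel) ch896 tp887
lemma tp889 : Good 0 ![w15, w10, w19, w17, w133, w7] :=
  split15 (m := w68) (by decide +kernel) ch895 tp888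
lemma tp890 : Good 0 ![w156, w28, w19, w31, w151, w79] :=
  split12 (m := w33) (by decide +kernel) ch925 ch926
lemma tp891 : Good 0 ![w155, w28, w19, w31, w151, w79] :=
  split02 (m := w156) (by decide +kernel) tp890 ch927
lemma tp892 : Good 0 ![w155, w28, w19, w31, w151, w78] :=
  split25 (m := w79) (by decide +kernel) ch924 tp891
lemma tp893 : Good 0 ![w155, w28, w19, w26, w151, w78] :=
  split23 (m := w31) (by decide +kernel) ch923 tp892
lemma tp894 : Good 0 ![w155, w28, w19, w26, w150, w78] :=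
  split24 (m := w151) (by decide +kernel) ch922 tp893
lemma tp895 : Good 0 ![w157, w40, w28, w37, w158, w80] :=
  split23 (m := w81) (by decide +kernel) ch932 ch933
lemma tp896 : Good 0 ![w157, w40, w28, w37, w152, w80] :=
  split24 (m := w158) (by decide +kernel) ch931 tp895
lemma tp897 : Good 0 ![w157, w10, w28, w37, w152, w80] :=
  split12 (m := w40) (by decide +kernel) tp896 ch934
lemma tp898 : Good 0 ![w157, w10, w28, w26, w152, w80] :=
  split13 (m := w37) (by decide +kernel) ch930 tp897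
lemma tp899 : Good 0 ![w155, w10, w28, w26, w152, w80] :=
  split01 (m := w157) (by decide +kernel) tp898 ch935
lemma tp900 : Good 0 ![w155, w10, w28, w26, w152, w78] :=
  split15 (m := w80) (by decide +kernel) ch929 tp899
lemma tp901 : Good 0 ![w155, w10, w28, w26, w150, w78] :=
  split14 (m := w152) (by decide +kernel) ch928 tp900
lemma tp902 : Good 0 ![w155, w10, w19, w26, w150, w78] :=
  split12 (m := w28) (by decide +kernel) tp894 tp901
lemma tp903 : Good 0 ![w155, w10, w19, w22, w150, w78] :=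
  split13 (m := w26) (by decide +kernel) ch921 tp902
lemma tp904 : Good 0 ![w154, w10, w19, w22, w150, w78] :=
  split01 (m := w155) (by decide +kernel) tp903 ch936
lemma tp905 : Good 0 ![w154, w10, w19, w22, w150, w77] :=
  split15 (m := w78) (by decide +kernel) ch920 tp904
lemma tp906 : Good 0 ![w154, w10, w19, w22, w149, w77] :=
  split14 (m := w150) (by decide +kernel) ch919 tp905
lemma tp907 : Good 0 ![w153, w10, w19, w22, w149, w77] :=
  split02 (m := w154) (by decide +kernel) tp906 ch937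
lemma tp908 : Good 0 ![w153, w10, w19, w17, w149, w77] :=
  split13 (m := w22) (by decide +kernel) ch918 tp907
lemma tp909 : Good 0 ![w153, w10, w19, w17, w149, w15] :=
  split25 (m := w77) (by decide +kernel) ch917 tp908
lemma tp910 : Good 0 ![w153, w10, w19, w17, w133, w15] :=
  split14 (m := w149) (by decide +kernel) ch916 tp909
lemma tp911 : Good 0 ![w51, w28, w19, w161, w155, w79] :=
  split02 (m := w52) (by decide +kernel) ch945 ch946
lemma tp912 : Good 0 ![w51, w28, w19, w161, w155, w78] :=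
  split25 (m := w79) (by decide +kernel) ch944 tp911
lemma tp913 : Good 0 ![w54, w10, w28, w162, w155, w78] :=
  split15 (m := w80) (by decide +kernel) ch948 ch949
lemma tp914 : Good 0 ![w54, w10, w28, w161, w155, w78] :=
  split13 (m := w162) (by decide +kernel) ch947 tp913
lemma tp915 : Good 0 ![w51, w10, w28, w161, w155, w78] :=
  split01 (m := w54) (by decide +kernel) tp914 ch950
lemma tp916 : Good 0 ![w51, w10, w19, w161, w155, w78] :=
  split12 (m := w28) (by decide +kernel) tp912 tp915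
lemma tp917 : Good 0 ![w51, w10, w19, w160, w155, w78] :=
  split23 (m := w161) (by decide +kernel) ch943 tp916
lemma tp918 : Good 0 ![w51, w10, w19, w160, w154, w78] :=
  split14 (m := w155) (by decide +kernel) ch942 tp917
lemma tp919 : Good 0 ![w51, w10, w19, w160, w154, w77] :=
  split15 (m := w78) (by decide +kernel) ch941 tp918
lemma tp920 : Good 0 ![w51, w10, w19, w159, w154, w77] :=
  split13 (m := w160) (by decide +kernel) ch940 tp919
lemma tp921 : Good 0 ![w50, w10, w19, w159, w154, w77] :=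
  split02 (m := w51) (by decide +kernel) tp920 ch951
lemma tp922 : Good 0 ![w50, w10, w19, w159, w153, w77] :=
  split24 (m := w154) (by decide +kernel) ch939 tp921
lemma tp923 : Good 0 ![w58, w28, w19, w31, w161, w79] :=
  split12 (m := w33) (by decide +kernel) ch959 ch960
lemma tp924 : Good 0 ![w54, w28, w19, w31, w161, w79] :=
  split02 (m := w58) (by decide +kernel) tp923 ch961
lemma tp925 : Good 0 ![w54, w28, w19, w31, w161, w78] :=
  split25 (m := w79) (by decide +kernel) ch958 tp924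
lemma tp926 : Good 0 ![w54, w28, w19, w26, w161, w78] :=
  split23 (m := w31) (by decide +kernel) ch957 tp925
lemma tp927 : Good 0 ![w60, w40, w28, w37, w162, w80] :=
  split23 (m := w81) (by decide +kernel) ch965 ch966
lemma tp928 : Good 0 ![w60, w10, w28, w37, w162, w80] :=
  split12 (m := w40) (by decide +kernel) tp927 ch967
lemma tp929 : Good 0 ![w60, w10, w28, w26, w162, w80] :=
  split13 (m := w37) (by decide +kernel) ch964 tp928
lemma tp930 : Good 0 ![w54, w10, w28, w26, w162, w80] :=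
  split01 (m := w60) (by decide +kernel) tp929 ch968
lemma tp931 : Good 0 ![w54, w10, w28, w26, w162, w78] :=
  split15 (m := w80) (by decide +kernel) ch963 tp930
lemma tp932 : Good 0 ![w54, w10, w28, w26, w161, w78] :=
  split14 (m := w162) (by decide +kernel) ch962 tp931
lemma tp933 : Good 0 ![w54, w10, w19, w26, w161, w78] :=
  split12 (m := w28) (by decide +kernel) tp926 tp932
lemma tp934 : Good 0 ![w51, w10, w19, w26, w161, w78] :=
  split01 (m := w54) (by decide +kernel) tp933 ch969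
lemma tp935 : Good 0 ![w51, w10, w19, w26, w160, w78] :=
  split24 (m := w161) (by decide +kernel) ch956 tp934
lemma tp936 : Good 0 ![w51, w10, w19, w22, w160, w78] :=
  split13 (m := w26) (by decide +kernel) ch955 tp935
lemma tp937 : Good 0 ![w51, w10, w19, w22, w160, w77] :=
  split15 (m := w78) (by decide +kernel) ch954 tp936
lemma tp938 : Good 0 ![w51, w10, w19, w22, w159, w77] :=
  split14 (m := w160) (by decide +kernel) ch953 tp937
lemma tp939 : Good 0 ![w50, w10, w19, w22, w159, w77] :=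
  split02 (m := w51) (by decide +kernel) tp938 ch970
lemma tp940 : Good 0 ![w50, w10, w19, w17, w159, w77] :=
  split13 (m := w22) (by decide +kernel) ch952 tp939
lemma tp941 : Good 0 ![w50, w10, w19, w17, w153, w77] :=
  split34 (m := w159) (by decide +kernel) tp922 tp940
lemma tp942 : Good 0 ![w50, w10, w19, w17, w153, w15] :=
  split25 (m := w77) (by decide +kernel) ch938 tp941
lemma tp943 : Good 0 ![w64, w28, w19, w52, w156, w79] :=
  split12 (m := w33) (by decide +kernel) ch979 ch980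
lemma tp944 : Good 0 ![w62, w28, w19, w52, w156, w79] :=
  split02 (m := w64) (by decide +kernel) tp943 ch981
lemma tp945 : Good 0 ![w62, w28, w19, w52, w155, w79] :=
  split24 (m := w156) (by decide +kernel) ch978 tp944
lemma tp946 : Good 0 ![w62, w28, w19, w51, w155, w79] :=
  split23 (m := w52) (by decide +kernel) ch977 tp945
lemma tp947 : Good 0 ![w62, w28, w19, w51, w155, w78] :=
  split25 (m := w79) (by decide +kernel) ch976 tp946
lemma tp948 : Good 0 ![w66, w10, w28, w60, w157, w80] :=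
  split01 (m := w67) (by decide +kernel) ch986 ch987
lemma tp949 : Good 0 ![w66, w10, w28, w54, w157, w80] :=
  split13 (m := w60) (by decide +kernel) ch985 tp948
lemma tp950 : Good 0 ![w66, w10, w28, w54, w155, w80] :=
  split14 (m := w157) (by decide +kernel) ch984 tp949
lemma tp951 : Good 0 ![w66, w10, w28, w54, w155, w78] :=
  split15 (m := w80) (by decide +kernel) ch983 tp950
lemma tp952 : Good 0 ![w62, w10, w28, w54, w155, w78] :=
  split01 (m := w66) (by decide +kernel) tp951 ch988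
lemma tp953 : Good 0 ![w62, w10, w28, w51, w155, w78] :=
  split13 (m := w54) (by decide +kernel) ch982 tp952
lemma tp954 : Good 0 ![w62, w10, w19, w51, w155, w78] :=
  split12 (m := w28) (by decide +kernel) tp947 tp953
lemma tp955 : Good 0 ![w62, w10, w19, w51, w154, w78] :=
  split14 (m := w155) (by decide +kernel) ch975 tp954
lemma tp956 : Good 0 ![w62, w10, w19, w51, w154, w77] :=
  split15 (m := w78) (by decide +kernel) ch974 tp955
lemma tp957 : Good 0 ![w61, w10, w19, w51, w154, w77] :=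
  split02 (m := w62) (by decide +kernel) tp956 ch989
lemma tp958 : Good 0 ![w61, w10, w19, w50, w154, w77] :=
  split23 (m := w51) (by decide +kernel) ch973 tp957
lemma tp959 : Good 0 ![w61, w10, w19, w50, w153, w77] :=
  split24 (m := w154) (by decide +kernel) ch972 tp958
lemma tp960 : Good 0 ![w61, w10, w19, w50, w153, w15] :=
  split25 (m := w77) (by decide +kernel) ch971 tp959
lemma tp961 : Good 0 ![w0, w10, w19, w50, w153, w15] :=
  split02 (m := w61) (by decide +kernel) tp960 ch990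
lemma tp962 : Good 0 ![w0, w10, w19, w17, w153, w15] :=
  split03 (m := w50) (by decide +kernel) tp942 tp961
lemma tp963 : Good 0 ![w0, w10, w19, w17, w133, w15] :=
  split04 (m := w153) (by decide +kernel) tp910 tp962
lemma tp964 : Good 0 ![w0, w10, w19, w17, w133, w7] :=
  split05 (m := w15) (by decide +kernel) tp889 tp963
lemma tp965 : Good 0 ![w168, w10, w38, w167, w137, w35] :=
  split13 (m := w169) (by decide +kernel) ch1000 ch1001
lemma tp966 : Good 0 ![w168, w10, w38, w167, w135, w35] :=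
  split14 (m := w137) (by decide +kernel) ch999 tp965
lemma tp967 : Good 0 ![w168, w10, w29, w167, w135, w35] :=
  split12 (m := w38) (by decide +kernel) ch998 tp966
lemma tp968 : Good 0 ![w168, w10, w29, w167, w135, w25] :=
  split15 (m := w35) (by decide +kernel) ch997 tp967
lemma tp969 : Good 0 ![w170, w10, w29, w167, w135, w25] :=
  split01 (m := w168) (by decide +kernel) tp968 ch1002
lemma tp970 : Good 0 ![w170, w28, w19, w171, w136, w32] :=
  split12 (m := w33) (by decide +kernel) ch1006 ch1007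
lemma tp971 : Good 0 ![w170, w28, w19, w171, w136, w29] :=
  split25 (m := w32) (by decide +kernel) ch1005 tp970
lemma tp972 : Good 0 ![w170, w28, w19, w167, w136, w29] :=
  split23 (m := w171) (by decide +kernel) ch1004 tp971
lemma tp973 : Good 0 ![w170, w28, w19, w167, w135, w29] :=
  split24 (m := w136) (by decide +kernel) ch1003 tp972
lemma tp974 : Good 0 ![w168, w40, w28, w169, w137, w38] :=
  split24 (m := w143) (by decide +kernel) ch1011 ch1012
lemma tp975 : Good 0 ![w168, w10, w40, w169, w137, w38] :=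
  split01 (m := w172) (by decide +kernel) ch1013 ch1014
lemma tp976 : Good 0 ![w168, w10, w28, w169, w137, w38] :=
  split12 (m := w40) (by decide +kernel) tp974 tp975
lemma tp977 : Good 0 ![w168, w10, w28, w167, w137, w38] :=
  split13 (m := w169) (by decide +kernel) ch1010 tp976
lemma tp978 : Good 0 ![w168, w10, w28, w167, w135, w38] :=
  split14 (m := w137) (by decide +kernel) ch1009 tp977
lemma tp979 : Good 0 ![w168, w10, w28, w167, w135, w29] :=
  split15 (m := w38) (by decide +kernel) ch1008 tp978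
lemma tp980 : Good 0 ![w170, w10, w28, w167, w135, w29] :=
  split01 (m := w168) (by decide +kernel) tp979 ch1015
lemma tp981 : Good 0 ![w170, w10, w19, w167, w135, w29] :=
  split12 (m := w28) (by decide +kernel) tp973 tp980
lemma tp982 : Good 0 ![w170, w10, w19, w167, w135, w25] :=
  split25 (m := w29) (by decide +kernel) tp969 tp981
lemma tp983 : Good 0 ![w173, w10, w168, w169, w137, w35] :=
  split01 (m := w174) (by decide +kernel) ch1020 ch1021
lemma tp984 : Good 0 ![w173, w10, w168, w167, w137, w35] :=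
  split13 (m := w169) (by decide +kernel) ch1019 tp983
lemma tp985 : Good 0 ![w173, w10, w168, w167, w135, w35] :=
  split14 (m := w137) (by decide +kernel) ch1018 tp984
lemma tp986 : Good 0 ![w173, w10, w168, w167, w135, w25] :=
  split15 (m := w35) (by decide +kernel) ch1017 tp985
lemma tp987 : Good 0 ![w173, w10, w170, w167, w135, w25] :=
  split12 (m := w168) (by decide +kernel) ch1016 tp986
lemma tp988 : Good 0 ![w166, w10, w170, w167, w135, w25] :=
  split01 (m := w173) (by decide +kernel) tp987 ch1022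
lemma tp989 : Good 0 ![w166, w10, w19, w167, w135, w25] :=
  split02 (m := w170) (by decide +kernel) tp982 tp988
lemma tp990 : Good 0 ![w166, w10, w19, w165, w135, w25] :=
  split13 (m := w167) (by decide +kernel) ch996 tp989
lemma tp991 : Good 0 ![w166, w10, w19, w165, w135, w20] :=
  split15 (m := w25) (by decide +kernel) ch995 tp990
lemma tp992 : Good 0 ![w166, w10, w19, w165, w134, w20] :=
  split14 (m := w135) (by decide +kernel) ch994 tp991
lemma tp993 : Good 0 ![w164, w10, w19, w165, w134, w20] :=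
  split01 (m := w166) (by decide +kernel) tp992 ch1023
lemma tp994 : Good 0 ![w164, w10, w19, w163, w134, w20] :=
  split13 (m := w165) (by decide +kernel) ch993 tp993
lemma tp995 : Good 0 ![w42, w10, w168, w173, w135, w25] :=
  split15 (m := w35) (by decide +kernel) ch1029 ch1030
lemma tp996 : Good 0 ![w42, w10, w170, w173, w135, w25] :=
  split12 (m := w168) (by decide +kernel) ch1028 tp995
lemma tp997 : Good 0 ![w42, w10, w170, w166, w135, w25] :=
  split13 (m := w173) (by decide +kernel) ch1027 tp996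
lemma tp998 : Good 0 ![w42, w28, w19, w170, w136, w29] :=
  split02 (m := w53) (by decide +kernel) ch1033 ch1034
lemma tp999 : Good 0 ![w42, w28, w19, w170, w135, w29] :=
  split24 (m := w136) (by decide +kernel) ch1032 tp998
lemma tp1000 : Good 0 ![w42, w28, w19, w170, w135, w25] :=
  split25 (m := w29) (by decide +kernel) ch1031 tp999
lemma tp1001 : Good 0 ![w43, w10, w28, w168, w137, w38] :=
  split12 (m := w40) (by decide +kernel) ch1039 ch1040
lemma tp1002 : Good 0 ![w43, w10, w28, w168, w137, w35] :=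
  split25 (m := w38) (by decide +kernel) ch1038 tp1001
lemma tp1003 : Good 0 ![w42, w10, w28, w168, w137, w35] :=
  split01 (m := w43) (by decide +kernel) tp1002 ch1041
lemma tp1004 : Good 0 ![w42, w10, w28, w168, w135, w35] :=
  split14 (m := w137) (by decide +kernel) ch1037 tp1003
lemma tp1005 : Good 0 ![w42, w10, w28, w168, w135, w25] :=
  split15 (m := w35) (by decide +kernel) ch1036 tp1004
lemma tp1006 : Good 0 ![w42, w10, w28, w170, w135, w25] :=
  split13 (m := w168) (by decide +kernel) ch1035 tp1005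
lemma tp1007 : Good 0 ![w42, w10, w19, w170, w135, w25] :=
  split12 (m := w28) (by decide +kernel) tp1000 tp1006
lemma tp1008 : Good 0 ![w42, w10, w19, w166, w135, w25] :=
  split23 (m := w170) (by decide +kernel) tp997 tp1007
lemma tp1009 : Good 0 ![w41, w10, w19, w166, w135, w25] :=
  split01 (m := w42) (by decide +kernel) tp1008 ch1042
lemma tp1010 : Good 0 ![w41, w10, w19, w166, w135, w20] :=
  split15 (m := w25) (by decide +kernel) ch1026 tp1009
lemma tp1011 : Good 0 ![w41, w10, w19, w166, w134, w20] :=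
  split14 (m := w135) (by decide +kernel) ch1025 tp1010
lemma tp1012 : Good 0 ![w41, w10, w19, w164, w134, w20] :=
  split13 (m := w166) (by decide +kernel) ch1024 tp1011
lemma tp1013 : Good 0 ![w13, w10, w19, w164, w134, w20] :=
  split02 (m := w41) (by decide +kernel) tp1012 ch1043
lemma tp1014 : Good 0 ![w13, w10, w19, w163, w134, w20] :=
  split03 (m := w164) (by decide +kernel) tp994 tp1013
lemma tp1015 : Good 0 ![w13, w10, w19, w163, w134, w5] :=
  split15 (m := w20) (by decide +kernel) ch992 tp1014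
lemma tp1016 : Good 0 ![w13, w10, w19, w163, w132, w5] :=
  split14 (m := w134) (by decide +kernel) ch991 tp1015
lemma tp1017 : Good 0 ![w141, w10, w28, w168, w137, w43] :=
  split12 (m := w40) (by decide +kernel) ch1054 ch1055
lemma tp1018 : Good 0 ![w140, w10, w28, w168, w137, w43] :=
  split01 (m := w141) (by decide +kernel) tp1017 ch1056
lemma tp1019 : Good 0 ![w140, w10, w28, w168, w137, w42] :=
  split15 (m := w43) (by decide +kernel) ch1053 tp1018
lemma tp1020 : Good 0 ![w140, w10, w28, w168, w135, w42] :=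
  split14 (m := w137) (by decide +kernel) ch1052 tp1019
lemma tp1021 : Good 0 ![w140, w10, w28, w170, w135, w42] :=
  split13 (m := w168) (by decide +kernel) ch1051 tp1020
lemma tp1022 : Good 0 ![w140, w10, w19, w170, w135, w42] :=
  split12 (m := w28) (by decide +kernel) ch1050 tp1021
lemma tp1023 : Good 0 ![w140, w10, w19, w166, w135, w42] :=
  split23 (m := w170) (by decide +kernel) ch1049 tp1022
lemma tp1024 : Good 0 ![w139, w10, w19, w166, w135, w42] :=
  split01 (m := w140) (by decide +kernel) tp1023 ch1057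
lemma tp1025 : Good 0 ![w139, w10, w19, w166, w135, w41] :=
  split15 (m := w42) (by decide +kernel) ch1048 tp1024
lemma tp1026 : Good 0 ![w139, w10, w19, w166, w134, w41] :=
  split14 (m := w135) (by decide +kernel) ch1047 tp1025
lemma tp1027 : Good 0 ![w139, w10, w19, w164, w134, w41] :=
  split13 (m := w166) (by decide +kernel) ch1046 tp1026
lemma tp1028 : Good 0 ![w139, w10, w19, w164, w134, w13] :=
  split25 (m := w41) (by decide +kernel) ch1045 tp1027
lemma tp1029 : Good 0 ![w138, w10, w19, w164, w134, w13] :=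
  split02 (m := w139) (by decide +kernel) tp1028 ch1058
lemma tp1030 : Good 0 ![w141, w10, w168, w167, w137, w173] :=
  split13 (m := w169) (by decide +kernel) ch1066 ch1067
lemma tp1031 : Good 0 ![w140, w10, w168, w167, w137, w173] :=
  split01 (m := w141) (by decide +kernel) tp1030 ch1068
lemma tp1032 : Good 0 ![w140, w10, w168, w167, w135, w173] :=
  split14 (m := w137) (by decide +kernel) ch1065 tp1031
lemma tp1033 : Good 0 ![w140, w10, w170, w167, w135, w173] :=
  split12 (m := w168) (by decide +kernel) ch1064 tp1032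
lemma tp1034 : Good 0 ![w140, w10, w170, w167, w135, w166] :=
  split15 (m := w173) (by decide +kernel) ch1063 tp1033
lemma tp1035 : Good 0 ![w142, w28, w19, w171, w136, w175] :=
  split12 (m := w33) (by decide +kernel) ch1072 ch1073
lemma tp1036 : Good 0 ![w142, w28, w19, w171, w136, w170] :=
  split25 (m := w175) (by decide +kernel) ch1071 tp1035
lemma tp1037 : Good 0 ![w140, w28, w19, w171, w136, w170] :=
  split02 (m := w142) (by decide +kernel) tp1036 ch1074
lemma tp1038 : Good 0 ![w140, w28, w19, w167, w136, w170] :=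
  split23 (m := w171) (by decide +kernel) ch1070 tp1037
lemma tp1039 : Good 0 ![w140, w28, w19, w167, w135, w170] :=
  split24 (m := w136) (by decide +kernel) ch1069 tp1038
lemma tp1040 : Good 0 ![w141, w169, w28, w167, w137, w168] :=
  split23 (m := w176) (by decide +kernel) ch1077 ch1078
lemma tp1041 : Good 0 ![w141, w40, w28, w169, w143, w168] :=
  split23 (m := w177) (by decide +kernel) ch1080 ch1081
lemma tp1042 : Good 0 ![w141, w40, w28, w169, w137, w168] :=
  split24 (m := w143) (by decide +kernel) ch1079 tp1041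
lemma tp1043 : Good 0 ![w141, w10, w28, w169, w137, w168] :=
  split12 (m := w40) (by decide +kernel) tp1042 ch1082
lemma tp1044 : Good 0 ![w141, w10, w28, w167, w137, w168] :=
  split13 (m := w169) (by decide +kernel) tp1040 tp1043
lemma tp1045 : Good 0 ![w140, w10, w28, w167, w137, w168] :=
  split01 (m := w141) (by decide +kernel) tp1044 ch1083
lemma tp1046 : Good 0 ![w140, w10, w28, w167, w135, w168] :=
  split14 (m := w137) (by decide +kernel) ch1076 tp1045
lemma tp1047 : Good 0 ![w140, w10, w28, w167, w135, w170] :=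
  split15 (m := w168) (by decide +kernel) ch1075 tp1046
lemma tp1048 : Good 0 ![w140, w10, w19, w167, w135, w170] :=
  split12 (m := w28) (by decide +kernel) tp1039 tp1047
lemma tp1049 : Good 0 ![w140, w10, w19, w167, w135, w166] :=
  split25 (m := w170) (by decide +kernel) tp1034 tp1048
lemma tp1050 : Good 0 ![w140, w10, w19, w165, w135, w166] :=
  split13 (m := w167) (by decide +kernel) ch1062 tp1049
lemma tp1051 : Good 0 ![w139, w10, w19, w165, w135, w166] :=
  split01 (m := w140) (by decide +kernel) tp1050 ch1084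
lemma tp1052 : Good 0 ![w139, w10, w19, w165, w134, w166] :=
  split14 (m := w135) (by decide +kernel) ch1061 tp1051
lemma tp1053 : Good 0 ![w139, w10, w19, w165, w134, w164] :=
  split15 (m := w166) (by decide +kernel) ch1060 tp1052
lemma tp1054 : Good 0 ![w178, w10, w140, w165, w135, w166] :=
  split03 (m := w179) (by decide +kernel) ch1088 ch1089
lemma tp1055 : Good 0 ![w178, w10, w139, w165, w135, w166] :=
  split12 (m := w140) (by decide +kernel) ch1087 tp1054
lemma tp1056 : Good 0 ![w178, w10, w139, w165, w134, w166] :=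
  split14 (m := w135) (by decide +kernel) ch1086 tp1055
lemma tp1057 : Good 0 ![w178, w10, w139, w165, w134, w164] :=
  split15 (m := w166) (by decide +kernel) ch1085 tp1056
lemma tp1058 : Good 0 ![w138, w10, w139, w165, w134, w164] :=
  split01 (m := w178) (by decide +kernel) tp1057 ch1090
lemma tp1059 : Good 0 ![w138, w10, w19, w165, w134, w164] :=
  split02 (m := w139) (by decide +kernel) tp1053 tp1058
lemma tp1060 : Good 0 ![w138, w10, w19, w163, w134, w164] :=
  split13 (m := w165) (by decide +kernel) ch1059 tp1059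
lemma tp1061 : Good 0 ![w138, w10, w19, w163, w134, w13] :=
  split35 (m := w164) (by decide +kernel) tp1029 tp1060
lemma tp1062 : Good 0 ![w138, w10, w19, w163, w132, w13] :=
  split14 (m := w134) (by decide +kernel) ch1044 tp1061
lemma tp1063 : Good 0 ![w182, w28, w19, w170, w140, w53] :=
  split24 (m := w142) (by decide +kernel) ch1098 ch1099
lemma tp1064 : Good 0 ![w182, w28, w19, w170, w140, w42] :=
  split25 (m := w53) (by decide +kernel) ch1097 tp1063
lemma tp1065 : Good 0 ![w181, w28, w19, w170, w140, w42] :=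
  split02 (m := w182) (by decide +kernel) tp1064 ch1100
lemma tp1066 : Good 0 ![w183, w10, w28, w168, w140, w43] :=
  split14 (m := w141) (by decide +kernel) ch1103 ch1104
lemma tp1067 : Good 0 ![w183, w10, w28, w168, w140, w42] :=
  split15 (m := w43) (by decide +kernel) ch1102 tp1066
lemma tp1068 : Good 0 ![w183, w10, w28, w170, w140, w42] :=
  split13 (m := w168) (by decide +kernel) ch1101 tp1067
lemma tp1069 : Good 0 ![w181, w10, w28, w170, w140, w42] :=
  split01 (m := w183) (by decide +kernel) tp1068 ch1105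
lemma tp1070 : Good 0 ![w181, w10, w19, w170, w140, w42] :=
  split12 (m := w28) (by decide +kernel) tp1065 tp1069
lemma tp1071 : Good 0 ![w181, w10, w19, w166, w140, w42] :=
  split23 (m := w170) (by decide +kernel) ch1096 tp1070
lemma tp1072 : Good 0 ![w181, w10, w19, w166, w139, w42] :=
  split14 (m := w140) (by decide +kernel) ch1095 tp1071
lemma tp1073 : Good 0 ![w181, w10, w19, w166, w139, w41] :=
  split15 (m := w42) (by decide +kernel) ch1094 tp1072
lemma tp1074 : Good 0 ![w181, w10, w19, w164, w139, w41] :=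
  split13 (m := w166) (by decide +kernel) ch1093 tp1073
lemma tp1075 : Good 0 ![w180, w10, w19, w164, w139, w41] :=
  split02 (m := w181) (by decide +kernel) tp1074 ch1106
lemma tp1076 : Good 0 ![w180, w10, w19, w164, w139, w13] :=
  split25 (m := w41) (by decide +kernel) ch1092 tp1075
lemma tp1077 : Good 0 ![w180, w10, w19, w164, w138, w13] :=
  split24 (m := w139) (by decide +kernel) ch1091 tp1076
lemma tp1078 : Good 0 ![w182, w28, w19, w185, w142, w170] :=
  split25 (m := w175) (by decide +kernel) ch1114 ch1115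
lemma tp1079 : Good 0 ![w182, w28, w19, w185, w140, w170] :=
  split24 (m := w142) (by decide +kernel) ch1113 tp1078
lemma tp1080 : Good 0 ![w181, w28, w19, w185, w140, w170] :=
  split02 (m := w182) (by decide +kernel) tp1079 ch1116
lemma tp1081 : Good 0 ![w187, w10, w28, w186, w141, w168] :=
  split12 (m := w40) (by decide +kernel) ch1120 ch1121
lemma tp1082 : Good 0 ![w183, w10, w28, w186, w141, w168] :=
  split01 (m := w187) (by decide +kernel) tp1081 ch1122
lemma tp1083 : Good 0 ![w183, w10, w28, w186, w140, w168] :=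
  split14 (m := w141) (by decide +kernel) ch1119 tp1082
lemma tp1084 : Good 0 ![w183, w10, w28, w185, w140, w168] :=
  split13 (m := w186) (by decide +kernel) ch1118 tp1083
lemma tp1085 : Good 0 ![w183, w10, w28, w185, w140, w170] :=
  split15 (m := w168) (by decide +kernel) ch1117 tp1084
lemma tp1086 : Good 0 ![w181, w10, w28, w185, w140, w170] :=
  split01 (m := w183) (by decide +kernel) tp1085 ch1123
lemma tp1087 : Good 0 ![w181, w10, w19, w185, w140, w170] :=
  split12 (m := w28) (by decide +kernel) tp1080 tp1086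
lemma tp1088 : Good 0 ![w181, w10, w19, w179, w140, w170] :=
  split23 (m := w185) (by decide +kernel) ch1112 tp1087
lemma tp1089 : Good 0 ![w181, w10, w19, w179, w140, w166] :=
  split25 (m := w170) (by decide +kernel) ch1111 tp1088
lemma tp1090 : Good 0 ![w181, w10, w19, w179, w139, w166] :=
  split14 (m := w140) (by decide +kernel) ch1110 tp1089
lemma tp1091 : Good 0 ![w181, w10, w19, w179, w139, w164] :=
  split15 (m := w166) (by decide +kernel) ch1109 tp1090
lemma tp1092 : Good 0 ![w181, w10, w19, w184, w139, w164] :=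
  split13 (m := w179) (by decide +kernel) ch1108 tp1091
lemma tp1093 : Good 0 ![w180, w10, w19, w184, w139, w164] :=
  split02 (m := w181) (by decide +kernel) tp1092 ch1124
lemma tp1094 : Good 0 ![w180, w10, w19, w184, w138, w164] :=
  split24 (m := w139) (by decide +kernel) ch1107 tp1093
lemma tp1095 : Good 0 ![w187, w10, w168, w167, w188, w173] :=
  split13 (m := w169) (by decide +kernel) ch1132 ch1133
lemma tp1096 : Good 0 ![w183, w10, w168, w167, w188, w173] :=
  split01 (m := w187) (by decide +kernel) tp1095 ch1134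
lemma tp1097 : Good 0 ![w183, w10, w170, w167, w188, w173] :=
  split12 (m := w168) (by decide +kernel) ch1131 tp1096
lemma tp1098 : Good 0 ![w183, w10, w170, w167, w179, w173] :=
  split14 (m := w188) (by decide +kernel) ch1130 tp1097
lemma tp1099 : Good 0 ![w183, w10, w170, w167, w179, w166] :=
  split15 (m := w173) (by decide +kernel) ch1129 tp1098
lemma tp1100 : Good 0 ![w181, w10, w170, w167, w179, w166] :=
  split01 (m := w183) (by decide +kernel) tp1099 ch1135
lemma tp1101 : Good 0 ![w187, w10, w186, w167, w188, w168] :=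
  split13 (m := w169) (by decide +kernel) ch1139 ch1140
lemma tp1102 : Good 0 ![w183, w10, w186, w167, w188, w168] :=
  split01 (m := w187) (by decide +kernel) tp1101 ch1141
lemma tp1103 : Good 0 ![w183, w10, w185, w167, w188, w168] :=
  split12 (m := w186) (by decide +kernel) ch1138 tp1102
lemma tp1104 : Good 0 ![w183, w10, w185, w167, w188, w170] :=
  split15 (m := w168) (by decide +kernel) ch1137 tp1103
lemma tp1105 : Good 0 ![w183, w10, w185, w167, w179, w170] :=
  split14 (m := w188) (by decide +kernel) ch1136 tp1104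
lemma tp1106 : Good 0 ![w181, w10, w185, w167, w179, w170] :=
  split01 (m := w183) (by decide +kernel) tp1105 ch1142
lemma tp1107 : Good 0 ![w189, w28, w19, w171, w185, w175] :=
  split12 (m := w33) (by decide +kernel) ch1145 ch1146
lemma tp1108 : Good 0 ![w189, w28, w19, w171, w185, w170] :=
  split25 (m := w175) (by decide +kernel) ch1144 tp1107
lemma tp1109 : Good 0 ![w183, w28, w19, w171, w185, w170] :=
  split02 (m := w189) (by decide +kernel) tp1108 ch1147
lemma tp1110 : Good 0 ![w183, w28, w19, w167, w185, w170] :=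
  split23 (m := w171) (by decide +kernel) ch1143 tp1109
lemma tp1111 : Good 0 ![w187, w40, w177, w169, w186, w168] :=
  split13 (m := w190) (by decide +kernel) ch1151 ch1152
lemma tp1112 : Good 0 ![w187, w40, w28, w169, w186, w168] :=
  split23 (m := w177) (by decide +kernel) tp1111 ch1153
lemma tp1113 : Good 0 ![w187, w172, w40, w169, w186, w168] :=
  split23 (m := w190) (by decide +kernel) ch1154 ch1155
lemma tp1114 : Good 0 ![w187, w10, w40, w169, w186, w168] :=
  split15 (m := w172) (by decide +kernel) tp1113 ch1156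
lemma tp1115 : Good 0 ![w187, w10, w28, w169, w186, w168] :=
  split12 (m := w40) (by decide +kernel) tp1112 tp1114
lemma tp1116 : Good 0 ![w187, w10, w28, w167, w186, w168] :=
  split13 (m := w169) (by decide +kernel) ch1150 tp1115
lemma tp1117 : Good 0 ![w183, w10, w28, w167, w186, w168] :=
  split01 (m := w187) (by decide +kernel) tp1116 ch1157
lemma tp1118 : Good 0 ![w183, w10, w28, w167, w185, w168] :=
  split14 (m := w186) (by decide +kernel) ch1149 tp1117
lemma tp1119 : Good 0 ![w183, w10, w28, w167, w185, w170] :=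
  split15 (m := w168) (by decide +kernel) ch1148 tp1118
lemma tp1120 : Good 0 ![w183, w10, w19, w167, w185, w170] :=
  split12 (m := w28) (by decide +kernel) tp1110 tp1119
lemma tp1121 : Good 0 ![w181, w10, w19, w167, w185, w170] :=
  split01 (m := w183) (by decide +kernel) tp1120 ch1158
lemma tp1122 : Good 0 ![w181, w10, w19, w167, w179, w170] :=
  split24 (m := w185) (by decide +kernel) tp1106 tp1121
lemma tp1123 : Good 0 ![w181, w10, w19, w167, w179, w166] :=
  split25 (m := w170) (by decide +kernel) tp1100 tp1122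
lemma tp1124 : Good 0 ![w181, w10, w19, w165, w179, w166] :=
  split13 (m := w167) (by decide +kernel) ch1128 tp1123
lemma tp1125 : Good 0 ![w181, w10, w19, w165, w179, w164] :=
  split15 (m := w166) (by decide +kernel) ch1127 tp1124
lemma tp1126 : Good 0 ![w181, w10, w19, w165, w184, w164] :=
  split14 (m := w179) (by decide +kernel) ch1126 tp1125
lemma tp1127 : Good 0 ![w180, w10, w181, w165, w179, w164] :=
  split15 (m := w166) (by decide +kernel) ch1160 ch1161
lemma tp1128 : Good 0 ![w180, w10, w181, w165, w184, w164] :=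
  split14 (m := w179) (by decide +kernel) ch1159 tp1127
lemma tp1129 : Good 0 ![w180, w10, w19, w165, w184, w164] :=
  split02 (m := w181) (by decide +kernel) tp1126 tp1128
lemma tp1130 : Good 0 ![w180, w10, w19, w163, w184, w164] :=
  split13 (m := w165) (by decide +kernel) ch1125 tp1129
lemma tp1131 : Good 0 ![w180, w10, w19, w163, w138, w164] :=
  split34 (m := w184) (by decide +kernel) tp1094 tp1130
lemma tp1132 : Good 0 ![w180, w10, w19, w163, w138, w13] :=
  split35 (m := w164) (by decide +kernel) tp1077 tp1131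
lemma tp1133 : Good 0 ![w62, w140, w19, w181, w148, w53] :=
  split12 (m := w142) (by decide +kernel) ch1168 ch1169
lemma tp1134 : Good 0 ![w62, w140, w19, w181, w148, w42] :=
  split25 (m := w53) (by decide +kernel) ch1167 tp1133
lemma tp1135 : Good 0 ![w62, w140, w19, w181, w139, w42] :=
  split24 (m := w148) (by decide +kernel) ch1166 tp1134
lemma tp1136 : Good 0 ![w64, w33, w19, w182, w142, w53] :=
  split25 (m := w65) (by decide +kernel) ch1173 ch1174
lemma tp1137 : Good 0 ![w64, w28, w19, w182, w142, w53] :=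
  split12 (m := w33) (by decide +kernel) tp1136 ch1175
lemma tp1138 : Good 0 ![w62, w28, w19, w182, w142, w53] :=
  split02 (m := w64) (by decide +kernel) tp1137 ch1176
lemma tp1139 : Good 0 ![w62, w28, w19, w182, w140, w53] :=
  split24 (m := w142) (by decide +kernel) ch1172 tp1138
lemma tp1140 : Good 0 ![w62, w28, w19, w182, w140, w42] :=
  split25 (m := w53) (by decide +kernel) ch1171 tp1139
lemma tp1141 : Good 0 ![w62, w28, w19, w181, w140, w42] :=
  split23 (m := w182) (by decide +kernel) ch1170 tp1140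
lemma tp1142 : Good 0 ![w66, w10, w28, w187, w141, w43] :=
  split01 (m := w67) (by decide +kernel) ch1181 ch1182
lemma tp1143 : Good 0 ![w66, w10, w28, w183, w141, w43] :=
  split13 (m := w187) (by decide +kernel) ch1180 tp1142
lemma tp1144 : Good 0 ![w66, w10, w28, w183, w140, w43] :=
  split14 (m := w141) (by decide +kernel) ch1179 tp1143
lemma tp1145 : Good 0 ![w66, w10, w28, w183, w140, w42] :=
  split15 (m := w43) (by decide +kernel) ch1178 tp1144
lemma tp1146 : Good 0 ![w62, w10, w28, w183, w140, w42] :=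
  split01 (m := w66) (by decide +kernel) tp1145 ch1183
lemma tp1147 : Good 0 ![w62, w10, w28, w181, w140, w42] :=
  split13 (m := w183) (by decide +kernel) ch1177 tp1146
lemma tp1148 : Good 0 ![w62, w10, w19, w181, w140, w42] :=
  split12 (m := w28) (by decide +kernel) tp1141 tp1147
lemma tp1149 : Good 0 ![w62, w10, w19, w181, w139, w42] :=
  split14 (m := w140) (by decide +kernel) tp1135 tp1148
lemma tp1150 : Good 0 ![w62, w10, w19, w181, w139, w41] :=
  split15 (m := w42) (by decide +kernel) ch1165 tp1149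
lemma tp1151 : Good 0 ![w61, w10, w19, w181, w139, w41] :=
  split02 (m := w62) (by decide +kernel) tp1150 ch1184
lemma tp1152 : Good 0 ![w61, w10, w19, w180, w139, w41] :=
  split23 (m := w181) (by decide +kernel) ch1164 tp1151
lemma tp1153 : Good 0 ![w61, w10, w19, w180, w139, w13] :=
  split25 (m := w41) (by decide +kernel) ch1163 tp1152
lemma tp1154 : Good 0 ![w61, w10, w19, w180, w138, w13] :=
  split24 (m := w139) (by decide +kernel) ch1162 tp1153
lemma tp1155 : Good 0 ![w0, w10, w19, w180, w138, w13] :=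
  split02 (m := w61) (by decide +kernel) tp1154 ch1185
lemma tp1156 : Good 0 ![w0, w10, w19, w163, w138, w13] :=
  split03 (m := w180) (by decide +kernel) tp1132 tp1155
lemma tp1157 : Good 0 ![w0, w10, w19, w163, w132, w13] :=
  split04 (m := w138) (by decide +kernel) tp1062 tp1156
lemma tp1158 : Good 0 ![w0, w10, w19, w163, w132, w5] :=
  split05 (m := w13) (by decide +kernel) tp1016 tp1157
lemma tp1159 : Good 0 ![w75, w10, w72, w193, w150, w194] :=
  split12 (m := w76) (by decide +kernel) ch1193 ch1194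
lemma tp1160 : Good 0 ![w71, w10, w72, w193, w150, w194] :=
  split01 (m := w75) (by decide +kernel) tp1159 ch1195
lemma tp1161 : Good 0 ![w71, w10, w72, w193, w150, w70] :=
  split15 (m := w194) (by decide +kernel) ch1192 tp1160
lemma tp1162 : Good 0 ![w71, w10, w72, w192, w150, w70] :=
  split13 (m := w193) (by decide +kernel) ch1191 tp1161
lemma tp1163 : Good 0 ![w73, w28, w19, w195, w151, w74] :=
  split12 (m := w33) (by decide +kernel) ch1200 ch1201
lemma tp1164 : Good 0 ![w73, w28, w19, w195, w151, w72] :=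
  split25 (m := w74) (by decide +kernel) ch1199 tp1163
lemma tp1165 : Good 0 ![w71, w28, w19, w195, w151, w72] :=
  split02 (m := w73) (by decide +kernel) tp1164 ch1202
lemma tp1166 : Good 0 ![w71, w28, w19, w193, w151, w72] :=
  split23 (m := w195) (by decide +kernel) ch1198 tp1165
lemma tp1167 : Good 0 ![w71, w28, w19, w193, w150, w72] :=
  split24 (m := w151) (by decide +kernel) ch1197 tp1166
lemma tp1168 : Good 0 ![w75, w40, w28, w196, w152, w76] :=
  split24 (m := w158) (by decide +kernel) ch1206 ch1207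
lemma tp1169 : Good 0 ![w75, w10, w28, w196, w152, w76] :=
  split12 (m := w40) (by decide +kernel) tp1168 ch1208
lemma tp1170 : Good 0 ![w75, w10, w28, w193, w152, w76] :=
  split13 (m := w196) (by decide +kernel) ch1205 tp1169
lemma tp1171 : Good 0 ![w75, w10, w28, w193, w150, w76] :=
  split14 (m := w152) (by decide +kernel) ch1204 tp1170
lemma tp1172 : Good 0 ![w75, w10, w28, w193, w150, w72] :=
  split15 (m := w76) (by decide +kernel) ch1203 tp1171
lemma tp1173 : Good 0 ![w71, w10, w28, w193, w150, w72] :=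
  split01 (m := w75) (by decide +kernel) tp1172 ch1209
lemma tp1174 : Good 0 ![w71, w10, w19, w193, w150, w72] :=
  split12 (m := w28) (by decide +kernel) tp1167 tp1173
lemma tp1175 : Good 0 ![w71, w10, w19, w192, w150, w72] :=
  split13 (m := w193) (by decide +kernel) ch1196 tp1174
lemma tp1176 : Good 0 ![w71, w10, w19, w192, w150, w70] :=
  split25 (m := w72) (by decide +kernel) tp1162 tp1175
lemma tp1177 : Good 0 ![w69, w10, w19, w192, w150, w70] :=
  split02 (m := w71) (by decide +kernel) tp1176 ch1210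
lemma tp1178 : Good 0 ![w69, w10, w19, w192, w149, w70] :=
  split14 (m := w150) (by decide +kernel) ch1190 tp1177
lemma tp1179 : Good 0 ![w69, w10, w19, w191, w149, w70] :=
  split13 (m := w192) (by decide +kernel) ch1189 tp1178
lemma tp1180 : Good 0 ![w69, w10, w19, w191, w149, w68] :=
  split15 (m := w70) (by decide +kernel) ch1188 tp1179
lemma tp1181 : Good 0 ![w15, w10, w19, w191, w149, w68] :=
  split01 (m := w69) (by decide +kernel) tp1180 ch1211
lemma tp1182 : Good 0 ![w15, w10, w19, w191, w133, w68] :=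
  split14 (m := w149) (by decide +kernel) ch1187 tp1181
lemma tp1183 : Good 0 ![w15, w10, w19, w191, w133, w7] :=
  split15 (m := w68) (by decide +kernel) ch1186 tp1182
lemma tp1184 : Good 0 ![w156, w28, w19, w195, w151, w79] :=
  split12 (m := w33) (by decide +kernel) ch1221 ch1222
lemma tp1185 : Good 0 ![w155, w28, w19, w195, w151, w79] :=
  split02 (m := w156) (by decide +kernel) tp1184 ch1223
lemma tp1186 : Good 0 ![w155, w28, w19, w195, w151, w78] :=
  split25 (m := w79) (by decide +kernel) ch1220 tp1185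
lemma tp1187 : Good 0 ![w155, w28, w19, w193, w151, w78] :=
  split23 (m := w195) (by decide +kernel) ch1219 tp1186
lemma tp1188 : Good 0 ![w155, w28, w19, w193, w150, w78] :=
  split24 (m := w151) (by decide +kernel) ch1218 tp1187
lemma tp1189 : Good 0 ![w157, w196, w28, w193, w152, w80] :=
  split23 (m := w197) (by decide +kernel) ch1226 ch1227
lemma tp1190 : Good 0 ![w157, w40, w28, w196, w158, w80] :=
  split23 (m := w198) (by decide +kernel) ch1229 ch1230
lemma tp1191 : Good 0 ![w157, w40, w28, w196, w152, w80] :=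
  split24 (m := w158) (by decide +kernel) ch1228 tp1190
lemma tp1192 : Good 0 ![w157, w10, w28, w196, w152, w80] :=
  split12 (m := w40) (by decide +kernel) tp1191 ch1231
lemma tp1193 : Good 0 ![w157, w10, w28, w193, w152, w80] :=
  split13 (m := w196) (by decide +kernel) tp1189 tp1192
lemma tp1194 : Good 0 ![w155, w10, w28, w193, w152, w80] :=
  split01 (m := w157) (by decide +kernel) tp1193 ch1232
lemma tp1195 : Good 0 ![w155, w10, w28, w193, w152, w78] :=
  split15 (m := w80) (by decide +kernel) ch1225 tp1194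
lemma tp1196 : Good 0 ![w155, w10, w28, w193, w150, w78] :=
  split14 (m := w152) (by decide +kernel) ch1224 tp1195
lemma tp1197 : Good 0 ![w155, w10, w19, w193, w150, w78] :=
  split12 (m := w28) (by decide +kernel) tp1188 tp1196
lemma tp1198 : Good 0 ![w155, w10, w19, w192, w150, w78] :=
  split13 (m := w193) (by decide +kernel) ch1217 tp1197
lemma tp1199 : Good 0 ![w154, w10, w19, w192, w150, w78] :=
  split01 (m := w155) (by decide +kernel) tp1198 ch1233
lemma tp1200 : Good 0 ![w154, w10, w19, w192, w150, w77] :=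
  split15 (m := w78) (by decide +kernel) ch1216 tp1199
lemma tp1201 : Good 0 ![w154, w10, w19, w192, w149, w77] :=
  split14 (m := w150) (by decide +kernel) ch1215 tp1200
lemma tp1202 : Good 0 ![w153, w10, w19, w192, w149, w77] :=
  split02 (m := w154) (by decide +kernel) tp1201 ch1234
lemma tp1203 : Good 0 ![w153, w10, w19, w191, w149, w77] :=
  split13 (m := w192) (by decide +kernel) ch1214 tp1202
lemma tp1204 : Good 0 ![w153, w10, w19, w191, w149, w15] :=
  split25 (m := w77) (by decide +kernel) ch1213 tp1203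
lemma tp1205 : Good 0 ![w153, w10, w19, w191, w133, w15] :=
  split14 (m := w149) (by decide +kernel) ch1212 tp1204
lemma tp1206 : Good 0 ![w201, w28, w19, w203, w155, w79] :=
  split02 (m := w204) (by decide +kernel) ch1242 ch1243
lemma tp1207 : Good 0 ![w201, w28, w19, w203, w155, w78] :=
  split25 (m := w79) (by decide +kernel) ch1241 tp1206
lemma tp1208 : Good 0 ![w205, w10, w28, w206, w157, w80] :=
  split01 (m := w207) (by decide +kernel) ch1247 ch1248
lemma tp1209 : Good 0 ![w205, w10, w28, w206, w155, w80] :=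
  split14 (m := w157) (by decide +kernel) ch1246 tp1208
lemma tp1210 : Good 0 ![w205, w10, w28, w206, w155, w78] :=
  split15 (m := w80) (by decide +kernel) ch1245 tp1209
lemma tp1211 : Good 0 ![w205, w10, w28, w203, w155, w78] :=
  split13 (m := w206) (by decide +kernel) ch1244 tp1210
lemma tp1212 : Good 0 ![w201, w10, w28, w203, w155, w78] :=
  split01 (m := w205) (by decide +kernel) tp1211 ch1249
lemma tp1213 : Good 0 ![w201, w10, w19, w203, w155, w78] :=
  split12 (m := w28) (by decide +kernel) tp1207 tp1212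
lemma tp1214 : Good 0 ![w201, w10, w19, w202, w155, w78] :=
  split23 (m := w203) (by decide +kernel) ch1240 tp1213
lemma tp1215 : Good 0 ![w201, w10, w19, w202, w154, w78] :=
  split14 (m := w155) (by decide +kernel) ch1239 tp1214
lemma tp1216 : Good 0 ![w201, w10, w19, w202, w154, w77] :=
  split15 (m := w78) (by decide +kernel) ch1238 tp1215
lemma tp1217 : Good 0 ![w201, w10, w19, w200, w154, w77] :=
  split13 (m := w202) (by decide +kernel) ch1237 tp1216
lemma tp1218 : Good 0 ![w199, w10, w19, w200, w154, w77] :=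
  split02 (m := w201) (by decide +kernel) tp1217 ch1250
lemma tp1219 : Good 0 ![w199, w10, w19, w200, w153, w77] :=
  split24 (m := w154) (by decide +kernel) ch1236 tp1218
lemma tp1220 : Good 0 ![w205, w10, w206, w193, w208, w78] :=
  split15 (m := w80) (by decide +kernel) ch1257 ch1258
lemma tp1221 : Good 0 ![w205, w10, w203, w193, w208, w78] :=
  split12 (m := w206) (by decide +kernel) ch1256 tp1220
lemma tp1222 : Good 0 ![w205, w10, w203, w193, w202, w78] :=
  split14 (m := w208) (by decide +kernel) ch1255 tp1221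
lemma tp1223 : Good 0 ![w201, w10, w203, w193, w202, w78] :=
  split01 (m := w205) (by decide +kernel) tp1222 ch1259
lemma tp1224 : Good 0 ![w209, w28, w19, w195, w203, w79] :=
  split12 (m := w33) (by decide +kernel) ch1262 ch1263
lemma tp1225 : Good 0 ![w205, w28, w19, w195, w203, w79] :=
  split02 (m := w209) (by decide +kernel) tp1224 ch1264
lemma tp1226 : Good 0 ![w205, w28, w19, w195, w203, w78] :=
  split25 (m := w79) (by decide +kernel) ch1261 tp1225
lemma tp1227 : Good 0 ![w205, w28, w19, w193, w203, w78] :=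
  split23 (m := w195) (by decide +kernel) ch1260 tp1226
lemma tp1228 : Good 0 ![w207, w40, w198, w196, w206, w80] :=
  split15 (m := w210) (by decide +kernel) ch1268 ch1269
lemma tp1229 : Good 0 ![w207, w40, w28, w196, w206, w80] :=
  split23 (m := w198) (by decide +kernel) tp1228 ch1270
lemma tp1230 : Good 0 ![w207, w10, w28, w196, w206, w80] :=
  split12 (m := w40) (by decide +kernel) tp1229 ch1271
lemma tp1231 : Good 0 ![w207, w10, w28, w193, w206, w80] :=
  split13 (m := w196) (by decide +kernel) ch1267 tp1230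
lemma tp1232 : Good 0 ![w205, w10, w28, w193, w206, w80] :=
  split01 (m := w207) (by decide +kernel) tp1231 ch1272
lemma tp1233 : Good 0 ![w205, w10, w28, w193, w206, w78] :=
  split15 (m := w80) (by decide +kernel) ch1266 tp1232
lemma tp1234 : Good 0 ![w205, w10, w28, w193, w203, w78] :=
  split14 (m := w206) (by decide +kernel) ch1265 tp1233
lemma tp1235 : Good 0 ![w205, w10, w19, w193, w203, w78] :=
  split12 (m := w28) (by decide +kernel) tp1227 tp1234
lemma tp1236 : Good 0 ![w201, w10, w19, w193, w203, w78] :=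
  split01 (m := w205) (by decide +kernel) tp1235 ch1273
lemma tp1237 : Good 0 ![w201, w10, w19, w193, w202, w78] :=
  split24 (m := w203) (by decide +kernel) tp1223 tp1236
lemma tp1238 : Good 0 ![w201, w10, w19, w192, w202, w78] :=
  split13 (m := w193) (by decide +kernel) ch1254 tp1237
lemma tp1239 : Good 0 ![w201, w10, w19, w192, w202, w77] :=
  split15 (m := w78) (by decide +kernel) ch1253 tp1238
lemma tp1240 : Good 0 ![w201, w10, w19, w192, w200, w77] :=
  split14 (m := w202) (by decide +kernel) ch1252 tp1239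
lemma tp1241 : Good 0 ![w199, w10, w19, w192, w200, w77] :=
  split02 (m := w201) (by decide +kernel) tp1240 ch1274
lemma tp1242 : Good 0 ![w199, w10, w19, w191, w200, w77] :=
  split13 (m := w192) (by decide +kernel) ch1251 tp1241
lemma tp1243 : Good 0 ![w199, w10, w19, w191, w153, w77] :=
  split34 (m := w200) (by decide +kernel) tp1219 tp1242
lemma tp1244 : Good 0 ![w199, w10, w19, w191, w153, w15] :=
  split25 (m := w77) (by decide +kernel) ch1235 tp1243
lemma tp1245 : Good 0 ![w64, w28, w19, w204, w156, w79] :=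
  split12 (m := w33) (by decide +kernel) ch1283 ch1284
lemma tp1246 : Good 0 ![w62, w28, w19, w204, w156, w79] :=
  split02 (m := w64) (by decide +kernel) tp1245 ch1285
lemma tp1247 : Good 0 ![w62, w28, w19, w204, w155, w79] :=
  split24 (m := w156) (by decide +kernel) ch1282 tp1246
lemma tp1248 : Good 0 ![w62, w28, w19, w201, w155, w79] :=
  split23 (m := w204) (by decide +kernel) ch1281 tp1247
lemma tp1249 : Good 0 ![w62, w28, w19, w201, w155, w78] :=
  split25 (m := w79) (by decide +kernel) ch1280 tp1248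
lemma tp1250 : Good 0 ![w66, w10, w28, w207, w157, w80] :=
  split01 (m := w67) (by decide +kernel) ch1290 ch1291
lemma tp1251 : Good 0 ![w66, w10, w28, w205, w157, w80] :=
  split13 (m := w207) (by decide +kernel) ch1289 tp1250
lemma tp1252 : Good 0 ![w66, w10, w28, w205, w155, w80] :=
  split14 (m := w157) (by decide +kernel) ch1288 tp1251
lemma tp1253 : Good 0 ![w66, w10, w28, w205, w155, w78] :=
  split15 (m := w80) (by decide +kernel) ch1287 tp1252
lemma tp1254 : Good 0 ![w62, w10, w28, w205, w155, w78] :=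
  split01 (m := w66) (by decide +kernel) tp1253 ch1292
lemma tp1255 : Good 0 ![w62, w10, w28, w201, w155, w78] :=
  split13 (m := w205) (by decide +kernel) ch1286 tp1254
lemma tp1256 : Good 0 ![w62, w10, w19, w201, w155, w78] :=
  split12 (m := w28) (by decide +kernel) tp1249 tp1255
lemma tp1257 : Good 0 ![w62, w10, w19, w201, w154, w78] :=
  split14 (m := w155) (by decide +kernel) ch1279 tp1256
lemma tp1258 : Good 0 ![w62, w10, w19, w201, w154, w77] :=
  split15 (m := w78) (by decide +kernel) ch1278 tp1257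
lemma tp1259 : Good 0 ![w61, w10, w19, w201, w154, w77] :=
  split02 (m := w62) (by decide +kernel) tp1258 ch1293
lemma tp1260 : Good 0 ![w61, w10, w19, w199, w154, w77] :=
  split23 (m := w201) (by decide +kernel) ch1277 tp1259
lemma tp1261 : Good 0 ![w61, w10, w19, w199, w153, w77] :=
  split24 (m := w154) (by decide +kernel) ch1276 tp1260
lemma tp1262 : Good 0 ![w61, w10, w19, w199, w153, w15] :=
  split25 (m := w77) (by decide +kernel) ch1275 tp1261
lemma tp1263 : Good 0 ![w0, w10, w19, w199, w153, w15] :=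
  split02 (m := w61) (by decide +kernel) tp1262 ch1294
lemma tp1264 : Good 0 ![w0, w10, w19, w191, w153, w15] :=
  split03 (m := w199) (by decide +kernel) tp1244 tp1263
lemma tp1265 : Good 0 ![w0, w10, w19, w191, w133, w15] :=
  split04 (m := w153) (by decide +kernel) tp1205 tp1264
lemma tp1266 : Good 0 ![w0, w10, w19, w191, w133, w7] :=
  split05 (m := w15) (by decide +kernel) tp1183 tp1265
lemma tp1267 : Good 0 ![w168, w10, w38, w167, w105, w35] :=
  split13 (m := w169) (by decide +kernel) ch1304 ch1305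
lemma tp1268 : Good 0 ![w168, w10, w38, w167, w103, w35] :=
  split14 (m := w105) (by decide +kernel) ch1303 tp1267
lemma tp1269 : Good 0 ![w168, w10, w29, w167, w103, w35] :=
  split12 (m := w38) (by decide +kernel) ch1302 tp1268
lemma tp1270 : Good 0 ![w168, w10, w29, w167, w103, w25] :=
  split15 (m := w35) (by decide +kernel) ch1301 tp1269
lemma tp1271 : Good 0 ![w170, w10, w29, w167, w103, w25] :=
  split01 (m := w168) (by decide +kernel) tp1270 ch1306
lemma tp1272 : Good 0 ![w170, w28, w19, w171, w104, w32] :=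
  split12 (m := w33) (by decide +kernel) ch1310 ch1311
lemma tp1273 : Good 0 ![w170, w28, w19, w171, w104, w29] :=
  split25 (m := w32) (by decide +kernel) ch1309 tp1272
lemma tp1274 : Good 0 ![w170, w28, w19, w167, w104, w29] :=
  split23 (m := w171) (by decide +kernel) ch1308 tp1273
lemma tp1275 : Good 0 ![w170, w28, w19, w167, w103, w29] :=
  split24 (m := w104) (by decide +kernel) ch1307 tp1274
lemma tp1276 : Good 0 ![w168, w40, w28, w169, w105, w38] :=
  split24 (m := w111) (by decide +kernel) ch1315 ch1316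
lemma tp1277 : Good 0 ![w168, w10, w40, w169, w105, w38] :=
  split01 (m := w172) (by decide +kernel) ch1317 ch1318
lemma tp1278 : Good 0 ![w168, w10, w28, w169, w105, w38] :=
  split12 (m := w40) (by decide +kernel) tp1276 tp1277
lemma tp1279 : Good 0 ![w168, w10, w28, w167, w105, w38] :=
  split13 (m := w169) (by decide +kernel) ch1314 tp1278
lemma tp1280 : Good 0 ![w168, w10, w28, w167, w103, w38] :=
  split14 (m := w105) (by decide +kernel) ch1313 tp1279
lemma tp1281 : Good 0 ![w168, w10, w28, w167, w103, w29] :=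
  split15 (m := w38) (by decide +kernel) ch1312 tp1280
lemma tp1282 : Good 0 ![w170, w10, w28, w167, w103, w29] :=
  split01 (m := w168) (by decide +kernel) tp1281 ch1319
lemma tp1283 : Good 0 ![w170, w10, w19, w167, w103, w29] :=
  split12 (m := w28) (by decide +kernel) tp1275 tp1282
lemma tp1284 : Good 0 ![w170, w10, w19, w167, w103, w25] :=
  split25 (m := w29) (by decide +kernel) tp1271 tp1283
lemma tp1285 : Good 0 ![w173, w10, w168, w169, w105, w35] :=
  split01 (m := w174) (by decide +kernel) ch1324 ch1325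
lemma tp1286 : Good 0 ![w173, w10, w168, w167, w105, w35] :=
  split13 (m := w169) (by decide +kernel) ch1323 tp1285
lemma tp1287 : Good 0 ![w173, w10, w168, w167, w103, w35] :=
  split14 (m := w105) (by decide +kernel) ch1322 tp1286
lemma tp1288 : Good 0 ![w173, w10, w168, w167, w103, w25] :=
  split15 (m := w35) (by decide +kernel) ch1321 tp1287
lemma tp1289 : Good 0 ![w173, w10, w170, w167, w103, w25] :=
  split12 (m := w168) (by decide +kernel) ch1320 tp1288
lemma tp1290 : Good 0 ![w166, w10, w170, w167, w103, w25] :=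
  split01 (m := w173) (by decide +kernel) tp1289 ch1326
lemma tp1291 : Good 0 ![w166, w10, w19, w167, w103, w25] :=
  split02 (m := w170) (by decide +kernel) tp1284 tp1290
lemma tp1292 : Good 0 ![w166, w10, w19, w165, w103, w25] :=
  split13 (m := w167) (by decide +kernel) ch1300 tp1291
lemma tp1293 : Good 0 ![w166, w10, w19, w165, w103, w20] :=
  split15 (m := w25) (by decide +kernel) ch1299 tp1292
lemma tp1294 : Good 0 ![w166, w10, w19, w165, w102, w20] :=
  split14 (m := w103) (by decide +kernel) ch1298 tp1293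
lemma tp1295 : Good 0 ![w164, w10, w19, w165, w102, w20] :=
  split01 (m := w166) (by decide +kernel) tp1294 ch1327
lemma tp1296 : Good 0 ![w164, w10, w19, w163, w102, w20] :=
  split13 (m := w165) (by decide +kernel) ch1297 tp1295
lemma tp1297 : Good 0 ![w42, w10, w168, w173, w103, w25] :=
  split15 (m := w35) (by decide +kernel) ch1333 ch1334
lemma tp1298 : Good 0 ![w42, w10, w170, w173, w103, w25] :=
  split12 (m := w168) (by decide +kernel) ch1332 tp1297
lemma tp1299 : Good 0 ![w42, w10, w170, w166, w103, w25] :=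
  split13 (m := w173) (by decide +kernel) ch1331 tp1298
lemma tp1300 : Good 0 ![w42, w28, w19, w170, w104, w29] :=
  split02 (m := w53) (by decide +kernel) ch1337 ch1338
lemma tp1301 : Good 0 ![w42, w28, w19, w170, w103, w29] :=
  split24 (m := w104) (by decide +kernel) ch1336 tp1300
lemma tp1302 : Good 0 ![w42, w28, w19, w170, w103, w25] :=
  split25 (m := w29) (by decide +kernel) ch1335 tp1301
lemma tp1303 : Good 0 ![w43, w10, w28, w168, w105, w38] :=
  split12 (m := w40) (by decide +kernel) ch1343 ch1344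
lemma tp1304 : Good 0 ![w43, w10, w28, w168, w105, w35] :=
  split25 (m := w38) (by decide +kernel) ch1342 tp1303
lemma tp1305 : Good 0 ![w42, w10, w28, w168, w105, w35] :=
  split01 (m := w43) (by decide +kernel) tp1304 ch1345
lemma tp1306 : Good 0 ![w42, w10, w28, w168, w103, w35] :=
  split14 (m := w105) (by decide +kernel) ch1341 tp1305
lemma tp1307 : Good 0 ![w42, w10, w28, w168, w103, w25] :=
  split15 (m := w35) (by decide +kernel) ch1340 tp1306
lemma tp1308 : Good 0 ![w42, w10, w28, w170, w103, w25] :=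
  split13 (m := w168) (by decide +kernel) ch1339 tp1307
lemma tp1309 : Good 0 ![w42, w10, w19, w170, w103, w25] :=
  split12 (m := w28) (by decide +kernel) tp1302 tp1308
lemma tp1310 : Good 0 ![w42, w10, w19, w166, w103, w25] :=
  split23 (m := w170) (by decide +kernel) tp1299 tp1309
lemma tp1311 : Good 0 ![w41, w10, w19, w166, w103, w25] :=
  split01 (m := w42) (by decide +kernel) tp1310 ch1346
lemma tp1312 : Good 0 ![w41, w10, w19, w166, w103, w20] :=
  split15 (m := w25) (by decide +kernel) ch1330 tp1311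
lemma tp1313 : Good 0 ![w41, w10, w19, w166, w102, w20] :=
  split14 (m := w103) (by decide +kernel) ch1329 tp1312
lemma tp1314 : Good 0 ![w41, w10, w19, w164, w102, w20] :=
  split13 (m := w166) (by decide +kernel) ch1328 tp1313
lemma tp1315 : Good 0 ![w13, w10, w19, w164, w102, w20] :=
  split02 (m := w41) (by decide +kernel) tp1314 ch1347
lemma tp1316 : Good 0 ![w13, w10, w19, w163, w102, w20] :=
  split03 (m := w164) (by decide +kernel) tp1296 tp1315
lemma tp1317 : Good 0 ![w13, w10, w19, w163, w102, w5] :=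
  split15 (m := w20) (by decide +kernel) ch1296 tp1316
lemma tp1318 : Good 0 ![w13, w10, w19, w163, w14, w5] :=
  split14 (m := w102) (by decide +kernel) ch1295 tp1317
lemma tp1319 : Good 0 ![w108, w28, w19, w170, w104, w42] :=
  split25 (m := w53) (by decide +kernel) ch1355 ch1356
lemma tp1320 : Good 0 ![w108, w28, w19, w170, w103, w42] :=
  split24 (m := w104) (by decide +kernel) ch1354 tp1319
lemma tp1321 : Good 0 ![w109, w40, w28, w168, w105, w43] :=
  split24 (m := w111) (by decide +kernel) ch1360 ch1361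
lemma tp1322 : Good 0 ![w109, w10, w28, w168, w105, w43] :=
  split12 (m := w40) (by decide +kernel) tp1321 ch1362
lemma tp1323 : Good 0 ![w108, w10, w28, w168, w105, w43] :=
  split01 (m := w109) (by decide +kernel) tp1322 ch1363
lemma tp1324 : Good 0 ![w108, w10, w28, w168, w105, w42] :=
  split15 (m := w43) (by decide +kernel) ch1359 tp1323
lemma tp1325 : Good 0 ![w108, w10, w28, w168, w103, w42] :=
  split14 (m := w105) (by decide +kernel) ch1358 tp1324
lemma tp1326 : Good 0 ![w108, w10, w28, w170, w103, w42] :=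
  split13 (m := w168) (by decide +kernel) ch1357 tp1325
lemma tp1327 : Good 0 ![w108, w10, w19, w170, w103, w42] :=
  split12 (m := w28) (by decide +kernel) tp1320 tp1326
lemma tp1328 : Good 0 ![w108, w10, w19, w166, w103, w42] :=
  split23 (m := w170) (by decide +kernel) ch1353 tp1327
lemma tp1329 : Good 0 ![w107, w10, w19, w166, w103, w42] :=
  split01 (m := w108) (by decide +kernel) tp1328 ch1364
lemma tp1330 : Good 0 ![w107, w10, w19, w166, w103, w41] :=
  split15 (m := w42) (by decide +kernel) ch1352 tp1329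
lemma tp1331 : Good 0 ![w107, w10, w19, w166, w102, w41] :=
  split14 (m := w103) (by decide +kernel) ch1351 tp1330
lemma tp1332 : Good 0 ![w107, w10, w19, w164, w102, w41] :=
  split13 (m := w166) (by decide +kernel) ch1350 tp1331
lemma tp1333 : Good 0 ![w107, w10, w19, w164, w102, w13] :=
  split25 (m := w41) (by decide +kernel) ch1349 tp1332
lemma tp1334 : Good 0 ![w106, w10, w19, w164, w102, w13] :=
  split02 (m := w107) (by decide +kernel) tp1333 ch1365
lemma tp1335 : Good 0 ![w109, w10, w168, w167, w105, w173] :=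
  split13 (m := w169) (by decide +kernel) ch1373 ch1374
lemma tp1336 : Good 0 ![w108, w10, w168, w167, w105, w173] :=
  split01 (m := w109) (by decide +kernel) tp1335 ch1375
lemma tp1337 : Good 0 ![w108, w10, w168, w167, w103, w173] :=
  split14 (m := w105) (by decide +kernel) ch1372 tp1336
lemma tp1338 : Good 0 ![w108, w10, w170, w167, w103, w173] :=
  split12 (m := w168) (by decide +kernel) ch1371 tp1337
lemma tp1339 : Good 0 ![w108, w10, w170, w167, w103, w166] :=
  split15 (m := w173) (by decide +kernel) ch1370 tp1338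
lemma tp1340 : Good 0 ![w110, w28, w19, w171, w104, w175] :=
  split12 (m := w33) (by decide +kernel) ch1379 ch1380
lemma tp1341 : Good 0 ![w110, w28, w19, w171, w104, w170] :=
  split25 (m := w175) (by decide +kernel) ch1378 tp1340
lemma tp1342 : Good 0 ![w108, w28, w19, w171, w104, w170] :=
  split02 (m := w110) (by decide +kernel) tp1341 ch1381
lemma tp1343 : Good 0 ![w108, w28, w19, w167, w104, w170] :=
  split23 (m := w171) (by decide +kernel) ch1377 tp1342
lemma tp1344 : Good 0 ![w108, w28, w19, w167, w103, w170] :=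
  split24 (m := w104) (by decide +kernel) ch1376 tp1343
lemma tp1345 : Good 0 ![w109, w169, w28, w167, w105, w168] :=
  split23 (m := w176) (by decide +kernel) ch1384 ch1385
lemma tp1346 : Good 0 ![w109, w40, w28, w169, w111, w168] :=
  split23 (m := w177) (by decide +kernel) ch1387 ch1388
lemma tp1347 : Good 0 ![w109, w40, w28, w169, w105, w168] :=
  split24 (m := w111) (by decide +kernel) ch1386 tp1346
lemma tp1348 : Good 0 ![w109, w10, w28, w169, w105, w168] :=
  split12 (m := w40) (by decide +kernel) tp1347 ch1389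
lemma tp1349 : Good 0 ![w109, w10, w28, w167, w105, w168] :=
  split13 (m := w169) (by decide +kernel) tp1345 tp1348
lemma tp1350 : Good 0 ![w108, w10, w28, w167, w105, w168] :=
  split01 (m := w109) (by decide +kernel) tp1349 ch1390
lemma tp1351 : Good 0 ![w108, w10, w28, w167, w103, w168] :=
  split14 (m := w105) (by decide +kernel) ch1383 tp1350
lemma tp1352 : Good 0 ![w108, w10, w28, w167, w103, w170] :=
  split15 (m := w168) (by decide +kernel) ch1382 tp1351
lemma tp1353 : Good 0 ![w108, w10, w19, w167, w103, w170] :=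
  split12 (m := w28) (by decide +kernel) tp1344 tp1352
lemma tp1354 : Good 0 ![w108, w10, w19, w167, w103, w166] :=
  split25 (m := w170) (by decide +kernel) tp1339 tp1353
lemma tp1355 : Good 0 ![w108, w10, w19, w165, w103, w166] :=
  split13 (m := w167) (by decide +kernel) ch1369 tp1354
lemma tp1356 : Good 0 ![w107, w10, w19, w165, w103, w166] :=
  split01 (m := w108) (by decide +kernel) tp1355 ch1391
lemma tp1357 : Good 0 ![w107, w10, w19, w165, w102, w166] :=
  split14 (m := w103) (by decide +kernel) ch1368 tp1356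
lemma tp1358 : Good 0 ![w107, w10, w19, w165, w102, w164] :=
  split15 (m := w166) (by decide +kernel) ch1367 tp1357
lemma tp1359 : Good 0 ![w211, w10, w108, w165, w103, w166] :=
  split03 (m := w212) (by decide +kernel) ch1395 ch1396
lemma tp1360 : Good 0 ![w211, w10, w107, w165, w103, w166] :=
  split12 (m := w108) (by decide +kernel) ch1394 tp1359
lemma tp1361 : Good 0 ![w211, w10, w107, w165, w102, w166] :=
  split14 (m := w103) (by decide +kernel) ch1393 tp1360
lemma tp1362 : Good 0 ![w211, w10, w107, w165, w102, w164] :=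
  split15 (m := w166) (by decide +kernel) ch1392 tp1361
lemma tp1363 : Good 0 ![w106, w10, w107, w165, w102, w164] :=
  split01 (m := w211) (by decide +kernel) tp1362 ch1397
lemma tp1364 : Good 0 ![w106, w10, w19, w165, w102, w164] :=
  split02 (m := w107) (by decide +kernel) tp1358 tp1363
lemma tp1365 : Good 0 ![w106, w10, w19, w163, w102, w164] :=
  split13 (m := w165) (by decide +kernel) ch1366 tp1364
lemma tp1366 : Good 0 ![w106, w10, w19, w163, w102, w13] :=
  split35 (m := w164) (by decide +kernel) tp1334 tp1365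
lemma tp1367 : Good 0 ![w106, w10, w19, w163, w14, w13] :=
  split14 (m := w102) (by decide +kernel) ch1348 tp1366
lemma tp1368 : Good 0 ![w182, w28, w19, w170, w108, w53] :=
  split24 (m := w110) (by decide +kernel) ch1405 ch1406
lemma tp1369 : Good 0 ![w182, w28, w19, w170, w108, w42] :=
  split25 (m := w53) (by decide +kernel) ch1404 tp1368
lemma tp1370 : Good 0 ![w181, w28, w19, w170, w108, w42] :=
  split02 (m := w182) (by decide +kernel) tp1369 ch1407
lemma tp1371 : Good 0 ![w183, w10, w28, w168, w108, w43] :=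
  split14 (m := w109) (by decide +kernel) ch1410 ch1411
lemma tp1372 : Good 0 ![w183, w10, w28, w168, w108, w42] :=
  split15 (m := w43) (by decide +kernel) ch1409 tp1371
lemma tp1373 : Good 0 ![w183, w10, w28, w170, w108, w42] :=
  split13 (m := w168) (by decide +kernel) ch1408 tp1372
lemma tp1374 : Good 0 ![w181, w10, w28, w170, w108, w42] :=
  split01 (m := w183) (by decide +kernel) tp1373 ch1412
lemma tp1375 : Good 0 ![w181, w10, w19, w170, w108, w42] :=
  split12 (m := w28) (by decide +kernel) tp1370 tp1374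
lemma tp1376 : Good 0 ![w181, w10, w19, w166, w108, w42] :=
  split23 (m := w170) (by decide +kernel) ch1403 tp1375
lemma tp1377 : Good 0 ![w181, w10, w19, w166, w107, w42] :=
  split14 (m := w108) (by decide +kernel) ch1402 tp1376
lemma tp1378 : Good 0 ![w181, w10, w19, w166, w107, w41] :=
  split15 (m := w42) (by decide +kernel) ch1401 tp1377
lemma tp1379 : Good 0 ![w181, w10, w19, w164, w107, w41] :=
  split13 (m := w166) (by decide +kernel) ch1400 tp1378
lemma tp1380 : Good 0 ![w180, w10, w19, w164, w107, w41] :=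
  split02 (m := w181) (by decide +kernel) tp1379 ch1413
lemma tp1381 : Good 0 ![w180, w10, w19, w164, w107, w13] :=
  split25 (m := w41) (by decide +kernel) ch1399 tp1380
lemma tp1382 : Good 0 ![w180, w10, w19, w164, w106, w13] :=
  split24 (m := w107) (by decide +kernel) ch1398 tp1381
lemma tp1383 : Good 0 ![w182, w28, w19, w214, w110, w170] :=
  split25 (m := w175) (by decide +kernel) ch1421 ch1422
lemma tp1384 : Good 0 ![w182, w28, w19, w214, w108, w170] :=
  split24 (m := w110) (by decide +kernel) ch1420 tp1383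
lemma tp1385 : Good 0 ![w181, w28, w19, w214, w108, w170] :=
  split02 (m := w182) (by decide +kernel) tp1384 ch1423
lemma tp1386 : Good 0 ![w187, w10, w28, w215, w109, w168] :=
  split12 (m := w40) (by decide +kernel) ch1427 ch1428
lemma tp1387 : Good 0 ![w183, w10, w28, w215, w109, w168] :=
  split01 (m := w187) (by decide +kernel) tp1386 ch1429
lemma tp1388 : Good 0 ![w183, w10, w28, w215, w108, w168] :=
  split14 (m := w109) (by decide +kernel) ch1426 tp1387
lemma tp1389 : Good 0 ![w183, w10, w28, w214, w108, w168] :=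
  split13 (m := w215) (by decide +kernel) ch1425 tp1388
lemma tp1390 : Good 0 ![w183, w10, w28, w214, w108, w170] :=
  split15 (m := w168) (by decide +kernel) ch1424 tp1389
lemma tp1391 : Good 0 ![w181, w10, w28, w214, w108, w170] :=
  split01 (m := w183) (by decide +kernel) tp1390 ch1430
lemma tp1392 : Good 0 ![w181, w10, w19, w214, w108, w170] :=
  split12 (m := w28) (by decide +kernel) tp1385 tp1391
lemma tp1393 : Good 0 ![w181, w10, w19, w212, w108, w170] :=
  split23 (m := w214) (by decide +kernel) ch1419 tp1392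
lemma tp1394 : Good 0 ![w181, w10, w19, w212, w108, w166] :=
  split25 (m := w170) (by decide +kernel) ch1418 tp1393
lemma tp1395 : Good 0 ![w181, w10, w19, w212, w107, w166] :=
  split14 (m := w108) (by decide +kernel) ch1417 tp1394
lemma tp1396 : Good 0 ![w181, w10, w19, w212, w107, w164] :=
  split15 (m := w166) (by decide +kernel) ch1416 tp1395
lemma tp1397 : Good 0 ![w181, w10, w19, w213, w107, w164] :=
  split13 (m := w212) (by decide +kernel) ch1415 tp1396
lemma tp1398 : Good 0 ![w180, w10, w19, w213, w107, w164] :=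
  split02 (m := w181) (by decide +kernel) tp1397 ch1431
lemma tp1399 : Good 0 ![w180, w10, w19, w213, w106, w164] :=
  split24 (m := w107) (by decide +kernel) ch1414 tp1398
lemma tp1400 : Good 0 ![w187, w10, w168, w167, w216, w173] :=
  split13 (m := w169) (by decide +kernel) ch1439 ch1440
lemma tp1401 : Good 0 ![w183, w10, w168, w167, w216, w173] :=
  split01 (m := w187) (by decide +kernel) tp1400 ch1441
lemma tp1402 : Good 0 ![w183, w10, w170, w167, w216, w173] :=
  split12 (m := w168) (by decide +kernel) ch1438 tp1401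
lemma tp1403 : Good 0 ![w183, w10, w170, w167, w212, w173] :=
  split14 (m := w216) (by decide +kernel) ch1437 tp1402
lemma tp1404 : Good 0 ![w183, w10, w170, w167, w212, w166] :=
  split15 (m := w173) (by decide +kernel) ch1436 tp1403
lemma tp1405 : Good 0 ![w181, w10, w170, w167, w212, w166] :=
  split01 (m := w183) (by decide +kernel) tp1404 ch1442
lemma tp1406 : Good 0 ![w187, w10, w215, w167, w216, w168] :=
  split13 (m := w169) (by decide +kernel) ch1446 ch1447
lemma tp1407 : Good 0 ![w183, w10, w215, w167, w216, w168] :=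
  split01 (m := w187) (by decide +kernel) tp1406 ch1448
lemma tp1408 : Good 0 ![w183, w10, w214, w167, w216, w168] :=
  split12 (m := w215) (by decide +kernel) ch1445 tp1407
lemma tp1409 : Good 0 ![w183, w10, w214, w167, w216, w170] :=
  split15 (m := w168) (by decide +kernel) ch1444 tp1408
lemma tp1410 : Good 0 ![w183, w10, w214, w167, w212, w170] :=
  split14 (m := w216) (by decide +kernel) ch1443 tp1409
lemma tp1411 : Good 0 ![w181, w10, w214, w167, w212, w170] :=
  split01 (m := w183) (by decide +kernel) tp1410 ch1449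
lemma tp1412 : Good 0 ![w189, w28, w19, w171, w214, w175] :=
  split12 (m := w33) (by decide +kernel) ch1452 ch1453
lemma tp1413 : Good 0 ![w189, w28, w19, w171, w214, w170] :=
  split25 (m := w175) (by decide +kernel) ch1451 tp1412
lemma tp1414 : Good 0 ![w183, w28, w19, w171, w214, w170] :=
  split02 (m := w189) (by decide +kernel) tp1413 ch1454
lemma tp1415 : Good 0 ![w183, w28, w19, w167, w214, w170] :=
  split23 (m := w171) (by decide +kernel) ch1450 tp1414
lemma tp1416 : Good 0 ![w187, w40, w177, w169, w215, w168] :=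
  split13 (m := w190) (by decide +kernel) ch1458 ch1459
lemma tp1417 : Good 0 ![w187, w40, w28, w169, w215, w168] :=
  split23 (m := w177) (by decide +kernel) tp1416 ch1460
lemma tp1418 : Good 0 ![w187, w172, w40, w169, w215, w168] :=
  split23 (m := w190) (by decide +kernel) ch1461 ch1462
lemma tp1419 : Good 0 ![w187, w10, w40, w169, w215, w168] :=
  split15 (m := w172) (by decide +kernel) tp1418 ch1463
lemma tp1420 : Good 0 ![w187, w10, w28, w169, w215, w168] :=
  split12 (m := w40) (by decide +kernel) tp1417 tp1419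
lemma tp1421 : Good 0 ![w187, w10, w28, w167, w215, w168] :=
  split13 (m := w169) (by decide +kernel) ch1457 tp1420
lemma tp1422 : Good 0 ![w183, w10, w28, w167, w215, w168] :=
  split01 (m := w187) (by decide +kernel) tp1421 ch1464
lemma tp1423 : Good 0 ![w183, w10, w28, w167, w214, w168] :=
  split14 (m := w215) (by decide +kernel) ch1456 tp1422
lemma tp1424 : Good 0 ![w183, w10, w28, w167, w214, w170] :=
  split15 (m := w168) (by decide +kernel) ch1455 tp1423
lemma tp1425 : Good 0 ![w183, w10, w19, w167, w214, w170] :=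
  split12 (m := w28) (by decide +kernel) tp1415 tp1424
lemma tp1426 : Good 0 ![w181, w10, w19, w167, w214, w170] :=
  split01 (m := w183) (by decide +kernel) tp1425 ch1465
lemma tp1427 : Good 0 ![w181, w10, w19, w167, w212, w170] :=
  split24 (m := w214) (by decide +kernel) tp1411 tp1426
lemma tp1428 : Good 0 ![w181, w10, w19, w167, w212, w166] :=
  split25 (m := w170) (by decide +kernel) tp1405 tp1427
lemma tp1429 : Good 0 ![w181, w10, w19, w165, w212, w166] :=
  split13 (m := w167) (by decide +kernel) ch1435 tp1428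
lemma tp1430 : Good 0 ![w181, w10, w19, w165, w212, w164] :=
  split15 (m := w166) (by decide +kernel) ch1434 tp1429
lemma tp1431 : Good 0 ![w181, w10, w19, w165, w213, w164] :=
  split14 (m := w212) (by decide +kernel) ch1433 tp1430
lemma tp1432 : Good 0 ![w180, w10, w181, w165, w212, w164] :=
  split15 (m := w166) (by decide +kernel) ch1467 ch1468
lemma tp1433 : Good 0 ![w180, w10, w181, w165, w213, w164] :=
  split14 (m := w212) (by decide +kernel) ch1466 tp1432
lemma tp1434 : Good 0 ![w180, w10, w19, w165, w213, w164] :=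
  split02 (m := w181) (by decide +kernel) tp1431 tp1433
lemma tp1435 : Good 0 ![w180, w10, w19, w163, w213, w164] :=
  split13 (m := w165) (by decide +kernel) ch1432 tp1434
lemma tp1436 : Good 0 ![w180, w10, w19, w163, w106, w164] :=
  split34 (m := w213) (by decide +kernel) tp1399 tp1435
lemma tp1437 : Good 0 ![w180, w10, w19, w163, w106, w13] :=
  split35 (m := w164) (by decide +kernel) tp1382 tp1436
lemma tp1438 : Good 0 ![w62, w108, w19, w181, w116, w53] :=
  split12 (m := w110) (by decide +kernel) ch1475 ch1476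
lemma tp1439 : Good 0 ![w62, w108, w19, w181, w116, w42] :=
  split25 (m := w53) (by decide +kernel) ch1474 tp1438
lemma tp1440 : Good 0 ![w62, w108, w19, w181, w107, w42] :=
  split24 (m := w116) (by decide +kernel) ch1473 tp1439
lemma tp1441 : Good 0 ![w64, w33, w19, w182, w110, w53] :=
  split25 (m := w65) (by decide +kernel) ch1480 ch1481
lemma tp1442 : Good 0 ![w64, w28, w19, w182, w110, w53] :=
  split12 (m := w33) (by decide +kernel) tp1441 ch1482
lemma tp1443 : Good 0 ![w62, w28, w19, w182, w110, w53] :=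
  split02 (m := w64) (by decide +kernel) tp1442 ch1483
lemma tp1444 : Good 0 ![w62, w28, w19, w182, w108, w53] :=
  split24 (m := w110) (by decide +kernel) ch1479 tp1443
lemma tp1445 : Good 0 ![w62, w28, w19, w182, w108, w42] :=
  split25 (m := w53) (by decide +kernel) ch1478 tp1444
lemma tp1446 : Good 0 ![w62, w28, w19, w181, w108, w42] :=
  split23 (m := w182) (by decide +kernel) ch1477 tp1445
lemma tp1447 : Good 0 ![w66, w10, w28, w187, w109, w43] :=
  split01 (m := w67) (by decide +kernel) ch1488 ch1489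
lemma tp1448 : Good 0 ![w66, w10, w28, w183, w109, w43] :=
  split13 (m := w187) (by decide +kernel) ch1487 tp1447
lemma tp1449 : Good 0 ![w66, w10, w28, w183, w108, w43] :=
  split14 (m := w109) (by decide +kernel) ch1486 tp1448
lemma tp1450 : Good 0 ![w66, w10, w28, w183, w108, w42] :=
  split15 (m := w43) (by decide +kernel) ch1485 tp1449
lemma tp1451 : Good 0 ![w62, w10, w28, w183, w108, w42] :=
  split01 (m := w66) (by decide +kernel) tp1450 ch1490
lemma tp1452 : Good 0 ![w62, w10, w28, w181, w108, w42] :=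
  split13 (m := w183) (by decide +kernel) ch1484 tp1451
lemma tp1453 : Good 0 ![w62, w10, w19, w181, w108, w42] :=
  split12 (m := w28) (by decide +kernel) tp1446 tp1452
lemma tp1454 : Good 0 ![w62, w10, w19, w181, w107, w42] :=
  split14 (m := w108) (by decide +kernel) tp1440 tp1453
lemma tp1455 : Good 0 ![w62, w10, w19, w181, w107, w41] :=
  split15 (m := w42) (by decide +kernel) ch1472 tp1454
lemma tp1456 : Good 0 ![w61, w10, w19, w181, w107, w41] :=
  split02 (m := w62) (by decide +kernel) tp1455 ch1491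
lemma tp1457 : Good 0 ![w61, w10, w19, w180, w107, w41] :=
  split23 (m := w181) (by decide +kernel) ch1471 tp1456
lemma tp1458 : Good 0 ![w61, w10, w19, w180, w107, w13] :=
  split25 (m := w41) (by decide +kernel) ch1470 tp1457
lemma tp1459 : Good 0 ![w61, w10, w19, w180, w106, w13] :=
  split24 (m := w107) (by decide +kernel) ch1469 tp1458
lemma tp1460 : Good 0 ![w0, w10, w19, w180, w106, w13] :=
  split02 (m := w61) (by decide +kernel) tp1459 ch1492
lemma tp1461 : Good 0 ![w0, w10, w19, w163, w106, w13] :=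
  split03 (m := w180) (by decide +kernel) tp1437 tp1460
lemma tp1462 : Good 0 ![w0, w10, w19, w163, w14, w13] :=
  split04 (m := w106) (by decide +kernel) tp1367 tp1461
lemma tp1463 : Good 0 ![w0, w10, w19, w163, w14, w5] :=
  split05 (m := w13) (by decide +kernel) tp1318 tp1462
lemma tp1464 : Good 0 ![w75, w10, w72, w193, w118, w194] :=
  split12 (m := w76) (by decide +kernel) ch1500 ch1501
lemma tp1465 : Good 0 ![w71, w10, w72, w193, w118, w194] :=
  split01 (m := w75) (by decide +kernel) tp1464 ch1502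
lemma tp1466 : Good 0 ![w71, w10, w72, w193, w118, w70] :=
  split15 (m := w194) (by decide +kernel) ch1499 tp1465
lemma tp1467 : Good 0 ![w71, w10, w72, w192, w118, w70] :=
  split13 (m := w193) (by decide +kernel) ch1498 tp1466
lemma tp1468 : Good 0 ![w73, w28, w19, w195, w119, w74] :=
  split12 (m := w33) (by decide +kernel) ch1507 ch1508
lemma tp1469 : Good 0 ![w73, w28, w19, w195, w119, w72] :=
  split25 (m := w74) (by decide +kernel) ch1506 tp1468
lemma tp1470 : Good 0 ![w71, w28, w19, w195, w119, w72] :=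
  split02 (m := w73) (by decide +kernel) tp1469 ch1509
lemma tp1471 : Good 0 ![w71, w28, w19, w193, w119, w72] :=
  split23 (m := w195) (by decide +kernel) ch1505 tp1470
lemma tp1472 : Good 0 ![w71, w28, w19, w193, w118, w72] :=
  split24 (m := w119) (by decide +kernel) ch1504 tp1471
lemma tp1473 : Good 0 ![w75, w40, w28, w196, w120, w76] :=
  split24 (m := w126) (by decide +kernel) ch1513 ch1514
lemma tp1474 : Good 0 ![w75, w10, w28, w196, w120, w76] :=
  split12 (m := w40) (by decide +kernel) tp1473 ch1515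
lemma tp1475 : Good 0 ![w75, w10, w28, w193, w120, w76] :=
  split13 (m := w196) (by decide +kernel) ch1512 tp1474
lemma tp1476 : Good 0 ![w75, w10, w28, w193, w118, w76] :=
  split14 (m := w120) (by decide +kernel) ch1511 tp1475
lemma tp1477 : Good 0 ![w75, w10, w28, w193, w118, w72] :=
  split15 (m := w76) (by decide +kernel) ch1510 tp1476
lemma tp1478 : Good 0 ![w71, w10, w28, w193, w118, w72] :=
  split01 (m := w75) (by decide +kernel) tp1477 ch1516
lemma tp1479 : Good 0 ![w71, w10, w19, w193, w118, w72] :=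
  split12 (m := w28) (by decide +kernel) tp1472 tp1478
lemma tp1480 : Good 0 ![w71, w10, w19, w192, w118, w72] :=
  split13 (m := w193) (by decide +kernel) ch1503 tp1479
lemma tp1481 : Good 0 ![w71, w10, w19, w192, w118, w70] :=
  split25 (m := w72) (by decide +kernel) tp1467 tp1480
lemma tp1482 : Good 0 ![w69, w10, w19, w192, w118, w70] :=
  split02 (m := w71) (by decide +kernel) tp1481 ch1517
lemma tp1483 : Good 0 ![w69, w10, w19, w192, w117, w70] :=
  split14 (m := w118) (by decide +kernel) ch1497 tp1482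
lemma tp1484 : Good 0 ![w69, w10, w19, w191, w117, w70] :=
  split13 (m := w192) (by decide +kernel) ch1496 tp1483
lemma tp1485 : Good 0 ![w69, w10, w19, w191, w117, w68] :=
  split15 (m := w70) (by decide +kernel) ch1495 tp1484
lemma tp1486 : Good 0 ![w15, w10, w19, w191, w117, w68] :=
  split01 (m := w69) (by decide +kernel) tp1485 ch1518
lemma tp1487 : Good 0 ![w15, w10, w19, w191, w16, w68] :=
  split14 (m := w117) (by decide +kernel) ch1494 tp1486
lemma tp1488 : Good 0 ![w15, w10, w19, w191, w16, w7] :=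
  split15 (m := w68) (by decide +kernel) ch1493 tp1487
lemma tp1489 : Good 0 ![w124, w28, w19, w195, w119, w79] :=
  split12 (m := w33) (by decide +kernel) ch1528 ch1529
lemma tp1490 : Good 0 ![w123, w28, w19, w195, w119, w79] :=
  split02 (m := w124) (by decide +kernel) tp1489 ch1530
lemma tp1491 : Good 0 ![w123, w28, w19, w195, w119, w78] :=
  split25 (m := w79) (by decide +kernel) ch1527 tp1490
lemma tp1492 : Good 0 ![w123, w28, w19, w193, w119, w78] :=
  split23 (m := w195) (by decide +kernel) ch1526 tp1491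
lemma tp1493 : Good 0 ![w123, w28, w19, w193, w118, w78] :=
  split24 (m := w119) (by decide +kernel) ch1525 tp1492
lemma tp1494 : Good 0 ![w125, w196, w28, w197, w120, w80] :=
  split24 (m := w126) (by decide +kernel) ch1534 ch1535
lemma tp1495 : Good 0 ![w125, w196, w28, w193, w120, w80] :=
  split23 (m := w197) (by decide +kernel) ch1533 tp1494
lemma tp1496 : Good 0 ![w125, w40, w28, w196, w126, w80] :=
  split23 (m := w198) (by decide +kernel) ch1537 ch1538
lemma tp1497 : Good 0 ![w125, w40, w28, w196, w120, w80] :=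
  split24 (m := w126) (by decide +kernel) ch1536 tp1496
lemma tp1498 : Good 0 ![w125, w10, w28, w196, w120, w80] :=
  split12 (m := w40) (by decide +kernel) tp1497 ch1539
lemma tp1499 : Good 0 ![w125, w10, w28, w193, w120, w80] :=
  split13 (m := w196) (by decide +kernel) tp1495 tp1498
lemma tp1500 : Good 0 ![w123, w10, w28, w193, w120, w80] :=
  split01 (m := w125) (by decide +kernel) tp1499 ch1540
lemma tp1501 : Good 0 ![w123, w10, w28, w193, w120, w78] :=
  split15 (m := w80) (by decide +kernel) ch1532 tp1500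
lemma tp1502 : Good 0 ![w123, w10, w28, w193, w118, w78] :=
  split14 (m := w120) (by decide +kernel) ch1531 tp1501
lemma tp1503 : Good 0 ![w123, w10, w19, w193, w118, w78] :=
  split12 (m := w28) (by decide +kernel) tp1493 tp1502
lemma tp1504 : Good 0 ![w123, w10, w19, w192, w118, w78] :=
  split13 (m := w193) (by decide +kernel) ch1524 tp1503
lemma tp1505 : Good 0 ![w122, w10, w19, w192, w118, w78] :=
  split01 (m := w123) (by decide +kernel) tp1504 ch1541
lemma tp1506 : Good 0 ![w122, w10, w19, w192, w118, w77] :=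
  split15 (m := w78) (by decide +kernel) ch1523 tp1505
lemma tp1507 : Good 0 ![w122, w10, w19, w192, w117, w77] :=
  split14 (m := w118) (by decide +kernel) ch1522 tp1506
lemma tp1508 : Good 0 ![w121, w10, w19, w192, w117, w77] :=
  split02 (m := w122) (by decide +kernel) tp1507 ch1542
lemma tp1509 : Good 0 ![w121, w10, w19, w191, w117, w77] :=
  split13 (m := w192) (by decide +kernel) ch1521 tp1508
lemma tp1510 : Good 0 ![w121, w10, w19, w191, w117, w15] :=
  split25 (m := w77) (by decide +kernel) ch1520 tp1509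
lemma tp1511 : Good 0 ![w121, w10, w19, w191, w16, w15] :=
  split14 (m := w117) (by decide +kernel) ch1519 tp1510
lemma tp1512 : Good 0 ![w204, w28, w19, w219, w123, w79] :=
  split24 (m := w124) (by decide +kernel) ch1550 ch1551
lemma tp1513 : Good 0 ![w201, w28, w19, w219, w123, w79] :=
  split02 (m := w204) (by decide +kernel) tp1512 ch1552
lemma tp1514 : Good 0 ![w201, w28, w19, w219, w123, w78] :=
  split25 (m := w79) (by decide +kernel) ch1549 tp1513
lemma tp1515 : Good 0 ![w205, w10, w28, w220, w125, w80] :=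
  split01 (m := w207) (by decide +kernel) ch1556 ch1557
lemma tp1516 : Good 0 ![w205, w10, w28, w220, w123, w80] :=
  split14 (m := w125) (by decide +kernel) ch1555 tp1515
lemma tp1517 : Good 0 ![w205, w10, w28, w220, w123, w78] :=
  split15 (m := w80) (by decide +kernel) ch1554 tp1516
lemma tp1518 : Good 0 ![w205, w10, w28, w219, w123, w78] :=
  split13 (m := w220) (by decide +kernel) ch1553 tp1517
lemma tp1519 : Good 0 ![w201, w10, w28, w219, w123, w78] :=
  split01 (m := w205) (by decide +kernel) tp1518 ch1558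
lemma tp1520 : Good 0 ![w201, w10, w19, w219, w123, w78] :=
  split12 (m := w28) (by decide +kernel) tp1514 tp1519
lemma tp1521 : Good 0 ![w201, w10, w19, w218, w123, w78] :=
  split23 (m := w219) (by decide +kernel) ch1548 tp1520
lemma tp1522 : Good 0 ![w201, w10, w19, w218, w122, w78] :=
  split14 (m := w123) (by decide +kernel) ch1547 tp1521
lemma tp1523 : Good 0 ![w201, w10, w19, w218, w122, w77] :=
  split15 (m := w78) (by decide +kernel) ch1546 tp1522
lemma tp1524 : Good 0 ![w201, w10, w19, w217, w122, w77] :=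
  split13 (m := w218) (by decide +kernel) ch1545 tp1523
lemma tp1525 : Good 0 ![w199, w10, w19, w217, w122, w77] :=
  split02 (m := w201) (by decide +kernel) tp1524 ch1559
lemma tp1526 : Good 0 ![w199, w10, w19, w217, w121, w77] :=
  split24 (m := w122) (by decide +kernel) ch1544 tp1525
lemma tp1527 : Good 0 ![w205, w10, w220, w193, w221, w78] :=
  split15 (m := w80) (by decide +kernel) ch1566 ch1567
lemma tp1528 : Good 0 ![w205, w10, w219, w193, w221, w78] :=
  split12 (m := w220) (by decide +kernel) ch1565 tp1527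
lemma tp1529 : Good 0 ![w205, w10, w219, w193, w218, w78] :=
  split14 (m := w221) (by decide +kernel) ch1564 tp1528
lemma tp1530 : Good 0 ![w201, w10, w219, w193, w218, w78] :=
  split01 (m := w205) (by decide +kernel) tp1529 ch1568
lemma tp1531 : Good 0 ![w209, w28, w19, w195, w219, w79] :=
  split12 (m := w33) (by decide +kernel) ch1571 ch1572
lemma tp1532 : Good 0 ![w205, w28, w19, w195, w219, w79] :=
  split02 (m := w209) (by decide +kernel) tp1531 ch1573
lemma tp1533 : Good 0 ![w205, w28, w19, w195, w219, w78] :=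
  split25 (m := w79) (by decide +kernel) ch1570 tp1532
lemma tp1534 : Good 0 ![w205, w28, w19, w193, w219, w78] :=
  split23 (m := w195) (by decide +kernel) ch1569 tp1533
lemma tp1535 : Good 0 ![w207, w40, w198, w196, w220, w80] :=
  split15 (m := w210) (by decide +kernel) ch1577 ch1578
lemma tp1536 : Good 0 ![w207, w40, w28, w196, w220, w80] :=
  split23 (m := w198) (by decide +kernel) tp1535 ch1579
lemma tp1537 : Good 0 ![w207, w10, w28, w196, w220, w80] :=
  split12 (m := w40) (by decide +kernel) tp1536 ch1580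
lemma tp1538 : Good 0 ![w207, w10, w28, w193, w220, w80] :=
  split13 (m := w196) (by decide +kernel) ch1576 tp1537
lemma tp1539 : Good 0 ![w205, w10, w28, w193, w220, w80] :=
  split01 (m := w207) (by decide +kernel) tp1538 ch1581
lemma tp1540 : Good 0 ![w205, w10, w28, w193, w220, w78] :=
  split15 (m := w80) (by decide +kernel) ch1575 tp1539
lemma tp1541 : Good 0 ![w205, w10, w28, w193, w219, w78] :=
  split14 (m := w220) (by decide +kernel) ch1574 tp1540
lemma tp1542 : Good 0 ![w205, w10, w19, w193, w219, w78] :=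
  split12 (m := w28) (by decide +kernel) tp1534 tp1541
lemma tp1543 : Good 0 ![w201, w10, w19, w193, w219, w78] :=
  split01 (m := w205) (by decide +kernel) tp1542 ch1582
lemma tp1544 : Good 0 ![w201, w10, w19, w193, w218, w78] :=
  split24 (m := w219) (by decide +kernel) tp1530 tp1543
lemma tp1545 : Good 0 ![w201, w10, w19, w192, w218, w78] :=
  split13 (m := w193) (by decide +kernel) ch1563 tp1544
lemma tp1546 : Good 0 ![w201, w10, w19, w192, w218, w77] :=
  split15 (m := w78) (by decide +kernel) ch1562 tp1545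
lemma tp1547 : Good 0 ![w201, w10, w19, w192, w217, w77] :=
  split14 (m := w218) (by decide +kernel) ch1561 tp1546
lemma tp1548 : Good 0 ![w199, w10, w19, w192, w217, w77] :=
  split02 (m := w201) (by decide +kernel) tp1547 ch1583
lemma tp1549 : Good 0 ![w199, w10, w19, w191, w217, w77] :=
  split13 (m := w192) (by decide +kernel) ch1560 tp1548
lemma tp1550 : Good 0 ![w199, w10, w19, w191, w121, w77] :=
  split34 (m := w217) (by decide +kernel) tp1526 tp1549
lemma tp1551 : Good 0 ![w199, w10, w19, w191, w121, w15] :=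
  split25 (m := w77) (by decide +kernel) ch1543 tp1550
lemma tp1552 : Good 0 ![w64, w28, w19, w204, w124, w79] :=
  split12 (m := w33) (by decide +kernel) ch1592 ch1593
lemma tp1553 : Good 0 ![w62, w28, w19, w204, w124, w79] :=
  split02 (m := w64) (by decide +kernel) tp1552 ch1594
lemma tp1554 : Good 0 ![w62, w28, w19, w204, w123, w79] :=
  split24 (m := w124) (by decide +kernel) ch1591 tp1553
lemma tp1555 : Good 0 ![w62, w28, w19, w201, w123, w79] :=
  split23 (m := w204) (by decide +kernel) ch1590 tp1554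
lemma tp1556 : Good 0 ![w62, w28, w19, w201, w123, w78] :=
  split25 (m := w79) (by decide +kernel) ch1589 tp1555
lemma tp1557 : Good 0 ![w66, w10, w28, w207, w125, w80] :=
  split01 (m := w67) (by decide +kernel) ch1599 ch1600
lemma tp1558 : Good 0 ![w66, w10, w28, w205, w125, w80] :=
  split13 (m := w207) (by decide +kernel) ch1598 tp1557
lemma tp1559 : Good 0 ![w66, w10, w28, w205, w123, w80] :=
  split14 (m := w125) (by decide +kernel) ch1597 tp1558
lemma tp1560 : Good 0 ![w66, w10, w28, w205, w123, w78] :=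
  split15 (m := w80) (by decide +kernel) ch1596 tp1559
lemma tp1561 : Good 0 ![w62, w10, w28, w205, w123, w78] :=
  split01 (m := w66) (by decide +kernel) tp1560 ch1601
lemma tp1562 : Good 0 ![w62, w10, w28, w201, w123, w78] :=
  split13 (m := w205) (by decide +kernel) ch1595 tp1561
lemma tp1563 : Good 0 ![w62, w10, w19, w201, w123, w78] :=
  split12 (m := w28) (by decide +kernel) tp1556 tp1562
lemma tp1564 : Good 0 ![w62, w10, w19, w201, w122, w78] :=
  split14 (m := w123) (by decide +kernel) ch1588 tp1563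
lemma tp1565 : Good 0 ![w62, w10, w19, w201, w122, w77] :=
  split15 (m := w78) (by decide +kernel) ch1587 tp1564
lemma tp1566 : Good 0 ![w61, w10, w19, w201, w122, w77] :=
  split02 (m := w62) (by decide +kernel) tp1565 ch1602
lemma tp1567 : Good 0 ![w61, w10, w19, w199, w122, w77] :=
  split23 (m := w201) (by decide +kernel) ch1586 tp1566
lemma tp1568 : Good 0 ![w61, w10, w19, w199, w121, w77] :=
  split24 (m := w122) (by decide +kernel) ch1585 tp1567
lemma tp1569 : Good 0 ![w61, w10, w19, w199, w121, w15] :=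
  split25 (m := w77) (by decide +kernel) ch1584 tp1568
lemma tp1570 : Good 0 ![w0, w10, w19, w199, w121, w15] :=
  split02 (m := w61) (by decide +kernel) tp1569 ch1603
lemma tp1571 : Good 0 ![w0, w10, w19, w191, w121, w15] :=
  split03 (m := w199) (by decide +kernel) tp1551 tp1570
lemma tp1572 : Good 0 ![w0, w10, w19, w191, w16, w15] :=
  split04 (m := w121) (by decide +kernel) tp1511 tp1571
lemma tp1573 : Good 0 ![w0, w10, w19, w191, w16, w7] :=
  split05 (m := w15) (by decide +kernel) tp1488 tp1572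

end Pool.Agent.H999.Theta3
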